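import Pool.Agent.Lib.MP_c11b14_lc.OP.C0

set_option autoImplicit false

/-! Task H1: the lower area inequality. -/

namespace Pool.Agent.MP_c11b14_lc.OP

open MeasureTheory
open scoped ENNReal

/-- H1. PROOF. Every `t ∈ U` has an open interval in `U` on which `g'` has constant sign, so `g` is injective on it. Countably many of them cover `U` (Lindelöf, `TopologicalSpace.countable_cover_nhdsWithin`
or `isOpen_iUnion_countable`); make them disjoint (`disjointed`): measurable `s n` with union `U`, `g` injective on `s n`. `lintegral_image_eq_lintegral_abs_deriv_mul`: `∫⁻_{s n} |g'| w(g) = ∫⁻_{g '' s n} w`;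
`∑' n, 1_{g '' s n}(y) ≤ count {t ∈ U | g t = y} ≤ H y` (the `s n` are disjoint). -/
theorem coarea_ge {g g' : ℝ → ℝ} {U : Set ℝ} (hU : IsOpen U) (hd : ∀ t ∈ U, HasDerivAt g (g' t) t)
    (hc : ContinuousOn g' U) (h0 : ∀ t ∈ U, g' t ≠ 0) {w H : ℝ → ℝ≥0∞} (hw : Measurable w)
    (hH : Measurable H) (h : ∀ᵐ y, Measure.count {t | t ∈ U ∧ g t = y} ≤ H y) :
    ∫⁻ t in U, ENNReal.ofReal |g' t| * w (g t) ≤ ∫⁻ y, w y * H y := by
  classical
  -- the intervals
  set r : ℚ × ℚ → Set ℝ := fun q =>
    if Set.Ioo (q.1 : ℝ) (q.2 : ℝ) ⊆ U then Set.Ioo (q.1 : ℝ) (q.2 : ℝ) else ∅ with hr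
  set v : ℕ → Set ℝ := fun n => r ((Denumerable.eqv (ℚ × ℚ)).symm n) with hv
  have hvm : ∀ n, MeasurableSet (v n) := by
    intro n
    simp only [hv, hr]
    split_ifs
    · exact measurableSet_Ioo
    · exact MeasurableSet.empty
  have hvU : ⋃ n, v n = U := by
    apply Set.Subset.antisymm
    · refine Set.iUnion_subset fun n => ?_
      simp only [hv, hr]
      split_ifs with h1
      · exact h1
      · exact Set.empty_subset _
    · intro t ht
      obtain ⟨l, u, htlu, hlu⟩ := mem_nhds_iff_exists_Ioo_subset.1 (hU.mem_nhds ht)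
      obtain ⟨a, ha1, ha2⟩ := exists_rat_btwn htlu.1
      obtain ⟨b, hb1, hb2⟩ := exists_rat_btwn htlu.2
      refine Set.mem_iUnion.2 ⟨(Denumerable.eqv (ℚ × ℚ)) (a, b), ?_⟩
      have hsub : Set.Ioo (a : ℝ) (b : ℝ) ⊆ U :=
        (Set.Ioo_subset_Ioo ha1.le hb2.le).trans hlu
      simp only [hv, hr, Equiv.symm_apply_apply]
      rw [if_pos hsub]
      exact ⟨ha2, hb1⟩
  have hvi : ∀ n, Set.InjOn g (v n) := by
    intro n
    simp only [hv, hr]
    split_ifs with h1
    · set a : ℝ := (((Denumerable.eqv (ℚ × ℚ)).symm n).1 : ℝ)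
      set b : ℝ := (((Denumerable.eqv (ℚ × ℚ)).symm n).2 : ℝ)
      have key : ∀ x ∈ Set.Ioo a b, ∀ y ∈ Set.Ioo a b, x < y → g x ≠ g y := by
        intro x hx y hy hxy hg
        have hsub : Set.Icc x y ⊆ U := fun z hz => h1 ⟨hx.1.trans_le hz.1, hz.2.trans_lt hy.2⟩
        obtain ⟨c, hc1, hc2⟩ := exists_hasDerivAt_eq_zero (f := g) (f' := g') hxy
          (fun z hz => (hd z (hsub hz)).continuousAt.continuousWithinAt) hg
          (fun z hz => hd z (hsub ⟨hz.1.le, hz.2.le⟩))
        exact h0 c (hsub ⟨hc1.1.le, hc1.2.le⟩) hc2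
      intro x hx y hy hxy
      rcases lt_trichotomy x y with h2 | h2 | h2
      · exact absurd hxy (key x hx y hy h2)
      · exact h2
      · exact absurd hxy.symm (key y hy x hx h2)
    · exact Set.injOn_empty _
  -- disjoint pieces
  set s : ℕ → Set ℝ := disjointed v with hs
  have hsm : ∀ n, MeasurableSet (s n) := fun n => MeasurableSet.disjointed hvm n
  have hsU : ⋃ n, s n = U := by rw [hs, iUnion_disjointed, hvU]
  have hsd : Pairwise (Function.onFun Disjoint s) := disjoint_disjointed v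
  have hsv : ∀ n, s n ⊆ v n := fun n => disjointed_subset v n
  have hsi : ∀ n, Set.InjOn g (s n) := fun n => (hvi n).mono (hsv n)
  have hsub : ∀ n, s n ⊆ U := fun n => by rw [← hsU]; exact Set.subset_iUnion s n
  have hgm : ∀ n, MeasurableSet (g '' s n) := by
    intro n
    exact (hsm n).image_of_continuousOn_injOn
      (fun z hz => (hd z (hsub n hz)).continuousAt.continuousWithinAt) (hsi n)
  have hint : ∀ n, ∫⁻ t in s n, ENNReal.ofReal |g' t| * w (g t)
      = ∫⁻ y, (g '' s n).indicator w y := by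
    intro n
    rw [lintegral_indicator (hgm n), lintegral_image_eq_lintegral_abs_deriv_mul (hsm n)
      (fun x hx => (hd x (hsub n hx)).hasDerivWithinAt) (hsi n)]
  have hU' : ∫⁻ t in U, ENNReal.ofReal |g' t| * w (g t)
      = ∑' n, ∫⁻ t in s n, ENNReal.ofReal |g' t| * w (g t) := by
    rw [← lintegral_iUnion hsm hsd, hsU]
  rw [hU']
  simp_rw [hint]
  rw [← lintegral_tsum fun n => (hw.indicator (hgm n)).aemeasurable]
  refine lintegral_mono_ae ?_
  filter_upwards [h] with y hy
  -- pointwise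
  have hcount : ∑' n, (g '' s n).indicator (1 : ℝ → ℝ≥0∞) y ≤ Measure.count {t | t ∈ U ∧ g t = y} := by
    have hfib : {t | t ∈ U ∧ g t = y} = ⋃ n, {t | t ∈ s n ∧ g t = y} := by
      ext t
      simp only [Set.mem_ofPred_eq, Set.mem_iUnion]
      constructor
      · rintro ⟨h1, h2⟩
        rw [← hsU] at h1
        obtain ⟨n, hn⟩ := Set.mem_iUnion.1 h1
        exact ⟨n, hn, h2⟩
      · rintro ⟨n, hn, h2⟩
        exact ⟨hsub n hn, h2⟩
    rw [hfib, measure_iUnion]
    · refine ENNReal.tsum_le_tsum fun n => ?_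
      by_cases hy' : y ∈ g '' s n
      · rw [Set.indicator_of_mem hy']
        obtain ⟨t, ht, hty⟩ := hy'
        have hsub1 : ({t} : Set ℝ) ⊆ {t | t ∈ s n ∧ g t = y} := by
          intro z hz
          rw [Set.mem_singleton_iff.1 hz]
          exact ⟨ht, hty⟩
        calc (1 : ℝ → ℝ≥0∞) y = 1 := rfl
          _ = Measure.count ({t} : Set ℝ) := (Measure.count_singleton t).symm
          _ ≤ _ := measure_mono hsub1
      · rw [Set.indicator_of_notMem hy']
        exact bot_le
    · intro i j hij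
      exact (hsd hij).mono (fun t ht => ht.1) (fun t ht => ht.1)
    · intro n
      refine Set.Subsingleton.measurableSet ?_
      intro a ha b hb
      exact hsi n ha.1 hb.1 (ha.2.trans hb.2.symm)
  calc ∑' n, (g '' s n).indicator w y
      = ∑' n, w y * (g '' s n).indicator (1 : ℝ → ℝ≥0∞) y := by
        refine tsum_congr fun n => ?_
        by_cases hy' : y ∈ g '' s n
        · rw [Set.indicator_of_mem hy', Set.indicator_of_mem hy', Pi.one_apply, mul_one]
        · rw [Set.indicator_of_notMem hy', Set.indicator_of_notMem hy', mul_zero]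
    _ = w y * ∑' n, (g '' s n).indicator (1 : ℝ → ℝ≥0∞) y := ENNReal.tsum_mul_left
    _ ≤ w y * H y := by gcongr; exact hcount.trans hy

end Pool.Agent.MP_c11b14_lc.OP
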