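import Pool.Agent.Lib.MP_c11b14_lc.OP.G2
import Pool.Agent.Lib.MP_c11b14_lc.OP.H1

set_option autoImplicit false

/-! Task H2: all scales, and the length of the curve `[∏ f : ∏ g]` in the projective line. -/

namespace Pool.Agent.MP_c11b14_lc.OP

open Polynomial MeasureTheory
open scoped ENNReal

/-- the scales -/
noncomputable def H2a (i : Bool × Bool × ℕ) : ℝ :=
  (if i.1 then 1 else -1) * (if i.2.1 then 2 ^ i.2.2 else (2 ^ i.2.2)⁻¹)

theorem H2a_abs (i : Bool × Bool × ℕ) : |H2a i| = if i.2.1 then 2 ^ i.2.2 else (2 ^ i.2.2)⁻¹ := by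
  obtain ⟨s, t, n⟩ := i
  have h : (0 : ℝ) < 2 ^ n := by positivity
  cases s <;> cases t <;> simp [H2a, abs_inv, abs_of_pos h]

theorem H2a_ne (i : Bool × Bool × ℕ) : H2a i ≠ 0 := by
  rw [← abs_pos, H2a_abs]
  split_ifs <;> positivity

theorem H2a_le (i : Bool × Bool × ℕ) : |H2a i| / (1 + H2a i ^ 2) ≤ (1 / 2) ^ i.2.2 := by
  rw [← sq_abs, H2a_abs]
  obtain ⟨s, t, n⟩ := i
  have h : (0 : ℝ) < 2 ^ n := by positivity
  rw [div_le_iff₀ (by positivity), one_div, inv_pow]
  cases t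
  · simp only [Bool.false_eq_true, if_false]
    have h2 : (0 : ℝ) ≤ (2 ^ n)⁻¹ := by positivity
    nlinarith [sq_nonneg ((2 : ℝ) ^ n)⁻¹]
  · simp only [if_true]
    rw [inv_mul_eq_div, le_div_iff₀ h]
    nlinarith

theorem H2a_sum : ∑' i : Bool × Bool × ℕ, ENNReal.ofReal (|H2a i| / (1 + H2a i ^ 2)) ≤
    ENNReal.ofReal 8 := by
  have h1 : ∑' n : ℕ, ENNReal.ofReal ((1 / 2 : ℝ) ^ n) = ENNReal.ofReal 2 := by
    rw [← ENNReal.ofReal_tsum_of_nonneg (fun n => by positivity) summable_geometric_two,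
      tsum_geometric_two]
  calc ∑' i : Bool × Bool × ℕ, ENNReal.ofReal (|H2a i| / (1 + H2a i ^ 2))
      ≤ ∑' i : Bool × Bool × ℕ, ENNReal.ofReal ((1 / 2 : ℝ) ^ i.2.2) :=
        ENNReal.tsum_le_tsum fun i => ENNReal.ofReal_le_ofReal (H2a_le i)
    _ = ∑' s : Bool, ∑' t : Bool, ∑' n : ℕ, ENNReal.ofReal ((1 / 2 : ℝ) ^ n) := by
        rw [ENNReal.tsum_prod']
        refine tsum_congr fun s => ?_
        rw [ENNReal.tsum_prod']
    _ = ENNReal.ofReal 8 := by
        rw [h1]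
        simp only [tsum_fintype, Fintype.sum_bool]
        rw [← ENNReal.ofReal_add (by norm_num) (by norm_num),
          ← ENNReal.ofReal_add (by norm_num) (by norm_num)]
        norm_num

theorem H2a_cover {y : ℝ} (hy : y ≠ 0) : ∃ i, y * (H2a i)⁻¹ ∈ Set.Icc (1 : ℝ) 2 := by
  obtain ⟨j, hj1, hj2⟩ := exists_mem_Ico_zpow (abs_pos.2 hy) (one_lt_two : (1 : ℝ) < 2)
  have h0 : (0 : ℝ) < 2 ^ j := by positivity
  have hj2' : |y| < 2 ^ j * 2 := by rwa [zpow_add_one₀ (by norm_num)] at hj2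
  obtain ⟨s, hs⟩ : ∃ s : Bool, y = (if s then 1 else -1) * |y| := by
    rcases le_or_gt 0 y with h | h
    · exact ⟨true, by simp [abs_of_nonneg h]⟩
    · exact ⟨false, by simp [abs_of_neg h]⟩
  obtain ⟨t, n, htn⟩ : ∃ (t : Bool) (n : ℕ), ((2 : ℝ) ^ j) = if t then 2 ^ n else (2 ^ n)⁻¹ := by
    obtain ⟨n, rfl | rfl⟩ := j.eq_nat_or_neg
    · exact ⟨true, n, by simp⟩
    · exact ⟨false, n, by simp⟩
  refine ⟨(s, t, n), ?_⟩
  have h1 : y * (H2a (s, t, n))⁻¹ = |y| / 2 ^ j := by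
    have hσ : (if s = true then (1 : ℝ) else -1) ≠ 0 := by cases s <;> simp
    have h3 : H2a (s, t, n) = (if s = true then (1 : ℝ) else -1) * 2 ^ j := by
      rw [htn]
      rfl
    rw [h3]
    nth_rewrite 1 [hs]
    rw [← div_eq_mul_inv, mul_div_mul_left _ _ hσ]
  rw [h1, Set.mem_Icc, le_div_iff₀ h0, div_le_iff₀ h0]
  constructor
  · linarith
  · linarith

theorem H2_qmp {a : ℝ} (ha : a ≠ 0) : Measure.map (fun y : ℝ => y * a⁻¹) volume =
    ENNReal.ofReal |a| • volume := by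
  have := Real.map_volume_mul_right (inv_ne_zero ha)
  rwa [inv_inv] at this

/-- H2a. PROOF. For `a = ± 2^j`, `j : ℤ`, apply `one_parameter` to `f` and `Fin.cons (C a) g` (one more monomial, `T + 1`): `N(a λ)` has a majorant `H_a` on `[1,2]`, where `N y` is the number of roots of
`∏ f + y ∏ g`. Put `H y = ∑'_a 1[y ∈ a[1,2]] H_a(y/a)` (`a[1,2]` also for `a < 0`); `∫ H/(1+y²) ≤ ∑_a |a|/(1+a²) B`, `B = ofReal (c (T+1) log(2 + d/(T+1)))`, `|a|/(1+a²) ≤ 2^{-|j|}`, sum `≤ 6`;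
`T + 1 ≤ 2T`. -/
theorem all_scales : ∃ c : ℝ, 0 < c ∧ ∀ (m n : ℕ) (f : Fin m → ℝ[X]) (g : Fin n → ℝ[X]) (T d : ℕ),
    (∀ i, f i ≠ 0) → (∀ j, g j ≠ 0) → ∑ i, (f i).support.card + ∑ j, (g j).support.card = T → 1 ≤ T →
    (∏ i, f i).natDegree ≤ d → (∏ j, g j).natDegree ≤ d →
    ∃ H : ℝ → ℝ≥0∞, Measurable H ∧
      (∀ᵐ y : ℝ, ((((∏ i, f i) + C y * ∏ j, g j).roots.toFinset.card : ℕ) : ℝ≥0∞) ≤ H y) ∧
      ∫⁻ y : ℝ, ENNReal.ofReal (1 / (1 + y ^ 2)) * H y ≤
        ENNReal.ofReal (c * T * Real.log (2 + (d : ℝ) / T)) := by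
  obtain ⟨c, hc, h1p⟩ := one_parameter
  refine ⟨16 * c, by positivity, ?_⟩
  intro m n f g T d hf hg hT hT1 hdf hdg
  have hT' : (1 : ℝ) ≤ T := by exact_mod_cast hT1
  set N : ℝ → ℝ≥0∞ := fun y => ((((∏ i, f i) + C y * ∏ j, g j).roots.toFinset.card : ℕ) : ℝ≥0∞)
    with hN
  set B : ℝ := c * (T + 1 : ℕ) * Real.log (2 + (d : ℝ) / (T + 1 : ℕ)) with hB
  -- one scale
  have hscale : ∀ i : Bool × Bool × ℕ, ∃ H : ℝ → ℝ≥0∞, Measurable H ∧
      (∀ᵐ lm ∂(volume.restrict (Set.Icc (1 : ℝ) 2)), N (H2a i * lm) ≤ H lm) ∧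
      ∫⁻ lm in Set.Icc (1 : ℝ) 2, H lm ≤ ENNReal.ofReal B := by
    intro i
    have hne := H2a_ne i
    have h1 := h1p m (n + 1) f (Fin.cons (C (H2a i)) g) (T + 1) d hf ?_ ?_ (by omega) hdf ?_
    · obtain ⟨H, hH1, hH2, hH3⟩ := h1
      refine ⟨H, hH1, ?_, hH3⟩
      filter_upwards [hH2] with lm hlm
      refine le_trans (le_of_eq ?_) hlm
      simp only [hN]
      rw [Fin.prod_cons, ← mul_assoc, ← C_mul, mul_comm lm]
    · intro j
      refine Fin.cases ?_ (fun j => ?_) j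
      · rw [Fin.cons_zero]
        exact C_ne_zero.2 hne
      · rw [Fin.cons_succ]
        exact hg j
    · rw [Fin.sum_univ_succ]
      simp only [Fin.cons_zero, Fin.cons_succ]
      rw [Polynomial.support_C hne, Finset.card_singleton]
      omega
    · rw [Fin.prod_cons]
      exact (Polynomial.natDegree_C_mul_le _ _).trans hdg
  choose H hHm hHa hHi using hscale
  refine ⟨fun y => ∑' i, (Set.Icc (1 : ℝ) 2).indicator (H i) (y * (H2a i)⁻¹), ?_, ?_, ?_⟩
  · refine Measurable.ennreal_tsum fun i => ?_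
    exact ((hHm i).indicator measurableSet_Icc).comp (measurable_mul_const _)
  · have h2 : ∀ᵐ y : ℝ, ∀ i, y * (H2a i)⁻¹ ∈ Set.Icc (1 : ℝ) 2 →
        N (H2a i * (y * (H2a i)⁻¹)) ≤ H i (y * (H2a i)⁻¹) := by
      rw [ae_all_iff]
      intro i
      have h3 := (ae_restrict_iff' measurableSet_Icc).1 (hHa i)
      have h4 : Measure.QuasiMeasurePreserving (fun y : ℝ => y * (H2a i)⁻¹) volume volume :=
        ⟨measurable_mul_const _, by
          rw [H2_qmp (H2a_ne i)]
          exact Measure.smul_absolutelyContinuous⟩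
      exact h4.ae h3
    have h0 : ∀ᵐ y : ℝ, y ≠ 0 := (measure_eq_zero_iff_ae_notMem.1 (Real.volume_singleton (a := 0))).mono
      fun y hy => by simpa using hy
    filter_upwards [h2, h0] with y hy hy0
    obtain ⟨i, hi⟩ := H2a_cover hy0
    have h5 := hy i hi
    have h6 : H2a i * (y * (H2a i)⁻¹) = y := by
      have := H2a_ne i
      field_simp
    rw [h6] at h5
    refine h5.trans (le_trans (le_of_eq ?_) (ENNReal.le_tsum i))
    rw [Set.indicator_of_mem hi]
  · have h2 : ∀ i, ∫⁻ y : ℝ, ENNReal.ofReal (1 / (1 + y ^ 2)) *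
        (Set.Icc (1 : ℝ) 2).indicator (H i) (y * (H2a i)⁻¹) ≤
        ENNReal.ofReal (|H2a i| / (1 + H2a i ^ 2)) * ENNReal.ofReal B := by
      intro i
      have hne := H2a_ne i
      have h3 : ∀ y : ℝ, ENNReal.ofReal (1 / (1 + y ^ 2)) *
          (Set.Icc (1 : ℝ) 2).indicator (H i) (y * (H2a i)⁻¹) ≤
          ENNReal.ofReal (1 / (1 + H2a i ^ 2)) *
          (Set.Icc (1 : ℝ) 2).indicator (H i) (y * (H2a i)⁻¹) := by
        intro y
        by_cases hy : y * (H2a i)⁻¹ ∈ Set.Icc (1 : ℝ) 2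
        · refine mul_le_mul' (ENNReal.ofReal_le_ofReal
            (one_div_le_one_div_of_le (by positivity) ?_)) le_rfl
          have h4 : y ^ 2 = H2a i ^ 2 * (y * (H2a i)⁻¹) ^ 2 := by field_simp
          have h5 : (1 : ℝ) ≤ (y * (H2a i)⁻¹) ^ 2 := by
            have := hy.1
            nlinarith
          nlinarith [sq_nonneg (H2a i)]
        · rw [Set.indicator_of_notMem hy, mul_zero, mul_zero]
      calc _ ≤ ∫⁻ y : ℝ, ENNReal.ofReal (1 / (1 + H2a i ^ 2)) *
            (Set.Icc (1 : ℝ) 2).indicator (H i) (y * (H2a i)⁻¹) := lintegral_mono h3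
        _ = ENNReal.ofReal (1 / (1 + H2a i ^ 2)) *
            ∫⁻ y : ℝ, (Set.Icc (1 : ℝ) 2).indicator (H i) (y * (H2a i)⁻¹) :=
          lintegral_const_mul _ (((hHm i).indicator measurableSet_Icc).comp (measurable_mul_const _))
        _ = ENNReal.ofReal (1 / (1 + H2a i ^ 2)) *
            (ENNReal.ofReal |H2a i| * ∫⁻ lm in Set.Icc (1 : ℝ) 2, H i lm) := by
          congr 1
          rw [← lintegral_map ((hHm i).indicator measurableSet_Icc) (measurable_mul_const _),
            H2_qmp hne, lintegral_smul_measure, lintegral_indicator measurableSet_Icc, smul_eq_mul]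
        _ ≤ ENNReal.ofReal (1 / (1 + H2a i ^ 2)) * (ENNReal.ofReal |H2a i| * ENNReal.ofReal B) := by
          gcongr
          exact hHi i
        _ = _ := by
          rw [← mul_assoc, ← ENNReal.ofReal_mul (by positivity)]
          congr 2
          ring
    have h3 : ∫⁻ y : ℝ, ENNReal.ofReal (1 / (1 + y ^ 2)) *
        ∑' i, (Set.Icc (1 : ℝ) 2).indicator (H i) (y * (H2a i)⁻¹) =
        ∑' i, ∫⁻ y : ℝ, ENNReal.ofReal (1 / (1 + y ^ 2)) *
        (Set.Icc (1 : ℝ) 2).indicator (H i) (y * (H2a i)⁻¹) := by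
      rw [← lintegral_tsum fun i => ?_]
      · refine lintegral_congr fun y => ?_
        rw [ENNReal.tsum_mul_left]
      · exact (Measurable.mul (by fun_prop) (((hHm i).indicator measurableSet_Icc).comp
          (measurable_mul_const _))).aemeasurable
    rw [h3]
    have hBB : B ≤ 2 * c * T * Real.log (2 + (d : ℝ) / T) := by
      rw [hB]
      push_cast
      have h4 : Real.log (2 + (d : ℝ) / (T + 1)) ≤ Real.log (2 + (d : ℝ) / T) := by
        refine Real.log_le_log (by positivity) ?_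
        gcongr
        linarith
      have h5 : 0 ≤ Real.log (2 + (d : ℝ) / T) := Real.log_nonneg (by
        have : (0 : ℝ) ≤ (d : ℝ) / T := by positivity
        linarith)
      calc c * ((T : ℝ) + 1) * Real.log (2 + (d : ℝ) / (T + 1))
          ≤ c * ((T : ℝ) + 1) * Real.log (2 + (d : ℝ) / T) := by gcongr
        _ ≤ 2 * c * T * Real.log (2 + (d : ℝ) / T) := by
          refine mul_le_mul_of_nonneg_right ?_ h5
          nlinarith
    calc _ ≤ ∑' i, ENNReal.ofReal (|H2a i| / (1 + H2a i ^ 2)) * ENNReal.ofReal B :=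
          ENNReal.tsum_le_tsum h2
      _ = (∑' i, ENNReal.ofReal (|H2a i| / (1 + H2a i ^ 2))) * ENNReal.ofReal B :=
          ENNReal.tsum_mul_right
      _ ≤ ENNReal.ofReal 8 * ENNReal.ofReal (2 * c * T * Real.log (2 + (d : ℝ) / T)) :=
          mul_le_mul' H2a_sum (ENNReal.ofReal_le_ofReal hBB)
      _ = _ := by
          rw [← ENNReal.ofReal_mul (by norm_num)]
          congr 1
          ring

/-- The Wronskian. -/
noncomputable def wr (F G : ℝ[X]) : ℝ[X] := derivative F * G - F * derivative G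

theorem H2_pair {F G : ℝ[X]} (hG : G ≠ 0) (hw : wr F G ≠ 0) {H : ℝ → ℝ≥0∞} (hH : Measurable H)
    (h : ∀ᵐ y : ℝ, (((F + C y * G).roots.toFinset.card : ℕ) : ℝ≥0∞) ≤ H y) :
    ∫⁻ x : ℝ, ENNReal.ofReal (|(wr F G).eval x| / (F.eval x ^ 2 + G.eval x ^ 2)) ≤
      ∫⁻ y : ℝ, ENNReal.ofReal (1 / (1 + y ^ 2)) * H y := by
  classical
  set U : Set ℝ := {x | G.eval x ≠ 0 ∧ (wr F G).eval x ≠ 0} with hU
  have hUo : IsOpen U := by
    have h1 : U = {x | G.eval x ≠ 0} ∩ {x | (wr F G).eval x ≠ 0} := rfl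
    rw [h1]
    exact (isOpen_ne_fun G.continuous continuous_const).inter
      (isOpen_ne_fun (wr F G).continuous continuous_const)
  have hae : ∀ᵐ x : ℝ, x ∈ U := by
    have h1 : Uᶜ ⊆ ((G * wr F G).roots.toFinset : Set ℝ) := by
      intro x hx
      rw [Finset.mem_coe, Multiset.mem_toFinset, Polynomial.mem_roots (mul_ne_zero hG hw),
        Polynomial.IsRoot.def, Polynomial.eval_mul, mul_eq_zero]
      by_contra hcon
      push Not at hcon
      exact hx hcon
    have h2 : volume Uᶜ = 0 := measure_mono_null h1 ((Finset.finite_toSet _).measure_zero volume)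
    exact h2
  have hco := coarea_ge (g := fun x => -(F.eval x / G.eval x))
    (g' := fun x => -((wr F G).eval x / G.eval x ^ 2)) (U := U) hUo ?_ ?_ ?_
    (w := fun y => ENNReal.ofReal (1 / (1 + y ^ 2))) (H := H) (by fun_prop) hH ?_
  · refine le_trans (le_of_eq ?_) hco
    rw [Measure.restrict_eq_self_of_ae_mem hae]
    refine lintegral_congr_ae ?_
    filter_upwards [hae] with x hx
    rw [← ENNReal.ofReal_mul (abs_nonneg _)]
    congr 1
    have h1 := hx.1
    have h2 : 0 < G.eval x ^ 2 := by positivity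
    rw [abs_neg, abs_div, abs_of_pos h2]
    have h3 : 0 < F.eval x ^ 2 + G.eval x ^ 2 := by positivity
    have h4 : 1 + (-(F.eval x / G.eval x)) ^ 2 = (F.eval x ^ 2 + G.eval x ^ 2) / G.eval x ^ 2 := by
      field_simp
      ring
    rw [h4]
    field_simp
  · intro t ht
    have h1 := (F.hasDerivAt t).div (G.hasDerivAt t) ht.1
    refine h1.neg.congr_deriv ?_
    simp only [wr, eval_sub, eval_mul]
  · refine ContinuousOn.neg (ContinuousOn.div (wr F G).continuous.continuousOn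
      (G.continuous.continuousOn.pow 2) fun x hx => pow_ne_zero 2 hx.1)
  · intro t ht
    exact neg_ne_zero.2 (div_ne_zero ht.2 (pow_ne_zero 2 ht.1))
  · filter_upwards [h] with y hy
    refine le_trans ?_ hy
    refine count_le_of_finset fun s hs => ?_
    have hne : F + C y * G ≠ 0 := by
      intro h0
      apply hw
      have h1 : F = -(C y * G) := eq_neg_of_add_eq_zero_left h0
      rw [wr, h1]
      simp only [derivative_neg, derivative_mul, derivative_C, zero_mul, zero_add]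
      ring
    have h2 : s ⊆ (F + C y * G).roots.toFinset := by
      intro t ht
      obtain ⟨h3, h4⟩ := hs t ht
      rw [Multiset.mem_toFinset, Polynomial.mem_roots hne, Polynomial.IsRoot.def]
      simp only [eval_add, eval_mul, eval_C]
      rw [← h4]
      have := h3.1
      field_simp
      ring
    exact_mod_cast Finset.card_le_card h2

/-- H2b. PROOF. `T = 0`: `m = n = 0`, `F = G = 1`, `wr = 0`. `wr = 0`: trivial. Else `U = {x | G x ≠ 0 ∧ wr x ≠ 0}` is open with finite complement; `g = -F/G` on `U`, `g' = -wr/G²`; `coarea_ge` with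
`w y = ofReal (1/(1+y²))`: `|g'| w(g) = |wr|/(F²+G²)`; `{x ∈ U | g x = y}` are roots of `F + yG ≠ 0`. -/
theorem length_le : ∃ c : ℝ, 0 < c ∧ ∀ (m n : ℕ) (f : Fin m → ℝ[X]) (g : Fin n → ℝ[X]) (T d : ℕ),
    (∀ i, f i ≠ 0) → (∀ j, g j ≠ 0) → ∑ i, (f i).support.card + ∑ j, (g j).support.card = T →
    (∏ i, f i).natDegree ≤ d → (∏ j, g j).natDegree ≤ d →
    ∫⁻ x : ℝ, ENNReal.ofReal (|(wr (∏ i, f i) (∏ j, g j)).eval x| /
        ((∏ i, f i).eval x ^ 2 + (∏ j, g j).eval x ^ 2)) ≤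
      ENNReal.ofReal (c * T * Real.log (2 + (d : ℝ) / T)) := by
  obtain ⟨c, hc, hall⟩ := all_scales
  refine ⟨c, hc, ?_⟩
  intro m n f g T d hf hg hT hdf hdg
  by_cases hw : wr (∏ i, f i) (∏ j, g j) = 0
  · rw [hw]
    simp
  · have hT1 : 1 ≤ T := by
      by_contra hcon
      have hT0 : T = 0 := by omega
      apply hw
      have hm : m = 0 := by
        by_contra hm
        have h1 : ∑ i, (f i).support.card = 0 := by omega
        have h2 := Finset.sum_eq_zero_iff.1 h1 ⟨0, Nat.pos_of_ne_zero hm⟩ (Finset.mem_univ _)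
        exact hf _ (Polynomial.support_eq_empty.1 (Finset.card_eq_zero.1 h2))
      have hn : n = 0 := by
        by_contra hn
        have h1 : ∑ j, (g j).support.card = 0 := by omega
        have h2 := Finset.sum_eq_zero_iff.1 h1 ⟨0, Nat.pos_of_ne_zero hn⟩ (Finset.mem_univ _)
        exact hg _ (Polynomial.support_eq_empty.1 (Finset.card_eq_zero.1 h2))
      subst hm hn
      simp [wr]
    obtain ⟨H, hH1, hH2, hH3⟩ := hall m n f g T d hf hg hT hT1 hdf hdg
    exact (H2_pair (Finset.prod_ne_zero_iff.2 fun j _ => hg j) hw hH1 hH2).trans hH3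

end Pool.Agent.MP_c11b14_lc.OP
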