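import Pool.Agent.Lib.MP_c11b14_lc.OP.Defs

set_option autoImplicit false

/-! Task A1: a Gaussian vector separates two directions. -/

namespace Pool.Agent.MP_c11b14_lc.OP

open MeasureTheory ProbabilityTheory

/-- The standard Gaussian of a ball around `0` of radius `r ≤ 1`. -/
private theorem ball_lower (r : ℝ) (hr0 : 0 ≤ r) (hr1 : r ≤ 1) :
    gaussianPDFReal 0 1 1 * (2 * r) ≤ (gaussianReal 0 1).real (Set.Ioo (-r) r) := by
  rw [measureReal_def, gaussianReal_apply_eq_integral 0 one_ne_zero,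
    ENNReal.toReal_ofReal (setIntegral_nonneg measurableSet_Ioo
      (fun x _ => gaussianPDFReal_nonneg _ _ _))]
  have hvol : volume.real (Set.Ioo (-r) r) = 2 * r := by
    rw [measureReal_def, Real.volume_Ioo, ENNReal.toReal_ofReal (by linarith)]
    ring
  rw [← hvol]
  refine setIntegral_ge_of_const_le_real measurableSet_Ioo (by simp) ?_
    (integrable_gaussianPDFReal 0 1).integrableOn
  intro x hx
  rw [gaussianPDFReal_def]
  refine mul_le_mul_of_nonneg_left (Real.exp_le_exp.2 ?_) (by positivity)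
  have h2 : x ^ 2 ≤ 1 := by
    have h3 : |x| ≤ 1 := abs_le.2 ⟨by linarith [hx.1], by linarith [hx.2]⟩
    exact (sq_le_one_iff_abs_le_one x).2 h3
  simp only [sub_zero, NNReal.coe_one, mul_one, one_pow]
  linarith

/-- The mass outside of the unit ball is positive. -/
private theorem outer_pos : 0 < (gaussianReal 0 1).real {y : ℝ | 1 ≤ |y|} := by
  rw [measureReal_def, ENNReal.toReal_pos_iff]
  refine ⟨pos_iff_ne_zero.2 fun h => ?_, measure_lt_top _ _⟩
  have h1 := gaussianReal_absolutelyContinuous' 0 (one_ne_zero (α := NNReal)) h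
  have h2 : volume (Set.Icc (1 : ℝ) 2) ≤ volume {y : ℝ | 1 ≤ |y|} :=
    measure_mono fun y hy => hy.1.trans (le_abs_self y)
  rw [h1, Real.volume_Icc] at h2
  norm_num at h2

/-- A1. For unit vectors `v`, `w` the vectors `a = v + w` and `b = v - w` are orthogonal, so `⟪a,B⟫` and `⟪b,B⟫` are independent
with the laws `N(0, ‖a‖²)` and `N(0, ‖b‖²)`, and `4 ⟪v,B⟫ ⟪w,B⟫ = ⟪a,B⟫² - ⟪b,B⟫²`; the event contains `|⟪a,B⟫| < ‖b‖ ≤ |⟪b,B⟫|`, where
`‖a‖, ‖b‖ ≤ 2`. -/
theorem sign_prob : ∃ c : ℝ, 0 < c ∧ ∀ (W : Type) [NormedAddCommGroup W] [InnerProductSpace ℝ W]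
    [FiniteDimensional ℝ W] [MeasurableSpace W] [BorelSpace W] (v w : W), ‖v‖ = 1 → ‖w‖ = 1 →
    c * ‖v - w‖ ≤ (stdGaussian W).real {B : W | inner ℝ v B * inner ℝ w B < 0} := by
  refine ⟨gaussianPDFReal 0 1 1 * (gaussianReal 0 1).real {y : ℝ | 1 ≤ |y|},
    mul_pos (gaussianPDFReal_pos _ _ _ one_ne_zero) outer_pos, ?_⟩
  intro W _ _ _ _ _ v w hv hw
  set g : Measure ℝ := gaussianReal 0 1 with hg
  set a : W := v + w with ha
  set b : W := v - w with hb
  rcases eq_or_lt_of_le (norm_nonneg b) with hb0 | hb0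
  · rw [← hb0, mul_zero]
    exact measureReal_nonneg
  have hab : inner ℝ a b = (0 : ℝ) := by
    rw [ha, hb, inner_add_left, inner_sub_right, inner_sub_right, real_inner_self_eq_norm_sq,
      real_inner_self_eq_norm_sq, hv, hw, real_inner_comm w v]
    ring
  have ha2 : ‖a‖ ≤ 2 := by
    have := norm_add_le v w
    rw [hv, hw] at this
    linarith
  have hb2 : ‖b‖ ≤ 2 := by
    have := norm_sub_le v w
    rw [hv, hw] at this
    linarith
  set μ : Measure W := stdGaussian W with hμ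
  -- the law of a linear form
  have hlaw : ∀ x : W, μ.map (fun B : W => (inner ℝ x B : ℝ)) = g.map (fun t => ‖x‖ * t) := by
    intro x
    have h1 : μ.map (innerSL ℝ x) = gaussianReal (μ[innerSL ℝ x]) (Var[innerSL ℝ x; μ]).toNNReal :=
      IsGaussian.map_eq_gaussianReal _
    have h2 : (fun B : W => (inner ℝ x B : ℝ)) = innerSL ℝ x := by
      funext B
      rw [innerSL_apply_apply]
    rw [h2, h1, hμ, integral_strongDual_stdGaussian, variance_dual_stdGaussian, innerSL_apply_norm,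
      hg, gaussianReal_map_const_mul]
    congr 1
    · ring
    · ext
      simp
  -- independence
  have hind : IndepFun (fun B : W => (inner ℝ a B : ℝ)) (fun B : W => (inner ℝ b B : ℝ)) μ := by
    refine HasGaussianLaw.indepFun_of_covariance_eq_zero ?_ ?_
    · have h1 : (fun B : W => ((inner ℝ a B : ℝ), (inner ℝ b B : ℝ)))
          = (innerSL ℝ a).prod (innerSL ℝ b) := by
        funext B
        simp [innerSL_apply_apply]
      rw [h1]
      exact ⟨inferInstance⟩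
    · have h1 := covarianceBilin_apply_eq_cov (μ := μ) IsGaussian.memLp_two_id a b
      rw [← h1, hμ, covarianceBilin_stdGaussian, innerSL_apply_apply]
      exact hab
  have hma : Measurable (fun B : W => (inner ℝ a B : ℝ)) := by fun_prop
  have hmb : Measurable (fun B : W => (inner ℝ b B : ℝ)) := by fun_prop
  have hsub : (fun B : W => (inner ℝ a B : ℝ)) ⁻¹' (Set.Ioo (-‖b‖) ‖b‖) ∩
      (fun B : W => (inner ℝ b B : ℝ)) ⁻¹' {y : ℝ | ‖b‖ ≤ |y|} ⊆
      {B : W | inner ℝ v B * inner ℝ w B < 0} := by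
    rintro B ⟨h1, h2⟩
    have h1' : |(inner ℝ a B : ℝ)| < ‖b‖ := abs_lt.2 h1
    have h2' : ‖b‖ ≤ |(inner ℝ b B : ℝ)| := h2
    have h3 : (inner ℝ a B : ℝ) ^ 2 < (inner ℝ b B : ℝ) ^ 2 := sq_lt_sq.2 (h1'.trans_le h2')
    change (inner ℝ v B : ℝ) * inner ℝ w B < 0
    have h4 : (inner ℝ a B : ℝ) = inner ℝ v B + inner ℝ w B := by rw [ha, inner_add_left]
    have h5 : (inner ℝ b B : ℝ) = inner ℝ v B - inner ℝ w B := by rw [hb, inner_sub_left]
    rw [h4, h5] at h3
    nlinarith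
  have hmS : MeasurableSet {y : ℝ | ‖b‖ ≤ |y|} :=
    measurableSet_le measurable_const measurable_norm
  have hprod : μ.real ((fun B : W => (inner ℝ a B : ℝ)) ⁻¹' (Set.Ioo (-‖b‖) ‖b‖) ∩
      (fun B : W => (inner ℝ b B : ℝ)) ⁻¹' {y : ℝ | ‖b‖ ≤ |y|}) =
      μ.real ((fun B : W => (inner ℝ a B : ℝ)) ⁻¹' (Set.Ioo (-‖b‖) ‖b‖)) *
        μ.real ((fun B : W => (inner ℝ b B : ℝ)) ⁻¹' {y : ℝ | ‖b‖ ≤ |y|}) := by
    rw [measureReal_def, measureReal_def, measureReal_def,
      hind.measure_inter_preimage_eq_mul _ _ measurableSet_Ioo hmS, ENNReal.toReal_mul]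
  have hA : gaussianPDFReal 0 1 1 * ‖b‖ ≤
      μ.real ((fun B : W => (inner ℝ a B : ℝ)) ⁻¹' (Set.Ioo (-‖b‖) ‖b‖)) := by
    rw [← map_measureReal_apply hma measurableSet_Ioo, hlaw a,
      map_measureReal_apply (by fun_prop) measurableSet_Ioo]
    have h1 := ball_lower (‖b‖ / 2) (by positivity) (by linarith)
    have h2 : gaussianPDFReal 0 1 1 * (2 * (‖b‖ / 2)) = gaussianPDFReal 0 1 1 * ‖b‖ := by ring
    rw [h2] at h1
    refine h1.trans (measureReal_mono ?_)
    intro t ht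
    have h3 : |t| < ‖b‖ / 2 := abs_lt.2 ht
    refine abs_lt.1 ?_
    rw [abs_mul, abs_norm]
    calc ‖a‖ * |t| ≤ 2 * |t| := mul_le_mul_of_nonneg_right ha2 (abs_nonneg t)
      _ < ‖b‖ := by linarith
  have hB : g.real {y : ℝ | 1 ≤ |y|} ≤
      μ.real ((fun B : W => (inner ℝ b B : ℝ)) ⁻¹' {y : ℝ | ‖b‖ ≤ |y|}) := by
    rw [← map_measureReal_apply hmb hmS, hlaw b, map_measureReal_apply (by fun_prop) hmS]
    refine measureReal_mono ?_
    intro t ht
    have h3 : (1 : ℝ) ≤ |t| := ht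
    change ‖b‖ ≤ |‖b‖ * t|
    rw [abs_mul, abs_norm]
    exact le_mul_of_one_le_right hb0.le h3
  calc gaussianPDFReal 0 1 1 * g.real {y : ℝ | 1 ≤ |y|} * ‖b‖
      = (gaussianPDFReal 0 1 1 * ‖b‖) * g.real {y : ℝ | 1 ≤ |y|} := by ring
    _ ≤ μ.real ((fun B : W => (inner ℝ a B : ℝ)) ⁻¹' (Set.Ioo (-‖b‖) ‖b‖)) *
        μ.real ((fun B : W => (inner ℝ b B : ℝ)) ⁻¹' {y : ℝ | ‖b‖ ≤ |y|}) :=
        mul_le_mul hA hB measureReal_nonneg measureReal_nonneg
    _ = μ.real ((fun B : W => (inner ℝ a B : ℝ)) ⁻¹' (Set.Ioo (-‖b‖) ‖b‖) ∩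
      (fun B : W => (inner ℝ b B : ℝ)) ⁻¹' {y : ℝ | ‖b‖ ≤ |y|}) := hprod.symm
    _ ≤ μ.real {B : W | inner ℝ v B * inner ℝ w B < 0} := measureReal_mono hsub

end Pool.Agent.MP_c11b14_lc.OP
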