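import Pool.Agent.Lib.MP_c11b14_lc.OP.A1
import Pool.Agent.Lib.MP_c11b14_lc.SCMain

set_option autoImplicit false

/-! Task A2: Descartes' rule in a Hilbert space, discrete form. -/

namespace Pool.Agent.MP_c11b14_lc.OP

open MeasureTheory ProbabilityTheory Polynomial

/-- A2a. PROOF. The polynomial `q = ∑_{n ∈ s} b n X^n` has `q(e^u) = ∑ b n e^{nu}`, and at most `s.card` positive roots (`card_pos_roots` in SCMain.lean: Descartes; `q ≠ 0` if there is
a sign change). Between `u k` and `u (k+1)` with a sign change there is a root (IVT), and these are different (copy `changes_le_numRoots` in Sm/Cond.lean). -/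
theorem changes_le (s : Finset ℕ) (b : ℕ → ℝ) (N : ℕ) (u : ℕ → ℝ) (hu : ∀ k < N, u k < u (k + 1)) :
    ((Finset.range N).filter (fun k => (∑ n ∈ s, b n * Real.exp (n * u k)) *
      (∑ n ∈ s, b n * Real.exp (n * u (k + 1))) < 0)).card ≤ s.card := by
  classical
  set q : ℝ[X] := ∑ n ∈ s, C (b n) * X ^ n with hq
  have hev : ∀ v : ℝ, q.eval (Real.exp v) = ∑ n ∈ s, b n * Real.exp (n * v) := by
    intro v
    rw [hq, eval_finsetSum]
    refine Finset.sum_congr rfl fun n _ => ?_
    rw [eval_mul, eval_C, eval_pow, eval_X, Real.exp_nat_mul]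
  simp_rw [← hev]
  set A := (Finset.range N).filter
    (fun k => q.eval (Real.exp (u k)) * q.eval (Real.exp (u (k + 1))) < 0) with hA
  have hA' : ∀ k ∈ A, k < N ∧ q.eval (Real.exp (u k)) * q.eval (Real.exp (u (k + 1))) < 0 := by
    intro k hk
    rw [hA, Finset.mem_filter, Finset.mem_range] at hk
    exact hk
  rcases A.eq_empty_or_nonempty with h0 | ⟨k₀, hk₀⟩
  · rw [h0]
    simp
  have hq0 : q ≠ 0 := by
    intro h
    have := (hA' k₀ hk₀).2
    rw [h] at this
    simp at this
  have hsupp : q.support.card ≤ s.card := by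
    refine Finset.card_le_card ?_
    intro n hn
    by_contra hns
    rw [mem_support_iff] at hn
    apply hn
    rw [hq, finsetSum_coeff]
    refine Finset.sum_eq_zero fun m hm => ?_
    rw [coeff_C_mul, coeff_X_pow, if_neg, mul_zero]
    rintro rfl
    exact hns hm
  have hroots := SC.card_pos_roots hq0
  have hroot : ∀ k ∈ A, ∃ r ∈ Set.Ioo (Real.exp (u k)) (Real.exp (u (k + 1))), q.eval r = 0 := by
    intro k hk
    have h1 := (hA' k hk).2
    have h2 := Real.exp_lt_exp.2 (hu k (hA' k hk).1)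
    have hc : ContinuousOn (fun y => q.eval y)
        (Set.Icc (Real.exp (u k)) (Real.exp (u (k + 1)))) :=
      q.continuous.continuousOn
    rcases mul_neg_iff.1 h1 with ⟨ha, hb⟩ | ⟨ha, hb⟩
    · exact intermediate_value_Ioo' h2.le hc ⟨hb, ha⟩
    · exact intermediate_value_Ioo h2.le hc ⟨ha, hb⟩
  choose! r hr hr0 using hroot
  have hmono : ∀ k l, k ≤ l → l ≤ N → u k ≤ u l := by
    intro k l hkl
    induction l, hkl using Nat.le_induction with
    | base => exact fun _ => le_rfl
    | succ l _ ih => exact fun h => (ih (by omega)).trans (hu l (by omega)).le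
  have hlt : ∀ k ∈ A, ∀ l ∈ A, k < l → r k < r l := by
    intro k hk l hl hkl
    exact ((hr k hk).2.trans_le (Real.exp_le_exp.2
      (hmono (k + 1) l hkl (hA' l hl).1.le))).trans (hr l hl).1
  have hle : A.card ≤ (q.roots.toFinset.filter (0 < ·)).card := by
    refine Finset.card_le_card_of_injOn r ?_ ?_
    · intro k hk
      rw [Finset.mem_coe, Finset.mem_filter, Multiset.mem_toFinset, mem_roots hq0]
      exact ⟨hr0 k hk, (Real.exp_pos _).trans (hr k hk).1⟩
    · intro k hk l hl hkl
      rcases lt_trichotomy k l with h | h | h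
      · exact absurd hkl (hlt k hk l hl h).ne
      · exact h
      · exact absurd hkl (hlt l hl k hk h).ne'
  omega

/-- A2b. PROOF. `c₁ = 1/c` with the `c` of `sign_prob`. Let `W = Submodule.span ℝ (E '' s)` (finite dimensional; give it `borel`), all `cur s E u` are in `W`. For `B ∈ W`:
`⟪cur s E u, B⟫ = ∑ ⟪E n, B⟫ e^{nu}`, so for every `B` at most `s.card` indices `k < N` have `⟪dir(cur (u k)), B⟫ ⟪dir(cur (u (k+1))), B⟫ < 0` (`changes_le`; `dir` is a positive multiple).
Integrate over `stdGaussian W`: `∑_k c ‖dir - dir‖ ≤ ∑_k P(...) = E #{k : ...} ≤ s.card`. -/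
theorem crofton_disc : ∃ c₁ : ℝ, 0 < c₁ ∧ ∀ (V : Type) [NormedAddCommGroup V] [InnerProductSpace ℝ V]
    (s : Finset ℕ) (E : ℕ → V) (N : ℕ) (u : ℕ → ℝ), (∀ k < N, u k < u (k + 1)) →
    (∀ k ≤ N, cur s E (u k) ≠ 0) →
    ∑ k ∈ Finset.range N, ‖dir (cur s E (u (k + 1))) - dir (cur s E (u k))‖ ≤ c₁ * s.card := by
  classical
  obtain ⟨c, hc, hsign⟩ := sign_prob
  refine ⟨1 / c, by positivity, ?_⟩
  intro V _ _ s E N u hu hne
  set W : Submodule ℝ V := Submodule.span ℝ (E '' s) with hW
  have : FiniteDimensional ℝ W := FiniteDimensional.span_of_finite ℝ (s.finite_toSet.image E)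
  let _ : MeasurableSpace W := borel W
  have : BorelSpace W := ⟨rfl⟩
  have hmem : ∀ v : ℝ, cur s E v ∈ W := fun v =>
    Submodule.sum_mem _ fun n hn => Submodule.smul_mem _ _
      (Submodule.subset_span ⟨n, hn, rfl⟩)
  have hdmem : ∀ v : ℝ, dir (cur s E v) ∈ W := fun v => Submodule.smul_mem _ _ (hmem v)
  set d : ℕ → W := fun k => ⟨dir (cur s E (u k)), hdmem (u k)⟩ with hd
  have hd1 : ∀ k ≤ N, ‖d k‖ = 1 := by
    intro k hk
    rw [Submodule.coe_norm]
    show ‖dir (cur s E (u k))‖ = 1
    rw [dir, norm_smul, norm_inv, norm_norm]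
    exact inv_mul_cancel₀ (norm_ne_zero_iff.2 (hne k hk))
  have hinner : ∀ (k : ℕ) (B : W), inner ℝ (d k) B =
      ‖cur s E (u k)‖⁻¹ * ∑ n ∈ s, inner ℝ (E n) (B : V) * Real.exp (n * u k) := by
    intro k B
    rw [Submodule.coe_inner]
    show inner ℝ (dir (cur s E (u k))) (B : V) = _
    rw [dir, real_inner_smul_left, cur, sum_inner]
    congr 1
    refine Finset.sum_congr rfl fun n _ => ?_
    rw [real_inner_smul_left, mul_comm]
  set S : ℕ → Set W := fun k => {B : W | inner ℝ (d (k + 1)) B * inner ℝ (d k) B < 0} with hS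
  have hSm : ∀ k, MeasurableSet (S k) := by
    intro k
    have h1 : Continuous fun B : W => inner ℝ (d (k + 1)) B * inner ℝ (d k) B := by fun_prop
    exact (isOpen_lt h1 continuous_const).measurableSet
  have hcount : ∀ B : W, ∑ k ∈ Finset.range N, (S k).indicator (fun _ => (1 : ℝ)) B ≤ s.card := by
    intro B
    have h1 : ∑ k ∈ Finset.range N, (S k).indicator (fun _ => (1 : ℝ)) B =
        (((Finset.range N).filter (fun k => B ∈ S k)).card : ℝ) := by
      rw [Finset.card_filter]
      push_cast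
      refine Finset.sum_congr rfl fun k _ => ?_
      rw [Set.indicator_apply]
    rw [h1]
    have h2 := changes_le s (fun n => inner ℝ (E n) (B : V)) N u hu
    refine le_trans ?_ (Nat.cast_le.2 h2)
    refine Nat.cast_le.2 (Finset.card_le_card ?_)
    intro k hk
    rw [Finset.mem_filter, Finset.mem_range] at hk ⊢
    refine ⟨hk.1, ?_⟩
    have h3 : inner ℝ (d (k + 1)) B * inner ℝ (d k) B < 0 := hk.2
    rw [hinner, hinner] at h3
    have ha : 0 < ‖cur s E (u (k + 1))‖⁻¹ := inv_pos.2 (norm_pos_iff.2 (hne (k + 1) (by omega)))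
    have hb : 0 < ‖cur s E (u k)‖⁻¹ := inv_pos.2 (norm_pos_iff.2 (hne k (by omega)))
    by_contra hcon
    rw [not_lt] at hcon
    have h4 := mul_nonneg (mul_pos ha hb).le hcon
    refine absurd h3 (not_lt.2 (h4.trans_eq ?_))
    ring
  have hint : ∀ k, (stdGaussian W).real (S k) =
      ∫ B, (S k).indicator (fun _ => (1 : ℝ)) B ∂(stdGaussian W) := by
    intro k
    rw [integral_indicator_const _ (hSm k)]
    simp
  have hintegrable : ∀ k, Integrable ((S k).indicator (fun _ => (1 : ℝ))) (stdGaussian W) :=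
    fun k => (integrable_const _).indicator (hSm k)
  have hsum : ∑ k ∈ Finset.range N, (stdGaussian W).real (S k) ≤ s.card := by
    simp_rw [hint]
    rw [← integral_finsetSum _ fun k _ => hintegrable k]
    calc ∫ B, ∑ k ∈ Finset.range N, (S k).indicator (fun _ => (1 : ℝ)) B ∂(stdGaussian W)
        ≤ ∫ _, (s.card : ℝ) ∂(stdGaussian W) := by
          refine integral_mono ?_ (integrable_const _) hcount
          exact integrable_finsetSum _ fun k _ => hintegrable k
      _ = s.card := by simp
  have hterm : ∀ k ∈ Finset.range N, c * ‖dir (cur s E (u (k + 1))) - dir (cur s E (u k))‖ ≤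
      (stdGaussian W).real (S k) := by
    intro k hk
    rw [Finset.mem_range] at hk
    exact hsign W (d (k + 1)) (d k) (hd1 _ (by omega)) (hd1 _ (by omega))
  have h5 := (Finset.sum_le_sum hterm).trans hsum
  rw [← Finset.mul_sum] at h5
  rw [one_div, inv_mul_eq_div, le_div_iff₀ hc, mul_comm]
  exact h5

end Pool.Agent.MP_c11b14_lc.OP
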