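import Pool.Agent.Lib.MP_c11b14_lc.OP.A2

set_option autoImplicit false

/-! Task A3: Descartes' rule in a Hilbert space, integral form. -/

namespace Pool.Agent.MP_c11b14_lc.OP

open MeasureTheory

/-- A3a. The derivative. -/
theorem hasDerivAt_cur {V : Type} [NormedAddCommGroup V] [InnerProductSpace ℝ V] (s : Finset ℕ)
    (E : ℕ → V) (u : ℝ) : HasDerivAt (cur s E) (cur' s E u) u := by
  unfold cur'
  have h : HasDerivAt (fun u : ℝ => ∑ n ∈ s, Real.exp (n * u) • E n)
      (∑ n ∈ s, ((n : ℝ) * Real.exp (n * u)) • E n) u := by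
    apply HasDerivAt.fun_sum
    intro n _
    apply HasDerivAt.smul_const
    have h1 : HasDerivAt (fun u : ℝ => (n : ℝ) * u) n u := by
      simpa using (hasDerivAt_id u).const_mul (n : ℝ)
    have h2 := h1.exp
    rwa [mul_comm] at h2
  exact h

/-- A3b. PROOF. `dir(φ) = ‖φ‖⁻¹ φ` has the derivative `‖φ‖⁻¹ (φ' - lam φ φ' φ)`, of norm `spd φ φ'` (`HasDerivAt.norm_sq` or `HasStrictFDerivAt.norm_sq`; `‖φ‖' = ⟪φ,φ'⟫/‖φ‖`). -/
theorem hasDerivAt_dir {V : Type} [NormedAddCommGroup V] [InnerProductSpace ℝ V] {φ φ' : ℝ → V}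
    {u : ℝ} (h : HasDerivAt φ (φ' u) u) (h0 : φ u ≠ 0) :
    HasDerivAt (fun t => dir (φ t)) (‖φ u‖⁻¹ • (φ' u - lam (φ u) (φ' u) • φ u)) u ∧
      ‖‖φ u‖⁻¹ • (φ' u - lam (φ u) (φ' u) • φ u)‖ = spd (φ u) (φ' u) := by
  have hn : ‖φ u‖ ≠ 0 := norm_ne_zero_iff.mpr h0
  constructor
  · have h1 : HasDerivAt (fun t => ‖φ t‖ ^ 2) (2 * inner ℝ (φ u) (φ' u)) u := h.norm_sq
    have h2 : HasDerivAt (fun t => ‖φ t‖) (inner ℝ (φ u) (φ' u) / ‖φ u‖) u := by
      have h3 := h1.sqrt (pow_ne_zero 2 hn)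
      have e1 : (fun t => Real.sqrt (‖φ t‖ ^ 2)) = fun t => ‖φ t‖ := by
        funext t
        exact Real.sqrt_sq (norm_nonneg _)
      rw [e1] at h3
      have e2 : 2 * inner ℝ (φ u) (φ' u) / (2 * Real.sqrt (‖φ u‖ ^ 2)) =
          inner ℝ (φ u) (φ' u) / ‖φ u‖ := by
        rw [Real.sqrt_sq (norm_nonneg _)]
        field_simp
      rw [e2] at h3
      exact h3
    have h4 := (h2.inv hn).smul h
    unfold dir
    have e3 : ‖φ u‖⁻¹ • (φ' u - lam (φ u) (φ' u) • φ u) =
        ‖φ u‖⁻¹ • φ' u + (-(inner ℝ (φ u) (φ' u) / ‖φ u‖) / ‖φ u‖ ^ 2) • φ u := by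
      unfold lam
      rw [smul_sub, smul_smul, sub_eq_add_neg, ← neg_smul]
      congr 2
      field_simp
    rw [e3]
    exact h4
  · unfold spd
    rw [norm_smul, norm_inv, norm_norm, div_eq_inv_mul]

/-- The continuity of the derivative of the direction. -/
private theorem A3_cont {V : Type} [NormedAddCommGroup V] [InnerProductSpace ℝ V] (s : Finset ℕ)
    (E : ℕ → V) (h : ∀ u, cur s E u ≠ 0) :
    Continuous (fun u => ‖cur s E u‖⁻¹ • (cur' s E u - lam (cur s E u) (cur' s E u) • cur s E u)) := by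
  have h1 : Continuous (cur s E) := by
    unfold cur
    fun_prop
  have h2 : Continuous (cur' s E) := by
    unfold cur'
    fun_prop
  unfold lam
  have h3 : Continuous (fun u => ‖cur s E u‖⁻¹) :=
    h1.norm.inv₀ (fun u => norm_ne_zero_iff.mpr (h u))
  have h4 : Continuous (fun u => inner ℝ (cur s E u) (cur' s E u) / ‖cur s E u‖ ^ 2) :=
    (h1.inner h2).div (h1.norm.pow 2) (fun u => pow_ne_zero 2 (norm_ne_zero_iff.mpr (h u)))
  exact h3.smul (h2.sub (h4.smul h1))

/-- One interval. -/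
private theorem A3_step {V : Type} [NormedAddCommGroup V] [InnerProductSpace ℝ V] {Γ Γ' : ℝ → V}
    (hd : ∀ u, HasDerivAt Γ (Γ' u) u) (hc : Continuous Γ') {a b ε : ℝ} (hab : a ≤ b)
    (he : ∀ t ∈ Set.Icc a b, ‖Γ' t - Γ' a‖ ≤ ε) :
    ∫ t in a..b, ‖Γ' t‖ ≤ ‖Γ b - Γ a‖ + 2 * ε * (b - a) := by
  have h1 : ‖(Γ b - (b - a) • Γ' a) - (Γ a - (a - a) • Γ' a)‖ ≤ ε * (b - a) := by
    have := norm_image_sub_le_of_norm_deriv_le_segment' (f := fun t => Γ t - (t - a) • Γ' a)
      (f' := fun t => Γ' t - Γ' a) (a := a) (b := b) (C := ε) ?_ ?_ b (Set.right_mem_Icc.mpr hab)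
    · exact this
    · intro x _
      apply HasDerivAt.hasDerivWithinAt
      apply (hd x).sub
      have h2 : HasDerivAt (fun t : ℝ => t - a) 1 x := (hasDerivAt_id x).sub_const a
      simpa using h2.smul_const (Γ' a)
    · intro x hx
      exact he x ⟨hx.1, hx.2.le⟩
  have h2 : (b - a) * ‖Γ' a‖ ≤ ‖Γ b - Γ a‖ + ε * (b - a) := by
    have h3 : (b - a) • Γ' a = (Γ b - Γ a) -
        ((Γ b - (b - a) • Γ' a) - (Γ a - (a - a) • Γ' a)) := by
      simp only [sub_self, zero_smul, sub_zero]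
      abel
    have h4 : ‖(b - a) • Γ' a‖ = (b - a) * ‖Γ' a‖ := by
      rw [norm_smul, Real.norm_eq_abs, abs_of_nonneg (by linarith)]
    rw [← h4, h3]
    exact (norm_sub_le _ _).trans (by linarith)
  have h5 : ∫ t in a..b, ‖Γ' t‖ ≤ ∫ t in a..b, (‖Γ' a‖ + ε) := by
    apply intervalIntegral.integral_mono_on hab
    · exact hc.norm.intervalIntegrable _ _
    · exact intervalIntegrable_const
    · intro t ht
      have h6 := he t ht
      have h7 : ‖Γ' t‖ ≤ ‖Γ' a‖ + ‖Γ' t - Γ' a‖ := by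
        have := norm_add_le (Γ' a) (Γ' t - Γ' a)
        rwa [add_sub_cancel] at this
      linarith
  rw [intervalIntegral.integral_const, smul_eq_mul] at h5
  nlinarith

/-- A3c. PROOF. `Γ = dir ∘ cur` is `C¹`, `‖Γ'‖ = spd`. For `a < b`: `∫_a^b ‖Γ'‖ ≤ c₁ s.card`: given `ε > 0` choose by uniform continuity of `Γ'` on `[a,b]` a partition `u k` with
`‖Γ'(t) - Γ'(u k)‖ ≤ ε` on `[u k, u (k+1)]`; then `h ‖Γ'(u k)‖ ≤ ‖Γ(u (k+1)) - Γ(u k)‖ + ε h` (mean value inequality for `Γ(t) - t Γ'(u k)`) and `∫_{u k}^{u (k+1)} ‖Γ'‖ ≤ h ‖Γ'(u k)‖ + ε h`; sum,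
`crofton_disc`, `ε → 0`. Then `[a,b] ↑ ℝ` (`MeasureTheory.integrableOn..`, e.g. `integrable_of_intervalIntegral_norm_bounded` and `intervalIntegral_tendsto_integral`). -/
theorem crofton_int : ∃ c₁ : ℝ, 0 < c₁ ∧ ∀ (V : Type) [NormedAddCommGroup V] [InnerProductSpace ℝ V]
    (s : Finset ℕ) (E : ℕ → V), (∀ u, cur s E u ≠ 0) →
    Continuous (fun u => spd (cur s E u) (cur' s E u)) ∧
    Integrable (fun u => spd (cur s E u) (cur' s E u)) volume ∧
      ∫ u, spd (cur s E u) (cur' s E u) ≤ c₁ * s.card := by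
  obtain ⟨c₁, hc₁, hdisc⟩ := crofton_disc
  refine ⟨c₁, hc₁, ?_⟩
  intro V _ _ s E h0
  set Γ : ℝ → V := fun t => dir (cur s E t) with hΓ
  set Γ' : ℝ → V := fun u => ‖cur s E u‖⁻¹ • (cur' s E u - lam (cur s E u) (cur' s E u) • cur s E u)
    with hΓ'
  have hd : ∀ u, HasDerivAt Γ (Γ' u) u := fun u => (hasDerivAt_dir (hasDerivAt_cur s E u) (h0 u)).1
  have hn : ∀ u, ‖Γ' u‖ = spd (cur s E u) (cur' s E u) := fun u =>
    (hasDerivAt_dir (φ := cur s E) (φ' := cur' s E) (hasDerivAt_cur s E u) (h0 u)).2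
  have hc : Continuous Γ' := A3_cont s E h0
  have hfun : (fun u => spd (cur s E u) (cur' s E u)) = fun u => ‖Γ' u‖ := by
    funext u
    exact (hn u).symm
  rw [hfun]
  have hbound : ∀ a b : ℝ, a < b → ∫ t in a..b, ‖Γ' t‖ ≤ c₁ * s.card := by
    intro a b hab
    apply le_of_forall_pos_le_add
    intro η hη
    set ε : ℝ := η / (2 * (b - a)) with hε
    have hε0 : 0 < ε := by
      rw [hε]
      apply div_pos hη
      linarith
    have huc : UniformContinuousOn Γ' (Set.Icc a b) :=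
      isCompact_Icc.uniformContinuousOn_of_continuous hc.continuousOn
    rw [Metric.uniformContinuousOn_iff] at huc
    obtain ⟨δ, hδ, hu⟩ := huc ε hε0
    obtain ⟨N, hN⟩ := exists_nat_gt ((b - a) / δ)
    have hNpos : (0 : ℝ) < N := lt_of_le_of_lt (div_nonneg (by linarith) hδ.le) hN
    set w : ℝ := (b - a) / N with hw
    have hw0 : 0 < w := div_pos (by linarith) hNpos
    have hwδ : w < δ := by
      rw [hw, div_lt_iff₀ hNpos]
      rw [div_lt_iff₀ hδ] at hN
      linarith
    set u : ℕ → ℝ := fun k => a + k * w with hudef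
    have hu0 : u 0 = a := by simp [hudef]
    have huN : u N = b := by
      simp only [hudef, hw]
      field_simp
      ring
    have hstep : ∀ k, u (k + 1) = u k + w := by
      intro k
      simp only [hudef]
      push_cast
      ring
    have hmem : ∀ k ≤ N, u k ∈ Set.Icc a b := by
      intro k hk
      constructor
      · simp only [hudef]
        have : (0 : ℝ) ≤ k * w := by positivity
        linarith
      · rw [← huN]
        simp only [hudef]
        have : (k : ℝ) ≤ N := by exact_mod_cast hk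
        nlinarith
    have hone : ∀ k < N, ∫ t in u k..u (k + 1), ‖Γ' t‖ ≤
        ‖dir (cur s E (u (k + 1))) - dir (cur s E (u k))‖ + 2 * ε * w := by
      intro k hk
      have h1 := A3_step hd hc (a := u k) (b := u (k + 1)) (ε := ε) (by rw [hstep]; linarith) ?_
      · have h2 : u (k + 1) - u k = w := by rw [hstep]; ring
        rw [h2] at h1
        exact h1
      · intro t ht
        have hk1 := hmem k hk.le
        have hk2 := hmem (k + 1) hk
        have ht' : t ∈ Set.Icc a b := ⟨hk1.1.trans ht.1, ht.2.trans hk2.2⟩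
        have h3 := hu t ht' (u k) hk1 ?_
        · rw [dist_eq_norm] at h3
          exact h3.le
        · rw [Real.dist_eq, abs_of_nonneg (by linarith [ht.1])]
          have := ht.2
          rw [hstep] at this
          linarith
    have hsum : ∫ t in a..b, ‖Γ' t‖ = ∑ k ∈ Finset.range N, ∫ t in u k..u (k + 1), ‖Γ' t‖ := by
      rw [intervalIntegral.sum_integral_adjacent_intervals, hu0, huN]
      intro k _
      exact hc.norm.intervalIntegrable _ _
    rw [hsum]
    calc ∑ k ∈ Finset.range N, ∫ t in u k..u (k + 1), ‖Γ' t‖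
        ≤ ∑ k ∈ Finset.range N,
          (‖dir (cur s E (u (k + 1))) - dir (cur s E (u k))‖ + 2 * ε * w) :=
          Finset.sum_le_sum (fun k hk => hone k (Finset.mem_range.mp hk))
      _ = ∑ k ∈ Finset.range N, ‖dir (cur s E (u (k + 1))) - dir (cur s E (u k))‖ +
          N * (2 * ε * w) := by
          rw [Finset.sum_add_distrib, Finset.sum_const, Finset.card_range, nsmul_eq_mul]
      _ ≤ c₁ * s.card + η := by
          have h4 := hdisc V s E N u (fun k _ => by rw [hstep]; linarith) (fun k _ => h0 (u k))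
          have h5 : (N : ℝ) * (2 * ε * w) = η := by
            rw [hε, hw]
            have : b - a ≠ 0 := by linarith
            field_simp
          rw [h5]
          linarith
  have hint : Integrable (fun u => ‖Γ' u‖) volume := by
    apply integrable_of_intervalIntegral_norm_bounded (l := Filter.atTop)
      (a := fun i : ℕ => -(i : ℝ)) (b := fun i : ℕ => (i : ℝ)) (c₁ * s.card)
    · intro i
      exact (hc.norm.integrableOn_Icc (a := -(i : ℝ)) (b := (i : ℝ))).mono_set Set.Ioc_subset_Icc_self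
    · exact Filter.tendsto_neg_atTop_atBot.comp tendsto_natCast_atTop_atTop
    · exact tendsto_natCast_atTop_atTop
    · filter_upwards [Filter.eventually_gt_atTop 0] with i hi
      have hi' : (0 : ℝ) < i := by exact_mod_cast hi
      simp only [norm_norm]
      exact hbound _ _ (by linarith)
  refine ⟨hc.norm, hint, ?_⟩
  have hlim := intervalIntegral_tendsto_integral hint
    (Filter.tendsto_neg_atTop_atBot.comp (tendsto_natCast_atTop_atTop (R := ℝ)))
    (tendsto_natCast_atTop_atTop (R := ℝ))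
  apply le_of_tendsto hlim
  filter_upwards [Filter.eventually_gt_atTop 0] with i hi
  have hi' : (0 : ℝ) < i := by exact_mod_cast hi
  exact hbound _ _ (by simp only [Function.comp]; linarith)

end Pool.Agent.MP_c11b14_lc.OP
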