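import Pool.Agent.Lib.MP_c11b14_lc.OP.A3

set_option autoImplicit false

/-! Task B0: the Hilbert space of the scale `ℓ`. -/

namespace Pool.Agent.MP_c11b14_lc.OP

open Polynomial Complex MeasureTheory

private theorem B0_exp_eq {ℓ : ℝ} (ω : ℝ) :
    Real.exp (-ω / ℓ) / ℓ = (1 / ℓ) * Real.exp ((-(1 / ℓ)) * ω) := by
  have : -ω / ℓ = (-(1 / ℓ)) * ω := by ring
  rw [this]
  ring

/-- B0a. `muL ℓ` is a probability measure. -/
theorem prob_muL {ℓ : ℝ} (hℓ : 0 < ℓ) : IsProbabilityMeasure (muL ℓ) := by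
  constructor
  unfold muL
  rw [withDensity_apply _ MeasurableSet.univ, Measure.restrict_univ]
  have hneg : -(1 / ℓ) < 0 := by
    have : 0 < 1 / ℓ := by positivity
    linarith
  have hint : Integrable (fun ω : ℝ => Real.exp (-ω / ℓ) / ℓ) (volume.restrict (Set.Ioi 0)) := by
    simp only [B0_exp_eq]
    exact (integrableOn_exp_mul_Ioi hneg 0).const_mul _
  rw [← ofReal_integral_eq_lintegral_ofReal hint]
  · simp only [B0_exp_eq]
    rw [integral_const_mul, integral_exp_mul_Ioi hneg 0]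
    rw [← ENNReal.ofReal_one]
    congr 1
    simp
    field_simp
  · apply Filter.Eventually.of_forall
    intro ω
    positivity

/-- B0b. Integrals. PROOF. `integral_withDensity_eq_integral_toReal_smul` etc. -/
theorem integral_muL {ℓ : ℝ} (hℓ : 0 < ℓ) {F : Type} [NormedAddCommGroup F] [NormedSpace ℝ F]
    (f : ℝ → F) : ∫ ω, f ω ∂(muL ℓ) = ∫ ω in Set.Ioi 0, (Real.exp (-ω / ℓ) / ℓ) • f ω := by
  unfold muL
  rw [integral_withDensity_eq_integral_toReal_smul (by fun_prop)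
    (Filter.Eventually.of_forall (fun _ => ENNReal.ofReal_lt_top))]
  apply integral_congr_ae
  apply Filter.Eventually.of_forall
  intro ω
  have : 0 ≤ Real.exp (-ω / ℓ) / ℓ := by positivity
  simp only [ENNReal.toReal_ofReal this]

/-- B0c. The derivative of `ev p`, and conjugation. -/
theorem hasDerivAt_ev (p : ℝ[X]) (z : ℂ) : HasDerivAt (ev p) (ev (dX p) z) z := by
  have h1 : HasDerivAt (fun z : ℂ => (p.map (algebraMap ℝ ℂ)).eval (Complex.exp z))
      ((derivative (p.map (algebraMap ℝ ℂ))).eval (Complex.exp z) * Complex.exp z) z :=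
    ((p.map (algebraMap ℝ ℂ)).hasDerivAt (Complex.exp z)).comp z (Complex.hasDerivAt_exp z)
  have h2 : ev (dX p) z =
      (derivative (p.map (algebraMap ℝ ℂ))).eval (Complex.exp z) * Complex.exp z := by
    unfold ev dX
    rw [Polynomial.map_mul, Polynomial.map_X, eval_mul, eval_X, derivative_map]
    ring
  rw [h2]
  exact h1

private theorem B0_sum (p : ℝ[X]) (z : ℂ) {s : Finset ℕ} (hs : p.support ⊆ s) :
    ev p z = ∑ n ∈ s, (p.coeff n : ℂ) * Complex.exp (n * z) := by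
  unfold ev
  rw [eval_map_algebraMap, aeval_def, eval₂_eq_sum, sum_def]
  rw [← Finset.sum_subset hs]
  · apply Finset.sum_congr rfl
    intro n _
    rw [Complex.exp_nat_mul]
    rfl
  · intro n _ hn
    rw [notMem_support_iff.mp hn]
    simp

theorem ev_sum (p : ℝ[X]) (z : ℂ) : ev p z = ∑ n ∈ p.support, (p.coeff n : ℂ) * Complex.exp (n * z) :=
  B0_sum p z (Finset.Subset.refl _)

theorem ev_real (p : ℝ[X]) (u : ℝ) : ev p (u : ℂ) = ((p.eval (Real.exp u) : ℝ) : ℂ) := by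
  unfold ev
  rw [← Complex.ofReal_exp, eval_map_algebraMap, ← Complex.coe_algebraMap, aeval_algebraMap_apply,
    coe_aeval_eq_eval]

theorem ev_conj (p : ℝ[X]) (z : ℂ) : ev p ((starRingEnd ℂ) z) = (starRingEnd ℂ) (ev p z) := by
  rw [ev_sum, ev_sum, map_sum]
  apply Finset.sum_congr rfl
  intro n _
  rw [map_mul, Complex.conj_ofReal, ← Complex.exp_conj, map_mul, Complex.conj_natCast]

/-- B0d. `ev p` is bounded on vertical lines. PROOF. By `∑ |p n| e^{n u}`. -/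
theorem ev_bdd (p : ℝ[X]) (u : ℝ) : ∃ K : ℝ, ∀ ω : ℝ, ‖ev p (u + ω * I)‖ ≤ K := by
  refine ⟨∑ n ∈ p.support, |p.coeff n| * Real.exp (n * u), ?_⟩
  intro ω
  rw [ev_sum]
  refine (norm_sum_le _ _).trans ?_
  apply Finset.sum_le_sum
  intro n _
  rw [norm_mul, Complex.norm_real, Complex.norm_exp, Real.norm_eq_abs]
  have : ((n : ℂ) * (u + ω * I)).re = n * u := by simp
  rw [this]

private theorem B0_cont (p : ℝ[X]) (u : ℝ) : Continuous (fun ω : ℝ => ev p (u + ω * I)) := by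
  unfold ev
  fun_prop

/-- B0e. -/
theorem memLp_ev {ℓ : ℝ} (hℓ : 0 < ℓ) (p : ℝ[X]) (u : ℝ) :
    MemLp (fun ω : ℝ => ev p (u + ω * I)) 2 (muL ℓ) := by
  have := prob_muL hℓ
  obtain ⟨K, hK⟩ := ev_bdd p u
  exact MemLp.of_bound (B0_cont p u).aestronglyMeasurable K (Filter.Eventually.of_forall hK)

theorem coeFn_vL {ℓ : ℝ} (hℓ : 0 < ℓ) (p : ℝ[X]) (u : ℝ) :
    vL p ℓ u =ᵐ[muL ℓ] fun ω : ℝ => ev p (u + ω * I) := by
  unfold vL
  rw [dif_pos (memLp_ev hℓ p u)]
  exact MemLp.coeFn_toLp _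

/-- B0f. Inner products and norms. PROOF. `MeasureTheory.L2.inner_def`. -/
theorem inner_vL {ℓ : ℝ} (hℓ : 0 < ℓ) (p q : ℝ[X]) (u u' : ℝ) :
    inner ℝ (vL p ℓ u) (vL q ℓ u') =
      ∫ ω, (ev p (u + ω * I) * (starRingEnd ℂ) (ev q (u' + ω * I))).re ∂(muL ℓ) := by
  rw [L2.inner_def]
  apply integral_congr_ae
  filter_upwards [coeFn_vL hℓ p u, coeFn_vL hℓ q u'] with ω h1 h2
  rw [h1, h2, Complex.inner]
  simp only [Complex.mul_re, Complex.conj_re, Complex.conj_im]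
  ring

/-- B0g. PROOF. As B0f, for `a p + b q` at two points. -/
theorem norm_comb_vL {ℓ : ℝ} (hℓ : 0 < ℓ) (p q : ℝ[X]) (u u' a b : ℝ) :
    ‖a • vL p ℓ u + b • vL q ℓ u'‖ ^ 2 =
      ∫ ω, ‖(a : ℂ) * ev p (u + ω * I) + (b : ℂ) * ev q (u' + ω * I)‖ ^ 2 ∂(muL ℓ) := by
  rw [← real_inner_self_eq_norm_sq, L2.inner_def]
  apply integral_congr_ae
  filter_upwards [coeFn_vL hℓ p u, coeFn_vL hℓ q u', Lp.coeFn_add (a • vL p ℓ u) (b • vL q ℓ u'),
    Lp.coeFn_smul a (vL p ℓ u), Lp.coeFn_smul b (vL q ℓ u')] with ω h1 h2 h3 h4 h5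
  rw [h3]
  simp only [Pi.add_apply]
  rw [h4, h5]
  simp only [Pi.smul_apply]
  rw [h1, h2, real_inner_self_eq_norm_sq, Complex.real_smul, Complex.real_smul]

private theorem B0_memEL {ℓ : ℝ} (hℓ : 0 < ℓ) (p : ℝ[X]) (n : ℕ) :
    MemLp (fun ω => (p.coeff n : ℂ) * en n ω) 2 (muL ℓ) := by
  have := prob_muL hℓ
  apply MemLp.of_bound (C := |p.coeff n|)
  · apply Continuous.aestronglyMeasurable
    unfold en
    fun_prop
  · apply Filter.Eventually.of_forall
    intro ω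
    unfold en
    rw [norm_mul, Complex.norm_real, Complex.norm_exp, Real.norm_eq_abs]
    have : ((n : ℂ) * ω * I).re = 0 := by simp
    rw [this, Real.exp_zero, mul_one]

private theorem B0_coeEL {ℓ : ℝ} (hℓ : 0 < ℓ) (p : ℝ[X]) (n : ℕ) :
    EL p ℓ n =ᵐ[muL ℓ] fun ω => (p.coeff n : ℂ) * en n ω := by
  unfold EL
  rw [dif_pos (B0_memEL hℓ p n)]
  exact MemLp.coeFn_toLp _

private theorem B0_coeSum {ℓ : ℝ} (hℓ : 0 < ℓ) (p : ℝ[X]) (a : ℕ → ℝ) (s : Finset ℕ) :
    ((∑ n ∈ s, a n • EL p ℓ n : HL ℓ) : ℝ → ℂ) =ᵐ[muL ℓ]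
      fun ω => ∑ n ∈ s, (a n : ℂ) * ((p.coeff n : ℂ) * en n ω) := by
  classical
  induction s using Finset.induction_on with
  | empty =>
    simp only [Finset.sum_empty]
    exact Lp.coeFn_zero _ _ _
  | insert m s hm ih =>
    rw [Finset.sum_insert hm]
    filter_upwards [Lp.coeFn_add (a m • EL p ℓ m) (∑ n ∈ s, a n • EL p ℓ n),
      Lp.coeFn_smul (a m) (EL p ℓ m), B0_coeEL hℓ p m, ih] with ω h1 h2 h3 h4
    rw [h1, Pi.add_apply, h2, Pi.smul_apply, h3, h4, Finset.sum_insert hm, Complex.real_smul]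

/-- B0h. `vL` is the curve of the vectors `EL p ℓ n`. -/
theorem vL_eq_cur {ℓ : ℝ} (hℓ : 0 < ℓ) (p : ℝ[X]) (u : ℝ) :
    vL p ℓ u = cur p.support (EL p ℓ) u ∧ vL (dX p) ℓ u = cur' p.support (EL p ℓ) u := by
  have hexp : ∀ (n : ℕ) (ω : ℝ), Complex.exp (n * (u + ω * I)) =
      ((Real.exp (n * u) : ℝ) : ℂ) * en n ω := by
    intro n ω
    unfold en
    rw [Complex.ofReal_exp, ← Complex.exp_add]
    congr 1
    push_cast
    ring
  constructor
  · apply Lp.ext
    unfold cur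
    filter_upwards [coeFn_vL hℓ p u,
      B0_coeSum hℓ p (fun n => Real.exp (n * u)) p.support] with ω h1 h2
    rw [h1, h2, ev_sum]
    apply Finset.sum_congr rfl
    intro n _
    rw [hexp]
    ring
  · apply Lp.ext
    unfold cur'
    filter_upwards [coeFn_vL hℓ (dX p) u,
      B0_coeSum hℓ p (fun n => (n : ℝ) * Real.exp (n * u)) p.support] with ω h1 h2
    rw [h1, h2, B0_sum (dX p) (u + ω * I) (s := p.support)]
    · apply Finset.sum_congr rfl
      intro n _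
      rw [hexp]
      have hc : (dX p).coeff n = n * p.coeff n := by
        unfold dX
        cases n with
        | zero => simp
        | succ m =>
          rw [coeff_X_mul, coeff_derivative]
          push_cast
          ring
      rw [hc]
      push_cast
      ring
    · intro n hn
      rw [mem_support_iff] at hn ⊢
      intro h0
      apply hn
      unfold dX
      cases n with
      | zero => simp
      | succ m =>
        rw [coeff_X_mul, coeff_derivative, h0, zero_mul]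

/-- B0i. PROOF. Else `p(e^{u+iω}) = 0` for almost all `ω > 0`, and `p` has infinitely many roots. -/
theorem vL_ne_zero {ℓ : ℝ} (hℓ : 0 < ℓ) {p : ℝ[X]} (hp : p ≠ 0) (u : ℝ) : vL p ℓ u ≠ 0 := by
  have := prob_muL hℓ
  intro h0
  set Q : ℂ[X] := p.map (algebraMap ℝ ℂ) with hQ
  have hQ0 : Q ≠ 0 := (Polynomial.map_ne_zero_iff (algebraMap ℝ ℂ).injective).mpr hp
  have hZ : {ω : ℝ | ev p (u + ω * I) = 0}.Countable := by
    have h1 : {ω : ℝ | ev p (u + ω * I) = 0} ⊆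
        (fun ω : ℝ => (u : ℂ) + ω * I) ⁻¹' (Complex.exp ⁻¹' (Q.roots.toFinset : Set ℂ)) := by
      intro ω hω
      simp only [Set.mem_preimage, Finset.mem_coe, Multiset.mem_toFinset]
      rw [mem_roots hQ0]
      exact hω
    apply Set.Countable.mono h1
    apply Set.Countable.preimage_of_injOn ((Q.roots.toFinset.countable_toSet).preimage_cexp)
    apply Function.Injective.injOn
    intro a b hab
    simpa using hab
  set Z : Set ℝ := {ω : ℝ | ev p (u + ω * I) = 0} with hZdef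
  have hv : volume Z = 0 := hZ.measure_zero volume
  have hm : muL ℓ Z = 0 := by
    have hac : muL ℓ ≪ volume := by
      unfold muL
      exact (withDensity_absolutelyContinuous _ _).trans Measure.restrict_le_self.absolutelyContinuous
    exact hac hv
  have hae : ∀ᵐ ω : ℝ ∂(muL ℓ), ev p (u + ω * I) = 0 := by
    filter_upwards [coeFn_vL hℓ p u, Lp.coeFn_zero ℂ 2 (muL ℓ)] with ω h1 h2
    rw [← h1, h0, h2]
    rfl
  have hae2 : ∀ᵐ ω : ℝ ∂(muL ℓ), ¬ ev p (u + ω * I) = 0 := by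
    rw [ae_iff]
    simp only [not_not]
    exact hm
  have hF : ∀ᵐ _ω ∂(muL ℓ), False := by
    filter_upwards [hae, hae2] with ω h1 h2 using h2 h1
  rw [Filter.eventually_false_iff_eq_bot, ae_eq_bot] at hF
  exact IsProbabilityMeasure.ne_zero (muL ℓ) hF

/-- B0j. PROOF. `crofton_int`, `vL_eq_cur`. -/
theorem total : ∃ c₁ : ℝ, 0 < c₁ ∧ ∀ (p : ℝ[X]), p ≠ 0 → ∀ ℓ : ℝ, 0 < ℓ →
    Continuous (sp p ℓ) ∧ Integrable (sp p ℓ) volume ∧ (∀ u, 0 ≤ sp p ℓ u) ∧
      ∫ u, sp p ℓ u ≤ c₁ * p.support.card := by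
  obtain ⟨c₁, hc, h⟩ := crofton_int
  refine ⟨c₁, hc, ?_⟩
  intro p hp ℓ hℓ
  have hsp : sp p ℓ = fun u => spd (cur p.support (EL p ℓ) u) (cur' p.support (EL p ℓ) u) := by
    funext u
    unfold sp
    rw [(vL_eq_cur hℓ p u).1, (vL_eq_cur hℓ p u).2]
  have h1 := h (HL ℓ) p.support (EL p ℓ) (fun u => by
    rw [← (vL_eq_cur hℓ p u).1]
    exact vL_ne_zero hℓ hp u)
  rw [← hsp] at h1
  refine ⟨h1.1, h1.2.1, ?_, ?_⟩
  · intro u
    unfold sp spd
    positivity
  · exact h1.2.2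

/-- B0k. -/
theorem hasDerivAt_vL {ℓ : ℝ} (hℓ : 0 < ℓ) (p : ℝ[X]) (u : ℝ) :
    HasDerivAt (vL p ℓ) (vL (dX p) ℓ u) u ∧ Continuous (vL (dX p) ℓ) := by
  have h1 : vL p ℓ = cur p.support (EL p ℓ) := by
    funext u
    exact (vL_eq_cur hℓ p u).1
  have h2 : vL (dX p) ℓ = cur' p.support (EL p ℓ) := by
    funext u
    exact (vL_eq_cur hℓ p u).2
  rw [h1, h2]
  refine ⟨hasDerivAt_cur _ _ _, ?_⟩
  unfold cur'
  fun_prop

end Pool.Agent.MP_c11b14_lc.OP
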