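import Pool.Agent.Lib.MP_c11b14_lc.OP.B0

set_option autoImplicit false

/-! Task B1: the commutator estimate. -/

namespace Pool.Agent.MP_c11b14_lc.OP

open Polynomial Complex MeasureTheory

private theorem B1_deriv (p : ℝ[X]) (u ω : ℝ) :
    HasDerivAt (fun ω : ℝ => ev p (u + ω * I)) (I * ev (dX p) (u + ω * I)) ω := by
  have h1 : HasDerivAt (fun ω : ℝ => (u : ℂ) + (ω : ℂ) * I) I ω := by
    have h2 : HasDerivAt (fun ω : ℝ => (ω : ℂ)) 1 ω := Complex.ofRealCLM.hasDerivAt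
    simpa using (h2.mul_const I).const_add (u : ℂ)
  have h3 := (hasDerivAt_ev p ((u : ℂ) + (ω : ℂ) * I)).scomp ω h1
  exact h3.congr_deriv (smul_eq_mul _ _)

private theorem B1_cont (p : ℝ[X]) (u : ℝ) : Continuous (fun ω : ℝ => ev p (u + ω * I)) := by
  rw [continuous_iff_continuousAt]
  intro ω
  exact (B1_deriv p u ω).continuousAt

/-- integration by parts for a bounded function with bounded derivative which vanishes at `0` -/
private theorem B1_parts {ℓ : ℝ} (hℓ : 0 < ℓ) (g g' : ℝ → ℝ) (hg : ∀ x, HasDerivAt g (g' x) x)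
    (hg' : Continuous g') (K K' : ℝ) (hK : ∀ x, |g x| ≤ K) (hK' : ∀ x, |g' x| ≤ K') (h0 : g 0 = 0) :
    ∫ ω, g' ω ∂(muL ℓ) = 1 / ℓ * ∫ ω, g ω ∂(muL ℓ) := by
  have hgc : Continuous g := continuous_iff_continuousAt.2 fun x => (hg x).continuousAt
  rw [integral_muL hℓ, integral_muL hℓ]
  set w : ℝ → ℝ := fun ω => Real.exp (-ω / ℓ) / ℓ with hw
  have hwd : ∀ x, HasDerivAt w (-(1 / ℓ) * w x) x := by
    intro x
    have h1 : HasDerivAt (fun ω : ℝ => -ω / ℓ) (-1 / ℓ) x := ((hasDerivAt_id x).neg).div_const ℓ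
    have h2 := (h1.exp).div_const ℓ
    exact h2.congr_deriv (by rw [hw]; ring)
  have hwc : Continuous w := continuous_iff_continuousAt.2 fun x => (hwd x).continuousAt
  have hwi : IntegrableOn w (Set.Ioi 0) := by
    have h1 : IntegrableOn (fun x : ℝ => Real.exp (-(1 / ℓ) * x)) (Set.Ioi 0) :=
      exp_neg_integrableOn_Ioi 0 (by positivity)
    have h2 : IntegrableOn (fun x : ℝ => Real.exp (-(1 / ℓ) * x) * (1 / ℓ)) (Set.Ioi 0) :=
      h1.mul_const (1 / ℓ)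
    refine IntegrableOn.congr_fun h2 ?_ measurableSet_Ioi
    intro x _
    show Real.exp (-(1 / ℓ) * x) * (1 / ℓ) = Real.exp (-x / ℓ) / ℓ
    rw [show -(1 / ℓ) * x = -x / ℓ by ring]
    ring
  have hi1 : IntegrableOn (fun x => w x • g x) (Set.Ioi 0) := by
    refine Integrable.mul_bdd (c := K) hwi hgc.aestronglyMeasurable ?_
    exact Filter.Eventually.of_forall hK
  have hi2 : IntegrableOn (fun x => w x • g' x) (Set.Ioi 0) := by
    refine Integrable.mul_bdd (c := K') hwi hg'.aestronglyMeasurable ?_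
    exact Filter.Eventually.of_forall hK'
  have hlim : Filter.Tendsto (fun x => w x * g x) Filter.atTop (nhds 0) := by
    have h1 : Filter.Tendsto (fun x : ℝ => Real.exp (-x / ℓ) / ℓ * K) Filter.atTop (nhds 0) := by
      have h2 : Filter.Tendsto (fun x : ℝ => -x / ℓ) Filter.atTop Filter.atBot := by
        have h3 : Filter.Tendsto (fun x : ℝ => x / ℓ) Filter.atTop Filter.atTop :=
          Filter.tendsto_id.atTop_div_const hℓ
        have h4 := Filter.tendsto_neg_atTop_atBot.comp h3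
        refine h4.congr fun x => ?_
        show -(x / ℓ) = -x / ℓ
        ring
      have h3 := (Real.tendsto_exp_atBot.comp h2).div_const ℓ
      have h4 := h3.mul_const K
      simpa using h4
    refine squeeze_zero_norm (fun x => ?_) h1
    rw [norm_mul]
    have h2 : ‖w x‖ = w x := by
      rw [Real.norm_of_nonneg]
      rw [hw]
      positivity
    rw [h2]
    exact mul_le_mul_of_nonneg_left (hK x) (by rw [hw]; positivity)
  have key := integral_Ioi_of_hasDerivAt_of_tendsto (a := (0 : ℝ)) (f := fun x => w x * g x)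
    (f' := fun x => w x • g' x - 1 / ℓ * (w x • g x)) (m := 0)
    (hwc.mul hgc).continuousWithinAt (fun x _ => by
      have h1 := (hwd x).mul (hg x)
      exact h1.congr_deriv (by simp only [smul_eq_mul]; ring)) (hi2.sub (hi1.const_mul (1 / ℓ))) hlim
  rw [integral_sub hi2 (hi1.const_mul (1 / ℓ)), integral_const_mul] at key
  simp only [h0, mul_zero, sub_zero] at key
  linarith

/-- B1a. PROOF. Let `a(ω) = ev p (u + iω)`, `b(ω) = ev q (u' + iω)`; `ev (dX p) (u + iω) = -i a'(ω)` (`hasDerivAt_ev`). The left side is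
`Re ∫_0^∞ [(-i a') b̄ + a (-i) b̄'] w = Re (-i ∫ (a b̄)' w)`, `w = e^{-ω/ℓ}/ℓ`; integrate by parts on `(0, ∞)` (`MeasureTheory.integral_Ioi_mul_deriv_eq_deriv_mul` or
`integral_Ioi_of_hasDerivAt_of_tendsto` for `a b̄ w`; everything is bounded times `w`): `= Re(i a(0) b̄(0) w(0)) + Re(-(i/ℓ) ∫ a b̄ w)`, and `a(0), b(0)` are real (`ev_real`). -/
theorem commut_eq {ℓ : ℝ} (hℓ : 0 < ℓ) (p q : ℝ[X]) (u u' : ℝ) :
    inner ℝ (vL (dX p) ℓ u) (vL q ℓ u') - inner ℝ (vL p ℓ u) (vL (dX q) ℓ u') =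
      1 / ℓ * ∫ ω, (ev p (u + ω * I) * (starRingEnd ℂ) (ev q (u' + ω * I))).im ∂(muL ℓ) := by
  have hprob := prob_muL hℓ
  rw [inner_vL hℓ, inner_vL hℓ]
  obtain ⟨Ka, hKa⟩ := ev_bdd p u
  obtain ⟨KA, hKA⟩ := ev_bdd (dX p) u
  obtain ⟨Kb, hKb⟩ := ev_bdd q u'
  obtain ⟨KB, hKB⟩ := ev_bdd (dX q) u'
  have hKa0 : 0 ≤ Ka := (norm_nonneg _).trans (hKa 0)
  have hKA0 : 0 ≤ KA := (norm_nonneg _).trans (hKA 0)
  have hKb0 : 0 ≤ Kb := (norm_nonneg _).trans (hKb 0)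
  have hKB0 : 0 ≤ KB := (norm_nonneg _).trans (hKB 0)
  have hca := B1_cont p u
  have hcA := B1_cont (dX p) u
  have hcb := B1_cont q u'
  have hcB := B1_cont (dX q) u'
  -- integrability
  have hint : ∀ (f h : ℝ → ℂ), Continuous f → Continuous h → ∀ K L : ℝ, (∀ ω, ‖f ω‖ ≤ K) →
      (∀ ω, ‖h ω‖ ≤ L) → Integrable (fun ω => (f ω * (starRingEnd ℂ) (h ω)).re) (muL ℓ) := by
    intro f h hf hh K L hK hL
    have hc : Continuous (fun ω => (f ω * (starRingEnd ℂ) (h ω)).re) :=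
      Complex.continuous_re.comp (hf.mul (Complex.continuous_conj.comp hh))
    refine Integrable.of_bound (C := K * L) hc.aestronglyMeasurable ?_
    refine Filter.Eventually.of_forall fun ω => ?_
    calc ‖(f ω * (starRingEnd ℂ) (h ω)).re‖ ≤ ‖f ω * (starRingEnd ℂ) (h ω)‖ := Complex.abs_re_le_norm _
      _ = ‖f ω‖ * ‖h ω‖ := by rw [norm_mul, RCLike.norm_conj]
      _ ≤ K * L := mul_le_mul (hK ω) (hL ω) (norm_nonneg _) ((norm_nonneg _).trans (hK ω))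
  rw [← integral_sub (hint _ _ hcA hcb KA Kb hKA hKb) (hint _ _ hca hcB Ka KB hKa hKB)]
  refine B1_parts hℓ (fun ω => (ev p (u + ω * I) * (starRingEnd ℂ) (ev q (u' + ω * I))).im)
    (fun ω => (ev (dX p) (u + ω * I) * (starRingEnd ℂ) (ev q (u' + ω * I))).re -
      (ev p (u + ω * I) * (starRingEnd ℂ) (ev (dX q) (u' + ω * I))).re) ?_ ?_ (Ka * Kb)
    (KA * Kb + Ka * KB) ?_ ?_ ?_
  · intro ω
    have h1 := B1_deriv p u ω
    have h2 := (B1_deriv q u' ω).star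
    have h3 := h1.mul h2
    have h4 := (Complex.imCLM.hasFDerivAt).comp_hasDerivAt ω h3
    refine h4.congr_deriv ?_
    simp only [Complex.imCLM_apply, star_mul', Complex.star_def, Complex.conj_I]
    simp only [Complex.add_im, Complex.mul_im, Complex.mul_re, Complex.I_re, Complex.I_im,
      Complex.conj_re, Complex.conj_im, Complex.neg_re, Complex.neg_im]
    ring
  · exact (Complex.continuous_re.comp (hcA.mul (Complex.continuous_conj.comp hcb))).sub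
      (Complex.continuous_re.comp (hca.mul (Complex.continuous_conj.comp hcB)))
  · intro ω
    calc |(ev p (u + ω * I) * (starRingEnd ℂ) (ev q (u' + ω * I))).im|
        ≤ ‖ev p (u + ω * I) * (starRingEnd ℂ) (ev q (u' + ω * I))‖ := Complex.abs_im_le_norm _
      _ = ‖ev p (u + ω * I)‖ * ‖ev q (u' + ω * I)‖ := by rw [norm_mul, RCLike.norm_conj]
      _ ≤ Ka * Kb := mul_le_mul (hKa ω) (hKb ω) (norm_nonneg _) hKa0
  · intro ω
    have h1 : |(ev (dX p) (u + ω * I) * (starRingEnd ℂ) (ev q (u' + ω * I))).re| ≤ KA * Kb := by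
      calc _ ≤ ‖ev (dX p) (u + ω * I) * (starRingEnd ℂ) (ev q (u' + ω * I))‖ :=
            Complex.abs_re_le_norm _
        _ = ‖ev (dX p) (u + ω * I)‖ * ‖ev q (u' + ω * I)‖ := by rw [norm_mul, RCLike.norm_conj]
        _ ≤ KA * Kb := mul_le_mul (hKA ω) (hKb ω) (norm_nonneg _) hKA0
    have h2 : |(ev p (u + ω * I) * (starRingEnd ℂ) (ev (dX q) (u' + ω * I))).re| ≤ Ka * KB := by
      calc _ ≤ ‖ev p (u + ω * I) * (starRingEnd ℂ) (ev (dX q) (u' + ω * I))‖ :=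
            Complex.abs_re_le_norm _
        _ = ‖ev p (u + ω * I)‖ * ‖ev (dX q) (u' + ω * I)‖ := by rw [norm_mul, RCLike.norm_conj]
        _ ≤ Ka * KB := mul_le_mul (hKa ω) (hKB ω) (norm_nonneg _) hKa0
    exact (abs_sub _ _).trans (add_le_add h1 h2)
  · have e1 : ((u : ℂ) + ((0 : ℝ) : ℂ) * I) = (u : ℂ) := by simp
    have e2 : ((u' : ℂ) + ((0 : ℝ) : ℂ) * I) = (u' : ℂ) := by simp
    show (ev p (u + ((0 : ℝ) : ℂ) * I) * (starRingEnd ℂ) (ev q (u' + ((0 : ℝ) : ℂ) * I))).im = 0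
    rw [e1, e2, ev_real, ev_real, Complex.conj_ofReal, ← Complex.ofReal_mul, Complex.ofReal_im]

/-- B1b. PROOF. `commut_eq` with `q = p`; with `c = ‖vL p u'‖/‖vL p u‖` real, `Im ∫ a b̄ = Im ∫ a (b - c a)‾` as `Im(a ā) = 0`; Cauchy-Schwarz (e.g. `|Im (a z̄)| ≤ ‖a‖ ‖z‖`,
`integral_mul_norm_le_Lp_mul_Lq` or `2‖a‖‖z‖ ≤ t ‖a‖² + ‖z‖²/t`, and `norm_comb_vL`). -/
theorem commut {ℓ : ℝ} (hℓ : 0 < ℓ) {p : ℝ[X]} (hp : p ≠ 0) (u u' : ℝ) :
    |inner ℝ (vL (dX p) ℓ u) (vL p ℓ u') - inner ℝ (vL p ℓ u) (vL (dX p) ℓ u')| ≤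
      1 / ℓ * ‖vL p ℓ u‖ * ‖vL p ℓ u' - (‖vL p ℓ u'‖ / ‖vL p ℓ u‖) • vL p ℓ u‖ := by
  rw [commut_eq hℓ]
  obtain ⟨f, hf⟩ : ∃ f : HL ℓ, f = vL p ℓ u := ⟨_, rfl⟩
  obtain ⟨g, hg⟩ : ∃ g : HL ℓ, g = vL p ℓ u' := ⟨_, rfl⟩
  obtain ⟨c, hc⟩ : ∃ c : ℝ, c = ‖vL p ℓ u'‖ / ‖vL p ℓ u‖ := ⟨_, rfl⟩
  rw [← hc, ← hf, ← hg]
  have h1 : inner ℂ f g = ∫ ω, inner ℂ (f ω) (g ω) ∂(muL ℓ) := L2.inner_def f g
  have h2 : (inner ℂ f g).im = ∫ ω, (inner ℂ (f ω) (g ω)).im ∂(muL ℓ) := by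
    rw [h1]
    exact (integral_im (L2.integrable_inner (𝕜 := ℂ) f g)).symm
  have h3 : ∫ ω, (inner ℂ (f ω) (g ω)).im ∂(muL ℓ) =
      -∫ ω, (ev p (u + ω * I) * (starRingEnd ℂ) (ev p (u' + ω * I))).im ∂(muL ℓ) := by
    rw [← integral_neg]
    apply integral_congr_ae
    filter_upwards [coeFn_vL hℓ p u, coeFn_vL hℓ p u'] with ω h4 h5
    rw [hf, hg, h4, h5, RCLike.inner_apply]
    simp only [Complex.mul_im, Complex.conj_re, Complex.conj_im]
    ring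
  have h6 : |∫ ω, (ev p (u + ω * I) * (starRingEnd ℂ) (ev p (u' + ω * I))).im ∂(muL ℓ)| =
      |(inner ℂ f g).im| := by
    rw [h2, h3, abs_neg]
  have h7 : (inner ℂ f g).im = (inner ℂ f (g - c • f)).im := by
    have h8 : (c • f : HL ℓ) = (c : ℂ) • f := RCLike.real_smul_eq_coe_smul (K := ℂ) c f
    rw [h8, inner_sub_right, inner_smul_right, inner_self_eq_norm_sq_to_K, Complex.sub_im]
    have h9 : ((c : ℂ) * ((‖f‖ : ℂ)) ^ 2).im = 0 := by
      rw [← Complex.ofReal_pow, ← Complex.ofReal_mul, Complex.ofReal_im]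
    have h10 : ((c : ℂ) * (RCLike.ofReal ‖f‖ : ℂ) ^ 2).im = 0 := h9
    rw [h10, sub_zero]
  rw [abs_mul, abs_of_pos (by positivity : 0 < 1 / ℓ), h6, h7, mul_assoc]
  refine mul_le_mul_of_nonneg_left ?_ (by positivity)
  calc |(inner ℂ f (g - c • f)).im| ≤ ‖inner ℂ f (g - c • f)‖ := Complex.abs_im_le_norm _
    _ ≤ ‖f‖ * ‖g - c • f‖ := norm_inner_le_norm _ _

end Pool.Agent.MP_c11b14_lc.OP
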