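import Pool.Agent.Lib.MP_c11b14_lc.OP.A3

set_option autoImplicit false

/-! Task B2: if the direction turns little, the norm is nearly exponential. -/

namespace Pool.Agent.MP_c11b14_lc.OP

open MeasureTheory

private theorem B2_norm_dir {V : Type} [NormedAddCommGroup V] [InnerProductSpace ℝ V] {x : V}
    (hx : x ≠ 0) : ‖dir x‖ = 1 := by
  have h : ‖x‖ ≠ 0 := norm_ne_zero_iff.mpr hx
  unfold dir
  rw [norm_smul, norm_inv, norm_norm, inv_mul_cancel₀ h]

private theorem B2_smul_dir {V : Type} [NormedAddCommGroup V] [InnerProductSpace ℝ V] {x : V}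
    (hx : x ≠ 0) : ‖x‖ • dir x = x := by
  have h : ‖x‖ ≠ 0 := norm_ne_zero_iff.mpr hx
  unfold dir
  rw [smul_smul, mul_inv_cancel₀ h, one_smul]

/-- decomposition `x' = ‖x‖ (lam dir x + P)`. -/
private theorem B2_dec {V : Type} [NormedAddCommGroup V] [InnerProductSpace ℝ V] {x : V} (x' : V)
    (hx : x ≠ 0) : ∃ P : V, x' = ‖x‖ • (lam x x' • dir x + P) ∧ inner ℝ P (dir x) = 0 ∧
      ‖P‖ = spd x x' := by
  have h : ‖x‖ ≠ 0 := norm_ne_zero_iff.mpr hx
  refine ⟨‖x‖⁻¹ • (x' - lam x x' • x), ?_, ?_, ?_⟩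
  · unfold dir
    rw [smul_add, smul_smul, smul_smul, smul_smul, mul_inv_cancel₀ h, one_smul]
    have h2 : ‖x‖ * lam x x' * ‖x‖⁻¹ = lam x x' := by field_simp
    simp only [h2]
    abel
  · unfold dir
    rw [inner_smul_left, inner_smul_right, inner_sub_left, inner_smul_left]
    have h3 : inner ℝ x' x = lam x x' * (inner ℝ x x : ℝ) := by
      unfold lam
      rw [real_inner_self_eq_norm_sq, real_inner_comm x x']
      field_simp
    simp only [conj_trivial]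
    rw [h3]
    ring
  · rw [norm_smul, norm_inv, norm_norm]
    unfold spd
    rw [div_eq_inv_mul]

/-- B2a. PROOF. With `ρ = ‖φ‖`, `Γ = dir φ`, `Γ' = ρ⁻¹ (φ' - lam φ)`, `⟪Γ', Γ⟫ = 0`, `‖Γ'‖ = spd`, `Δ = ‖Γ u' - Γ u‖`:
`⟪φ' u, φ u'⟫ = ρ(u) ρ(u') (lam(u) ⟪Γ u, Γ u'⟫ + ⟪Γ' u, Γ u' - Γ u⟫)` and the same with `u, u'` exchanged, so the hypothesis (right side `= (1/ℓ) ρ(u) ρ(u') Δ`) gives
`|lam(u) - lam(u')| ⟪Γ u, Γ u'⟫ ≤ Δ (1/ℓ + spd(u) + spd(u'))`, and `⟪Γ u, Γ u'⟫ = 1 - Δ²/2 ≥ 1/2` for `Δ ≤ 1`. -/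
theorem lam_sub {V : Type} [NormedAddCommGroup V] [InnerProductSpace ℝ V] {x x' y y' : V} {ℓ : ℝ}
    (hℓ : 0 < ℓ) (hx : x ≠ 0) (hy : y ≠ 0)
    (h : |inner ℝ x' y - inner ℝ x y'| ≤ 1 / ℓ * ‖x‖ * ‖y - (‖y‖ / ‖x‖) • x‖)
    (hΔ : ‖dir y - dir x‖ ≤ 1) :
    |lam x x' - lam y y'| ≤ 2 * ‖dir y - dir x‖ * (1 / ℓ + spd x x' + spd y y') := by
  obtain ⟨P, hP, hPX, hPn⟩ := B2_dec x' hx
  obtain ⟨Q, hQ, hQY, hQn⟩ := B2_dec y' hy
  have hxn : 0 < ‖x‖ := norm_pos_iff.mpr hx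
  have hyn : 0 < ‖y‖ := norm_pos_iff.mpr hy
  set X := dir x with hX
  set Y := dir y with hY
  set L := lam x x' with hL
  set M := lam y y' with hM
  have hX1 : ‖X‖ = 1 := B2_norm_dir hx
  have hY1 : ‖Y‖ = 1 := B2_norm_dir hy
  have hxX : x = ‖x‖ • X := (B2_smul_dir hx).symm
  have hyY : y = ‖y‖ • Y := (B2_smul_dir hy).symm
  -- inner products
  have e1 : inner ℝ x' y = ‖x‖ * ‖y‖ * (L * inner ℝ X Y + inner ℝ P (Y - X)) := by
    have : inner ℝ x' y = inner ℝ (‖x‖ • (L • X + P)) (‖y‖ • Y) := by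
      rw [← hP, ← hyY]
    rw [this, inner_smul_left, inner_smul_right, inner_add_left, inner_smul_left, inner_sub_right, hPX]
    simp only [conj_trivial]
    ring
  have e2 : inner ℝ x y' = ‖x‖ * ‖y‖ * (M * inner ℝ X Y + inner ℝ (X - Y) Q) := by
    have : inner ℝ x y' = inner ℝ (‖x‖ • X) (‖y‖ • (M • Y + Q)) := by
      rw [← hQ, ← hxX]
    have hYQ : inner ℝ Y Q = 0 := by rw [real_inner_comm]; exact hQY
    rw [this, inner_smul_left, inner_smul_right, inner_add_right, inner_smul_right, inner_sub_left, hYQ]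
    simp only [conj_trivial]
    ring
  have e3 : ‖y - (‖y‖ / ‖x‖) • x‖ = ‖y‖ * ‖Y - X‖ := by
    have : y - (‖y‖ / ‖x‖) • x = ‖y‖ • (Y - X) := by
      conv_lhs => rw [hxX]
      conv_lhs => rw [hyY]
      rw [norm_smul, norm_smul, hX1, hY1, norm_norm, norm_norm]
      rw [smul_smul, smul_sub]
      congr 2
      field_simp
    rw [this, norm_smul, norm_norm]
  set D := ‖Y - X‖ with hD
  have hD0 : 0 ≤ D := norm_nonneg _
  have hXY : inner ℝ X Y = 1 - D ^ 2 / 2 := by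
    have := norm_sub_sq_real Y X
    rw [hX1, hY1, ← hD] at this
    rw [real_inner_comm]
    linarith
  have hXY2 : (1 : ℝ) / 2 ≤ inner ℝ X Y := by
    rw [hXY]; nlinarith
  rw [e1, e2, e3, ← mul_sub, abs_mul, abs_of_pos (mul_pos hxn hyn)] at h
  have h' : |L * inner ℝ X Y + inner ℝ P (Y - X) - (M * inner ℝ X Y + inner ℝ (X - Y) Q)| ≤ 1 / ℓ * D := by
    have hp := mul_pos hxn hyn
    have : ‖x‖ * ‖y‖ * |L * inner ℝ X Y + inner ℝ P (Y - X) - (M * inner ℝ X Y + inner ℝ (X - Y) Q)|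
        ≤ ‖x‖ * ‖y‖ * (1 / ℓ * D) := by
      calc _ ≤ 1 / ℓ * ‖x‖ * (‖y‖ * D) := h
        _ = _ := by ring
    exact le_of_mul_le_mul_left this hp
  have a1 : |inner ℝ P (Y - X)| ≤ spd x x' * D := by
    rw [← hPn]; exact abs_real_inner_le_norm _ _
  have a2 : |inner ℝ (X - Y) Q| ≤ D * spd y y' := by
    rw [← hQn, hD, norm_sub_rev Y X]; exact abs_real_inner_le_norm _ _
  have h3 : |L - M| * inner ℝ X Y ≤ D * (1 / ℓ + spd x x' + spd y y') := by
    have : |L - M| * inner ℝ X Y = |(L - M) * inner ℝ X Y| := by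
      rw [abs_mul, abs_of_nonneg (by linarith : (0:ℝ) ≤ inner ℝ X Y)]
    rw [this]
    have e : (L - M) * inner ℝ X Y = (L * inner ℝ X Y + inner ℝ P (Y - X) - (M * inner ℝ X Y + inner ℝ (X - Y) Q))
        - inner ℝ P (Y - X) + inner ℝ (X - Y) Q := by ring
    rw [e]
    calc _ ≤ |L * inner ℝ X Y + inner ℝ P (Y - X) - (M * inner ℝ X Y + inner ℝ (X - Y) Q)
        - inner ℝ P (Y - X)| + |inner ℝ (X - Y) Q| := abs_add_le _ _
      _ ≤ (|L * inner ℝ X Y + inner ℝ P (Y - X) - (M * inner ℝ X Y + inner ℝ (X - Y) Q)| + |inner ℝ P (Y - X)|) + |inner ℝ (X - Y) Q| := by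
          gcongr; exact abs_sub _ _
      _ ≤ (1 / ℓ * D + spd x x' * D) + D * spd y y' := by gcongr
      _ = _ := by ring
  have h4 : |L - M| * (1 / 2) ≤ |L - M| * inner ℝ X Y :=
    mul_le_mul_of_nonneg_left hXY2 (abs_nonneg _)
  nlinarith

private theorem B2_cont_lam {V : Type} [NormedAddCommGroup V] [InnerProductSpace ℝ V] {φ φ' : ℝ → V}
    (hc : Continuous φ) (hc' : Continuous φ') (h0 : ∀ u, φ u ≠ 0) :
    Continuous (fun u => lam (φ u) (φ' u)) := by
  unfold lam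
  exact (hc.inner hc').div (hc.norm.pow 2) (fun u => pow_ne_zero 2 (norm_ne_zero_iff.mpr (h0 u)))

private theorem B2_cont_spd {V : Type} [NormedAddCommGroup V] [InnerProductSpace ℝ V] {φ φ' : ℝ → V}
    (hc : Continuous φ) (hc' : Continuous φ') (h0 : ∀ u, φ u ≠ 0) :
    Continuous (fun u => spd (φ u) (φ' u)) := by
  unfold spd
  exact ((hc'.sub ((B2_cont_lam hc hc' h0).smul hc)).norm).div hc.norm
    (fun u => norm_ne_zero_iff.mpr (h0 u))

private theorem B2_spd_nonneg {V : Type} [NormedAddCommGroup V] [InnerProductSpace ℝ V] (x y : V) :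
    0 ≤ spd x y := div_nonneg (norm_nonneg _) (norm_nonneg _)

/-- the direction moves at most `∫ spd`. -/
private theorem B2_dir_le {V : Type} [NormedAddCommGroup V] [InnerProductSpace ℝ V] {φ φ' : ℝ → V}
    (hd : ∀ u, HasDerivAt φ (φ' u) u) (hc' : Continuous φ') (h0 : ∀ u, φ u ≠ 0) {s t : ℝ}
    (hst : s ≤ t) : ‖dir (φ t) - dir (φ s)‖ ≤ ∫ u in s..t, spd (φ u) (φ' u) := by
  have hc : Continuous φ := continuous_iff_continuousAt.mpr fun u => (hd u).continuousAt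
  have hS := B2_cont_spd hc hc' h0
  have hB : ∀ v, HasDerivAt (fun v => ∫ u in s..v, spd (φ u) (φ' u)) (spd (φ v) (φ' v)) v := fun v =>
    intervalIntegral.integral_hasDerivAt_right (hS.intervalIntegrable _ _)
      (hS.stronglyMeasurableAtFilter _ _) hS.continuousAt
  have key := image_norm_le_of_norm_deriv_right_le_deriv_boundary'
    (f := fun v => dir (φ v) - dir (φ s))
    (f' := fun v => ‖φ v‖⁻¹ • (φ' v - lam (φ v) (φ' v) • φ v)) (a := s) (b := t)
    (B := fun v => ∫ u in s..v, spd (φ u) (φ' u)) (B' := fun v => spd (φ v) (φ' v))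
    (by
      apply ContinuousOn.sub _ continuousOn_const
      intro v _
      exact (hasDerivAt_dir (hd v) (h0 v)).1.continuousAt.continuousWithinAt)
    (by
      intro v _
      exact ((hasDerivAt_dir (hd v) (h0 v)).1.sub_const _).hasDerivWithinAt)
    (by simp)
    (by
      intro v _
      exact (hB v).continuousAt.continuousWithinAt)
    (by
      intro v _
      exact (hB v).hasDerivWithinAt)
    (by
      intro v _
      exact (hasDerivAt_dir (hd v) (h0 v)).2.le)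
  exact key (Set.right_mem_Icc.mpr hst)

/-- the derivative of `log ‖φ‖ - a u`. -/
private theorem B2_log {V : Type} [NormedAddCommGroup V] [InnerProductSpace ℝ V] {φ φ' : ℝ → V}
    (hd : ∀ u, HasDerivAt φ (φ' u) u) (h0 : ∀ u, φ u ≠ 0) (a u : ℝ) :
    HasDerivAt (fun t => Real.log (‖φ t‖ ^ 2) / 2 - a * t) (lam (φ u) (φ' u) - a) u := by
  have hn : ‖φ u‖ ≠ 0 := norm_ne_zero_iff.mpr (h0 u)
  have h1 := (hd u).norm_sq
  have h2 := h1.log (pow_ne_zero 2 hn)
  have h3 : HasDerivAt (fun t => Real.log (‖φ t‖ ^ 2) / 2 - a * t)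
      (2 * inner ℝ (φ u) (φ' u) / ‖φ u‖ ^ 2 / 2 - a * 1) u :=
    (h2.div_const 2).sub ((hasDerivAt_id' u).const_mul a)
  refine h3.congr_deriv ?_
  unfold lam
  field_simp

private theorem B2_exp_log {V : Type} [NormedAddCommGroup V] [InnerProductSpace ℝ V] {y : V}
    (hy : y ≠ 0) (a u : ℝ) : Real.exp (Real.log (‖y‖ ^ 2) / 2 - a * u) = Real.exp (-a * u) * ‖y‖ := by
  have hn : 0 < ‖y‖ := norm_pos_iff.mpr hy
  have : Real.log (‖y‖ ^ 2) / 2 = Real.log ‖y‖ := by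
    rw [Real.log_pow]; push_cast; ring
  rw [this, sub_eq_add_neg, Real.exp_add, Real.exp_log hn]
  rw [mul_comm]
  congr 2
  ring

/-- B2b. PROOF. `I = [x - Aℓ, x + Aℓ]`, `S(u) = spd (φ u) (φ' u)`. For `u, u' ∈ I`: `‖dir (φ u') - dir (φ u)‖ ≤ ∫_I S ≤ Λ ≤ 1` (`hasDerivAt_dir`,
`norm_sub_le_integral..`/`intervalIntegral.integral_eq_sub_of_hasDerivAt` and `norm_integral_le`). Choose `u' ∈ I` with `S(u') ≤ Λ/|I|` (mean value), `a = lam(u')`. By `lam_sub`:
`∫_I |lam(u) - a| ≤ 2Λ (|I|/ℓ + Λ + Λ) ≤ (4A + 4) Λ` (`|I| = 2Aℓ`, `Λ ≤ 1`). `log (e^{-au} ‖φ u‖)` has the derivative `lam(u) - a`, so it varies by at most `(4A+4)Λ ≤ log 2` on `I`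
(choice of `ε₀`). Last, `‖φ' - aφ‖ ≤ ‖φ' - lam φ‖ + |lam - a| ‖φ‖ = ‖φ‖ (S + |lam - a|)`; `c₂ = 2 (1 + 4A + 4)`. -/
theorem ode_part (A : ℝ) (hA : 1 ≤ A) : ∃ ε₀ c₂ : ℝ, 0 < ε₀ ∧ 0 < c₂ ∧ ∀ (V : Type)
    [NormedAddCommGroup V] [InnerProductSpace ℝ V] (φ φ' : ℝ → V) (ℓ x Λ : ℝ), 0 < ℓ →
    (∀ u, HasDerivAt φ (φ' u) u) → Continuous φ' → (∀ u, φ u ≠ 0) →
    (∀ u u', |inner ℝ (φ' u) (φ u') - inner ℝ (φ u) (φ' u')| ≤
      1 / ℓ * ‖φ u‖ * ‖φ u' - (‖φ u'‖ / ‖φ u‖) • φ u‖) →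
    ∫ u in (x - A * ℓ)..(x + A * ℓ), spd (φ u) (φ' u) ≤ Λ → Λ ≤ ε₀ →
    ∃ a : ℝ, (∀ u ∈ Set.Icc (x - A * ℓ) (x + A * ℓ),
        Real.exp (-a * u) * ‖φ u‖ ≤ 2 * (Real.exp (-a * x) * ‖φ x‖) ∧
        Real.exp (-a * x) * ‖φ x‖ ≤ 2 * (Real.exp (-a * u) * ‖φ u‖)) ∧
      ∫ u in (x - A * ℓ)..(x + A * ℓ), Real.exp (-a * u) * ‖φ' u - a • φ u‖ ≤
        c₂ * Λ * (Real.exp (-a * x) * ‖φ x‖) := by
  have hA0 : 0 < A := by linarith
  have hl2 : 0 < Real.log 2 := Real.log_pos (by norm_num)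
  have hA4 : 0 < 4 * A + 4 := by linarith
  refine ⟨min 1 (Real.log 2 / (4 * A + 4)), 2 * (4 * A + 5), lt_min one_pos (div_pos hl2 hA4),
    by linarith, ?_⟩
  intro V _ _ φ φ' ℓ x Λ hℓ hd hc' h0 hcom hΛ hε
  have hΛ1 : Λ ≤ 1 := hε.trans (min_le_left _ _)
  have hΛ2 : (4 * A + 4) * Λ ≤ Real.log 2 := by
    have := hε.trans (min_le_right _ _)
    rw [le_div_iff₀ hA4] at this
    linarith
  have hAl : 0 < A * ℓ := mul_pos hA0 hℓ
  set p := x - A * ℓ with hp
  set q := x + A * ℓ with hq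
  have hpq : p ≤ q := by rw [hp, hq]; linarith
  have hpq' : p < q := by rw [hp, hq]; linarith
  have hxI : x ∈ Set.Icc p q := ⟨by rw [hp]; linarith, by rw [hq]; linarith⟩
  have hqp : q - p = 2 * A * ℓ := by rw [hp, hq]; ring
  have hc : Continuous φ := continuous_iff_continuousAt.mpr fun u => (hd u).continuousAt
  set S : ℝ → ℝ := fun u => spd (φ u) (φ' u) with hSdef
  have hS : Continuous S := B2_cont_spd hc hc' h0
  have hS0 : ∀ u, 0 ≤ S u := fun u => B2_spd_nonneg _ _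
  have hlam : Continuous (fun u => lam (φ u) (φ' u)) := B2_cont_lam hc hc' h0
  -- direction
  have hdir : ∀ s ∈ Set.Icc p q, ∀ t ∈ Set.Icc p q, ‖dir (φ t) - dir (φ s)‖ ≤ Λ := by
    have aux : ∀ s ∈ Set.Icc p q, ∀ t ∈ Set.Icc p q, s ≤ t → ‖dir (φ t) - dir (φ s)‖ ≤ Λ := by
      intro s hs t ht hst
      refine (B2_dir_le hd hc' h0 hst).trans (le_trans ?_ hΛ)
      apply intervalIntegral.integral_mono_interval hs.1 hst ht.2
      · exact Filter.Eventually.of_forall fun u => hS0 u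
      · exact hS.intervalIntegrable _ _
    intro s hs t ht
    rcases le_total s t with h | h
    · exact aux s hs t ht h
    · rw [norm_sub_rev]; exact aux t ht s hs h
  have hΛ0 : 0 ≤ Λ := le_trans (norm_nonneg _) (hdir x hxI x hxI)
  -- the point of minimal speed
  obtain ⟨v, hvI, hv⟩ := isCompact_Icc.exists_isMinOn (Set.nonempty_Icc.mpr hpq) hS.continuousOn (s := Set.Icc p q)
  have hSv : (q - p) * S v ≤ Λ := by
    have : ∫ u in p..q, S v ≤ ∫ u in p..q, S u := by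
      apply intervalIntegral.integral_mono_on hpq (by simp) (hS.intervalIntegrable _ _)
      intro u hu
      exact hv hu
    rw [intervalIntegral.integral_const, smul_eq_mul] at this
    exact this.trans hΛ
  set a := lam (φ v) (φ' v) with ha
  have hsub : ∀ u ∈ Set.Icc p q, |lam (φ u) (φ' u) - a| ≤ 2 * Λ * (1 / ℓ + S u + S v) := by
    intro u hu
    have h1 := lam_sub (x' := φ' u) (y' := φ' v) hℓ (h0 u) (h0 v) (hcom u v)
      ((hdir u hu v hvI).trans hΛ1)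
    refine h1.trans ?_
    have hnn : 0 ≤ 1 / ℓ + spd (φ u) (φ' u) + spd (φ v) (φ' v) := by
      have := hS0 u; have := hS0 v
      have : 0 < 1 / ℓ := by positivity
      simp only [hSdef] at *
      linarith
    have := hdir u hu v hvI
    gcongr
  have hint : ∫ u in p..q, |lam (φ u) (φ' u) - a| ≤ (4 * A + 4) * Λ := by
    have hc1 : Continuous fun u => |lam (φ u) (φ' u) - a| := (hlam.sub continuous_const).abs
    have hc2 : Continuous fun u => 2 * Λ * (1 / ℓ + S u + S v) := by fun_prop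
    have h1 : ∫ u in p..q, |lam (φ u) (φ' u) - a| ≤ ∫ u in p..q, 2 * Λ * (1 / ℓ + S u + S v) :=
      intervalIntegral.integral_mono_on hpq (hc1.intervalIntegrable _ _) (hc2.intervalIntegrable _ _) hsub
    have h2 : ∫ u in p..q, 2 * Λ * (1 / ℓ + S u + S v) =
        2 * Λ * ((q - p) / ℓ + (∫ u in p..q, S u) + (q - p) * S v) := by
      rw [intervalIntegral.integral_const_mul]
      congr 1
      have : ∀ u, 1 / ℓ + S u + S v = S u + (1 / ℓ + S v) := fun u => by ring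
      simp_rw [this]
      rw [intervalIntegral.integral_add (hS.intervalIntegrable _ _) (by simp), intervalIntegral.integral_const,
        smul_eq_mul]
      ring
    rw [h2] at h1
    have h3 : (q - p) / ℓ = 2 * A := by rw [hqp]; field_simp
    rw [h3] at h1
    refine h1.trans ?_
    have h4 : 2 * A + (∫ u in p..q, S u) + (q - p) * S v ≤ 2 * A + 1 + 1 := by linarith
    calc 2 * Λ * (2 * A + (∫ u in p..q, S u) + (q - p) * S v) ≤ 2 * Λ * (2 * A + 1 + 1) := by gcongr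
      _ = _ := by ring
  -- logarithm
  set g : ℝ → ℝ := fun t => Real.log (‖φ t‖ ^ 2) / 2 - a * t with hg
  have hgd : ∀ u, HasDerivAt g (lam (φ u) (φ' u) - a) u := fun u => B2_log hd h0 a u
  have hgexp : ∀ u, Real.exp (g u) = Real.exp (-a * u) * ‖φ u‖ := fun u => B2_exp_log (h0 u) a u
  have hgv : ∀ s ∈ Set.Icc p q, ∀ t ∈ Set.Icc p q, g t - g s ≤ Real.log 2 := by
    have hcl : Continuous fun u => lam (φ u) (φ' u) - a := hlam.sub continuous_const
    have aux : ∀ s ∈ Set.Icc p q, ∀ t ∈ Set.Icc p q, s ≤ t → |g t - g s| ≤ Real.log 2 := by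
      intro s hs t ht hst
      have e : ∫ u in s..t, (lam (φ u) (φ' u) - a) = g t - g s :=
        intervalIntegral.integral_eq_sub_of_hasDerivAt (fun u _ => hgd u) (hcl.intervalIntegrable _ _)
      rw [← e]
      refine (intervalIntegral.abs_integral_le_integral_abs hst).trans ?_
      refine le_trans ?_ (hint.trans hΛ2)
      apply intervalIntegral.integral_mono_interval hs.1 hst ht.2
      · exact Filter.Eventually.of_forall fun u => abs_nonneg _
      · exact hcl.abs.intervalIntegrable _ _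
    intro s hs t ht
    rcases le_total s t with h | h
    · exact (le_abs_self _).trans (aux s hs t ht h)
    · have := aux t ht s hs h
      rw [abs_sub_comm] at this
      exact (le_abs_self _).trans this
  have hexp : ∀ s ∈ Set.Icc p q, ∀ t ∈ Set.Icc p q,
      Real.exp (-a * t) * ‖φ t‖ ≤ 2 * (Real.exp (-a * s) * ‖φ s‖) := by
    intro s hs t ht
    rw [← hgexp, ← hgexp]
    have h1 := hgv s hs t ht
    have : g t ≤ Real.log 2 + g s := by linarith
    calc Real.exp (g t) ≤ Real.exp (Real.log 2 + g s) := Real.exp_le_exp.mpr this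
      _ = 2 * Real.exp (g s) := by rw [Real.exp_add, Real.exp_log (by norm_num)]
  refine ⟨a, fun u hu => ⟨hexp x hxI u hu, hexp u hu x hxI⟩, ?_⟩
  have hpt : ∀ u ∈ Set.Icc p q, Real.exp (-a * u) * ‖φ' u - a • φ u‖ ≤
      2 * (Real.exp (-a * x) * ‖φ x‖) * (S u + |lam (φ u) (φ' u) - a|) := by
    intro u hu
    have hn : 0 < ‖φ u‖ := norm_pos_iff.mpr (h0 u)
    have h1 : ‖φ' u - a • φ u‖ ≤ ‖φ u‖ * (S u + |lam (φ u) (φ' u) - a|) := by
      have e : φ' u - a • φ u = (φ' u - lam (φ u) (φ' u) • φ u) + (lam (φ u) (φ' u) - a) • φ u := by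
        rw [sub_smul]; abel
      rw [e]
      refine (norm_add_le _ _).trans ?_
      rw [norm_smul, Real.norm_eq_abs]
      have : ‖φ' u - lam (φ u) (φ' u) • φ u‖ = ‖φ u‖ * S u := by
        simp only [hSdef, spd]
        field_simp
      rw [this]
      apply le_of_eq
      ring
    have hnn : 0 ≤ S u + |lam (φ u) (φ' u) - a| := add_nonneg (hS0 u) (abs_nonneg _)
    calc Real.exp (-a * u) * ‖φ' u - a • φ u‖
        ≤ Real.exp (-a * u) * (‖φ u‖ * (S u + |lam (φ u) (φ' u) - a|)) := by gcongr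
      _ = (Real.exp (-a * u) * ‖φ u‖) * (S u + |lam (φ u) (φ' u) - a|) := by ring
      _ ≤ (2 * (Real.exp (-a * x) * ‖φ x‖)) * (S u + |lam (φ u) (φ' u) - a|) :=
          mul_le_mul_of_nonneg_right (hexp x hxI u hu) hnn
  have hc1 : Continuous fun u => Real.exp (-a * u) * ‖φ' u - a • φ u‖ := by fun_prop
  have hc2 : Continuous fun u => |lam (φ u) (φ' u) - a| := (hlam.sub continuous_const).abs
  have hc3 : Continuous fun u => 2 * (Real.exp (-a * x) * ‖φ x‖) * (S u + |lam (φ u) (φ' u) - a|) :=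
    continuous_const.mul (hS.add hc2)
  have h5 : (∫ u in p..q, Real.exp (-a * u) * ‖φ' u - a • φ u‖) ≤
      ∫ u in p..q, 2 * (Real.exp (-a * x) * ‖φ x‖) * (S u + |lam (φ u) (φ' u) - a|) :=
    intervalIntegral.integral_mono_on hpq (hc1.intervalIntegrable _ _)
      (hc3.intervalIntegrable _ _) hpt
  have e7 : ∫ u in p..q, 2 * (Real.exp (-a * x) * ‖φ x‖) * (S u + |lam (φ u) (φ' u) - a|) =
      2 * (Real.exp (-a * x) * ‖φ x‖) * ((∫ u in p..q, S u) + ∫ u in p..q, |lam (φ u) (φ' u) - a|) := by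
    rw [intervalIntegral.integral_const_mul, intervalIntegral.integral_add (hS.intervalIntegrable _ _)
      (hc2.intervalIntegrable _ _)]
  rw [e7] at h5
  refine h5.trans ?_
  have h6 : (∫ u in p..q, S u) + ∫ u in p..q, |lam (φ u) (φ' u) - a| ≤ (4 * A + 5) * Λ := by
    have : (4 * A + 5) * Λ = Λ + (4 * A + 4) * Λ := by ring
    rw [this]
    exact add_le_add hΛ hint
  have hE : 0 ≤ 2 * (Real.exp (-a * x) * ‖φ x‖) := by positivity
  calc 2 * (Real.exp (-a * x) * ‖φ x‖) * ((∫ u in p..q, S u) + ∫ u in p..q, |lam (φ u) (φ' u) - a|)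
      ≤ 2 * (Real.exp (-a * x) * ‖φ x‖) * ((4 * A + 5) * Λ) := mul_le_mul_of_nonneg_left h6 hE
    _ = _ := by ring

end Pool.Agent.MP_c11b14_lc.OP
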