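import Pool.Agent.Lib.MP_c11b14_lc.OP.B0

set_option autoImplicit false

/-! Task B3: from the Hilbert norm to points. -/

namespace Pool.Agent.MP_c11b14_lc.OP

open Polynomial Complex MeasureTheory

theorem B3_mean {G : ℂ → ℂ} (hG : Differentiable ℂ G) (z : ℂ) (s : ℝ) :
    2 * Real.pi * ‖G z‖ ≤
      ∫ θ in (-Real.pi)..Real.pi, ‖G (z + (s * Real.cos θ : ℝ) + (s * Real.sin θ : ℝ) * I)‖ := by
  have h1 : Real.circleAverage G z s = G z :=
    DiffContOnCl.circleAverage (hG.diffContOnCl)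
  have h2 : G z = ((2 * Real.pi)⁻¹ : ℝ) • ∫ θ in (0:ℝ)..2 * Real.pi, G (circleMap z s θ) := by
    rw [← h1]; rfl
  have hc : ∀ θ : ℝ, circleMap z s θ = z + (s * Real.cos θ : ℝ) + (s * Real.sin θ : ℝ) * I := by
    intro θ
    rw [circleMap, Complex.exp_mul_I]
    push_cast
    ring
  have hper : Function.Periodic (fun θ => ‖G (circleMap z s θ)‖) (2 * Real.pi) := by
    intro θ
    simp only
    rw [periodic_circleMap z s θ]
  have h3 : ∫ θ in (-Real.pi)..Real.pi, ‖G (circleMap z s θ)‖ =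
      ∫ θ in (0:ℝ)..2 * Real.pi, ‖G (circleMap z s θ)‖ := by
    have := hper.intervalIntegral_add_eq (-Real.pi) 0
    rw [zero_add] at this
    rw [← this]
    congr 1
    ring
  have h4 : ‖∫ θ in (0:ℝ)..2 * Real.pi, G (circleMap z s θ)‖ ≤
      ∫ θ in (0:ℝ)..2 * Real.pi, ‖G (circleMap z s θ)‖ :=
    intervalIntegral.norm_integral_le_integral_norm (by positivity)
  have h5 : 2 * Real.pi * ‖G z‖ = ‖∫ θ in (0:ℝ)..2 * Real.pi, G (circleMap z s θ)‖ := by
    rw [h2, norm_smul, Real.norm_of_nonneg (by positivity)]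
    field_simp
  simp only [← hc]
  rw [h3, h5]
  exact h4

theorem B3_disc {G : ℂ → ℂ} (hG : Differentiable ℂ G) (z : ℂ) {r : ℝ} (hr : 0 < r) :
    Real.pi * r ^ 2 * ‖G z‖ ≤
      ∫ u in (-r)..r, ∫ y in (-r)..r, ‖G (z + u + y * I)‖ := by
  set F : ℝ × ℝ → ℝ := fun q => ‖G (z + (q.1 : ℝ) + (q.2 : ℝ) * I)‖ with hF
  have hFc : Continuous F := by
    have := hG.continuous
    rw [hF]
    fun_prop
  have hF0 : ∀ q, 0 ≤ F q := fun q => norm_nonneg _
  set D : Set (ℝ × ℝ) := {q | q.1 ^ 2 + q.2 ^ 2 < r ^ 2} with hD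
  have hDm : MeasurableSet D := by
    have : IsOpen D := isOpen_lt (by fun_prop) continuous_const
    exact this.measurableSet
  set Q : Set (ℝ × ℝ) := Set.Ioc (-r) r ×ˢ Set.Ioc (-r) r with hQ
  have hQm : MeasurableSet Q := measurableSet_Ioc.prod measurableSet_Ioc
  have hFQ : IntegrableOn F Q := by
    apply (hFc.continuousOn.integrableOn_compact
      (isCompact_Icc.prod isCompact_Icc : IsCompact (Set.Icc (-r) r ×ˢ Set.Icc (-r) r))).mono_set
    exact Set.prod_mono Set.Ioc_subset_Icc_self Set.Ioc_subset_Icc_self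
  have hDQ : D ⊆ Q := by
    intro q hq
    simp only [hD, Set.mem_ofPred_eq] at hq
    have h1 : |q.1| < r := abs_lt_of_sq_lt_sq (by nlinarith [sq_nonneg q.2]) hr.le
    have h2 : |q.2| < r := abs_lt_of_sq_lt_sq (by nlinarith [sq_nonneg q.1]) hr.le
    rw [abs_lt] at h1 h2
    exact ⟨⟨h1.1, h1.2.le⟩, ⟨h2.1, h2.2.le⟩⟩
  have e1 : ∫ u in (-r)..r, ∫ y in (-r)..r, ‖G (z + u + y * I)‖ = ∫ q in Q, F q := by
    rw [hQ, Measure.volume_eq_prod, setIntegral_prod F (by rw [← Measure.volume_eq_prod]; exact hFQ)]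
    rw [intervalIntegral.integral_of_le (by linarith)]
    refine setIntegral_congr_fun measurableSet_Ioc fun u _ => ?_
    rw [intervalIntegral.integral_of_le (by linarith)]
  have e2 : ∫ q in D, F q ≤ ∫ q in Q, F q :=
    setIntegral_mono_set hFQ (Filter.Eventually.of_forall fun q => hF0 q)
      (Filter.Eventually.of_forall hDQ)
  have e3 : ∫ q in D, F q = ∫ p in polarCoord.target, p.1 • (D.indicator F) (polarCoord.symm p) := by
    rw [integral_comp_polarCoord_symm, integral_indicator hDm]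
  have e4 : ∫ p in polarCoord.target, p.1 • (D.indicator F) (polarCoord.symm p) =
      ∫ p in Set.Ioo 0 r ×ˢ Set.Ioo (-Real.pi) Real.pi,
        p.1 * F (p.1 * Real.cos p.2, p.1 * Real.sin p.2) := by
    have hS : MeasurableSet {p : ℝ × ℝ | p.1 < r} := measurableSet_lt measurable_fst measurable_const
    have : ∫ p in polarCoord.target, p.1 • (D.indicator F) (polarCoord.symm p) =
        ∫ p in polarCoord.target, ({p : ℝ × ℝ | p.1 < r}).indicator
          (fun p => p.1 * F (p.1 * Real.cos p.2, p.1 * Real.sin p.2)) p := by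
      refine setIntegral_congr_fun polarCoord.open_target.measurableSet fun p hp => ?_
      simp only [polarCoord_target, Set.mem_prod, Set.mem_Ioi] at hp
      simp only [polarCoord_symm_apply, smul_eq_mul]
      by_cases h : p.1 < r
      · rw [Set.indicator_of_mem (show p ∈ {p : ℝ × ℝ | p.1 < r} from h), Set.indicator_of_mem]
        simp only [hD, Set.mem_ofPred_eq]
        have : (p.1 * Real.cos p.2) ^ 2 + (p.1 * Real.sin p.2) ^ 2 = p.1 ^ 2 := by
          have := Real.cos_sq_add_sin_sq p.2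
          nlinarith
        rw [this]
        exact pow_lt_pow_left₀ h hp.1.le two_ne_zero
      · rw [Set.indicator_of_notMem (show p ∉ {p : ℝ × ℝ | p.1 < r} from h), Set.indicator_of_notMem,
          mul_zero]
        simp only [hD, Set.mem_ofPred_eq, not_lt]
        have : (p.1 * Real.cos p.2) ^ 2 + (p.1 * Real.sin p.2) ^ 2 = p.1 ^ 2 := by
          have := Real.cos_sq_add_sin_sq p.2
          nlinarith
        rw [this]
        exact pow_le_pow_left₀ hr.le (not_lt.1 h) 2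
    rw [this, setIntegral_indicator hS]
    congr 2
    ext p
    simp only [polarCoord_target, Set.mem_inter_iff, Set.mem_prod, Set.mem_Ioi, Set.mem_Ioo,
      Set.mem_ofPred_eq]
    tauto
  have hgc : Continuous fun p : ℝ × ℝ => p.1 * F (p.1 * Real.cos p.2, p.1 * Real.sin p.2) := by
    fun_prop
  have hgi : IntegrableOn (fun p : ℝ × ℝ => p.1 * F (p.1 * Real.cos p.2, p.1 * Real.sin p.2))
      (Set.Ioo 0 r ×ˢ Set.Ioo (-Real.pi) Real.pi) := by
    apply (hgc.continuousOn.integrableOn_compact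
      (isCompact_Icc.prod isCompact_Icc :
        IsCompact (Set.Icc 0 r ×ˢ Set.Icc (-Real.pi) Real.pi))).mono_set
    exact Set.prod_mono Set.Ioo_subset_Icc_self Set.Ioo_subset_Icc_self
  have e5 : ∫ p in Set.Ioo 0 r ×ˢ Set.Ioo (-Real.pi) Real.pi,
        p.1 * F (p.1 * Real.cos p.2, p.1 * Real.sin p.2) =
      ∫ s in (0:ℝ)..r, ∫ θ in (-Real.pi)..Real.pi, s * F (s * Real.cos θ, s * Real.sin θ) := by
    rw [Measure.volume_eq_prod, setIntegral_prod _ (by rw [← Measure.volume_eq_prod]; exact hgi)]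
    rw [intervalIntegral.integral_of_le hr.le, integral_Ioc_eq_integral_Ioo]
    refine setIntegral_congr_fun measurableSet_Ioo fun s _ => ?_
    simp only
    rw [intervalIntegral.integral_of_le (by linarith [Real.pi_pos]), integral_Ioc_eq_integral_Ioo]
  have hcont : Continuous fun s : ℝ =>
      ∫ θ in (-Real.pi)..Real.pi, s * F (s * Real.cos θ, s * Real.sin θ) := by
    apply intervalIntegral.continuous_parametric_intervalIntegral_of_continuous'
    exact hgc
  have e6 : ∫ s in (0:ℝ)..r, s * (2 * Real.pi * ‖G z‖) ≤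
      ∫ s in (0:ℝ)..r, ∫ θ in (-Real.pi)..Real.pi, s * F (s * Real.cos θ, s * Real.sin θ) := by
    refine intervalIntegral.integral_mono_on hr.le (Continuous.intervalIntegrable (by fun_prop) _ _)
      (hcont.intervalIntegrable _ _) fun s hs => ?_
    rw [intervalIntegral.integral_const_mul]
    exact mul_le_mul_of_nonneg_left (B3_mean hG z s) hs.1
  have e7 : ∫ s in (0:ℝ)..r, s * (2 * Real.pi * ‖G z‖) = Real.pi * r ^ 2 * ‖G z‖ := by
    rw [intervalIntegral.integral_mul_const, integral_id]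
    ring
  rw [e1, ← e7]
  refine e6.trans ?_
  rw [← e5, ← e4, ← e3]
  exact e2

/-- B3a. The mean value inequality on a disc. PROOF. For `0 < s < r`: `‖G z‖ ≤ circleAverage ‖G‖ z s` (mean value property of `G`: `Complex.circleIntegral..` or
`circleAverage_of_differentiable_on`..., then the norm). Multiply by `s`, integrate over `(0, r)`, polar coordinates (`Complex.lintegral_comp_polarCoord_symm` or
`Complex.integral_comp_polarCoord_symm`): `(r²/2) ‖G z‖ ≤ (1/2π) ∫∫_{B(z,r)} ‖G‖ ≤ (1/2π) ∫∫_{square} ‖G‖`. -/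
theorem area_mean {G : ℂ → ℂ} (hG : Differentiable ℂ G) (z : ℂ) {r : ℝ} (hr : 0 < r) :
    Real.pi * r ^ 2 * ‖G z‖ ≤
      ∫ u in (z.re - r)..(z.re + r), ∫ y in (z.im - r)..(z.im + r), ‖G (u + y * I)‖ := by
  refine (B3_disc hG z hr).trans (le_of_eq ?_)
  have h1 : ∀ f : ℝ → ℝ, ∫ u in (z.re - r)..(z.re + r), f u = ∫ u in (-r)..r, f (z.re + u) := by
    intro f
    rw [intervalIntegral.integral_comp_add_left]
    congr 1
  have h2 : ∀ f : ℝ → ℝ, ∫ y in (z.im - r)..(z.im + r), f y = ∫ y in (-r)..r, f (z.im + y) := by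
    intro f
    rw [intervalIntegral.integral_comp_add_left]
    congr 1
  rw [h1]
  refine intervalIntegral.integral_congr fun u _ => ?_
  rw [h2]
  refine intervalIntegral.integral_congr fun y _ => ?_
  congr 2
  apply Complex.ext <;> simp

/-- The integrand of `seg_le`. -/
theorem B3_cont (p : ℝ[X]) (a : ℝ) : Continuous fun z : ℂ => ev (dX p) z - (a : ℂ) * ev p z := by
  have h : ∀ q : ℝ[X], Continuous (ev q) := fun q =>
    continuous_iff_continuousAt.2 fun z => (hasDerivAt_ev q z).continuousAt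
  exact (h _).sub (continuous_const.mul (h _))

theorem B3_amgm {x A B : ℝ} (hA : 0 ≤ A) (hB : 0 < B)
    (h : ∀ s : ℝ, 0 < s → x ≤ s * A ^ 2 + B ^ 2 / s) : x ≤ 2 * B * A := by
  refine le_of_forall_pos_le_add fun e he => ?_
  have hd : 0 < e / B := div_pos he hB
  have hs : 0 < B / (A + e / B) := by positivity
  refine (h _ hs).trans ?_
  have h1 : B ^ 2 / (B / (A + e / B)) = B * A + e := by
    field_simp
  have h2 : B / (A + e / B) * A ^ 2 ≤ B * A := by
    rw [div_mul_eq_mul_div, div_le_iff₀ (by positivity)]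
    have : 0 ≤ A * e := by positivity
    have h3 : B * A * (A + e / B) = B * A ^ 2 + A * e := by
      field_simp
    rw [h3]
    linarith
  rw [h1]
  linarith

/-- B3b. PROOF. Cauchy-Schwarz: `∫_0^Y ‖h‖ ≤ (∫_0^Y ‖h‖² w)^{1/2} (∫_0^Y 1/w)^{1/2}`, `w = e^{-ω/ℓ}/ℓ`, `∫_0^Y 1/w ≤ ℓ² e^{Y/ℓ}`; `h(ω) = ev (dX p) (u + iω) - a ev p (u + iω)`, norm by `norm_comb_vL`.
For `-Y..0` use `ev_conj` (`‖h(-ω)‖ = ‖h(ω)‖`). -/
theorem seg_le {ℓ : ℝ} (hℓ : 0 < ℓ) (p : ℝ[X]) (a u : ℝ) {Y : ℝ} (hY : 0 ≤ Y) :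
    ∫ y in (-Y)..Y, ‖ev (dX p) (u + y * I) - a * ev p (u + y * I)‖ ≤
      2 * ℓ * Real.exp (Y / (2 * ℓ)) * ‖vL (dX p) ℓ u - a • vL p ℓ u‖ := by
  set h : ℝ → ℂ := fun y => ev (dX p) (u + y * I) - a * ev p (u + y * I) with hh
  have hcont : Continuous h := by
    have h1 := B3_cont p a
    exact h1.comp (by fun_prop : Continuous fun y : ℝ => (u : ℂ) + y * I)
  have hsymm : ∀ y : ℝ, ‖h (-y)‖ = ‖h y‖ := by
    intro y
    have e1 : (starRingEnd ℂ) ((u : ℂ) + y * I) = (u : ℂ) + ((-y : ℝ) : ℂ) * I := by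
      simp
    have e2 : h (-y) = (starRingEnd ℂ) (h y) := by
      simp only [hh]
      rw [← e1, ev_conj, ev_conj, map_sub, map_mul, Complex.conj_ofReal]
    rw [e2]
    exact RCLike.norm_conj _
  have hint : ∀ b c : ℝ, IntervalIntegrable (fun y => ‖h y‖) volume b c :=
    fun b c => hcont.norm.intervalIntegrable b c
  have hsplit : ∫ y in (-Y)..Y, ‖h y‖ = 2 * ∫ y in (0:ℝ)..Y, ‖h y‖ := by
    rw [← intervalIntegral.integral_add_adjacent_intervals (hint (-Y) 0) (hint 0 Y)]
    have : ∫ y in (-Y)..0, ‖h y‖ = ∫ y in (0:ℝ)..Y, ‖h y‖ := by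
      have e := intervalIntegral.integral_comp_neg (a := (0:ℝ)) (b := Y) (fun y => ‖h y‖)
      rw [neg_zero] at e
      rw [← e]
      exact intervalIntegral.integral_congr fun y _ => hsymm y
    rw [this]
    ring
  obtain ⟨K1, hK1⟩ := ev_bdd (dX p) u
  obtain ⟨K2, hK2⟩ := ev_bdd p u
  have hbd : ∀ y : ℝ, ‖h y‖ ≤ K1 + |a| * K2 := by
    intro y
    simp only [hh]
    refine (norm_sub_le _ _).trans (add_le_add (hK1 y) ?_)
    rw [norm_mul, Complex.norm_real, Real.norm_eq_abs]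
    exact mul_le_mul_of_nonneg_left (hK2 y) (abs_nonneg _)
  have hw : ∀ y : ℝ, 0 < Real.exp (-y / ℓ) / ℓ := fun y => by positivity
  have hwi : IntegrableOn (fun y : ℝ => Real.exp (-y / ℓ) / ℓ) (Set.Ioi 0) := by
    have h1 := integrableOn_exp_mul_Ioi (a := -1 / ℓ) (by
      rw [neg_div]; exact neg_neg_of_pos (by positivity)) 0
    have h2 : IntegrableOn (fun y : ℝ => Real.exp (-1 / ℓ * y) / ℓ) (Set.Ioi 0) := h1.div_const ℓ
    refine h2.congr_fun (fun y _ => ?_) measurableSet_Ioi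
    have : -1 / ℓ * y = -y / ℓ := by ring
    simp only [this]
  have hgi : IntegrableOn (fun y : ℝ => (Real.exp (-y / ℓ) / ℓ) * ‖h y‖ ^ 2) (Set.Ioi 0) := by
    refine Integrable.mono' (hwi.mul_const ((K1 + |a| * K2) ^ 2)) ?_ ?_
    · apply Continuous.aestronglyMeasurable
      have := hcont.norm
      fun_prop
    · refine Filter.Eventually.of_forall fun y => ?_
      rw [Real.norm_of_nonneg (mul_nonneg (hw y).le (sq_nonneg _))]
      exact mul_le_mul_of_nonneg_left (pow_le_pow_left₀ (norm_nonneg _) (hbd y) 2) (hw y).le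
  have hnorm : ‖vL (dX p) ℓ u - a • vL p ℓ u‖ ^ 2 =
      ∫ y in Set.Ioi 0, (Real.exp (-y / ℓ) / ℓ) * ‖h y‖ ^ 2 := by
    have e := norm_comb_vL hℓ (dX p) p u u 1 (-a)
    rw [one_smul, neg_smul, ← sub_eq_add_neg, integral_muL hℓ] at e
    rw [e]
    refine setIntegral_congr_fun measurableSet_Ioi fun y _ => ?_
    simp only [hh, smul_eq_mul]
    congr 3
    push_cast
    ring
  set N : ℝ := ‖vL (dX p) ℓ u - a • vL p ℓ u‖ with hN
  have hwY : ∫ y in (0:ℝ)..Y, Real.exp (y / ℓ) ≤ ℓ * Real.exp (Y / ℓ) := by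
    have : ∫ y in (0:ℝ)..Y, Real.exp (y / ℓ) = ℓ * Real.exp (Y / ℓ) - ℓ * Real.exp (0 / ℓ) := by
      rw [intervalIntegral.integral_comp_div (fun y => Real.exp y) hℓ.ne', integral_exp]
      simp only [smul_eq_mul]
      ring
    rw [this]
    have : 0 < ℓ * Real.exp (0 / ℓ) := by positivity
    linarith
  have hmain : 2 * ∫ y in (0:ℝ)..Y, ‖h y‖ ≤ 2 * (ℓ * Real.exp (Y / (2 * ℓ))) * N := by
    refine B3_amgm (norm_nonneg _) (by positivity) fun s hs => ?_
    have hpt : ∀ y : ℝ, 2 * ‖h y‖ ≤ s * ((Real.exp (-y / ℓ) / ℓ) * ‖h y‖ ^ 2) +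
        (ℓ / s) * Real.exp (y / ℓ) := by
      intro y
      set w := Real.exp (-y / ℓ) / ℓ with hwd
      have hwpos : 0 < w := hw y
      have e1 : (ℓ / s) * Real.exp (y / ℓ) = 1 / (s * w) := by
        rw [hwd, neg_div, Real.exp_neg]
        have := Real.exp_pos (y / ℓ)
        field_simp
      rw [e1]
      have hsw : 0 < s * w := mul_pos hs hwpos
      have e2 : s * (w * ‖h y‖ ^ 2) + 1 / (s * w) - 2 * ‖h y‖ =
          (s * w * ‖h y‖ - 1) ^ 2 / (s * w) := by
        field_simp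
        ring
      have e3 : 0 ≤ (s * w * ‖h y‖ - 1) ^ 2 / (s * w) := by positivity
      linarith
    have i1 : ∫ y in (0:ℝ)..Y, (Real.exp (-y / ℓ) / ℓ) * ‖h y‖ ^ 2 ≤ N ^ 2 := by
      rw [hnorm, intervalIntegral.integral_of_le hY]
      exact setIntegral_mono_set hgi
        (Filter.Eventually.of_forall fun y => mul_nonneg (hw y).le (sq_nonneg _))
        (Filter.Eventually.of_forall Set.Ioc_subset_Ioi_self)
    have c1 : Continuous fun y : ℝ => (Real.exp (-y / ℓ) / ℓ) * ‖h y‖ ^ 2 := by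
      have := hcont.norm
      fun_prop
    have c2 : Continuous fun y : ℝ => Real.exp (y / ℓ) := by fun_prop
    calc 2 * ∫ y in (0:ℝ)..Y, ‖h y‖ = ∫ y in (0:ℝ)..Y, 2 * ‖h y‖ := by
          rw [intervalIntegral.integral_const_mul]
      _ ≤ ∫ y in (0:ℝ)..Y, (s * ((Real.exp (-y / ℓ) / ℓ) * ‖h y‖ ^ 2) +
          (ℓ / s) * Real.exp (y / ℓ)) := by
          refine intervalIntegral.integral_mono_on hY ((hint 0 Y).const_mul 2) ?_ fun y _ => hpt y
          exact ((continuous_const.mul c1).add (continuous_const.mul c2)).intervalIntegrable _ _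
      _ = s * (∫ y in (0:ℝ)..Y, (Real.exp (-y / ℓ) / ℓ) * ‖h y‖ ^ 2) +
          (ℓ / s) * ∫ y in (0:ℝ)..Y, Real.exp (y / ℓ) := by
          have d1 : IntervalIntegrable (fun y : ℝ => s * ((Real.exp (-y / ℓ) / ℓ) * ‖h y‖ ^ 2))
            volume 0 Y := (continuous_const.mul c1).intervalIntegrable _ _
          have d2 : IntervalIntegrable (fun y : ℝ => (ℓ / s) * Real.exp (y / ℓ)) volume 0 Y :=
            (continuous_const.mul c2).intervalIntegrable _ _
          rw [intervalIntegral.integral_add d1 d2,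
            intervalIntegral.integral_const_mul, intervalIntegral.integral_const_mul]
      _ ≤ s * N ^ 2 + (ℓ / s) * (ℓ * Real.exp (Y / ℓ)) :=
          add_le_add (mul_le_mul_of_nonneg_left i1 hs.le)
            (mul_le_mul_of_nonneg_left hwY (by positivity))
      _ = s * N ^ 2 + (ℓ * Real.exp (Y / (2 * ℓ))) ^ 2 / s := by
          have : Real.exp (Y / ℓ) = Real.exp (Y / (2 * ℓ)) ^ 2 := by
            rw [← Real.exp_nat_mul]
            congr 1
            push_cast
            field_simp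
          rw [this]
          ring
  rw [hsplit]
  refine hmain.trans (le_of_eq ?_)
  ring

/-- B3c. PROOF. `area_mean` for `G(z) = e^{-az} (ev (dX p) z - a ev p z)`, `r = ℓ`; `‖G(u + iy)‖ = e^{-au} ‖...‖`; the square is in `|Re - x| ≤ (A+1)ℓ`, `|Im| ≤ (A+1)ℓ`; `seg_le` with
`Y = (A+1)ℓ`: `π ℓ² ‖G z‖ ≤ 2 ℓ e^{(A+1)/2} M`. -/
theorem pointwise (A : ℝ) (hA : 1 ≤ A) : ∃ c₃ : ℝ, 0 < c₃ ∧ ∀ (p : ℝ[X]) (ℓ x a M : ℝ), 0 < ℓ →
    ∫ u in (x - (A + 1) * ℓ)..(x + (A + 1) * ℓ),
      Real.exp (-a * u) * ‖vL (dX p) ℓ u - a • vL p ℓ u‖ ≤ M →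
    ∀ z : ℂ, ‖z - x‖ ≤ A * ℓ →
      ‖Complex.exp (-(a : ℂ) * z) * (ev (dX p) z - a * ev p z)‖ ≤ c₃ / ℓ * M := by
  refine ⟨2 * Real.exp ((A + 1) / 2) / Real.pi, by positivity, ?_⟩
  intro p ℓ x a M hℓ hM z hz
  set G : ℂ → ℂ := fun z => Complex.exp (-(a : ℂ) * z) * (ev (dX p) z - a * ev p z) with hG
  have hGd : Differentiable ℂ G := by
    have h1 : ∀ q : ℝ[X], Differentiable ℂ (ev q) := fun q z => (hasDerivAt_ev q z).differentiableAt
    have h2 := h1 (dX p)
    have h3 := h1 p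
    rw [hG]
    fun_prop
  have h1 := area_mean hGd z hℓ
  set Y : ℝ := (A + 1) * ℓ with hYd
  have hY : 0 ≤ Y := by positivity
  have hre : |z.re - x| ≤ A * ℓ := by
    have := Complex.abs_re_le_norm (z - x)
    simp only [Complex.sub_re, Complex.ofReal_re] at this
    exact this.trans hz
  have him : |z.im| ≤ A * ℓ := by
    have := Complex.abs_im_le_norm (z - x)
    simp only [Complex.sub_im, Complex.ofReal_im, sub_zero] at this
    exact this.trans hz
  rw [abs_le] at hre him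
  have hYe : Y = A * ℓ + ℓ := by rw [hYd]; ring
  have hnG : ∀ u y : ℝ, ‖G (u + y * I)‖ =
      Real.exp (-a * u) * ‖ev (dX p) (u + y * I) - a * ev p (u + y * I)‖ := by
    intro u y
    simp only [hG]
    rw [norm_mul, Complex.norm_exp]
    congr 2
    simp
  have hGc : Continuous fun q : ℝ × ℝ => ‖G (q.1 + q.2 * I)‖ := by
    have := hGd.continuous
    fun_prop
  have hinner : ∀ u : ℝ, ∫ y in (z.im - ℓ)..(z.im + ℓ), ‖G (u + y * I)‖ ≤
      2 * ℓ * Real.exp ((A + 1) / 2) *
        (Real.exp (-a * u) * ‖vL (dX p) ℓ u - a • vL p ℓ u‖) := by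
    intro u
    have hc : Continuous fun y : ℝ => ‖G (u + y * I)‖ :=
      hGc.comp (by fun_prop : Continuous fun y : ℝ => (u, y))
    calc ∫ y in (z.im - ℓ)..(z.im + ℓ), ‖G (u + y * I)‖
        ≤ ∫ y in (-Y)..Y, ‖G (u + y * I)‖ := by
          refine intervalIntegral.integral_mono_interval (by linarith) (by linarith) (by linarith)
            (Filter.Eventually.of_forall fun y => norm_nonneg _) (hc.intervalIntegrable _ _)
      _ = Real.exp (-a * u) * ∫ y in (-Y)..Y, ‖ev (dX p) (u + y * I) - a * ev p (u + y * I)‖ := by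
          rw [← intervalIntegral.integral_const_mul]
          exact intervalIntegral.integral_congr fun y _ => hnG u y
      _ ≤ Real.exp (-a * u) * (2 * ℓ * Real.exp (Y / (2 * ℓ)) *
            ‖vL (dX p) ℓ u - a • vL p ℓ u‖) :=
          mul_le_mul_of_nonneg_left (seg_le hℓ p a u hY) (Real.exp_pos _).le
      _ = _ := by
          have : Y / (2 * ℓ) = (A + 1) / 2 := by
            rw [hYd]
            field_simp
          rw [this]
          ring
  have hvc : Continuous fun u : ℝ => Real.exp (-a * u) * ‖vL (dX p) ℓ u - a • vL p ℓ u‖ := by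
    have c1 : Continuous (vL p ℓ) :=
      continuous_iff_continuousAt.2 fun u => (hasDerivAt_vL hℓ p u).1.continuousAt
    have c2 : Continuous (vL (dX p) ℓ) := (hasDerivAt_vL hℓ p 0).2
    exact (by fun_prop : Continuous fun u : ℝ => Real.exp (-a * u)).mul
      ((c2.sub (c1.const_smul a)).norm)
  have hpar : Continuous fun u : ℝ => ∫ y in (z.im - ℓ)..(z.im + ℓ), ‖G (u + y * I)‖ := by
    apply intervalIntegral.continuous_parametric_intervalIntegral_of_continuous'
    exact hGc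
  have h2 : ∫ u in (z.re - ℓ)..(z.re + ℓ), ∫ y in (z.im - ℓ)..(z.im + ℓ), ‖G (u + y * I)‖ ≤
      2 * ℓ * Real.exp ((A + 1) / 2) * M := by
    calc ∫ u in (z.re - ℓ)..(z.re + ℓ), ∫ y in (z.im - ℓ)..(z.im + ℓ), ‖G (u + y * I)‖
        ≤ ∫ u in (z.re - ℓ)..(z.re + ℓ), 2 * ℓ * Real.exp ((A + 1) / 2) *
            (Real.exp (-a * u) * ‖vL (dX p) ℓ u - a • vL p ℓ u‖) := by
          refine intervalIntegral.integral_mono_on (by linarith) (hpar.intervalIntegrable _ _)
            ((continuous_const.mul hvc).intervalIntegrable _ _) fun u _ => hinner u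
      _ = 2 * ℓ * Real.exp ((A + 1) / 2) * ∫ u in (z.re - ℓ)..(z.re + ℓ),
            Real.exp (-a * u) * ‖vL (dX p) ℓ u - a • vL p ℓ u‖ := by
          rw [intervalIntegral.integral_const_mul]
      _ ≤ 2 * ℓ * Real.exp ((A + 1) / 2) * M := by
          refine mul_le_mul_of_nonneg_left (le_trans ?_ hM) (by positivity)
          refine intervalIntegral.integral_mono_interval (by linarith) (by linarith) (by linarith)
            (Filter.Eventually.of_forall fun y => by positivity) (hvc.intervalIntegrable _ _)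
  have h3 := h1.trans h2
  have hpl : 0 < Real.pi * ℓ ^ 2 := by positivity
  have h4 : ‖G z‖ ≤ (2 * ℓ * Real.exp ((A + 1) / 2) * M) / (Real.pi * ℓ ^ 2) := by
    rw [le_div_iff₀ hpl]
    linarith
  refine h4.trans (le_of_eq ?_)
  field_simp

end Pool.Agent.MP_c11b14_lc.OP
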