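import Pool.Agent.Lib.MP_c11b14_lc.OP.B0

set_option autoImplicit false

/-! Task B4: Hardy's inequality for the exponential weight. -/

namespace Pool.Agent.MP_c11b14_lc.OP

open Polynomial Complex MeasureTheory

/-- B4a. Hardy. PROOF. With `w = e^{-ω/ℓ}`: `0 ≥ [-‖h‖² w]`.. precisely `∫_0^∞ ‖h‖² w/ℓ = ∫_0^∞ (‖h‖²)' w` (integration by parts, `h 0 = 0`, `h` bounded) `≤ 2 ∫ ‖h‖ ‖h'‖ w ≤
2 (∫ ‖h‖² w)^{1/2} (∫ ‖h'‖² w)^{1/2}` (or `2‖h‖‖h'‖ ≤ ‖h‖²/(2ℓ) + 2ℓ‖h'‖²`, which gives the same result without Cauchy-Schwarz). -/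
theorem hardy_aux {ℓ : ℝ} (hℓ : 0 < ℓ) {h h' : ℝ → ℂ} (hd : ∀ ω, HasDerivAt h (h' ω) ω)
    (hc : Continuous h') (h0 : h 0 = 0) {K : ℝ} (hK : ∀ ω, ‖h ω‖ ≤ K) (hK' : ∀ ω, ‖h' ω‖ ≤ K) :
    ∫ ω, ‖h ω‖ ^ 2 ∂(muL ℓ) ≤ 4 * ℓ ^ 2 * ∫ ω, ‖h' ω‖ ^ 2 ∂(muL ℓ) := by
  have hh : Continuous h := continuous_iff_continuousAt.2 fun ω => (hd ω).continuousAt
  have hK0 : 0 ≤ K := (norm_nonneg _).trans (hK 0)
  have hexp : IntegrableOn (fun ω : ℝ => Real.exp (-ω / ℓ)) (Set.Ioi 0) := by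
    have h1 := exp_neg_integrableOn_Ioi (0 : ℝ) (b := 1 / ℓ) (by positivity)
    refine h1.congr_fun (fun ω _ => ?_) measurableSet_Ioi
    show Real.exp (-(1 / ℓ) * ω) = Real.exp (-ω / ℓ)
    congr 1
    ring
  -- integrability of the three functions
  have hint : ∀ g : ℝ → ℝ, Continuous g → (∀ ω, |g ω| ≤ 2 * K ^ 2) →
      IntegrableOn (fun ω : ℝ => Real.exp (-ω / ℓ) * g ω) (Set.Ioi 0) := by
    intro g hg hb
    refine Integrable.mono' (hexp.mul_const (2 * K ^ 2)) ?_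
      (Filter.Eventually.of_forall fun ω => ?_)
    · exact ((by fun_prop : Continuous fun ω : ℝ => Real.exp (-ω / ℓ) * g ω)).aestronglyMeasurable
    · rw [norm_mul, Real.norm_of_nonneg (Real.exp_pos _).le]
      exact mul_le_mul_of_nonneg_left (hb ω) (Real.exp_pos _).le
  have hin : Continuous fun ω => inner ℝ (h ω) (h' ω) := hh.inner hc
  have b1 : ∀ ω, |‖h ω‖ ^ 2| ≤ 2 * K ^ 2 := by
    intro ω
    rw [abs_of_nonneg (by positivity)]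
    have := pow_le_pow_left₀ (norm_nonneg _) (hK ω) 2
    nlinarith [sq_nonneg K]
  have b2 : ∀ ω, |‖h' ω‖ ^ 2| ≤ 2 * K ^ 2 := by
    intro ω
    rw [abs_of_nonneg (by positivity)]
    have := pow_le_pow_left₀ (norm_nonneg _) (hK' ω) 2
    nlinarith [sq_nonneg K]
  have b3 : ∀ ω, |2 * inner ℝ (h ω) (h' ω)| ≤ 2 * K ^ 2 := by
    intro ω
    rw [abs_mul, abs_of_pos (by norm_num : (0 : ℝ) < 2)]
    have h1 := abs_real_inner_le_norm (h ω) (h' ω)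
    have h2 := mul_le_mul (hK ω) (hK' ω) (norm_nonneg _) hK0
    nlinarith
  have i1 := hint (fun ω => ‖h ω‖ ^ 2) (by fun_prop) b1
  have i2 := hint (fun ω => ‖h' ω‖ ^ 2) (by fun_prop) b2
  have i3 := hint (fun ω => 2 * inner ℝ (h ω) (h' ω)) (by fun_prop) b3
  -- integration by parts
  have hF : ∀ ω : ℝ, HasDerivAt (fun ω : ℝ => Real.exp (-ω / ℓ) * ‖h ω‖ ^ 2)
      (Real.exp (-ω / ℓ) * (2 * inner ℝ (h ω) (h' ω)) -
        1 / ℓ * (Real.exp (-ω / ℓ) * ‖h ω‖ ^ 2)) ω := by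
    intro ω
    have h1 : HasDerivAt (fun ω : ℝ => Real.exp (-ω / ℓ)) (Real.exp (-ω / ℓ) * (-1 / ℓ)) ω :=
      (((hasDerivAt_id ω).neg.div_const ℓ).exp)
    have h2 := h1.mul (hd ω).norm_sq
    refine h2.congr_deriv ?_
    ring
  have hlim : Filter.Tendsto (fun ω : ℝ => Real.exp (-ω / ℓ) * ‖h ω‖ ^ 2) Filter.atTop
      (nhds 0) := by
    have h1 : Filter.Tendsto (fun ω : ℝ => Real.exp (-ω / ℓ)) Filter.atTop (nhds 0) := by
      refine Real.tendsto_exp_atBot.comp ?_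
      have : Filter.Tendsto (fun ω : ℝ => -(ω / ℓ)) Filter.atTop Filter.atBot :=
        Filter.tendsto_neg_atTop_atBot.comp (Filter.tendsto_id.atTop_div_const hℓ)
      refine this.congr fun ω => ?_
      ring
    have h2 : Filter.Tendsto (fun ω : ℝ => Real.exp (-ω / ℓ) * K ^ 2) Filter.atTop
        (nhds (0 * K ^ 2)) := h1.mul_const _
    rw [zero_mul] at h2
    refine squeeze_zero (fun ω => by positivity) (fun ω => ?_) h2
    exact mul_le_mul_of_nonneg_left (pow_le_pow_left₀ (norm_nonneg _) (hK ω) 2)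
      (Real.exp_pos _).le
  have hparts := integral_Ioi_of_hasDerivAt_of_tendsto
    (f := fun ω : ℝ => Real.exp (-ω / ℓ) * ‖h ω‖ ^ 2) (a := 0) (m := 0)
    ((by fun_prop : Continuous fun ω : ℝ => Real.exp (-ω / ℓ) * ‖h ω‖ ^ 2).continuousWithinAt)
    (fun ω _ => hF ω) (i3.sub (i1.const_mul (1 / ℓ))) hlim
  rw [integral_sub i3 (i1.const_mul (1 / ℓ)), integral_const_mul, h0, norm_zero] at hparts
  -- the pointwise inequality
  have hle : ∫ ω in Set.Ioi (0 : ℝ), Real.exp (-ω / ℓ) * (2 * inner ℝ (h ω) (h' ω)) ≤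
      1 / (2 * ℓ) * (∫ ω in Set.Ioi (0 : ℝ), Real.exp (-ω / ℓ) * ‖h ω‖ ^ 2) +
        2 * ℓ * ∫ ω in Set.Ioi (0 : ℝ), Real.exp (-ω / ℓ) * ‖h' ω‖ ^ 2 := by
    rw [← integral_const_mul, ← integral_const_mul,
      ← integral_add (i1.const_mul _) (i2.const_mul _)]
    refine integral_mono i3 ((i1.const_mul _).add (i2.const_mul _)) fun ω => ?_
    have h1 := (le_abs_self _).trans (abs_real_inner_le_norm (h ω) (h' ω))
    have h2 : 2 * (‖h ω‖ * ‖h' ω‖) ≤ 1 / (2 * ℓ) * ‖h ω‖ ^ 2 + 2 * ℓ * ‖h' ω‖ ^ 2 := by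
      have e : 1 / (2 * ℓ) * ‖h ω‖ ^ 2 + 2 * ℓ * ‖h' ω‖ ^ 2 - 2 * (‖h ω‖ * ‖h' ω‖) =
          (‖h ω‖ - 2 * ℓ * ‖h' ω‖) ^ 2 / (2 * ℓ) := by
        field_simp
        ring
      have : 0 ≤ (‖h ω‖ - 2 * ℓ * ‖h' ω‖) ^ 2 / (2 * ℓ) := by positivity
      linarith
    have h3 : 0 < Real.exp (-ω / ℓ) := Real.exp_pos _
    show Real.exp (-ω / ℓ) * (2 * inner ℝ (h ω) (h' ω)) ≤
      1 / (2 * ℓ) * (Real.exp (-ω / ℓ) * ‖h ω‖ ^ 2) + 2 * ℓ * (Real.exp (-ω / ℓ) * ‖h' ω‖ ^ 2)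
    have h4 := mul_le_mul_of_nonneg_left ((mul_le_mul_of_nonneg_left h1
      (by norm_num : (0 : ℝ) ≤ 2)).trans h2) h3.le
    linarith
  have e1 : ∀ g : ℝ → ℝ, ∫ ω, g ω ∂(muL ℓ) =
      1 / ℓ * ∫ ω in Set.Ioi (0 : ℝ), Real.exp (-ω / ℓ) * g ω := by
    intro g
    rw [integral_muL hℓ, ← integral_const_mul]
    refine integral_congr_ae (Filter.Eventually.of_forall fun ω => ?_)
    show (Real.exp (-ω / ℓ) / ℓ) • g ω = 1 / ℓ * (Real.exp (-ω / ℓ) * g ω)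
    rw [smul_eq_mul]
    ring
  rw [e1, e1]
  obtain ⟨J, hJ⟩ : ∃ J : ℝ, J = ∫ ω in Set.Ioi (0 : ℝ), Real.exp (-ω / ℓ) * ‖h ω‖ ^ 2 := ⟨_, rfl⟩
  obtain ⟨J', hJ'⟩ : ∃ J' : ℝ, J' = ∫ ω in Set.Ioi (0 : ℝ), Real.exp (-ω / ℓ) * ‖h' ω‖ ^ 2 :=
    ⟨_, rfl⟩
  rw [← hJ, ← hJ'] at hle ⊢
  rw [← hJ] at hparts
  have h1 : 1 / ℓ * J ≤ 1 / (2 * ℓ) * J + 2 * ℓ * J' := by
    have : (0 : ℝ) - Real.exp (-0 / ℓ) * 0 ^ 2 = 0 := by simp
    linarith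
  have h2 : 1 / (2 * ℓ) * J = 1 / ℓ * J / 2 := by
    field_simp
  have h3 : 4 * ℓ ^ 2 * (1 / ℓ * J') = 2 * (2 * ℓ * J') := by
    field_simp
    ring
  rw [h3]
  linarith

/-- B4b. PROOF. `g(ω) = e^{-iaω} ev p (u + iω)`, `g 0 = p(e^u)`, `g' = i e^{-iaω} (ev (dX p) - a ev p)(u + iω)`; `hardy_aux` for `g - g 0`; `‖g‖ ≤ |g 0| + ‖g - g 0‖` in `L²(muL ℓ)`
(a probability measure), `‖g‖ = ‖vL p ℓ u‖` as `|e^{-iaω}| = 1` (`norm_comb_vL`). -/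
theorem hardy {ℓ : ℝ} (hℓ : 0 < ℓ) (p : ℝ[X]) (a u : ℝ) :
    ‖vL p ℓ u‖ ≤ |p.eval (Real.exp u)| + 2 * ℓ * ‖vL (dX p) ℓ u - a • vL p ℓ u‖ := by
  haveI := prob_muL hℓ
  obtain ⟨K₁, hK₁⟩ := ev_bdd p u
  obtain ⟨K₂, hK₂⟩ := ev_bdd (dX p) u
  have hK10 : 0 ≤ K₁ := (norm_nonneg _).trans (hK₁ 0)
  have hK20 : 0 ≤ K₂ := (norm_nonneg _).trans (hK₂ 0)
  -- the functions
  obtain ⟨g, hg⟩ : ∃ g : ℝ → ℂ, g = fun ω : ℝ => Complex.exp (-((a : ℂ) * ω * I)) *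
    ev p (u + ω * I) := ⟨_, rfl⟩
  obtain ⟨h', hh'⟩ : ∃ h' : ℝ → ℂ, h' = fun ω : ℝ => Complex.exp (-((a : ℂ) * ω * I)) * (I *
    (ev (dX p) (u + ω * I) - (a : ℂ) * ev p (u + ω * I))) := ⟨_, rfl⟩
  have hn : ∀ ω : ℝ, ‖Complex.exp (-((a : ℂ) * ω * I))‖ = 1 := by
    intro ω
    rw [Complex.norm_exp]
    simp
  have hevd : ∀ q : ℝ[X], ∀ ω : ℝ, HasDerivAt (fun ω : ℝ => ev q (u + ω * I))
      (ev (dX q) (u + ω * I) * I) ω := by
    intro q ω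
    have h1 : HasDerivAt (fun ω : ℝ => (u : ℂ) + ω * I) I ω := by
      have := ((hasDerivAt_id ω).ofReal_comp.mul_const I).const_add (u : ℂ)
      simpa using this
    exact (hasDerivAt_ev q _).comp ω h1
  have hevc : ∀ q : ℝ[X], Continuous fun ω : ℝ => ev q (u + ω * I) := fun q =>
    continuous_iff_continuousAt.2 fun ω => (hevd q ω).continuousAt
  have hgd : ∀ ω, HasDerivAt g (h' ω) ω := by
    intro ω
    have h1 : HasDerivAt (fun ω : ℝ => Complex.exp (-((a : ℂ) * ω * I)))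
        (Complex.exp (-((a : ℂ) * ω * I)) * (-((a : ℂ) * I))) ω := by
      have h2 : HasDerivAt (fun ω : ℝ => -((a : ℂ) * ω * I)) (-((a : ℂ) * I)) ω := by
        have := ((hasDerivAt_id ω).ofReal_comp.const_mul (a : ℂ)).mul_const (-I)
        simpa using this
      exact h2.cexp
    have h3 := h1.mul (hevd p ω)
    rw [hg, hh']
    refine h3.congr_deriv ?_
    ring
  have hc' : Continuous h' := by
    rw [hh']
    have h1 := hevc p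
    have h2 := hevc (dX p)
    fun_prop
  have hgc : Continuous g := continuous_iff_continuousAt.2 fun ω => (hgd ω).continuousAt
  have hgn : ∀ ω : ℝ, ‖g ω‖ = ‖ev p (u + ω * I)‖ := by
    intro ω
    rw [hg]
    simp only
    rw [norm_mul, hn, one_mul]
  have hh'n : ∀ ω : ℝ, ‖h' ω‖ = ‖ev (dX p) (u + ω * I) - (a : ℂ) * ev p (u + ω * I)‖ := by
    intro ω
    rw [hh']
    simp only
    rw [norm_mul, hn, one_mul, norm_mul, Complex.norm_I, one_mul]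
  obtain ⟨h, hh⟩ : ∃ h : ℝ → ℂ, h = fun ω => g ω - g 0 := ⟨_, rfl⟩
  have hhd : ∀ ω, HasDerivAt h (h' ω) ω := by
    intro ω
    rw [hh]
    exact (hgd ω).sub_const _
  have hhc : Continuous h := continuous_iff_continuousAt.2 fun ω => (hhd ω).continuousAt
  have hh0 : h 0 = 0 := by
    rw [hh]
    simp
  have hgK : ∀ ω, ‖g ω‖ ≤ K₁ := fun ω => by rw [hgn]; exact hK₁ ω
  have hhK : ∀ ω, ‖h ω‖ ≤ 2 * K₁ + K₂ + |a| * K₁ := by
    intro ω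
    rw [hh]
    have h1 := norm_sub_le (g ω) (g 0)
    have h2 := hgK ω
    have h3 := hgK 0
    have h4 : 0 ≤ |a| * K₁ := by positivity
    show ‖g ω - g 0‖ ≤ _
    linarith
  have hh'K : ∀ ω, ‖h' ω‖ ≤ 2 * K₁ + K₂ + |a| * K₁ := by
    intro ω
    rw [hh'n]
    have h1 := norm_sub_le (ev (dX p) (u + ω * I)) ((a : ℂ) * ev p (u + ω * I))
    rw [norm_mul, Complex.norm_real, Real.norm_eq_abs] at h1
    have h2 := hK₂ ω
    have h3 := mul_le_mul_of_nonneg_left (hK₁ ω) (abs_nonneg a)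
    linarith
  have haux := hardy_aux hℓ hhd hc' hh0 hhK hh'K
  -- the norms
  have n1 : ‖vL p ℓ u‖ ^ 2 = ∫ ω, ‖g ω‖ ^ 2 ∂(muL ℓ) := by
    have h1 := norm_comb_vL hℓ p p u u 1 0
    rw [one_smul, zero_smul, add_zero] at h1
    rw [h1]
    refine integral_congr_ae (Filter.Eventually.of_forall fun ω => ?_)
    simp only [hgn]
    simp
  have n2 : ‖vL (dX p) ℓ u - a • vL p ℓ u‖ ^ 2 = ∫ ω, ‖h' ω‖ ^ 2 ∂(muL ℓ) := by
    have h1 := norm_comb_vL hℓ (dX p) p u u 1 (-a)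
    rw [one_smul, neg_smul, ← sub_eq_add_neg] at h1
    rw [h1]
    refine integral_congr_ae (Filter.Eventually.of_forall fun ω => ?_)
    simp only [hh'n]
    congr 2
    push_cast
    ring
  have hg0 : ‖g 0‖ = |p.eval (Real.exp u)| := by
    rw [hgn]
    have h1 : (u : ℂ) + ((0 : ℝ) : ℂ) * I = (u : ℂ) := by simp
    rw [h1, ev_real, Complex.norm_real, Real.norm_eq_abs]
  -- integrability
  have hint : ∀ {f : ℝ → ℝ} {B : ℝ}, Continuous f → (∀ ω, |f ω| ≤ B) → Integrable f (muL ℓ) :=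
    fun {f B} hf hB => Integrable.of_bound hf.aestronglyMeasurable B
      (Filter.Eventually.of_forall hB)
  have ih : Integrable (fun ω => ‖h ω‖) (muL ℓ) :=
    hint (by fun_prop) fun ω => by rw [abs_norm]; exact hhK ω
  have ih2 : Integrable (fun ω => ‖h ω‖ ^ 2) (muL ℓ) :=
    hint (B := (2 * K₁ + K₂ + |a| * K₁) ^ 2) (by fun_prop) fun ω => by
      rw [abs_of_nonneg (by positivity)]
      exact pow_le_pow_left₀ (norm_nonneg _) (hhK ω) 2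
  have ig2 : Integrable (fun ω => ‖g ω‖ ^ 2) (muL ℓ) :=
    hint (B := K₁ ^ 2) (by fun_prop) fun ω => by
      rw [abs_of_nonneg (by positivity)]
      exact pow_le_pow_left₀ (norm_nonneg _) (hgK ω) 2
  -- the mean of `‖h‖`
  obtain ⟨M, hM⟩ : ∃ M : ℝ, M = ∫ ω, ‖h ω‖ ∂(muL ℓ) := ⟨_, rfl⟩
  obtain ⟨S, hS⟩ : ∃ S : ℝ, S = ∫ ω, ‖h ω‖ ^ 2 ∂(muL ℓ) := ⟨_, rfl⟩
  have hM0 : 0 ≤ M := by
    rw [hM]
    exact integral_nonneg fun ω => norm_nonneg _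
  have hone : ∀ c : ℝ, ∫ _ω : ℝ, c ∂(muL ℓ) = c := by
    intro c
    rw [integral_const, probReal_univ, one_smul]
  have hMS : M ^ 2 ≤ S := by
    have h1 : 0 ≤ ∫ ω, (‖h ω‖ - M) ^ 2 ∂(muL ℓ) := integral_nonneg fun ω => sq_nonneg _
    have h2 : ∫ ω, (‖h ω‖ - M) ^ 2 ∂(muL ℓ) = S - 2 * M * M + M ^ 2 := by
      have h3 : ∀ ω, (‖h ω‖ - M) ^ 2 = (‖h ω‖ ^ 2 - 2 * M * ‖h ω‖) + M ^ 2 := by
        intro ω
        ring
      simp only [h3]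
      have i1 : Integrable (fun ω => ‖h ω‖ ^ 2 - 2 * M * ‖h ω‖) (muL ℓ) :=
        ih2.sub (ih.const_mul _)
      rw [integral_add i1 (integrable_const _),
        integral_sub ih2 (ih.const_mul _), integral_const_mul, hone, ← hM, ← hS]
    nlinarith
  have hG : ‖vL p ℓ u‖ ^ 2 ≤ (‖g 0‖ + Real.sqrt S) ^ 2 := by
    have hS0 : 0 ≤ S := (sq_nonneg M).trans hMS
    have i1 : Integrable (fun ω => ‖g 0‖ ^ 2 + 2 * ‖g 0‖ * ‖h ω‖) (muL ℓ) :=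
      (integrable_const _).add (ih.const_mul _)
    have h1 : ∫ ω, ‖g ω‖ ^ 2 ∂(muL ℓ) ≤ ∫ ω, (‖g 0‖ ^ 2 + 2 * ‖g 0‖ * ‖h ω‖ + ‖h ω‖ ^ 2) ∂(muL ℓ) := by
      refine integral_mono ig2 (i1.add ih2) fun ω => ?_
      have h2 : ‖g ω‖ ≤ ‖g 0‖ + ‖h ω‖ := by
        have h3 : g ω = g 0 + h ω := by rw [hh]; ring
        rw [h3]
        exact norm_add_le _ _
      have h4 := pow_le_pow_left₀ (norm_nonneg _) h2 2
      show ‖g ω‖ ^ 2 ≤ ‖g 0‖ ^ 2 + 2 * ‖g 0‖ * ‖h ω‖ + ‖h ω‖ ^ 2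
      nlinarith
    rw [integral_add i1 ih2,
      integral_add (integrable_const _) (ih.const_mul _), integral_const_mul, hone, ← hM,
      ← hS] at h1
    rw [n1]
    have h5 : M ≤ Real.sqrt S := Real.le_sqrt_of_sq_le hMS
    have h6 := Real.sq_sqrt hS0
    have h7 := mul_le_mul_of_nonneg_left h5 (norm_nonneg (g 0))
    nlinarith
  have hA := abs_le_of_sq_le_sq' hG (by positivity)
  have hSle : Real.sqrt S ≤ 2 * ℓ * ‖vL (dX p) ℓ u - a • vL p ℓ u‖ := by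
    rw [← hS, ← n2] at haux
    rw [show 2 * ℓ * ‖vL (dX p) ℓ u - a • vL p ℓ u‖ =
      Real.sqrt ((2 * ℓ * ‖vL (dX p) ℓ u - a • vL p ℓ u‖) ^ 2) from
        (Real.sqrt_sq (by positivity)).symm]
    refine Real.sqrt_le_sqrt (haux.trans (le_of_eq ?_))
    ring
  rw [← hg0]
  linarith [hA.2]

end Pool.Agent.MP_c11b14_lc.OP
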