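import Pool.Agent.Lib.MP_c11b14_lc.OP.B1
import Pool.Agent.Lib.MP_c11b14_lc.OP.B2
import Pool.Agent.Lib.MP_c11b14_lc.OP.B3
import Pool.Agent.Lib.MP_c11b14_lc.OP.B4

set_option autoImplicit false

/-! Task B5: where the direction turns little, `p(e^z)` is nearly `b e^{az}`. -/

namespace Pool.Agent.MP_c11b14_lc.OP

open Polynomial Complex MeasureTheory

/-- the mean value of a nonnegative continuous function -/
private theorem B5_mean {f : ℝ → ℝ} (hf : Continuous f) {x ℓ M : ℝ} (hℓ : 0 < ℓ)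
    (h : ∫ u in (x - ℓ)..(x + ℓ), f u ≤ M) : ∃ u ∈ Set.Icc (x - ℓ) (x + ℓ), f u ≤ M / (2 * ℓ) := by
  by_contra hcon
  push Not at hcon
  have h1 : ∫ _u in (x - ℓ)..(x + ℓ), M / (2 * ℓ) < ∫ u in (x - ℓ)..(x + ℓ), f u := by
    apply intervalIntegral.integral_lt_integral_of_continuousOn_of_le_of_exists_lt (by linarith)
      continuousOn_const hf.continuousOn
    · intro u hu
      exact (hcon u ⟨hu.1.le, hu.2⟩).le
    · exact ⟨x, ⟨by linarith, by linarith⟩, hcon x ⟨by linarith, by linarith⟩⟩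
  rw [intervalIntegral.integral_const, smul_eq_mul] at h1
  have h2 : (x + ℓ - (x - ℓ)) * (M / (2 * ℓ)) = M := by
    field_simp
    ring
  rw [h2] at h1
  linarith

/-- B5. PROOF. `ode_part (A+1)` for `φ = vL p ℓ` (`hasDerivAt_vL`, `vL_ne_zero`, `commut`), then `pointwise A` with `M = c₂ Λ ρ₀`, `ρ₀ = e^{-ax} ‖vL p ℓ x‖`: for `g(z) = e^{-az} ev p z`,
`|g'(z)| ≤ c₃ c₂ Λ ρ₀/ℓ` on `‖z - x‖ ≤ Aℓ`. Choose `u* ∈ [x - ℓ, x + ℓ]` with `e^{-au*} ‖vL (dX p) u* - a vL p u*‖ ≤ c₂ Λ ρ₀/(2ℓ)` (mean value of the integral); `hardy`: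
`ρ₀/2 ≤ e^{-au*} ‖vL p u*‖ ≤ |g(u*)| + c₂ Λ ρ₀`, so `|g(u*)| ≥ ρ₀/4` for `c₂ Λ ≤ 1/4`. For `‖z-x‖ ≤ Aℓ`: `|g(z) - g(u*)| ≤ (A+1) ℓ c₃ c₂ Λ ρ₀/ℓ ≤ ρ₀/8` (the disc is convex), so
`|g(z)| ≥ ρ₀/8` and `‖ev (dX p) z - a ev p z‖/‖ev p z‖ = |g'(z)|/|g(z)| ≤ 8 c₃ c₂ Λ/ℓ`. -/
theorem lemB (A : ℝ) (hA : 1 ≤ A) : ∃ ε₀ c₄ : ℝ, 0 < ε₀ ∧ 0 < c₄ ∧ ∀ (p : ℝ[X]), p ≠ 0 →
    ∀ (ℓ x Λ : ℝ), 0 < ℓ → ∫ u in (x - (A + 1) * ℓ)..(x + (A + 1) * ℓ), sp p ℓ u ≤ Λ → Λ ≤ ε₀ →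
    ∃ a : ℝ, ∀ z : ℂ, ‖z - x‖ ≤ A * ℓ → ev p z ≠ 0 ∧
      ‖ev (dX p) z - a * ev p z‖ ≤ c₄ / ℓ * Λ * ‖ev p z‖ := by
  obtain ⟨ε₁, c₂, hε₁, hc₂, hode⟩ := ode_part (A + 1) (by linarith)
  obtain ⟨c₃, hc₃, hpt⟩ := pointwise A hA
  refine ⟨min ε₁ (min (1 / (4 * c₂)) (1 / (8 * c₂ * c₃ * (A + 1)))), 8 * c₃ * c₂,
    lt_min hε₁ (lt_min (by positivity) (by positivity)), by positivity, ?_⟩
  intro p hp ℓ x Λ hℓ hint hΛ
  have hΛ1 : Λ ≤ ε₁ := hΛ.trans (min_le_left _ _)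
  have hΛ2 : c₂ * Λ ≤ 1 / 4 := by
    have h1 := hΛ.trans ((min_le_right _ _).trans (min_le_left _ _))
    rw [le_div_iff₀ (by positivity)] at h1
    linarith
  have hΛ3 : 8 * c₂ * c₃ * (A + 1) * Λ ≤ 1 := by
    have h1 := hΛ.trans ((min_le_right _ _).trans (min_le_right _ _))
    rw [le_div_iff₀ (by positivity)] at h1
    linarith
  have hAℓ : 0 < A * ℓ := by positivity
  have hΛ0 : 0 ≤ Λ := by
    refine le_trans ?_ hint
    apply intervalIntegral.integral_nonneg (by nlinarith)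
    intro u _
    unfold sp spd
    positivity
  obtain ⟨a, ha1, ha2⟩ := hode (HL ℓ) (vL p ℓ) (vL (dX p) ℓ) ℓ x Λ hℓ
    (fun u => (hasDerivAt_vL hℓ p u).1) (hasDerivAt_vL hℓ p 0).2 (fun u => vL_ne_zero hℓ hp u)
    (fun u u' => commut hℓ hp u u') hint hΛ1
  obtain ⟨ρ₀, hρ₀⟩ : ∃ ρ₀ : ℝ, ρ₀ = Real.exp (-a * x) * ‖vL p ℓ x‖ := ⟨_, rfl⟩
  have hρ0 : 0 < ρ₀ := by
    rw [hρ₀]
    exact mul_pos (Real.exp_pos _) (norm_pos_iff.2 (vL_ne_zero hℓ hp x))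
  rw [← hρ₀] at ha2
  have hM0 : 0 ≤ c₂ * Λ * ρ₀ := by positivity
  have hder := hpt p ℓ x a (c₂ * Λ * ρ₀) hℓ ha2
  -- the point `u*`
  have hcont : Continuous (fun u : ℝ => Real.exp (-a * u) * ‖vL (dX p) ℓ u - a • vL p ℓ u‖) := by
    have h1 : Continuous (vL p ℓ) :=
      continuous_iff_continuousAt.2 fun u => (hasDerivAt_vL hℓ p u).1.continuousAt
    have h2 : Continuous (vL (dX p) ℓ) := (hasDerivAt_vL hℓ p 0).2
    have h3 : Continuous (fun u : ℝ => Real.exp (-a * u)) := by fun_prop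
    exact h3.mul (h2.sub (h1.const_smul a)).norm
  have hint2 : ∫ u in (x - ℓ)..(x + ℓ), Real.exp (-a * u) * ‖vL (dX p) ℓ u - a • vL p ℓ u‖ ≤
      c₂ * Λ * ρ₀ := by
    refine le_trans ?_ ha2
    apply intervalIntegral.integral_mono_interval (by nlinarith) (by linarith) (by nlinarith)
    · exact Filter.Eventually.of_forall fun u => by positivity
    · exact hcont.intervalIntegrable _ _
  obtain ⟨us, hus, hus2⟩ := B5_mean hcont hℓ hint2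
  have husI : us ∈ Set.Icc (x - (A + 1) * ℓ) (x + (A + 1) * ℓ) :=
    ⟨by nlinarith [hus.1], by nlinarith [hus.2]⟩
  have h1 := (ha1 us husI).2
  rw [← hρ₀] at h1
  have h2 := hardy hℓ p a us
  obtain ⟨E, hE⟩ : ∃ E : ℝ, E = Real.exp (-a * us) := ⟨_, rfl⟩
  have hE0 : 0 < E := by
    rw [hE]
    exact Real.exp_pos _
  rw [← hE] at h1 hus2
  have h3 : E * ‖vL p ℓ us‖ ≤ E * |p.eval (Real.exp us)| + c₂ * Λ * ρ₀ := by
    have h4 : E * ‖vL p ℓ us‖ ≤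
        E * (|p.eval (Real.exp us)| + 2 * ℓ * ‖vL (dX p) ℓ us - a • vL p ℓ us‖) :=
      mul_le_mul_of_nonneg_left h2 hE0.le
    have h5 : 2 * ℓ * (E * ‖vL (dX p) ℓ us - a • vL p ℓ us‖) ≤ c₂ * Λ * ρ₀ := by
      calc 2 * ℓ * (E * ‖vL (dX p) ℓ us - a • vL p ℓ us‖) ≤ 2 * ℓ * (c₂ * Λ * ρ₀ / (2 * ℓ)) :=
            mul_le_mul_of_nonneg_left hus2 (by positivity)
        _ = c₂ * Λ * ρ₀ := by field_simp
    nlinarith
  have h6 : ρ₀ / 4 ≤ E * |p.eval (Real.exp us)| := by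
    have h7 : c₂ * Λ * ρ₀ ≤ 1 / 4 * ρ₀ := mul_le_mul_of_nonneg_right hΛ2 hρ0.le
    linarith
  -- the function `g`
  set g : ℂ → ℂ := fun z => Complex.exp (-(a : ℂ) * z) * ev p z with hg
  set g' : ℂ → ℂ := fun z => Complex.exp (-(a : ℂ) * z) * (ev (dX p) z - a * ev p z) with hg'
  have hgd : ∀ z, HasDerivAt g (g' z) z := by
    intro z
    have h8 : HasDerivAt (fun z : ℂ => Complex.exp (-(a : ℂ) * z))
        (Complex.exp (-(a : ℂ) * z) * (-(a : ℂ) * 1)) z :=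
      ((hasDerivAt_id z).const_mul (-(a : ℂ))).cexp
    have h9 := h8.mul (hasDerivAt_ev p z)
    exact h9.congr_deriv (by rw [hg']; ring)
  have hgus : ‖g us‖ = E * |p.eval (Real.exp us)| := by
    show ‖Complex.exp (-(a : ℂ) * us) * ev p us‖ = _
    rw [norm_mul, ev_real, Complex.norm_real, Real.norm_eq_abs, Complex.norm_exp, hE]
    congr 2
    simp
  refine ⟨a, fun z hz => ?_⟩
  have hz' := hder z hz
  have hconv : Convex ℝ (Metric.closedBall (x : ℂ) (A * ℓ)) := convex_closedBall _ _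
  have husm : (us : ℂ) ∈ Metric.closedBall (x : ℂ) (A * ℓ) := by
    rw [Metric.mem_closedBall, dist_eq_norm, ← Complex.ofReal_sub, Complex.norm_real,
      Real.norm_eq_abs]
    have h10 : |us - x| ≤ ℓ := abs_le.2 ⟨by linarith [hus.1], by linarith [hus.2]⟩
    nlinarith
  have hzm : z ∈ Metric.closedBall (x : ℂ) (A * ℓ) := by
    rw [Metric.mem_closedBall, dist_eq_norm]
    exact hz
  have hlip : ‖g z - g us‖ ≤ c₃ / ℓ * (c₂ * Λ * ρ₀) * ‖z - us‖ := by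
    refine hconv.norm_image_sub_le_of_norm_hasDerivWithin_le (f' := g')
      (fun w _ => (hgd w).hasDerivWithinAt) (fun w hw => ?_) husm hzm
    rw [Metric.mem_closedBall, dist_eq_norm] at hw
    exact hder w hw
  have hdist : ‖z - us‖ ≤ (A + 1) * ℓ := by
    have e1 : z - us = (z - x) + ((x : ℂ) - us) := by ring
    rw [e1]
    refine (norm_add_le _ _).trans ?_
    have h10 : ‖(x : ℂ) - us‖ ≤ ℓ := by
      rw [← Complex.ofReal_sub, Complex.norm_real, Real.norm_eq_abs]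
      exact abs_le.2 ⟨by linarith [hus.2], by linarith [hus.1]⟩
    nlinarith
  have hsmall : ‖g z - g us‖ ≤ ρ₀ / 8 := by
    refine hlip.trans ?_
    calc c₃ / ℓ * (c₂ * Λ * ρ₀) * ‖z - us‖ ≤ c₃ / ℓ * (c₂ * Λ * ρ₀) * ((A + 1) * ℓ) :=
          mul_le_mul_of_nonneg_left hdist (by positivity)
      _ = (8 * c₂ * c₃ * (A + 1) * Λ) * (ρ₀ / 8) := by
          field_simp
      _ ≤ 1 * (ρ₀ / 8) := mul_le_mul_of_nonneg_right hΛ3 (by positivity)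
      _ = ρ₀ / 8 := one_mul _
  have hgz : ρ₀ / 8 ≤ ‖g z‖ := by
    have h11 : ‖g us‖ - ‖g us - g z‖ ≤ ‖g z‖ := by
      have := norm_sub_norm_le (g us) (g us - g z)
      have e2 : g us - (g us - g z) = g z := by ring
      rw [e2] at this
      exact this
    rw [norm_sub_rev, hgus] at h11
    linarith
  have hgz2 : ‖g z‖ = ‖Complex.exp (-(a : ℂ) * z)‖ * ‖ev p z‖ := norm_mul _ _
  have hexp0 : 0 < ‖Complex.exp (-(a : ℂ) * z)‖ := norm_pos_iff.2 (Complex.exp_ne_zero _)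
  refine ⟨?_, ?_⟩
  · intro h0
    rw [hgz2, h0, norm_zero, mul_zero] at hgz
    linarith
  · rw [norm_mul] at hz'
    have h12 : ‖Complex.exp (-(a : ℂ) * z)‖ * ‖ev (dX p) z - a * ev p z‖ ≤
        ‖Complex.exp (-(a : ℂ) * z)‖ * (8 * c₃ * c₂ / ℓ * Λ * ‖ev p z‖) := by
      refine hz'.trans ?_
      calc c₃ / ℓ * (c₂ * Λ * ρ₀) = (8 * c₃ * c₂ / ℓ * Λ) * (ρ₀ / 8) := by
            field_simp
        _ ≤ (8 * c₃ * c₂ / ℓ * Λ) * ‖g z‖ := mul_le_mul_of_nonneg_left hgz (by positivity)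
        _ = _ := by
            rw [hgz2]
            ring
    exact le_of_mul_le_mul_left h12 hexp0

end Pool.Agent.MP_c11b14_lc.OP
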