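import Pool.Agent.Lib.MP_c11b14_lc.OP.B0

set_option autoImplicit false

/-! Task B6: at the scale `1` the exponent is nearly an integer. -/

namespace Pool.Agent.MP_c11b14_lc.OP

open Polynomial Complex MeasureTheory

/-- B6. PROOF. On the segment `z = x + iω`, `|ω| ≤ π` (`≤ 4`), `D = ev (dX p)/ev p` satisfies `‖D - a‖ ≤ δ` and is continuous. `ev p (x + iω) = ev p (x - iπ) exp(∫_{-π}^{ω} i D)` (both sides solve
`y' = i D y`; or differentiate the quotient), and `ev p (x + iπ) = ev p (x - iπ)` (`e^{iπ} = e^{-iπ}`), so `exp(i ∫_{-π}^{π} D) = 1` and `∫_{-π}^{π} D = 2πn`, `n : ℤ` (`Complex.exp_eq_one_iff`).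
So `2π |n - a| = |∫ (D - a)| ≤ 2πδ`. -/
theorem near_int {p : ℝ[X]} {x a δ : ℝ}
    (h : ∀ z : ℂ, ‖z - x‖ ≤ 4 → ev p z ≠ 0 ∧ ‖ev (dX p) z - a * ev p z‖ ≤ δ * ‖ev p z‖) :
    ∃ n : ℤ, |a - n| ≤ δ := by
  have hπ : (0 : ℝ) < Real.pi := Real.pi_pos
  have hπ4 : Real.pi ≤ 4 := Real.pi_le_four
  have hc : ∀ q : ℝ[X], Continuous (ev q) := fun q =>
    continuous_iff_continuousAt.2 fun z => (hasDerivAt_ev q z).continuousAt
  have hγ : ∀ ω : ℝ, HasDerivAt (fun ω : ℝ => (x : ℂ) + ω * I) I ω := fun ω => by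
    simpa using ((hasDerivAt_id ω).ofReal_comp.mul_const I).const_add (x : ℂ)
  have hγc : Continuous fun ω : ℝ => (x : ℂ) + ω * I := by fun_prop
  have hnorm : ∀ ω ∈ Set.Icc (-Real.pi) Real.pi, ‖(x : ℂ) + ω * I - x‖ ≤ 4 := by
    intro ω hω
    rw [add_sub_cancel_left, norm_mul, Complex.norm_I, mul_one, Complex.norm_real,
      Real.norm_eq_abs]
    exact (abs_le.2 ⟨hω.1, hω.2⟩).trans hπ4
  set D : ℝ → ℂ := fun ω => ev (dX p) (x + ω * I) / ev p (x + ω * I) with hD
  have hDc : ContinuousOn D (Set.Icc (-Real.pi) Real.pi) :=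
    ((hc (dX p)).comp hγc).continuousOn.div ((hc p).comp hγc).continuousOn
      (fun ω hω => (h _ (hnorm ω hω)).1)
  set D' : ℝ → ℂ := fun ω => D (max (-Real.pi) (min Real.pi ω)) with hD'
  have hD'c : Continuous D' :=
    hDc.comp_continuous (f := fun ω : ℝ => max (-Real.pi) (min Real.pi ω)) (by fun_prop)
      (fun ω => ⟨le_max_left _ _, max_le (by linarith) (min_le_left _ _)⟩)
  have hDD : ∀ ω ∈ Set.Icc (-Real.pi) Real.pi, D' ω = D ω := by
    intro ω hω
    simp only [hD']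
    rw [min_eq_right hω.2, max_eq_right hω.1]
  set Φ : ℝ → ℂ := fun ω => ∫ t in (-Real.pi)..ω, D' t with hΦ
  have hΦd : ∀ ω, HasDerivAt Φ (D' ω) ω := fun ω =>
    (hD'c.integral_hasStrictDerivAt (-Real.pi) ω).hasDerivAt
  have hF : ∀ ω : ℝ, HasDerivAt (fun ω : ℝ => ev p (x + ω * I) * Complex.exp (-(I * Φ ω)))
      ((ev (dX p) (x + ω * I) * I) * Complex.exp (-(I * Φ ω)) +
        ev p (x + ω * I) * (Complex.exp (-(I * Φ ω)) * (-(I * D' ω)))) ω := by
    intro ω
    have h1 : HasDerivAt (fun ω : ℝ => ev p (x + ω * I)) (ev (dX p) (x + ω * I) * I) ω :=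
      HasDerivAt.comp ω (h₂ := ev p) (h := fun ω : ℝ => (x : ℂ) + ω * I)
        (hasDerivAt_ev p (x + ω * I)) (hγ ω)
    exact h1.mul (((hΦd ω).const_mul I).neg.cexp)
  have hconst := constant_of_has_deriv_right_zero
    (f := fun ω : ℝ => ev p (x + ω * I) * Complex.exp (-(I * Φ ω))) (a := -Real.pi)
    (b := Real.pi) (fun ω _ => (hF ω).continuousAt.continuousWithinAt) (by
      intro ω hω
      have hω' : ω ∈ Set.Icc (-Real.pi) Real.pi := ⟨hω.1, hω.2.le⟩
      have h0 : ev p (x + ω * I) ≠ 0 := (h _ (hnorm ω hω')).1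
      have h2 := (hF ω).hasDerivWithinAt (s := Set.Ici ω)
      convert h2 using 1
      rw [hDD ω hω']
      simp only [hD]
      field_simp
      ring)
  have hend := hconst Real.pi ⟨by linarith, le_rfl⟩
  have hper : ev p ((x : ℂ) + (Real.pi : ℝ) * I) = ev p ((x : ℂ) + ((-Real.pi : ℝ) : ℂ) * I) := by
    unfold ev
    congr 1
    rw [Complex.exp_add, Complex.exp_add, Complex.exp_pi_mul_I]
    congr 1
    push_cast
    rw [neg_mul, Complex.exp_neg, Complex.exp_pi_mul_I]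
    norm_num
  have hπm : -Real.pi ∈ Set.Icc (-Real.pi) Real.pi := ⟨le_rfl, by linarith⟩
  have hne : ev p ((x : ℂ) + ((-Real.pi : ℝ) : ℂ) * I) ≠ 0 := (h _ (hnorm _ hπm)).1
  have hexp : Complex.exp (-(I * Φ Real.pi)) = 1 := by
    rw [hper] at hend
    have h3 := mul_left_cancel₀ hne hend
    rw [h3]
    simp [hΦ]
  obtain ⟨n, hn⟩ := Complex.exp_eq_one_iff.1 hexp
  refine ⟨-n, ?_⟩
  have hΦn : Φ Real.pi = -((n : ℂ) * (2 * Real.pi)) := by
    have h4 : I * (Φ Real.pi + (n : ℂ) * (2 * Real.pi)) = 0 := by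
      linear_combination -hn
    have h5 := (mul_eq_zero.1 h4).resolve_left Complex.I_ne_zero
    linear_combination h5
  have hint : ‖∫ t in (-Real.pi)..Real.pi, (D' t - a)‖ ≤ δ * |Real.pi - -Real.pi| := by
    refine intervalIntegral.norm_integral_le_of_norm_le_const fun t ht => ?_
    rw [Set.uIoc_of_le (by linarith)] at ht
    have ht' : t ∈ Set.Icc (-Real.pi) Real.pi := ⟨ht.1.le, ht.2⟩
    rw [hDD t ht']
    obtain ⟨h6, h7⟩ := h _ (hnorm t ht')
    have h8 : D t - a = (ev (dX p) (x + t * I) - a * ev p (x + t * I)) / ev p (x + t * I) := by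
      simp only [hD]
      field_simp
    rw [h8, norm_div, div_le_iff₀ (norm_pos_iff.2 h6)]
    exact h7
  have hint2 : ∫ t in (-Real.pi)..Real.pi, (D' t - a) = -((n : ℂ) * (2 * Real.pi)) - a * (2 * Real.pi) := by
    rw [intervalIntegral.integral_sub (hD'c.intervalIntegrable _ _)
      (continuous_const.intervalIntegrable _ _)]
    rw [intervalIntegral.integral_const]
    have : ∫ t in (-Real.pi)..Real.pi, D' t = Φ Real.pi := rfl
    rw [this, hΦn]
    simp only [Complex.real_smul]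
    push_cast
    ring
  rw [hint2] at hint
  have h9 : -((n : ℂ) * (2 * Real.pi)) - a * (2 * Real.pi) =
      (((-(n : ℝ) - a) * (2 * Real.pi) : ℝ) : ℂ) := by
    push_cast
    ring
  rw [h9, Complex.norm_real, Real.norm_eq_abs, abs_mul, abs_of_pos (by linarith : 0 < 2 * Real.pi),
    abs_of_pos (by linarith : 0 < Real.pi - -Real.pi)] at hint
  have h10 : |(-(n : ℝ) - a)| ≤ δ := by
    have : |(-(n : ℝ) - a)| * (2 * Real.pi) ≤ δ * (2 * Real.pi) := by
      calc _ ≤ δ * (Real.pi - -Real.pi) := hint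
        _ = δ * (2 * Real.pi) := by ring
    exact le_of_mul_le_mul_right this (by linarith)
  rw [abs_sub_comm] at h10
  have h11 : a - ((-n : ℤ) : ℝ) = a - -(n : ℝ) := by push_cast; ring
  rw [h11]
  exact h10

end Pool.Agent.MP_c11b14_lc.OP
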