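import Pool.Agent.Lib.MP_c11b14_lc.OP.Defs

set_option autoImplicit false

/-! C0 (proved): counting zeros, and functions with a measurable majorant on `[1, 2]`. -/

namespace Pool.Agent.MP_c11b14_lc.OP

open Polynomial Complex MeasureTheory
open scoped ENNReal

/-- The number of real zeros `u` of `(G₁ + λ G₂)(e^u)` in `S`. -/
noncomputable def cz {κ : Type} [Fintype κ] (p : κ → ℝ[X]) (σ : κ → Bool) (lm : ℝ) (S : Set ℝ) : ℝ≥0∞ :=
  Measure.count (zs p σ lm S)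

/-- `f` has a measurable majorant on `[1, 2]` (almost everywhere) with integral at most `B`. -/
def Maj (f : ℝ → ℝ≥0∞) (B : ℝ≥0∞) : Prop :=
  ∃ H : ℝ → ℝ≥0∞, Measurable H ∧ (∀ᵐ lm ∂(volume.restrict (Set.Icc (1 : ℝ) 2)), f lm ≤ H lm) ∧
    ∫⁻ lm in Set.Icc (1 : ℝ) 2, H lm ≤ B

theorem Maj.mono {f g : ℝ → ℝ≥0∞} {B D : ℝ≥0∞} (h : Maj f B)
    (hg : ∀ᵐ lm ∂(volume.restrict (Set.Icc (1 : ℝ) 2)), g lm ≤ f lm) (hB : B ≤ D) : Maj g D := by
  obtain ⟨H, hm, hf, hi⟩ := h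
  refine ⟨H, hm, ?_, hi.trans hB⟩
  filter_upwards [hf, hg] with lm h1 h2 using h2.trans h1

theorem Maj.mono' {f g : ℝ → ℝ≥0∞} {B D : ℝ≥0∞} (h : Maj f B)
    (hg : ∀ lm, 1 ≤ lm → lm ≤ 2 → g lm ≤ f lm) (hB : B ≤ D) : Maj g D := by
  refine h.mono ?_ hB
  filter_upwards [ae_restrict_mem measurableSet_Icc] with lm hl using hg lm hl.1 hl.2

theorem Maj.add {f g : ℝ → ℝ≥0∞} {B D : ℝ≥0∞} (hf : Maj f B) (hg : Maj g D) :
    Maj (fun lm => f lm + g lm) (B + D) := by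
  obtain ⟨H, hm, hf, hi⟩ := hf
  obtain ⟨G, gm, hg, gi⟩ := hg
  refine ⟨fun lm => H lm + G lm, hm.add gm, ?_, ?_⟩
  · filter_upwards [hf, hg] with lm h1 h2 using add_le_add h1 h2
  · rw [lintegral_add_left hm]
    exact add_le_add hi gi

theorem Maj.sum {ι : Type} (s : Finset ι) {f : ι → ℝ → ℝ≥0∞} {B : ι → ℝ≥0∞}
    (h : ∀ i ∈ s, Maj (f i) (B i)) : Maj (fun lm => ∑ i ∈ s, f i lm) (∑ i ∈ s, B i) := by
  classical
  induction s using Finset.induction_on with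
  | empty => exact ⟨fun _ => 0, measurable_const, by simp, by simp⟩
  | insert a s ha ih =>
    simp only [Finset.sum_insert ha]
    exact (h a (Finset.mem_insert_self a s)).add (ih fun i hi => h i (Finset.mem_insert_of_mem hi))

theorem Maj.tsum {ι : Type} [Countable ι] {f : ι → ℝ → ℝ≥0∞} {B : ι → ℝ≥0∞}
    (h : ∀ i, Maj (f i) (B i)) : Maj (fun lm => ∑' i, f i lm) (∑' i, B i) := by
  choose H hm hf hi using h
  refine ⟨fun lm => ∑' i, H i lm, ?_, ?_, ?_⟩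
  · exact Measurable.ennreal_tsum hm
  · filter_upwards [ae_all_iff.2 hf] with lm h1
    exact ENNReal.tsum_le_tsum h1
  · rw [lintegral_tsum fun i => (hm i).aemeasurable]
    exact ENNReal.tsum_le_tsum hi

theorem Maj.const (a : ℝ≥0∞) : Maj (fun _ => a) a := by
  refine ⟨fun _ => a, measurable_const, by simp, ?_⟩
  have h : (volume : Measure ℝ) (Set.Icc (1 : ℝ) 2) = 1 := by
    rw [Real.volume_Icc]; norm_num
  simp [h]

section

variable {κ : Type} [Fintype κ] (p : κ → ℝ[X]) (σ : κ → Bool) (lm : ℝ)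

theorem cz_mono {S T : Set ℝ} (h : S ⊆ T) : cz p σ lm S ≤ cz p σ lm T :=
  measure_mono fun _ hu => ⟨h hu.1, hu.2⟩

theorem cz_union_le (S T : Set ℝ) : cz p σ lm (S ∪ T) ≤ cz p σ lm S + cz p σ lm T := by
  refine (measure_mono ?_).trans (measure_union_le _ _)
  rintro u ⟨h1 | h1, h2⟩
  · exact Or.inl ⟨h1, h2⟩
  · exact Or.inr ⟨h1, h2⟩

theorem cz_iUnion_le {ι : Type} [Countable ι] (S : ι → Set ℝ) :
    cz p σ lm (⋃ i, S i) ≤ ∑' i, cz p σ lm (S i) := by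
  refine (measure_mono ?_).trans (measure_iUnion_le _)
  rintro u ⟨h1, h2⟩
  obtain ⟨i, hi⟩ := Set.mem_iUnion.1 h1
  exact Set.mem_iUnion.2 ⟨i, hi, h2⟩

theorem cz_biUnion_le {ι : Type} (s : Finset ι) (S : ι → Set ℝ) :
    cz p σ lm (⋃ i ∈ s, S i) ≤ ∑ i ∈ s, cz p σ lm (S i) := by
  refine (measure_mono ?_).trans (measure_biUnion_finset_le s _)
  rintro u ⟨h1, h2⟩
  obtain ⟨i, hi, h3⟩ := Set.mem_iUnion₂.1 h1
  exact Set.mem_iUnion₂.2 ⟨i, hi, h3, h2⟩

end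

/-- To bound `Measure.count S` it is enough to bound the finite subsets. -/
theorem count_le_of_finset {S : Set ℝ} {B : ℝ≥0∞}
    (h : ∀ s : Finset ℝ, (∀ t ∈ s, t ∈ S) → (s.card : ℝ≥0∞) ≤ B) : Measure.count S ≤ B := by
  by_cases hf : S.Finite
  · have := h hf.toFinset (fun t ht => by simpa using ht)
    rwa [Measure.count_apply_finite S hf]
  · have hB : B = ⊤ := by
      by_contra hB
      obtain ⟨n, hn⟩ := ENNReal.exists_nat_gt hB
      obtain ⟨s, hs, hc⟩ := (Set.not_finite.1 hf : S.Infinite).exists_subset_card_eq n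
      have := h s (fun t ht => hs ht)
      rw [hc] at this
      exact absurd (this.trans_lt hn) (lt_irrefl _)
    rw [hB]
    exact le_top

theorem card_le_count {S : Set ℝ} {s : Finset ℝ} (h : ∀ t ∈ s, t ∈ S) :
    (s.card : ℝ≥0∞) ≤ Measure.count S := by
  rw [← Measure.count_apply_finset s]
  exact measure_mono fun t ht => h t ht

end Pool.Agent.MP_c11b14_lc.OP
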