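import Pool.Agent.Lib.MP_c11b14_lc.OP.C0

set_option autoImplicit false

/-! Task C1: a measurable majorant of the number of solutions of `g t = y`. -/

namespace Pool.Agent.MP_c11b14_lc.OP

open MeasureTheory
open scoped ENNReal

/-- The points of the subdivision into `n + 1` parts. -/
private noncomputable def c1pt (a b : ℝ) (n k : ℕ) : ℝ := a + k * ((b - a) / (n + 1))

private theorem c1_step (a b : ℝ) (n k : ℕ) :
    c1pt a b n (k + 1) = c1pt a b n k + (b - a) / (n + 1) := by
  unfold c1pt
  push_cast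
  ring

private theorem c1_zero (a b : ℝ) (n : ℕ) : c1pt a b n 0 = a := by
  unfold c1pt
  simp

private theorem c1_last (a b : ℝ) (n : ℕ) : c1pt a b n (n + 1) = b := by
  unfold c1pt
  have : (n : ℝ) + 1 ≠ 0 := by positivity
  push_cast
  field_simp
  ring

private theorem c1_mem {a b : ℝ} (hab : a < b) (n k : ℕ) (hk : k ≤ n + 1) :
    c1pt a b n k ∈ Set.Icc a b := by
  have h0 : 0 < b - a := by linarith
  have h1 : (0 : ℝ) < (n : ℝ) + 1 := by positivity
  have hk' : (k : ℝ) ≤ (n : ℝ) + 1 := by exact_mod_cast hk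
  unfold c1pt
  constructor
  · have : 0 ≤ (k : ℝ) * ((b - a) / (n + 1)) := by positivity
    linarith
  · have h2 : (k : ℝ) * ((b - a) / (n + 1)) ≤ ((n : ℝ) + 1) * ((b - a) / (n + 1)) := by gcongr
    rw [mul_div_cancel₀ _ h1.ne'] at h2
    linarith

private theorem c1_exists {a b : ℝ} (hab : a < b) (n : ℕ) {t : ℝ} (ht : t ∈ Set.Icc a b) :
    ∃ k < n + 1, t ∈ Set.Icc (c1pt a b n k) (c1pt a b n (k + 1)) := by
  have h0 : 0 < b - a := by linarith
  have h1 : (0 : ℝ) < (n : ℝ) + 1 := by positivity
  set h : ℝ := (b - a) / (n + 1) with hh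
  have hpos : 0 < h := by positivity
  by_cases hlt : ⌊(t - a) / h⌋₊ < n + 1
  · refine ⟨⌊(t - a) / h⌋₊, hlt, ?_, ?_⟩
    · have h2 := Nat.floor_le (div_nonneg (sub_nonneg.2 ht.1) hpos.le)
      rw [le_div_iff₀ hpos] at h2
      unfold c1pt
      linarith
    · have h2 := Nat.lt_floor_add_one ((t - a) / h)
      rw [div_lt_iff₀ hpos] at h2
      rw [c1_step]
      unfold c1pt
      rw [← hh]
      nlinarith
  · refine ⟨n, by omega, ?_, ?_⟩
    · rw [not_lt] at hlt
      have h3 : ((n + 1 : ℕ) : ℝ) ≤ (t - a) / h :=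
        (Nat.cast_le.2 hlt).trans (Nat.floor_le (div_nonneg (sub_nonneg.2 ht.1) hpos.le))
      rw [le_div_iff₀ hpos] at h3
      push_cast at h3
      unfold c1pt
      rw [← hh]
      nlinarith
    · rw [c1_last]
      exact ht.2

/-- C1a. PROOF. For every `n` cut `[a,b]` into `2^n` equal closed intervals `I_k`; `H_n(y) = ∑_k 1[y ∈ g(I_k)]`; `g(I_k)` is a compact interval of length `≤ ∫_{I_k} |g'|`
(so `∫ H_n ≤ ∫_{[a,b]} |g'|`); `H = liminf H_n`, Fatou (`lintegral_liminf_le`). If `g t_1 = ... = g t_r = y` for different `t_i` then for large `n` they lie in different intervals, so `H_n(y) ≥ r`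
(use `count_le_of_finset`). If `b < a` or `a = b` take care of the trivial case (`b < a`: `H = 0`; `a = b`: `H = 1[y = g a]`). -/
theorem area_major_Icc {g g' : ℝ → ℝ} {a b : ℝ} (hd : ∀ t ∈ Set.Icc a b, HasDerivAt g (g' t) t)
    (hc : ContinuousOn g' (Set.Icc a b)) :
    ∃ H : ℝ → ℝ≥0∞, Measurable H ∧ (∀ y, Measure.count {t | t ∈ Set.Icc a b ∧ g t = y} ≤ H y) ∧
      ∫⁻ y, H y ≤ ∫⁻ t in Set.Icc a b, ENNReal.ofReal |g' t| := by
  classical
  rcases le_or_gt b a with hab | hab
  · refine ⟨({g a} : Set ℝ).indicator (fun _ => ⊤), measurable_const.indicator (measurableSet_singleton _),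
      ?_, ?_⟩
    · intro y
      by_cases hy : y = g a
      · rw [hy, Set.indicator_of_mem (Set.mem_singleton _)]
        exact le_top
      · rw [Set.indicator_of_notMem (by simpa using hy)]
        have h0 : {t | t ∈ Set.Icc a b ∧ g t = y} = ∅ := by
          ext t
          simp only [Set.mem_ofPred_eq, Set.mem_empty_iff_false, iff_false, not_and]
          intro ht hgt
          have h1 : t = a := le_antisymm (ht.2.trans hab) ht.1
          rw [h1] at hgt
          exact hy hgt.symm
        rw [h0, measure_empty]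
    · rw [lintegral_indicator_const (measurableSet_singleton _)]
      simp
  have hgc : ContinuousOn g (Set.Icc a b) := fun t ht => (hd t ht).continuousAt.continuousWithinAt
  have hg'c : ContinuousOn (fun t => |g' t|) (Set.Icc a b) := hc.abs
  set I : ℕ → ℕ → Set ℝ := fun n k => Set.Icc (c1pt a b n k) (c1pt a b n (k + 1)) with hI
  have hIsub : ∀ n k, k < n + 1 → I n k ⊆ Set.Icc a b := fun n k hk =>
    Set.Icc_subset_Icc (c1_mem hab n k hk.le).1 (c1_mem hab n (k + 1) hk).2
  set Hn : ℕ → ℝ → ℝ≥0∞ := fun n y =>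
    ∑ k ∈ Finset.range (n + 1), (g '' I n k).indicator (fun _ => (1 : ℝ≥0∞)) y with hHn
  have hmeasI : ∀ n k, k < n + 1 → MeasurableSet (g '' I n k) := fun n k hk =>
    (isCompact_Icc.image_of_continuousOn (hgc.mono (hIsub n k hk))).measurableSet
  have hmeas : ∀ n, Measurable (Hn n) := by
    intro n
    refine Finset.measurable_fun_sum _ fun k hk => ?_
    exact measurable_const.indicator (hmeasI n k (Finset.mem_range.1 hk))
  have hint : IntervalIntegrable (fun t => |g' t|) volume a b := by
    apply ContinuousOn.intervalIntegrable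
    rwa [Set.uIcc_of_le hab.le]
  have hintk : ∀ n k, k ≤ n → IntervalIntegrable (fun t => |g' t|) volume
      (c1pt a b n k) (c1pt a b n (k + 1)) := by
    intro n k hk
    apply ContinuousOn.intervalIntegrable
    refine hg'c.mono ?_
    have hle : c1pt a b n k ≤ c1pt a b n (k + 1) := by
      rw [c1_step]
      have : 0 ≤ (b - a) / ((n : ℝ) + 1) := div_nonneg (by linarith) (by positivity)
      linarith
    rw [Set.uIcc_of_le hle]
    exact hIsub n k (by omega)
  have hvol : ∀ n k, k ≤ n → volume (g '' I n k) ≤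
      ENNReal.ofReal (∫ t in (c1pt a b n k)..(c1pt a b n (k + 1)), |g' t|) := by
    intro n k hk
    refine (Real.volume_le_diam _).trans ?_
    refine Metric.ediam_le ?_
    rintro _ ⟨s, hs, rfl⟩ _ ⟨s', hs', rfl⟩
    have key : ∀ p ∈ I n k, ∀ q ∈ I n k, p ≤ q →
        |g q - g p| ≤ ∫ t in (c1pt a b n k)..(c1pt a b n (k + 1)), |g' t| := by
      intro p hp q hq hpq
      have hsub : Set.uIcc p q ⊆ Set.Icc a b := by
        rw [Set.uIcc_of_le hpq]
        exact Set.Icc_subset_Icc (hIsub n k (by omega) hp).1 (hIsub n k (by omega) hq).2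
      have h1 : ∫ t in p..q, g' t = g q - g p := by
        refine intervalIntegral.integral_eq_sub_of_hasDerivAt (fun t ht => hd t (hsub ht)) ?_
        exact (hc.mono hsub).intervalIntegrable
      rw [← h1]
      refine (intervalIntegral.abs_integral_le_integral_abs hpq).trans ?_
      refine intervalIntegral.integral_mono_interval hp.1 hpq hq.2 ?_ (hintk n k hk)
      exact Filter.Eventually.of_forall fun t => abs_nonneg _
    rw [edist_dist, Real.dist_eq]
    refine ENNReal.ofReal_le_ofReal ?_
    rcases le_total s s' with h | h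
    · rw [abs_sub_comm]
      exact key s hs s' hs' h
    · exact key s' hs' s hs h
  have hbound : ∀ n, ∫⁻ y, Hn n y ≤ ∫⁻ t in Set.Icc a b, ENNReal.ofReal |g' t| := by
    intro n
    have h1 : ∫⁻ y, Hn n y = ∑ k ∈ Finset.range (n + 1), volume (g '' I n k) := by
      rw [hHn]
      rw [lintegral_finsetSum' _ fun k hk =>
        (measurable_const.indicator (hmeasI n k (Finset.mem_range.1 hk))).aemeasurable]
      refine Finset.sum_congr rfl fun k hk => ?_
      rw [lintegral_indicator_const (hmeasI n k (Finset.mem_range.1 hk)), one_mul]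
    rw [h1]
    calc ∑ k ∈ Finset.range (n + 1), volume (g '' I n k)
        ≤ ∑ k ∈ Finset.range (n + 1),
            ENNReal.ofReal (∫ t in (c1pt a b n k)..(c1pt a b n (k + 1)), |g' t|) :=
          Finset.sum_le_sum fun k hk => hvol n k (by
            have := Finset.mem_range.1 hk
            omega)
      _ = ENNReal.ofReal (∑ k ∈ Finset.range (n + 1),
            ∫ t in (c1pt a b n k)..(c1pt a b n (k + 1)), |g' t|) := by
          rw [ENNReal.ofReal_sum_of_nonneg]
          intro k _
          refine intervalIntegral.integral_nonneg ?_ fun t _ => abs_nonneg _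
          rw [c1_step]
          have : 0 ≤ (b - a) / ((n : ℝ) + 1) := div_nonneg (by linarith) (by positivity)
          linarith
      _ = ENNReal.ofReal (∫ t in a..b, |g' t|) := by
          rw [intervalIntegral.sum_integral_adjacent_intervals fun k hk => hintk n k (by omega)]
          rw [c1_zero, c1_last]
      _ = ∫⁻ t in Set.Icc a b, ENNReal.ofReal |g' t| := by
          rw [intervalIntegral.integral_of_le hab.le, ← integral_Icc_eq_integral_Ioc]
          refine ofReal_integral_eq_lintegral_ofReal ?_ ?_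
          · exact hg'c.integrableOn_Icc
          · exact Filter.Eventually.of_forall fun t => abs_nonneg _
  refine ⟨fun y => Filter.liminf (fun n => Hn n y) Filter.atTop, Measurable.liminf hmeas, ?_, ?_⟩
  · intro y
    refine count_le_of_finset fun s hs => ?_
    refine Filter.le_liminf_of_le (by isBoundedDefault) ?_
    have hsep : ∃ ε > 0, ∀ p ∈ s, ∀ q ∈ s, p ≠ q → ε ≤ |p - q| := by
      rcases (s ×ˢ s).filter (fun x => x.1 ≠ x.2) |>.eq_empty_or_nonempty with h0 | h0
      · refine ⟨1, one_pos, fun p hp q hq hpq => ?_⟩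
        have : (p, q) ∈ (s ×ˢ s).filter (fun x => x.1 ≠ x.2) := by
          rw [Finset.mem_filter, Finset.mem_product]
          exact ⟨⟨hp, hq⟩, hpq⟩
        rw [h0] at this
        exact absurd this (Finset.notMem_empty _)
      · obtain ⟨x, hx, hmin⟩ := Finset.exists_min_image _ (fun x : ℝ × ℝ => |x.1 - x.2|) h0
        rw [Finset.mem_filter] at hx
        refine ⟨|x.1 - x.2|, abs_pos.2 (sub_ne_zero.2 hx.2), fun p hp q hq hpq => ?_⟩
        refine hmin (p, q) ?_
        rw [Finset.mem_filter, Finset.mem_product]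
        exact ⟨⟨hp, hq⟩, hpq⟩
    obtain ⟨ε, hε, hsep⟩ := hsep
    obtain ⟨n₀, hn₀⟩ := exists_nat_gt ((b - a) / ε)
    filter_upwards [Filter.eventually_ge_atTop n₀] with n hn
    have hstep : (b - a) / ((n : ℝ) + 1) < ε := by
      have h1 : (b - a) / ε < (n : ℝ) + 1 := by
        have : (n₀ : ℝ) ≤ n := by exact_mod_cast hn
        linarith
      rw [div_lt_iff₀ hε] at h1
      rw [div_lt_iff₀ (by positivity)]
      linarith
    have hex : ∀ t ∈ s, ∃ k < n + 1, t ∈ I n k := fun t ht => c1_exists hab n (hs t ht).1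
    choose! κ hκ hκI using hex
    have h2 : Hn n y = (((Finset.range (n + 1)).filter (fun k => y ∈ g '' I n k)).card : ℝ≥0∞) := by
      rw [Finset.card_filter]
      push_cast
      refine Finset.sum_congr rfl fun k _ => ?_
      rw [Set.indicator_apply]
    rw [h2]
    refine Nat.cast_le.2 (Finset.card_le_card_of_injOn κ ?_ ?_)
    · intro t ht
      rw [Finset.coe_filter]
      exact ⟨Finset.mem_range.2 (hκ t ht), t, hκI t ht, (hs t ht).2⟩
    · intro t ht t' ht' htt
      by_contra hne
      have h3 := hsep t ht t' ht' hne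
      have h4 := hκI t ht
      have h5 := hκI t' ht'
      rw [← htt] at h5
      have h6 : |t - t'| ≤ (b - a) / ((n : ℝ) + 1) := by
        have h7 := c1_step a b n (κ t)
        rw [abs_le]
        constructor
        · have := h4.1
          have := h5.2
          linarith
        · have := h4.2
          have := h5.1
          linarith
      linarith
  · refine (lintegral_liminf_le hmeas).trans ?_
    exact Filter.liminf_le_of_frequently_le' (Filter.Frequently.of_forall hbound)

/-- C1b. PROOF. Sum of C1a over `[k, k+1]`, `k : ℤ`. -/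
theorem area_major_R {g g' : ℝ → ℝ} (hd : ∀ t, HasDerivAt g (g' t) t) (hc : Continuous g') :
    ∃ H : ℝ → ℝ≥0∞, Measurable H ∧ (∀ y, Measure.count {t | g t = y} ≤ H y) ∧
      ∫⁻ y, H y ≤ ∫⁻ t, ENNReal.ofReal |g' t| := by
  have h1 : ∀ k : ℤ, ∃ H : ℝ → ℝ≥0∞, Measurable H ∧
      (∀ y, Measure.count {t | t ∈ Set.Icc (k : ℝ) (k + 1) ∧ g t = y} ≤ H y) ∧
      ∫⁻ y, H y ≤ ∫⁻ t in Set.Icc (k : ℝ) (k + 1), ENNReal.ofReal |g' t| := fun k =>
    area_major_Icc (fun t _ => hd t) hc.continuousOn
  choose H hm hcount hi using h1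
  refine ⟨fun y => ∑' k, H k y, Measurable.tsum hm, ?_, ?_⟩
  · intro y
    have h2 : {t | g t = y} ⊆ ⋃ k : ℤ, {t | t ∈ Set.Icc (k : ℝ) (k + 1) ∧ g t = y} := by
      intro t ht
      refine Set.mem_iUnion.2 ⟨⌊t⌋, ⟨Int.floor_le t, (Int.lt_floor_add_one t).le⟩, ht⟩
    refine (measure_mono h2).trans ((measure_iUnion_le _).trans ?_)
    exact ENNReal.tsum_le_tsum fun k => hcount k y
  · rw [lintegral_tsum fun k => (hm k).aemeasurable]
    refine (ENNReal.tsum_le_tsum hi).trans_eq ?_
    have h3 : ∀ k : ℤ, ∫⁻ t in Set.Icc (k : ℝ) (k + 1), ENNReal.ofReal |g' t| =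
        ∫⁻ t in Set.Ioc (k : ℝ) (k + 1), ENNReal.ofReal |g' t| := fun k =>
      setLIntegral_congr Ioc_ae_eq_Icc.symm
    simp_rw [h3]
    rw [← lintegral_iUnion (fun k => measurableSet_Ioc) (Set.pairwise_disjoint_Ioc_intCast ℝ),
      iUnion_Ioc_intCast, Measure.restrict_univ]

end Pool.Agent.MP_c11b14_lc.OP
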