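import Pool.Agent.Lib.MP_c11b14_lc.OP.B5
import Pool.Agent.Lib.MP_c11b14_lc.OP.B6
import Pool.Agent.Lib.MP_c11b14_lc.OP.C1

set_option autoImplicit false

/-! Task C2: zeros in a good window. -/

namespace Pool.Agent.MP_c11b14_lc.OP

open Polynomial Complex MeasureTheory
open scoped ENNReal

theorem C2_sg_norm (b : Bool) : ‖((sg b : ℝ) : ℂ)‖ = 1 := by
  unfold sg
  split_ifs <;> simp

/-- C2a. PROOF. `lemB 4` for every `k` with `Λ_k = ∫ sp (p k)` over the window `x ± 5ℓ` (`≤ mass p ℓ x`, the other terms are `≥ 0` by `total`); `a = ∑ sg (σ k) a_k`. Divide by `ev (p k) z`.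
For `ℓ = 1`: `near_int` for every `k`, `n = ∑ ± n_k`. -/
theorem good_disc : ∃ ε₀ c₅ : ℝ, 0 < ε₀ ∧ 0 < c₅ ∧ ∀ (κ : Type) [Fintype κ] (p : κ → ℝ[X])
    (σ : κ → Bool), (∀ k, p k ≠ 0) → ∀ (ℓ x : ℝ), 0 < ℓ → mass p ℓ x ≤ ε₀ →
    ∃ a : ℝ, (∀ z : ℂ, ‖z - x‖ ≤ 4 * ℓ → (∀ k, ev (p k) z ≠ 0) ∧
        ‖lD p σ z - a‖ ≤ c₅ / ℓ * mass p ℓ x) ∧
      (ℓ = 1 → ∃ n : ℤ, |a - n| ≤ c₅ * mass p 1 x) := by
  obtain ⟨ε₀, c₄, hε₀, hc₄, hB⟩ := lemB 4 (by norm_num)
  refine ⟨ε₀, c₄, hε₀, hc₄, ?_⟩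
  intro κ _ p σ hp ℓ x hℓ hm
  have hnn : ∀ k, 0 ≤ ∫ u in (x - 5 * ℓ)..(x + 5 * ℓ), sp (p k) ℓ u := by
    intro k
    obtain ⟨c₁, _, ht⟩ := total
    exact intervalIntegral.integral_nonneg (by linarith) (fun u _ => (ht (p k) (hp k) ℓ hℓ).2.2.1 u)
  have hle : ∀ k, (∫ u in (x - 5 * ℓ)..(x + 5 * ℓ), sp (p k) ℓ u) ≤ mass p ℓ x := by
    intro k
    exact Finset.single_le_sum
      (f := fun k => ∫ u in (x - 5 * ℓ)..(x + 5 * ℓ), sp (p k) ℓ u) (fun i _ => hnn i)
      (Finset.mem_univ k)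
  have hk : ∀ k, ∃ a : ℝ, ∀ z : ℂ, ‖z - x‖ ≤ 4 * ℓ → ev (p k) z ≠ 0 ∧
      ‖ev (dX (p k)) z - a * ev (p k) z‖ ≤
        c₄ / ℓ * (∫ u in (x - 5 * ℓ)..(x + 5 * ℓ), sp (p k) ℓ u) * ‖ev (p k) z‖ := by
    intro k
    refine hB (p k) (hp k) ℓ x _ hℓ ?_ ((hle k).trans hm)
    have h5 : (4 + 1 : ℝ) * ℓ = 5 * ℓ := by ring
    rw [h5]
  choose a ha using hk
  refine ⟨∑ k, sg (σ k) * a k, ?_, ?_⟩
  · intro z hz
    refine ⟨fun k => (ha k z hz).1, ?_⟩
    have h1 : lD p σ z - ((∑ k, sg (σ k) * a k : ℝ) : ℂ) =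
        ∑ k, (sg (σ k) : ℂ) * ((ev (dX (p k)) z - a k * ev (p k) z) / ev (p k) z) := by
      unfold lD
      push_cast
      rw [← Finset.sum_sub_distrib]
      refine Finset.sum_congr rfl fun k _ => ?_
      have h0 := (ha k z hz).1
      field_simp
    rw [h1]
    have h2 : c₄ / ℓ * mass p ℓ x =
        ∑ k, c₄ / ℓ * (∫ u in (x - 5 * ℓ)..(x + 5 * ℓ), sp (p k) ℓ u) := by
      unfold mass
      rw [Finset.mul_sum]
    rw [h2]
    refine (norm_sum_le _ _).trans (Finset.sum_le_sum fun k _ => ?_)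
    have h0 : 0 < ‖ev (p k) z‖ := norm_pos_iff.2 (ha k z hz).1
    rw [norm_mul, norm_div, C2_sg_norm, one_mul, div_le_iff₀ h0]
    exact (ha k z hz).2
  · intro h1
    subst h1
    have hn : ∀ k, ∃ n : ℤ, |a k - n| ≤
        c₄ / 1 * (∫ u in (x - 5 * 1)..(x + 5 * 1), sp (p k) 1 u) := by
      intro k
      refine near_int (p := p k) (x := x) ?_
      intro z hz
      exact ha k z (by linarith)
    choose n hn using hn
    refine ⟨∑ k, (if σ k then 1 else -1) * n k, ?_⟩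
    have h2 : (∑ k, sg (σ k) * a k) - ((∑ k, (if σ k then 1 else -1) * n k : ℤ) : ℝ) =
        ∑ k, sg (σ k) * (a k - n k) := by
      push_cast
      rw [← Finset.sum_sub_distrib]
      refine Finset.sum_congr rfl fun k _ => ?_
      unfold sg
      ring
    rw [h2]
    have h3 : c₄ * mass p 1 x =
        ∑ k, c₄ / 1 * (∫ u in (x - 5 * 1)..(x + 5 * 1), sp (p k) 1 u) := by
      unfold mass
      rw [Finset.mul_sum, div_one]
    rw [h3]
    refine (Finset.abs_sum_le_sum_abs _ _).trans (Finset.sum_le_sum fun k _ => ?_)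
    rw [abs_mul]
    have h4 : |sg (σ k)| = 1 := by
      unfold sg
      split_ifs <;> simp
    rw [h4, one_mul]
    exact hn k

section

variable {κ : Type} [Fintype κ] {p : κ → ℝ[X]} {σ : κ → Bool}

theorem C2_eval_ne {k : κ} {u : ℝ} (h : ev (p k) (u : ℂ) ≠ 0) :
    (p k).eval (Real.exp u) ≠ 0 := by
  intro h0
  apply h
  rw [ev_real, h0]
  simp

theorem C2_gp_eval (b : Bool) (y : ℝ) :
    (gp p σ b).eval y = ∏ k ∈ Finset.univ.filter (fun k => σ k = b), (p k).eval y := by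
  unfold gp
  rw [eval_prod]

theorem C2_gp_ne {u : ℝ} (h : ∀ k, ev (p k) (u : ℂ) ≠ 0) (b : Bool) :
    (gp p σ b).eval (Real.exp u) ≠ 0 := by
  rw [C2_gp_eval]
  exact Finset.prod_ne_zero_iff.2 fun k _ => C2_eval_ne (h k)

theorem C2_hasDerivAt_eval (q : ℝ[X]) (u : ℝ) :
    HasDerivAt (fun t : ℝ => q.eval (Real.exp t)) ((dX q).eval (Real.exp u)) u := by
  have h := (q.hasDerivAt (Real.exp u)).comp u (Real.hasDerivAt_exp u)
  have h2 : (dX q).eval (Real.exp u) = eval (Real.exp u) (derivative q) * Real.exp u := by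
    unfold dX
    rw [eval_mul, eval_X, mul_comm]
  rw [h2]
  exact h

theorem C2_log_gp {u : ℝ} (h : ∀ k, ev (p k) (u : ℂ) ≠ 0) (b : Bool) :
    HasDerivAt (fun t : ℝ => Real.log |(gp p σ b).eval (Real.exp t)|)
      (∑ k ∈ Finset.univ.filter (fun k => σ k = b),
        (dX (p k)).eval (Real.exp u) / (p k).eval (Real.exp u)) u := by
  have h1 : ∀ k, HasDerivAt (fun t : ℝ => Real.log ((p k).eval (Real.exp t)))
      ((dX (p k)).eval (Real.exp u) / (p k).eval (Real.exp u)) u := fun k =>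
    (C2_hasDerivAt_eval (p k) u).log (C2_eval_ne (h k))
  have h2 : HasDerivAt (fun t : ℝ => ∑ k ∈ Finset.univ.filter (fun k => σ k = b),
      Real.log ((p k).eval (Real.exp t)))
      (∑ k ∈ Finset.univ.filter (fun k => σ k = b),
        (dX (p k)).eval (Real.exp u) / (p k).eval (Real.exp u)) u :=
    HasDerivAt.fun_sum fun k _ => h1 k
  refine h2.congr_of_eventuallyEq ?_
  have h3 : ∀ᶠ t in nhds u, ∀ k, (p k).eval (Real.exp t) ≠ 0 := by
    rw [Filter.eventually_all]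
    intro k
    exact (C2_hasDerivAt_eval (p k) u).continuousAt.eventually_ne (C2_eval_ne (h k))
  filter_upwards [h3] with t ht
  rw [Real.log_abs, C2_gp_eval, Real.log_prod (fun k _ => ht k)]

theorem C2_lD_re (u : ℝ) : (lD p σ (u : ℂ)).re =
    ∑ k, sg (σ k) * ((dX (p k)).eval (Real.exp u) / (p k).eval (Real.exp u)) := by
  unfold lD
  rw [re_sum]
  refine Finset.sum_congr rfl fun k _ => ?_
  rw [ev_real, ev_real, ← ofReal_div, ← ofReal_mul, ofReal_re]

/-- C2b. PROOF. `ev p (u : ℂ)` is the real number `p(e^u)` (`ev_real`); `ev` of a product is the product. The derivative of `log |p(e^u)|` is `(ev (dX p) u / ev p u).re`. -/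
theorem hasDerivAt_logq {u : ℝ} (h : ∀ k, ev (p k) u ≠ 0) :
    HasDerivAt (fun t : ℝ => Real.log |(gp p σ true).eval (Real.exp t)| -
      Real.log |(gp p σ false).eval (Real.exp t)|) (lD p σ u).re u := by
  have h1 := (C2_log_gp (σ := σ) h true).sub (C2_log_gp (σ := σ) h false)
  have h2 : (lD p σ (u : ℂ)).re = (∑ k ∈ Finset.univ.filter (fun k => σ k = true),
        (dX (p k)).eval (Real.exp u) / (p k).eval (Real.exp u)) -
      ∑ k ∈ Finset.univ.filter (fun k => σ k = false),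
        (dX (p k)).eval (Real.exp u) / (p k).eval (Real.exp u) := by
    rw [C2_lD_re, Finset.sum_filter, Finset.sum_filter, ← Finset.sum_sub_distrib]
    refine Finset.sum_congr rfl fun k _ => ?_
    unfold sg
    cases σ k <;> simp
  rw [h2]
  exact h1

theorem C2_zero {u : ℝ} (h : ∀ k, ev (p k) (u : ℂ) ≠ 0) {lm : ℝ} (hlm : 0 < lm)
    (h0 : (pl p σ lm).eval (Real.exp u) = 0) :
    Real.log |(gp p σ true).eval (Real.exp u)| -
      Real.log |(gp p σ false).eval (Real.exp u)| = Real.log lm := by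
  have h1 : (gp p σ true).eval (Real.exp u) = -(lm * (gp p σ false).eval (Real.exp u)) := by
    unfold pl at h0
    rw [eval_add, eval_mul, eval_C] at h0
    linarith
  have h2 := C2_gp_ne (σ := σ) h false
  rw [h1, abs_neg, abs_mul, abs_of_pos hlm, Real.log_mul hlm.ne' (abs_ne_zero.2 h2)]
  ring

/-- C2c. PROOF. At a zero of `G₁ + λ G₂` (`G₁, G₂ ≠ 0` there) the function of C2b is `log λ`; it is strictly monotone on `[s, t]`. -/
theorem steep_count {s t η : ℝ} (hη : η = 1 ∨ η = -1)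
    (h : ∀ u ∈ Set.Icc s t, (∀ k, ev (p k) (u : ℂ) ≠ 0) ∧ 0 < η * (lD p σ (u : ℂ)).re) {lm : ℝ}
    (hlm : 0 < lm) : cz p σ lm (Set.Icc s t) ≤ 1 := by
  have hd : ∀ u ∈ Set.Icc s t, HasDerivAt (fun v : ℝ => η * (Real.log |(gp p σ true).eval (Real.exp v)| -
      Real.log |(gp p σ false).eval (Real.exp v)|)) (η * (lD p σ (u : ℂ)).re) u := fun u hu =>
    (hasDerivAt_logq (h u hu).1).const_mul η
  have hm : StrictMonoOn (fun v : ℝ => η * (Real.log |(gp p σ true).eval (Real.exp v)| -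
      Real.log |(gp p σ false).eval (Real.exp v)|)) (Set.Icc s t) := by
    refine strictMonoOn_of_deriv_pos (convex_Icc s t)
      (fun u hu => (hd u hu).continuousAt.continuousWithinAt) ?_
    intro u hu
    have hu' := interior_subset hu
    rw [(hd u hu').deriv]
    exact (h u hu').2
  unfold cz
  refine count_le_of_finset ?_
  intro S hS
  have h1 : S.card ≤ 1 := by
    rw [Finset.card_le_one]
    intro u hu v hv
    have hu1 := hS u hu
    have hv1 := hS v hv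
    refine hm.injOn hu1.1 hv1.1 ?_
    show η * _ = η * _
    rw [C2_zero (h u hu1.1).1 hlm hu1.2, C2_zero (h v hv1.1).1 hlm hv1.2]
  exact_mod_cast h1

/-- C2d. PROOF. `area_major_Icc` for the function of C2b: `cz p σ λ [s,t] ≤ H(log λ)`, and `∫⁻_{[1,2]} H(log λ) = ∫⁻_{[0, log 2]} H(y) e^y ≤ 2 ∫⁻ H ≤ 2 B (t - s)`
(`lintegral_image_eq_lintegral_abs_deriv_mul` for `exp` on `[0, log 2]`). -/
theorem flat_count {s t B : ℝ} (hst : s ≤ t) (h : ∀ u ∈ Set.Icc s t, (∀ k, ev (p k) (u : ℂ) ≠ 0) ∧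
    |(lD p σ (u : ℂ)).re| ≤ B) :
    Maj (fun lm => cz p σ lm (Set.Icc s t)) (ENNReal.ofReal (2 * B * (t - s))) := by
  have hB : 0 ≤ B := (abs_nonneg _).trans (h s ⟨le_refl s, hst⟩).2
  have hd : ∀ u ∈ Set.Icc s t, HasDerivAt (fun v : ℝ => Real.log |(gp p σ true).eval (Real.exp v)| -
      Real.log |(gp p σ false).eval (Real.exp v)|) ((fun v : ℝ => (lD p σ (v : ℂ)).re) u) u :=
    fun u hu => hasDerivAt_logq (h u hu).1
  have hc : ContinuousOn (fun v : ℝ => (lD p σ (v : ℂ)).re) (Set.Icc s t) := by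
    have h1 : (fun v : ℝ => (lD p σ (v : ℂ)).re) = fun v : ℝ =>
        ∑ k, sg (σ k) * ((dX (p k)).eval (Real.exp v) / (p k).eval (Real.exp v)) := by
      funext v
      exact C2_lD_re v
    rw [h1]
    refine continuousOn_finset_sum _ fun k _ => ?_
    refine continuousOn_const.mul (ContinuousOn.div ?_ ?_ ?_)
    · exact ((dX (p k)).continuous.comp Real.continuous_exp).continuousOn
    · exact ((p k).continuous.comp Real.continuous_exp).continuousOn
    · intro u hu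
      exact C2_eval_ne ((h u hu).1 k)
  obtain ⟨H, hHm, hH, hHi⟩ := area_major_Icc hd hc
  refine ⟨fun lm => H (Real.log lm), hHm.comp Real.measurable_log, ?_, ?_⟩
  · filter_upwards [ae_restrict_mem measurableSet_Icc] with lm hl
    have hlm : 0 < lm := by linarith [hl.1]
    refine le_trans ?_ (hH (Real.log lm))
    unfold cz
    refine measure_mono ?_
    intro u hu
    exact ⟨hu.1, C2_zero (h u hu.1).1 hlm hu.2⟩
  · have h2 : (∫⁻ u in Set.Icc s t, ENNReal.ofReal |(fun v : ℝ => (lD p σ (v : ℂ)).re) u|) ≤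
        ENNReal.ofReal (B * (t - s)) := by
      calc (∫⁻ u in Set.Icc s t, ENNReal.ofReal |(fun v : ℝ => (lD p σ (v : ℂ)).re) u|)
          ≤ ∫⁻ _ in Set.Icc s t, ENNReal.ofReal B := by
            refine setLIntegral_mono measurable_const ?_
            intro u hu
            exact ENNReal.ofReal_le_ofReal (h u hu).2
        _ = ENNReal.ofReal (B * (t - s)) := by
            rw [setLIntegral_const, Real.volume_Icc, ENNReal.ofReal_mul hB]
    have h3 : Real.exp '' Set.Icc 0 (Real.log 2) = Set.Icc (1 : ℝ) 2 := by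
      ext y
      constructor
      · rintro ⟨w, hw, rfl⟩
        refine ⟨Real.one_le_exp hw.1, ?_⟩
        have h5 := Real.exp_le_exp.2 hw.2
        rwa [Real.exp_log (by norm_num)] at h5
      · intro hy
        have hy0 : 0 < y := by linarith [hy.1]
        exact ⟨Real.log y, ⟨Real.log_nonneg hy.1, Real.log_le_log hy0 hy.2⟩, Real.exp_log hy0⟩
    rw [← h3, lintegral_image_eq_lintegral_abs_deriv_mul measurableSet_Icc
      (fun w _ => (Real.hasDerivAt_exp w).hasDerivWithinAt) (Real.exp_injective.injOn)]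
    calc (∫⁻ w in Set.Icc 0 (Real.log 2), ENNReal.ofReal |Real.exp w| * H (Real.log (Real.exp w)))
        ≤ ∫⁻ w in Set.Icc 0 (Real.log 2), 2 * H w := by
          refine setLIntegral_mono (hHm.const_mul 2) ?_
          intro w hw
          rw [Real.log_exp, abs_of_pos (Real.exp_pos w)]
          refine mul_le_mul' ?_ le_rfl
          have h5 := Real.exp_le_exp.2 hw.2
          rw [Real.exp_log (by norm_num)] at h5
          calc ENNReal.ofReal (Real.exp w) ≤ ENNReal.ofReal 2 := ENNReal.ofReal_le_ofReal h5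
            _ = 2 := by norm_num
      _ ≤ ∫⁻ w, 2 * H w := setLIntegral_le_lintegral _ _
      _ = 2 * ∫⁻ w, H w := lintegral_const_mul 2 hHm
      _ ≤ 2 * ENNReal.ofReal (B * (t - s)) := mul_le_mul' le_rfl (hHi.trans h2)
      _ = ENNReal.ofReal (2 * B * (t - s)) := by
          rw [mul_assoc, ENNReal.ofReal_mul (by norm_num : (0 : ℝ) ≤ 2)]
          norm_num

end

/-- C2e. PROOF. `a` from `good_disc`. If `|a| > c₅/ℓ · mass` then `Re lD` has the sign of `a` on the interval (`steep_count`, `Maj.const 1`); else `|Re lD| ≤ 2c₅/ℓ · mass` and `flat_count` gives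
`2 · (2c₅/ℓ · mass) · ℓ = 4 c₅ mass ≤ 2` for `ε₁ ≤ 1/(2c₅)`. -/
theorem good_maj : ∃ ε₁ : ℝ, 0 < ε₁ ∧ ∀ (κ : Type) [Fintype κ] (p : κ → ℝ[X]) (σ : κ → Bool),
    (∀ k, p k ≠ 0) → ∀ (ℓ x : ℝ), 0 < ℓ → mass p ℓ x ≤ ε₁ →
    Maj (fun lm => cz p σ lm (Set.Icc (x - ℓ / 2) (x + ℓ / 2))) 2 := by
  obtain ⟨ε₀, c₅, hε₀, hc₅, hG⟩ := good_disc
  refine ⟨min ε₀ (1 / (2 * c₅)), lt_min hε₀ (by positivity), ?_⟩
  intro κ _ p σ hp ℓ x hℓ hm
  obtain ⟨a, ha, _⟩ := hG κ p σ hp ℓ x hℓ (hm.trans (min_le_left _ _))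
  have hm2 : mass p ℓ x ≤ 1 / (2 * c₅) := hm.trans (min_le_right _ _)
  have hz : ∀ u ∈ Set.Icc (x - ℓ / 2) (x + ℓ / 2), ‖(u : ℂ) - x‖ ≤ 4 * ℓ := by
    intro u hu
    rw [← ofReal_sub, Complex.norm_real, Real.norm_eq_abs, abs_le]
    constructor <;> linarith [hu.1, hu.2]
  have hre : ∀ u ∈ Set.Icc (x - ℓ / 2) (x + ℓ / 2),
      |(lD p σ (u : ℂ)).re - a| ≤ c₅ / ℓ * mass p ℓ x := by
    intro u hu
    have h1 := (ha u (hz u hu)).2
    have h2 := Complex.abs_re_le_norm (lD p σ (u : ℂ) - a)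
    rw [sub_re, ofReal_re] at h2
    exact h2.trans h1
  by_cases hcase : c₅ / ℓ * mass p ℓ x < |a|
  · have hs : ∃ η : ℝ, (η = 1 ∨ η = -1) ∧ η * a = |a| := by
      rcases le_total 0 a with h0 | h0
      · exact ⟨1, Or.inl rfl, by rw [abs_of_nonneg h0, one_mul]⟩
      · exact ⟨-1, Or.inr rfl, by rw [abs_of_nonpos h0]; ring⟩
    obtain ⟨η, hη, hηa⟩ := hs
    refine (Maj.const 1).mono' ?_ (by norm_num)
    intro lm h1 _
    refine steep_count hη ?_ (by linarith)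
    intro u hu
    refine ⟨(ha u (hz u hu)).1, ?_⟩
    have h2 := abs_le.1 (hre u hu)
    rcases hη with rfl | rfl
    · linarith [h2.1]
    · linarith [h2.2]
  · have hcase' := not_lt.1 hcase
    have hf := flat_count (p := p) (σ := σ) (s := x - ℓ / 2) (t := x + ℓ / 2)
      (B := 2 * (c₅ / ℓ * mass p ℓ x)) (by linarith) (by
        intro u hu
        refine ⟨(ha u (hz u hu)).1, ?_⟩
        have h2 := abs_le.1 (hre u hu)
        have h3 := abs_le.1 hcase'
        rw [abs_le]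
        constructor <;> linarith [h2.1, h2.2, h3.1, h3.2])
    refine hf.mono' (fun _ _ _ => le_refl _) ?_
    have h4 : 2 * (2 * (c₅ / ℓ * mass p ℓ x)) * (x + ℓ / 2 - (x - ℓ / 2)) ≤ 2 := by
      have h5 : 2 * (2 * (c₅ / ℓ * mass p ℓ x)) * (x + ℓ / 2 - (x - ℓ / 2)) =
          4 * c₅ * mass p ℓ x := by
        field_simp
        ring
      rw [h5]
      have h6 : c₅ * mass p ℓ x ≤ 1 / 2 := by
        calc c₅ * mass p ℓ x ≤ c₅ * (1 / (2 * c₅)) := mul_le_mul_of_nonneg_left hm2 hc₅.le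
          _ = 1 / 2 := by field_simp
      linarith
    calc ENNReal.ofReal (2 * (2 * (c₅ / ℓ * mass p ℓ x)) * (x + ℓ / 2 - (x - ℓ / 2)))
        ≤ ENNReal.ofReal 2 := ENNReal.ofReal_le_ofReal h4
      _ = 2 := by norm_num

end Pool.Agent.MP_c11b14_lc.OP
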