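import Pool.Agent.Lib.MP_c11b14_lc.OP.C2

set_option autoImplicit false

/-! Task C3: level zero. -/

namespace Pool.Agent.MP_c11b14_lc.OP

open Polynomial Complex MeasureTheory
open scoped ENNReal

/-- C3a. PROOF. The map `u ↦ min {b ∈ B : u < b}` on `s` without its maximum is injective. -/
theorem card_le_sep {s : Finset ℝ} {B : Finset ℤ}
    (h : ∀ u ∈ s, ∀ v ∈ s, u < v → ∃ b ∈ B, u < (b : ℝ) ∧ (b : ℝ) ≤ v) : s.card ≤ B.card + 1 := by
  classical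
  have hlt : ∀ u ∈ s, ∀ v ∈ s, u < v →
      (B.filter (fun b : ℤ => (b : ℝ) ≤ u)).card < (B.filter (fun b : ℤ => (b : ℝ) ≤ v)).card := by
    intro u hu v hv huv
    obtain ⟨b, hb, hub, hbv⟩ := h u hu v hv huv
    apply Finset.card_lt_card
    rw [Finset.ssubset_iff_of_subset]
    · exact ⟨b, Finset.mem_filter.2 ⟨hb, hbv⟩, fun hb' => by
        have := (Finset.mem_filter.1 hb').2
        linarith⟩
    · intro x hx
      rw [Finset.mem_filter] at hx ⊢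
      exact ⟨hx.1, hx.2.trans huv.le⟩
  have h1 : s.card ≤ (Finset.range (B.card + 1)).card := by
    apply Finset.card_le_card_of_injOn (fun v => (B.filter (fun b : ℤ => (b : ℝ) ≤ v)).card)
    · intro v _
      simp only [Finset.coe_range, Set.mem_Iio]
      exact Nat.lt_succ_of_le (Finset.card_filter_le _ _)
    · intro u hu v hv huv
      by_contra hne
      rcases lt_or_gt_of_ne hne with h2 | h2
      · exact absurd huv (hlt u hu v hv h2).ne
      · exact absurd huv (hlt v hv u hu h2).ne'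
  rwa [Finset.card_range] at h1

/-- C3b. The steep intervals. PROOF. Let `u < v` be zeros of `G₁ + λ G₂` in steep intervals, and assume that no `b ∈ B` has `u < b ≤ v`. Note `⌊u⌋ ∉ B` too. So all unit intervals `[k, k+1)`, `⌊u⌋ ≤ k ≤ ⌊v⌋`,
are good. In each of them `|lD - n k| ≤ 1/4` on the disc of radius `4` around `k + 1/2`; two neighbours have a common point, so `n k = n (k+1)`; so `n` is constant `≠ 0` and `Re lD` has the sign of `n` on
`[u, v]`, against `steep_count` (`{u, v}` has two elements). So `card_le_sep` applies to every finite set of zeros (`count_le_of_finset`). -/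
theorem steep_level {κ : Type} [Fintype κ] {p : κ → ℝ[X]} {σ : κ → Bool} (B : Finset ℤ)
    (n : ℤ → ℤ) (h : ∀ k : ℤ, k ∉ B → ∀ z : ℂ, ‖z - ((k : ℝ) + 1 / 2 : ℝ)‖ ≤ 4 →
      (∀ i, ev (p i) z ≠ 0) ∧ ‖lD p σ z - (n k : ℂ)‖ ≤ 1 / 4) {lm : ℝ} (hlm : 0 < lm) :
    cz p σ lm {u | ⌊u⌋ ∉ B ∧ n ⌊u⌋ ≠ 0} ≤ B.card + 1 := by
  classical
  unfold cz
  apply count_le_of_finset
  intro s hs
  have key : s.card ≤ B.card + 1 := by
    apply card_le_sep
    intro u hu v hv huv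
    by_contra hcon
    push Not at hcon
    obtain ⟨⟨hu1, hu2⟩, hu3⟩ := hs u hu
    obtain ⟨⟨hv1, hv2⟩, hv3⟩ := hs v hv
    -- the unit intervals between are good
    have hgood : ∀ k : ℤ, ⌊u⌋ ≤ k → k ≤ ⌊v⌋ → k ∉ B := by
      intro k h1 h2 hk
      rcases eq_or_lt_of_le h1 with h3 | h3
      · rw [← h3] at hk
        exact hu1 hk
      · have h4 : u < (k : ℝ) := Int.floor_lt.1 h3
        have h5 : (k : ℝ) ≤ v := Int.le_floor.1 h2
        exact absurd h5 (not_le.2 (hcon k hk h4))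
    -- distance of the point `x` (real) to a centre
    have hdist : ∀ (x : ℝ) (k : ℤ), |x - ((k : ℝ) + 1 / 2)| ≤ 1 →
        ‖(x : ℂ) - ((((k : ℝ) + 1 / 2 : ℝ)) : ℂ)‖ ≤ 4 := by
      intro x k hx
      rw [← Complex.ofReal_sub, Complex.norm_real, Real.norm_eq_abs]
      linarith
    have hstep : ∀ k : ℤ, ⌊u⌋ ≤ k → k + 1 ≤ ⌊v⌋ → n (k + 1) = n k := by
      intro k h1 h2
      have g1 := (h k (hgood k h1 (by omega)) (((k : ℝ) + 1 : ℝ) : ℂ)
        (hdist _ _ (by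
          rw [abs_le]
          constructor <;> linarith))).2
      have g2 := (h (k + 1) (hgood (k + 1) (by omega) h2) (((k : ℝ) + 1 : ℝ) : ℂ)
        (hdist _ _ (by
          push_cast
          rw [abs_le]
          constructor <;> linarith))).2
      have g3 : ‖((n (k + 1) : ℤ) : ℂ) - ((n k : ℤ) : ℂ)‖ ≤ 1 / 2 := by
        have e1 : ((n (k + 1) : ℤ) : ℂ) - ((n k : ℤ) : ℂ) =
            (lD p σ (((k : ℝ) + 1 : ℝ) : ℂ) - (n k : ℂ)) -
            (lD p σ (((k : ℝ) + 1 : ℝ) : ℂ) - (n (k + 1) : ℂ)) := by ring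
        rw [e1]
        refine (norm_sub_le _ _).trans ?_
        linarith
      have g4 : |((n (k + 1) - n k : ℤ) : ℝ)| ≤ 1 / 2 := by
        have e2 : ((n (k + 1) : ℤ) : ℂ) - ((n k : ℤ) : ℂ) = (((n (k + 1) - n k : ℤ) : ℝ) : ℂ) := by
          push_cast
          ring
        rw [e2, Complex.norm_real, Real.norm_eq_abs] at g3
        exact g3
      have g5 : |n (k + 1) - n k| < 1 := by
        have : ((|n (k + 1) - n k| : ℤ) : ℝ) < 1 := by
          rw [Int.cast_abs]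
          linarith
        exact_mod_cast this
      have g6 := Int.abs_lt_one_iff.1 g5
      omega
    have hconst : ∀ j : ℕ, ⌊u⌋ + j ≤ ⌊v⌋ → n (⌊u⌋ + j) = n ⌊u⌋ := by
      intro j
      induction j with
      | zero =>
        intro _
        simp
      | succ j ih =>
        intro hj
        push_cast at hj ⊢
        have h1 := hstep (⌊u⌋ + j) (by omega) (by omega)
        rw [← add_assoc, h1]
        exact ih (by omega)
    have hN : ∀ x ∈ Set.Icc u v, (∀ i, ev (p i) (x : ℂ) ≠ 0) ∧ ‖lD p σ (x : ℂ) - (n ⌊u⌋ : ℂ)‖ ≤ 1 / 4 := by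
      intro x hx
      have h1 : ⌊u⌋ ≤ ⌊x⌋ := Int.floor_le_floor hx.1
      have h2 : ⌊x⌋ ≤ ⌊v⌋ := Int.floor_le_floor hx.2
      have h3 := h ⌊x⌋ (hgood _ h1 h2) (x : ℂ) (hdist _ _ (by
        have h4 := Int.floor_le x
        have h5 := Int.lt_floor_add_one x
        rw [abs_le]
        constructor <;> linarith))
      obtain ⟨j, hj⟩ := Int.eq_ofNat_of_zero_le (sub_nonneg.2 h1)
      have h6 : ⌊x⌋ = ⌊u⌋ + j := by
        have : ⌊x⌋ - ⌊u⌋ = (j : ℤ) := hj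
        omega
      have h7 := hconst j (by omega)
      rw [← h6] at h7
      rw [h7] at h3
      exact h3
    -- the sign
    obtain ⟨η, hη, hηN⟩ : ∃ η : ℝ, (η = 1 ∨ η = -1) ∧ 1 ≤ η * (n ⌊u⌋ : ℝ) := by
      rcases lt_or_gt_of_ne hu2 with h1 | h1
      · refine ⟨-1, Or.inr rfl, ?_⟩
        have : (n ⌊u⌋ : ℝ) ≤ -1 := by exact_mod_cast (by omega : n ⌊u⌋ ≤ -1)
        linarith
      · refine ⟨1, Or.inl rfl, ?_⟩
        have : (1 : ℝ) ≤ (n ⌊u⌋ : ℝ) := by exact_mod_cast (by omega : 1 ≤ n ⌊u⌋)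
        linarith
    have hcount : cz p σ lm (Set.Icc u v) ≤ 1 := by
      refine steep_count hη (fun x hx => ?_) hlm
      obtain ⟨h1, h2⟩ := hN x hx
      refine ⟨h1, ?_⟩
      have h3 : |(lD p σ (x : ℂ)).re - (n ⌊u⌋ : ℝ)| ≤ 1 / 4 := by
        have h4 := (Complex.abs_re_le_norm (lD p σ (x : ℂ) - (n ⌊u⌋ : ℂ))).trans h2
        rw [Complex.sub_re, Complex.intCast_re] at h4
        exact h4
      obtain ⟨h5, h6⟩ := abs_le.1 h3
      rcases hη with hη | hη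
      · rw [hη] at hηN ⊢
        linarith
      · rw [hη] at hηN ⊢
        linarith
    have h2 : ((({u, v} : Finset ℝ).card : ℕ) : ℝ≥0∞) ≤ cz p σ lm (Set.Icc u v) := by
      apply card_le_count
      intro t ht
      rw [Finset.mem_insert, Finset.mem_singleton] at ht
      rcases ht with rfl | rfl
      · exact ⟨⟨le_rfl, huv.le⟩, hu3⟩
      · exact ⟨⟨huv.le, le_rfl⟩, hv3⟩
    rw [Finset.card_pair huv.ne] at h2
    have h3 : ((2 : ℕ) : ℝ≥0∞) ≤ 1 := h2.trans hcount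
    have h4 : (2 : ℕ) ≤ 1 := by exact_mod_cast h3
    omega
  exact_mod_cast key

/-- C3c. PROOF. `ε₁ = min ε₀ (1/(8 c₅))` of `good_disc`. For good `k` (`k ∉ B`) take `a k`, `n k` from `good_disc`: `|lD - n k| ≤ 2 c₅ mass ≤ 1/4` on the disc. The flat ones (`n k = 0`): `flat_count` with
`B = 2 c₅ mass`, cost `4 c₅ mass`, and `Maj.tsum` over `k : ℤ`; the steep ones: C3b (`Maj.const`). -/
theorem level_zero : ∃ ε₁ c₇ : ℝ, 0 < ε₁ ∧ 0 < c₇ ∧ ∀ (κ : Type) [Fintype κ] (p : κ → ℝ[X])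
    (σ : κ → Bool), (∀ k, p k ≠ 0) → ∀ (B : Finset ℤ),
    (∀ k : ℤ, k ∉ B → mass p 1 ((k : ℝ) + 1 / 2) ≤ ε₁) →
    Maj (fun lm => cz p σ lm {u | ⌊u⌋ ∉ B})
      (∑' k : ℤ, ENNReal.ofReal (c₇ * mass p 1 ((k : ℝ) + 1 / 2)) + (B.card + 1)) := by
  classical
  obtain ⟨ε₀, c₅, hε₀, hc₅, hgd⟩ := good_disc
  refine ⟨min ε₀ (1 / (8 * c₅)), 4 * c₅, lt_min hε₀ (by positivity), by positivity, ?_⟩
  intro κ _ p σ hp B hB
  have hex : ∀ k : ℤ, ∃ n : ℤ, k ∉ B → ∀ z : ℂ, ‖z - ((k : ℝ) + 1 / 2 : ℝ)‖ ≤ 4 →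
      (∀ i, ev (p i) z ≠ 0) ∧ ‖lD p σ z - (n : ℂ)‖ ≤ 2 * c₅ * mass p 1 ((k : ℝ) + 1 / 2) := by
    intro k
    by_cases hk : k ∈ B
    · exact ⟨0, fun h => absurd hk h⟩
    · have hm := hB k hk
      obtain ⟨a, h1, h2⟩ := hgd κ p σ hp 1 ((k : ℝ) + 1 / 2) one_pos (hm.trans (min_le_left _ _))
      obtain ⟨n, hn⟩ := h2 rfl
      refine ⟨n, fun _ z hz => ?_⟩
      obtain ⟨h3, h4⟩ := h1 z (by rw [mul_one]; exact hz)
      refine ⟨h3, ?_⟩
      rw [div_one] at h4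
      have h5 : ‖(a : ℂ) - (n : ℂ)‖ ≤ c₅ * mass p 1 ((k : ℝ) + 1 / 2) := by
        have e1 : (a : ℂ) - (n : ℂ) = ((a - (n : ℝ) : ℝ) : ℂ) := by push_cast; ring
        rw [e1, Complex.norm_real, Real.norm_eq_abs]
        exact hn
      have e2 : lD p σ z - (n : ℂ) = (lD p σ z - a) + ((a : ℂ) - (n : ℂ)) := by ring
      rw [e2]
      refine (norm_add_le _ _).trans ?_
      linarith
  choose n hn using hex
  have hn' : ∀ k : ℤ, k ∉ B → ∀ z : ℂ, ‖z - ((k : ℝ) + 1 / 2 : ℝ)‖ ≤ 4 →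
      (∀ i, ev (p i) z ≠ 0) ∧ ‖lD p σ z - (n k : ℂ)‖ ≤ 1 / 4 := by
    intro k hk z hz
    obtain ⟨h1, h2⟩ := hn k hk z hz
    refine ⟨h1, h2.trans ?_⟩
    have h3 : mass p 1 ((k : ℝ) + 1 / 2) ≤ 1 / (8 * c₅) := (hB k hk).trans (min_le_right _ _)
    rw [le_div_iff₀ (by positivity)] at h3
    linarith
  -- the flat intervals
  have hflat : Maj (fun lm => ∑' k : ℤ, if k ∉ B ∧ n k = 0 then
      cz p σ lm (Set.Icc (k : ℝ) ((k : ℝ) + 1)) else 0)
      (∑' k : ℤ, ENNReal.ofReal (4 * c₅ * mass p 1 ((k : ℝ) + 1 / 2))) := by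
    apply Maj.tsum
    intro k
    by_cases hk : k ∉ B ∧ n k = 0
    · have h1 : Maj (fun lm => cz p σ lm (Set.Icc (k : ℝ) ((k : ℝ) + 1)))
          (ENNReal.ofReal (2 * (2 * c₅ * mass p 1 ((k : ℝ) + 1 / 2)) * (((k : ℝ) + 1) - k))) := by
        refine flat_count (by linarith) (fun u hu => ?_)
        obtain ⟨h2, h3⟩ := hn k hk.1 (u : ℂ) (by
          rw [← Complex.ofReal_sub, Complex.norm_real, Real.norm_eq_abs, abs_le]
          constructor <;> linarith [hu.1, hu.2])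
        refine ⟨h2, ?_⟩
        rw [hk.2, Int.cast_zero, sub_zero] at h3
        exact (Complex.abs_re_le_norm _).trans h3
      refine h1.mono' (fun lm _ _ => ?_) (le_of_eq ?_)
      · rw [if_pos hk]
      · congr 1
        ring
    · refine (Maj.const 0).mono' (fun lm _ _ => ?_) bot_le
      rw [if_neg hk]
  refine (hflat.add (Maj.const ((B.card : ℝ≥0∞) + 1))).mono' (fun lm h1 h2 => ?_) le_rfl
  have hsub : {u : ℝ | ⌊u⌋ ∉ B} ⊆ {u : ℝ | ⌊u⌋ ∉ B ∧ n ⌊u⌋ ≠ 0} ∪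
      ⋃ k : ℤ, (if k ∉ B ∧ n k = 0 then Set.Icc (k : ℝ) ((k : ℝ) + 1) else ∅) := by
    intro u hu
    by_cases hu0 : n ⌊u⌋ = 0
    · right
      refine Set.mem_iUnion.2 ⟨⌊u⌋, ?_⟩
      rw [if_pos ⟨hu, hu0⟩]
      exact ⟨Int.floor_le u, (Int.lt_floor_add_one u).le⟩
    · left
      exact ⟨hu, hu0⟩
  calc cz p σ lm {u : ℝ | ⌊u⌋ ∉ B} ≤ _ := cz_mono p σ lm hsub
    _ ≤ cz p σ lm {u : ℝ | ⌊u⌋ ∉ B ∧ n ⌊u⌋ ≠ 0} +
        cz p σ lm (⋃ k : ℤ, (if k ∉ B ∧ n k = 0 then Set.Icc (k : ℝ) ((k : ℝ) + 1) else ∅)) :=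
      cz_union_le p σ lm _ _
    _ ≤ ((B.card : ℝ≥0∞) + 1) + ∑' k : ℤ, cz p σ lm
        (if k ∉ B ∧ n k = 0 then Set.Icc (k : ℝ) ((k : ℝ) + 1) else ∅) :=
      add_le_add (steep_level B n hn' (by linarith)) (cz_iUnion_le p σ lm _)
    _ ≤ ((B.card : ℝ≥0∞) + 1) + ∑' k : ℤ, (if k ∉ B ∧ n k = 0 then
          cz p σ lm (Set.Icc (k : ℝ) ((k : ℝ) + 1)) else 0) := by
        refine add_le_add le_rfl (ENNReal.tsum_le_tsum fun k => ?_)
        by_cases hk : k ∉ B ∧ n k = 0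
        · rw [if_pos hk, if_pos hk]
        · rw [if_neg hk, if_neg hk]
          refine le_of_eq ?_
          unfold cz zs
          simp
    _ = _ := add_comm _ _

end Pool.Agent.MP_c11b14_lc.OP
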