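import Pool.Agent.Lib.MP_c11b14_lc.OP.C3

set_option autoImplicit false

/-! Task C4: overlap of the windows, number of bad intervals, the levels. -/

namespace Pool.Agent.MP_c11b14_lc.OP

open Polynomial Complex MeasureTheory
open scoped ENNReal

/-- A point lies in at most eleven windows. -/
theorem C4_tsum_indicator (j : ℕ) (g : ℝ → ℝ≥0∞) (u : ℝ) :
    ∑' k : ℤ, (Set.Ioc (ctr j k - 5 * (1 / 2 ^ j)) (ctr j k + 5 * (1 / 2 ^ j))).indicator g u ≤
      11 * g u := by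
  have h2 : (0 : ℝ) < 2 ^ j := by positivity
  have hz : ∀ k : ℤ, k ∉ Finset.Icc (⌊u * 2 ^ j⌋ - 5) (⌊u * 2 ^ j⌋ + 5) →
      (Set.Ioc (ctr j k - 5 * (1 / 2 ^ j)) (ctr j k + 5 * (1 / 2 ^ j))).indicator g u = 0 := by
    intro k hk
    refine Set.indicator_of_notMem (fun hu => hk ?_) g
    obtain ⟨h3, h4⟩ := hu
    have e1 : ctr j k - 5 * (1 / 2 ^ j) = ((k : ℝ) + 1 / 2 - 5) / 2 ^ j := by
      unfold ctr; field_simp
    have e2 : ctr j k + 5 * (1 / 2 ^ j) = ((k : ℝ) + 1 / 2 + 5) / 2 ^ j := by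
      unfold ctr; field_simp
    rw [e1, div_lt_iff₀ h2] at h3
    rw [e2, le_div_iff₀ h2] at h4
    have f1 := Int.floor_le (u * 2 ^ j)
    have f2 := Int.lt_floor_add_one (u * 2 ^ j)
    rw [Finset.mem_Icc]
    constructor
    · have : ((⌊u * 2 ^ j⌋ - 6 : ℤ) : ℝ) < (k : ℝ) := by
        push_cast; linarith
      have := Int.cast_lt.1 this
      omega
    · have : (k : ℝ) < ((⌊u * 2 ^ j⌋ + 6 : ℤ) : ℝ) := by
        push_cast; linarith
      have := Int.cast_lt.1 this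
      omega
  rw [tsum_eq_sum (s := Finset.Icc (⌊u * 2 ^ j⌋ - 5) (⌊u * 2 ^ j⌋ + 5)) hz]
  calc ∑ k ∈ Finset.Icc (⌊u * 2 ^ j⌋ - 5) (⌊u * 2 ^ j⌋ + 5),
        (Set.Ioc (ctr j k - 5 * (1 / 2 ^ j)) (ctr j k + 5 * (1 / 2 ^ j))).indicator g u
      ≤ ∑ _k ∈ Finset.Icc (⌊u * 2 ^ j⌋ - 5) (⌊u * 2 ^ j⌋ + 5), g u :=
        Finset.sum_le_sum fun k _ => Set.indicator_le_self _ _ _
    _ = 11 * g u := by
        rw [Finset.sum_const, Int.card_Icc, nsmul_eq_mul]
        congr 1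
        have : (⌊u * 2 ^ j⌋ + 5 + 1 - (⌊u * 2 ^ j⌋ - 5)).toNat = 11 := by
          have : ⌊u * 2 ^ j⌋ + 5 + 1 - (⌊u * 2 ^ j⌋ - 5) = 11 := by ring
          rw [this]; rfl
        rw [this]; norm_num

/-- C4a. PROOF. `total`: every `sp (p k) ℓ` is `≥ 0`, continuous, of integral `≤ c₁ (p k).support.card`. Each `u` is in at most `11` of the windows `[ctr j k - 5ℓ, ctr j k + 5ℓ]`, `ℓ = 1/2^j`:
`∑_k ∫_{window k} S = ∫ S ∑_k 1_{window k} ≤ 11 ∫ S` (write the interval integrals as `lintegral` with indicators, `lintegral_tsum`). So `c₈ = 11 c₁`. -/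
theorem overlap : ∃ c₈ : ℝ, 0 < c₈ ∧ ∀ (κ : Type) [Fintype κ] (p : κ → ℝ[X]), (∀ k, p k ≠ 0) →
    ∀ j : ℕ, (∀ k : ℤ, 0 ≤ mass p (1 / 2 ^ j) (ctr j k)) ∧
      ∑' k : ℤ, ENNReal.ofReal (mass p (1 / 2 ^ j) (ctr j k)) ≤ ENNReal.ofReal (c₈ * tot p) := by
  obtain ⟨c₁, hc₁, hT⟩ := total
  refine ⟨11 * c₁, by positivity, ?_⟩
  intro κ _ p hp j
  have h2 : (0 : ℝ) < 1 / 2 ^ j := by positivity
  have hle : ∀ k : ℤ, ctr j k - 5 * (1 / 2 ^ j) ≤ ctr j k + 5 * (1 / 2 ^ j) := fun k => by linarith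
  have hnn : ∀ (i : κ) (k : ℤ), 0 ≤ ∫ u in (ctr j k - 5 * (1 / 2 ^ j))..(ctr j k + 5 * (1 / 2 ^ j)),
      sp (p i) (1 / 2 ^ j) u := fun i k =>
    intervalIntegral.integral_nonneg (hle k) fun u _ => (hT (p i) (hp i) _ h2).2.2.1 u
  refine ⟨fun k => Finset.sum_nonneg fun i _ => hnn i k, ?_⟩
  have key : ∀ k : ℤ, ENNReal.ofReal (mass p (1 / 2 ^ j) (ctr j k)) =
      ∑ i, ∫⁻ u, (Set.Ioc (ctr j k - 5 * (1 / 2 ^ j)) (ctr j k + 5 * (1 / 2 ^ j))).indicator
        (fun u => ENNReal.ofReal (sp (p i) (1 / 2 ^ j) u)) u := by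
    intro k
    unfold mass
    rw [ENNReal.ofReal_sum_of_nonneg fun i _ => hnn i k]
    refine Finset.sum_congr rfl fun i _ => ?_
    rw [intervalIntegral.integral_of_le (hle k), lintegral_indicator measurableSet_Ioc,
      ofReal_integral_eq_lintegral_ofReal ((hT (p i) (hp i) _ h2).2.1.integrableOn)]
    exact Filter.Eventually.of_forall fun u => (hT (p i) (hp i) _ h2).2.2.1 u
  simp_rw [key]
  rw [Summable.tsum_finsetSum fun i _ => ENNReal.summable]
  have hi : ∀ i : κ, ∑' k : ℤ, ∫⁻ u, (Set.Ioc (ctr j k - 5 * (1 / 2 ^ j))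
      (ctr j k + 5 * (1 / 2 ^ j))).indicator (fun u => ENNReal.ofReal (sp (p i) (1 / 2 ^ j) u)) u ≤
      ENNReal.ofReal (11 * c₁ * (p i).support.card) := by
    intro i
    have hm : Measurable (fun u => ENNReal.ofReal (sp (p i) (1 / 2 ^ j) u)) :=
      ENNReal.measurable_ofReal.comp (hT (p i) (hp i) _ h2).1.measurable
    rw [← lintegral_tsum fun k => (hm.indicator measurableSet_Ioc).aemeasurable]
    calc ∫⁻ u, ∑' k : ℤ, (Set.Ioc (ctr j k - 5 * (1 / 2 ^ j))
          (ctr j k + 5 * (1 / 2 ^ j))).indicator (fun u => ENNReal.ofReal (sp (p i) (1 / 2 ^ j) u)) u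
        ≤ ∫⁻ u, 11 * ENNReal.ofReal (sp (p i) (1 / 2 ^ j) u) :=
          lintegral_mono fun u => C4_tsum_indicator j _ u
      _ = 11 * ENNReal.ofReal (∫ u, sp (p i) (1 / 2 ^ j) u) := by
          rw [lintegral_const_mul _ hm, ofReal_integral_eq_lintegral_ofReal
            (hT (p i) (hp i) _ h2).2.1
            (Filter.Eventually.of_forall fun u => (hT (p i) (hp i) _ h2).2.2.1 u)]
      _ ≤ 11 * ENNReal.ofReal (c₁ * (p i).support.card) := by
          gcongr
          exact (hT (p i) (hp i) _ h2).2.2.2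
      _ = ENNReal.ofReal (11 * c₁ * (p i).support.card) := by
          rw [mul_assoc, ENNReal.ofReal_mul (by norm_num : (0 : ℝ) ≤ 11)]
          norm_num
  calc _ ≤ ∑ i, ENNReal.ofReal (11 * c₁ * (p i).support.card) :=
        Finset.sum_le_sum fun i _ => hi i
    _ = ENNReal.ofReal (11 * c₁ * tot p) := by
        rw [← ENNReal.ofReal_sum_of_nonneg fun i _ => by positivity, ← Finset.mul_sum]
        unfold tot
        push_cast
        rfl

/-- C4b. PROOF. Markov: from C4a the set `{k | ε < mass}` is finite (`ENNReal.finite_const_le_of_tsum_ne_top` or `ENNReal.finset_card_const_le_le_of_tsum_le`), `B` = this set. -/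
theorem bad_count : ∃ c₈ : ℝ, 0 < c₈ ∧ ∀ (κ : Type) [Fintype κ] (p : κ → ℝ[X]), (∀ k, p k ≠ 0) →
    ∀ (ε : ℝ), 0 < ε → ∀ j : ℕ, ∃ B : Finset ℤ,
      (∀ k : ℤ, k ∉ B → mass p (1 / 2 ^ j) (ctr j k) ≤ ε) ∧ (B.card : ℝ) ≤ c₈ * tot p / ε := by
  obtain ⟨c₈, hc₈, hO⟩ := overlap
  refine ⟨c₈, hc₈, ?_⟩
  intro κ _ p hp ε hε j
  obtain ⟨h0, h1⟩ := hO κ p hp j
  obtain ⟨hf, hB⟩ := ENNReal.finset_card_const_le_le_of_tsum_le ENNReal.ofReal_ne_top h1
    (ε := ENNReal.ofReal ε) (by simpa using hε)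
  refine ⟨hf.toFinset, ?_, ?_⟩
  · intro k hk
    by_contra hk2
    push Not at hk2
    apply hk
    simp only [Set.Finite.mem_toFinset, Set.mem_ofPred_eq]
    exact ENNReal.ofReal_le_ofReal hk2.le
  · rw [← ENNReal.ofReal_div_of_pos hε] at hB
    have h3 : ((hf.toFinset.card : ℝ≥0∞)).toReal ≤ (ENNReal.ofReal (c₈ * tot p / ε)).toReal :=
      ENNReal.toReal_mono ENNReal.ofReal_ne_top hB
    rwa [ENNReal.toReal_natCast, ENNReal.toReal_ofReal (by positivity)] at h3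

/-- C4c. PROOF. `ε` = the minimum of the `ε₁` of `good_maj` and of `level_zero`; `B j` from `bad_count`. By induction on `M`:
`Maj (fun lm => cz p σ lm {u | ⌊u * 2^M⌋ ∉ B M}) (ofReal (c₉ * tot p * (M + 1)))`. `M = 0`: `level_zero` (`mass p 1 (k + 1/2)` is `mass p (1/2^0) (ctr 0 k)`; C4a; `1 ≤ tot p`).
`M → M+1`: `{u | ⌊u 2^(M+1)⌋ ∉ B (M+1)} ⊆ {u | ⌊u 2^M⌋ ∉ B M} ∪ ⋃ {dy (M+1) k : k ∈ {2b, 2b+1 : b ∈ B M}, k ∉ B (M+1)}` and `dy (M+1) k ⊆ Icc (ctr - ℓ/2) (ctr + ℓ/2)` costs `2` by `good_maj`: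
together `4 (B M).card`. -/
theorem levels : ∃ c₉ : ℝ, 0 < c₉ ∧ ∀ (κ : Type) [Fintype κ] (p : κ → ℝ[X]) (σ : κ → Bool),
    (∀ k, p k ≠ 0) → 1 ≤ tot p → ∀ M : ℕ, ∃ B : Finset ℤ, (B.card : ℝ) ≤ c₉ * tot p ∧
      Maj (fun lm => cz p σ lm {u | ⌊u * 2 ^ M⌋ ∉ B}) (ENNReal.ofReal (c₉ * tot p * (M + 1))) := by
  obtain ⟨c₈, hc₈, hO⟩ := overlap
  obtain ⟨d₈, hd₈, hBC⟩ := bad_count
  obtain ⟨ε₁, hε₁, hG⟩ := good_maj
  obtain ⟨ε₂, c₇, hε₂, hc₇, hL⟩ := level_zero
  set ε := min ε₁ ε₂ with hεdef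
  have hε : 0 < ε := lt_min hε₁ hε₂
  refine ⟨c₇ * c₈ + 4 * (d₈ / ε) + 1, by positivity, ?_⟩
  set c₉ := c₇ * c₈ + 4 * (d₈ / ε) + 1 with hc₉def
  have hc₉ : 0 < c₉ := by positivity
  intro κ _ p σ hp htot M
  have htotR : (1 : ℝ) ≤ tot p := by exact_mod_cast htot
  choose B hB1 hB2 using fun j => hBC κ p hp ε hε j
  have hcard : ∀ j, ((B j).card : ℝ) ≤ d₈ / ε * tot p := fun j => by
    have := hB2 j
    have e : d₈ * (tot p : ℝ) / ε = d₈ / ε * tot p := by ring
    linarith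
  refine ⟨B M, ?_, ?_⟩
  · have := hcard M
    have h3 : d₈ / ε * (tot p : ℝ) ≤ c₉ * tot p := by
      apply mul_le_mul_of_nonneg_right _ (by positivity)
      have : 0 < d₈ / ε := by positivity
      have : 0 < c₇ * c₈ := by positivity
      rw [hc₉def]; linarith
    linarith
  · induction M with
    | zero =>
      have h1 : ∀ k : ℤ, k ∉ B 0 → mass p 1 ((k : ℝ) + 1 / 2) ≤ ε₂ := by
        intro k hk
        have := hB1 0 k hk
        simp only [ctr, pow_zero, div_one] at this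
        exact this.trans (min_le_right _ _)
      refine (hL κ p σ hp (B 0) h1).mono' ?_ ?_
      · intro lm _ _
        refine cz_mono p σ lm fun u hu => ?_
        simpa using hu
      · have h2 := hO κ p hp 0
        simp only [ctr, pow_zero, div_one] at h2
        have h3 : ∑' k : ℤ, ENNReal.ofReal (c₇ * mass p 1 ((k : ℝ) + 1 / 2)) ≤
            ENNReal.ofReal (c₇ * (c₈ * tot p)) := by
          simp_rw [ENNReal.ofReal_mul hc₇.le]
          rw [ENNReal.tsum_mul_left]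
          rw [← ENNReal.ofReal_mul hc₇.le]
          rw [ENNReal.ofReal_mul hc₇.le]
          gcongr
          exact h2.2
        have h4 : ((B 0).card : ℝ≥0∞) + 1 = ENNReal.ofReal ((B 0).card + 1) := by
          rw [ENNReal.ofReal_add (by positivity) (by norm_num)]
          simp
        rw [h4]
        refine (add_le_add_left h3 _).trans ?_
        rw [← ENNReal.ofReal_add (by positivity) (by positivity)]
        apply ENNReal.ofReal_le_ofReal
        have := hcard 0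
        have h5 : 0 < d₈ / ε * (tot p : ℝ) := by positivity
        push_cast
        rw [hc₉def]
        nlinarith
    | succ M ih =>
      classical
      set F : Finset ℤ := ((B M).image (fun b => 2 * b) ∪ (B M).image (fun b => 2 * b + 1)).filter
        (fun k => k ∉ B (M + 1)) with hF
      have hFcard : F.card ≤ 2 * (B M).card := by
        calc F.card ≤ ((B M).image (fun b => 2 * b) ∪ (B M).image (fun b => 2 * b + 1)).card :=
              Finset.card_filter_le _ _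
          _ ≤ ((B M).image (fun b => 2 * b)).card + ((B M).image (fun b => 2 * b + 1)).card :=
              Finset.card_union_le _ _
          _ ≤ (B M).card + (B M).card :=
              add_le_add Finset.card_image_le Finset.card_image_le
          _ = 2 * (B M).card := by ring
      have hp2 : (0 : ℝ) < 2 ^ (M + 1) := by positivity
      have hsub : {u : ℝ | ⌊u * 2 ^ (M + 1)⌋ ∉ B (M + 1)} ⊆ {u : ℝ | ⌊u * 2 ^ M⌋ ∉ B M} ∪
          ⋃ k ∈ F, Set.Icc (ctr (M + 1) k - (1 / 2 ^ (M + 1)) / 2)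
            (ctr (M + 1) k + (1 / 2 ^ (M + 1)) / 2) := by
        intro u hu
        by_cases hb : ⌊u * 2 ^ M⌋ ∈ B M
        · right
          have f1 := Int.floor_le (u * 2 ^ (M + 1))
          have f2 := Int.lt_floor_add_one (u * 2 ^ (M + 1))
          have g1 := Int.floor_le (u * 2 ^ M)
          have g2 := Int.lt_floor_add_one (u * 2 ^ M)
          have he : u * 2 ^ (M + 1) = 2 * (u * 2 ^ M) := by ring
          refine Set.mem_iUnion₂.2 ⟨⌊u * 2 ^ (M + 1)⌋, ?_, ?_⟩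
          · rw [hF, Finset.mem_filter]
            refine ⟨?_, hu⟩
            rw [Finset.mem_union, Finset.mem_image, Finset.mem_image]
            have k1 : ((2 * ⌊u * 2 ^ M⌋ - 1 : ℤ) : ℝ) < (⌊u * 2 ^ (M + 1)⌋ : ℝ) := by
              push_cast; linarith
            have k2 : (⌊u * 2 ^ (M + 1)⌋ : ℝ) < ((2 * ⌊u * 2 ^ M⌋ + 2 : ℤ) : ℝ) := by
              push_cast; linarith
            have k1' := Int.cast_lt.1 k1
            have k2' := Int.cast_lt.1 k2
            have : ⌊u * 2 ^ (M + 1)⌋ = 2 * ⌊u * 2 ^ M⌋ ∨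
                ⌊u * 2 ^ (M + 1)⌋ = 2 * ⌊u * 2 ^ M⌋ + 1 := by omega
            rcases this with h | h
            · left; exact ⟨_, hb, h.symm⟩
            · right; exact ⟨_, hb, h.symm⟩
          · have e1 : ctr (M + 1) ⌊u * 2 ^ (M + 1)⌋ - (1 / 2 ^ (M + 1)) / 2 =
                (⌊u * 2 ^ (M + 1)⌋ : ℝ) / 2 ^ (M + 1) := by
              unfold ctr; ring
            have e2 : ctr (M + 1) ⌊u * 2 ^ (M + 1)⌋ + (1 / 2 ^ (M + 1)) / 2 =
                ((⌊u * 2 ^ (M + 1)⌋ : ℝ) + 1) / 2 ^ (M + 1) := by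
              unfold ctr; ring
            rw [Set.mem_Icc, e1, e2, div_le_iff₀ hp2, le_div_iff₀ hp2]
            exact ⟨f1, f2.le⟩
        · left; exact hb
      have hmaj : Maj (fun lm => ∑ k ∈ F, cz p σ lm (Set.Icc (ctr (M + 1) k - (1 / 2 ^ (M + 1)) / 2)
            (ctr (M + 1) k + (1 / 2 ^ (M + 1)) / 2))) (∑ _k ∈ F, 2) := by
        refine Maj.sum F fun k hk => ?_
        refine hG κ p σ hp _ _ (by positivity) ?_
        refine (hB1 (M + 1) k ?_).trans (min_le_left _ _)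
        exact (Finset.mem_filter.1 hk).2
      refine (ih.add hmaj).mono' ?_ ?_
      · intro lm _ _
        refine (cz_mono p σ lm hsub).trans ((cz_union_le p σ lm _ _).trans ?_)
        gcongr
        exact cz_biUnion_le p σ lm F _
      · have h1 : (∑ _k ∈ F, 2 : ℝ≥0∞) = ENNReal.ofReal (2 * F.card) := by
          rw [Finset.sum_const, nsmul_eq_mul, ENNReal.ofReal_mul (by norm_num),
            ENNReal.ofReal_natCast, mul_comm]
          norm_num
        rw [h1, ← ENNReal.ofReal_add (by positivity) (by positivity)]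
        apply ENNReal.ofReal_le_ofReal
        have h2 : (F.card : ℝ) ≤ 2 * (B M).card := by exact_mod_cast hFcard
        have h3 := hcard M
        have h4 : 0 < c₇ * c₈ * (tot p : ℝ) := by positivity
        push_cast
        rw [hc₉def]
        nlinarith

end Pool.Agent.MP_c11b14_lc.OP
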