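import Mathlib

set_option autoImplicit false

/-! Definitions of the campaign OP (one parameter). -/

namespace Pool.Agent.MP_c11b14_lc.OP

open Polynomial Complex MeasureTheory

section hilbert

variable {V : Type} [NormedAddCommGroup V] [InnerProductSpace ℝ V]

/-- The curve `u ↦ ∑_{n ∈ s} e^{n u} E n`. -/
noncomputable def cur (s : Finset ℕ) (E : ℕ → V) (u : ℝ) : V := ∑ n ∈ s, Real.exp (n * u) • E n

/-- Its derivative. -/
noncomputable def cur' (s : Finset ℕ) (E : ℕ → V) (u : ℝ) : V :=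
  ∑ n ∈ s, ((n : ℝ) * Real.exp (n * u)) • E n

/-- The direction of a vector. -/
noncomputable def dir (x : V) : V := ‖x‖⁻¹ • x

/-- `lam φ φ'` is the logarithmic derivative of the norm of `φ`. -/
noncomputable def lam (x y : V) : ℝ := inner ℝ x y / ‖x‖ ^ 2

/-- `spd φ φ'` is the speed of the direction of `φ`. -/
noncomputable def spd (x y : V) : ℝ := ‖y - lam x y • x‖ / ‖x‖

end hilbert

/-- The entire function `z ↦ p(e^z)`. -/
noncomputable def ev (p : ℝ[X]) (z : ℂ) : ℂ := (p.map (algebraMap ℝ ℂ)).eval (Complex.exp z)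

/-- `ev (dX p)` is the derivative of `ev p`. -/
noncomputable def dX (p : ℝ[X]) : ℝ[X] := X * derivative p

/-- The measure `e^{-ω/ℓ} dω / ℓ` on `(0, ∞)`. -/
noncomputable def muL (ℓ : ℝ) : Measure ℝ :=
  (volume.restrict (Set.Ioi 0)).withDensity (fun ω => ENNReal.ofReal (Real.exp (-ω / ℓ) / ℓ))

/-- The exponential `ω ↦ e^{i n ω}`. -/
noncomputable def en (n : ℕ) (ω : ℝ) : ℂ := Complex.exp ((n : ℂ) * ω * I)

/-- The Hilbert space of the scale `ℓ`. -/
abbrev HL (ℓ : ℝ) : Type := Lp ℂ 2 (muL ℓ)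

/-- The vector `c e^{i n ω}` of the Hilbert space (`0` if not square integrable, which does not occur for `ℓ > 0`). -/
noncomputable def EL (p : ℝ[X]) (ℓ : ℝ) (n : ℕ) : HL ℓ :=
  open Classical in
  if h : MemLp (fun ω => (p.coeff n : ℂ) * en n ω) 2 (muL ℓ) then h.toLp _ else 0

/-- The vector `ω ↦ p(e^{u + i ω})` of the Hilbert space. -/
noncomputable def vL (p : ℝ[X]) (ℓ u : ℝ) : HL ℓ :=
  open Classical in
  if h : MemLp (fun ω : ℝ => ev p (u + ω * I)) 2 (muL ℓ) then h.toLp _ else 0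

/-- The speed of the direction of `vL p ℓ u`. -/
noncomputable def sp (p : ℝ[X]) (ℓ u : ℝ) : ℝ := spd (vL p ℓ u) (vL (dX p) ℓ u)

section family

variable {κ : Type} [Fintype κ]

/-- The product of the members of the family on the side `b`. -/
noncomputable def gp (p : κ → ℝ[X]) (σ : κ → Bool) (b : Bool) : ℝ[X] :=
  ∏ k ∈ Finset.univ.filter (fun k => σ k = b), p k

/-- `G₁ + λ G₂`. -/
noncomputable def pl (p : κ → ℝ[X]) (σ : κ → Bool) (lm : ℝ) : ℝ[X] :=
  gp p σ true + C lm * gp p σ false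

/-- `G₁ + e^{iθ} G₂`. -/
noncomputable def rt (p : κ → ℝ[X]) (σ : κ → Bool) (θ : ℝ) : ℂ[X] :=
  (gp p σ true).map (algebraMap ℝ ℂ) + C (Complex.exp (θ * I)) * (gp p σ false).map (algebraMap ℝ ℂ)

/-- The number of monomials of the family. -/
def tot (p : κ → ℝ[X]) : ℕ := ∑ k, (p k).support.card

/-- The mass of the window `|u - x| ≤ 5 ℓ` at the scale `ℓ`. -/
noncomputable def mass (p : κ → ℝ[X]) (ℓ x : ℝ) : ℝ :=
  ∑ k, ∫ u in (x - 5 * ℓ)..(x + 5 * ℓ), sp (p k) ℓ u

/-- `+1` on the side `true`, `-1` on the side `false`. -/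
def sg (b : Bool) : ℝ := if b then 1 else -1

/-- The logarithmic derivative of `G₁ / G₂` at `e^z`. -/
noncomputable def lD (p : κ → ℝ[X]) (σ : κ → Bool) (z : ℂ) : ℂ :=
  ∑ k, (sg (σ k) : ℂ) * (ev (dX (p k)) z / ev (p k) z)

/-- `Φ(z) = log max(|G₁(e^z)|, |G₂(e^z)|)`. -/
noncomputable def Ph (p : κ → ℝ[X]) (σ : κ → Bool) (z : ℂ) : ℝ :=
  Real.log (max ‖ev (gp p σ true) z‖ ‖ev (gp p σ false) z‖)

/-- The real zeros of `G₁ + λ G₂` in the coordinate `u = log x`, in a set. -/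
def zs (p : κ → ℝ[X]) (σ : κ → Bool) (lm : ℝ) (S : Set ℝ) : Set ℝ :=
  {u | u ∈ S ∧ (pl p σ lm).eval (Real.exp u) = 0}

/-- The dyadic interval number `k` of level `j`. -/
def dy (j : ℕ) (k : ℤ) : Set ℝ := Set.Ico ((k : ℝ) / 2 ^ j) (((k : ℝ) + 1) / 2 ^ j)

/-- Its centre. -/
noncomputable def ctr (j : ℕ) (k : ℤ) : ℝ := ((k : ℝ) + 1 / 2) / 2 ^ j

end family

/-- The sum over the roots `x` of `arg(t - x e^{-iω})` (`0` if `x e^{-iω} > 0`): the argument of `R` on the ray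
`arg = ω`, up to a constant and up to sign changes at the roots on the ray. -/
noncomputable def rayA (R : ℂ[X]) (ω t : ℝ) : ℝ :=
  (R.roots.map fun x =>
    open Classical in
    if 0 < (x * Complex.exp (-(ω : ℂ) * I)).re ∧ (x * Complex.exp (-(ω : ℂ) * I)).im = 0 then 0
    else Complex.arg (t - x * Complex.exp (-(ω : ℂ) * I))).sum

/-- The number of roots (with multiplicity) in the sector `|arg x| < ω`, `x ≠ 0`. -/
noncomputable def nsec (R : ℂ[X]) (ω : ℝ) : ℕ :=
  open Classical in R.roots.countP (fun x => x ≠ 0 ∧ |Complex.arg x| < ω)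

end Pool.Agent.MP_c11b14_lc.OP
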