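import Pool.Agent.Lib.MP_c11b14_lc.OP.C0

set_option autoImplicit false

/-! Task E1: Jensen's formula for two circles. -/

namespace Pool.Agent.MP_c11b14_lc.OP

open Polynomial Complex MeasureTheory Real
open scoped ENNReal

/-- The contribution of the root `x` to the difference of the means over the circles of radii `R₂` and `R₁` around `c`. -/
noncomputable def dl (c R₁ R₂ : ℝ) (x : ℂ) : ℝ :=
  open Classical in
  if x = 0 then 0 else Real.log (max R₂ ‖(c : ℂ) - Complex.log x‖) - Real.log (max R₁ ‖(c : ℂ) - Complex.log x‖)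

private theorem E1_congr {f g : ℂ → ℝ} {c : ℂ} {R : ℝ} (hR : R ≠ 0) {S : Set ℂ} (hS : S.Countable)
    (h : ∀ z, z ∉ S → f z = g z) : circleAverage f c R = circleAverage g c R := by
  unfold circleAverage
  congr 1
  apply intervalIntegral.integral_congr_ae
  have h1 : (circleMap c R ⁻¹' S).Countable := hS.preimage_circleMap c hR
  filter_upwards [h1.ae_notMem volume] with t ht _
  exact h _ ht

private theorem E1_posLog {R d : ℝ} (hR : 0 < R) (hd : 0 ≤ d) :
    Real.log R + log⁺ (R⁻¹ * d) = Real.log (max R d) := by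
  rcases le_total d R with h | h
  · rw [max_eq_left h, Real.posLog_eq_zero_iff _ |>.mpr, add_zero]
    rw [abs_of_nonneg (by positivity), inv_mul_le_iff₀ hR, mul_one]
    exact h
  · rw [max_eq_right h, Real.posLog_eq_log]
    · rw [Real.log_mul (inv_ne_zero hR.ne') (by linarith), Real.log_inv]
      ring
    · rw [abs_of_nonneg (by positivity), ← div_eq_inv_mul, one_le_div hR]
      exact h

private theorem E1_one {x : ℂ} (hx : x ≠ 0) {c R : ℝ} (h0 : 0 < R) (h2 : R ≤ 1) :
    circleAverage (fun z => Real.log ‖Complex.exp z - x‖) c R =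
      Real.log (max R ‖(c : ℂ) - Complex.log x‖) +
        Real.log ‖dslope (fun z => Complex.exp z - x) (Complex.log x) c‖ := by
  set w := Complex.log x with hw
  set f : ℂ → ℂ := fun z => Complex.exp z - x with hf
  have hew : Complex.exp w = x := Complex.exp_log hx
  have hfw : f w = 0 := by simp [hf, hew]
  have hfd : Differentiable ℂ f := by
    simp only [hf]
    fun_prop
  have hfac : ∀ z, f z = (z - w) * dslope f w z := by
    intro z
    have := sub_smul_dslope f w z
    rw [hfw, sub_zero, smul_eq_mul] at this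
    exact this.symm
  have hdd : Differentiable ℂ (dslope f w) := by
    rw [← differentiableOn_univ]
    rw [Complex.differentiableOn_dslope Filter.univ_mem]
    exact hfd.differentiableOn
  have han : ∀ s : Set ℂ, AnalyticOnNhd ℂ (dslope f w) s := fun s z _ => hdd.analyticAt z
  have hne : ∀ z ∈ Metric.closedBall (c : ℂ) |R|, dslope f w z ≠ 0 := by
    intro z hz h
    by_cases hzw : z = w
    · rw [hzw, dslope_same] at h
      have hd : deriv f w = Complex.exp w := by
        simp [hf]
      rw [hd] at h
      exact Complex.exp_ne_zero _ h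
    · have h3 : f z = 0 := by rw [hfac z, h, mul_zero]
      have h4 : Complex.exp z = Complex.exp w := by
        rw [hew]
        exact sub_eq_zero.mp h3
      rw [Complex.exp_eq_exp_iff_exists_int] at h4
      obtain ⟨k, hk⟩ := h4
      have him : z.im = w.im + k * (2 * π) := by
        have := congrArg Complex.im hk
        simpa using this
      have hz1 : |z.im| ≤ 1 := by
        have h5 : |(z - (c : ℂ)).im| ≤ ‖z - (c : ℂ)‖ := Complex.abs_im_le_norm _
        rw [mem_closedBall_iff_norm, abs_of_pos h0] at hz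
        simp only [Complex.sub_im, Complex.ofReal_im, sub_zero] at h5
        linarith
      have hw1 : -π < w.im := Complex.neg_pi_lt_log_im x
      have hw2 : w.im ≤ π := Complex.log_im_le_pi x
      have hpi : (3 : ℝ) < π := Real.pi_gt_three
      rw [abs_le] at hz1
      have hk0 : k = 0 := by
        have hk1 : (-1 : ℝ) < k := by
          by_contra hcon
          push Not at hcon
          nlinarith
        have hk2 : (k : ℝ) < 1 := by
          by_contra hcon
          push Not at hcon
          nlinarith
        have hk1' : (-1 : ℤ) < k := by exact_mod_cast hk1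
        have hk2' : k < (1 : ℤ) := by exact_mod_cast hk2
        omega
      rw [hk0] at hk
      apply hzw
      simpa using hk
  have h5 : circleAverage (fun z => Real.log ‖f z‖) c R =
      circleAverage (fun z => Real.log ‖z - w‖ + Real.log ‖dslope f w z‖) c R := by
    apply E1_congr h0.ne' (S := {z | z = w} ∪ {z | dslope f w z = 0} ∩ {z | Complex.exp z = x})
    · apply Set.Countable.union
      · simp
      · apply Set.Countable.mono Set.inter_subset_right
        have : {z | Complex.exp z = x} = Complex.exp ⁻¹' {x} := rfl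
        rw [this]
        exact (Set.countable_singleton x).preimage_cexp
    · intro z hz
      simp only [Set.mem_union, Set.mem_ofPred_eq, Set.mem_inter_iff, not_or, not_and] at hz
      obtain ⟨hz1, hz2⟩ := hz
      rw [hfac z, norm_mul]
      by_cases hz3 : dslope f w z = 0
      · exfalso
        apply hz2 hz3
        have : f z = 0 := by rw [hfac z, hz3, mul_zero]
        exact sub_eq_zero.mp this
      · rw [Real.log_mul (norm_ne_zero_iff.mpr (sub_ne_zero.mpr hz1)) (norm_ne_zero_iff.mpr hz3)]
  have h6 : circleAverage (fun z => Real.log ‖z - w‖) c R = Real.log (max R ‖(c : ℂ) - w‖) := by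
    have := circleAverage_log_norm_sub_const_eq_log_radius_add_posLog (a := w) (c := (c : ℂ)) h0.ne'
    rw [this, E1_posLog h0 (norm_nonneg _)]
  change circleAverage (fun z => Real.log ‖f z‖) c R = _
  rw [h5, circleAverage_fun_add, h6]
  · congr 1
    exact (han _).circleAverage_log_norm_of_ne_zero hne
  · exact circleIntegrable_log_norm_sub_const R
  · exact (han _).meromorphicOn.circleIntegrable_log_norm

/-- E1a. PROOF. In the strip `|Im z| < π` the function `e^z - x` has at most the zero `w = Log x` (simple), so `h(z) = (e^z - x)/(z - w)` (removable: `dslope`) is analytic and without zeros in the strip,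
which contains the closed disc of radius `R₂ ≤ 1` around the real point `c`. So the mean of `log ‖h‖` over the circle of radius `R ≤ 1` is `log ‖h c‖` (Mathlib: `circleAverage_log_norm...` for
functions without zeros: look in `Mathlib/Analysis/Complex/Harmonic/` or `Mathlib/MeasureTheory/Integral/CircleAverage.lean`, `Mathlib/Analysis/Complex/JensenFormula.lean`), and that of `log ‖z - w‖` is
`log R + log⁺ (‖c - w‖/R) = log max(R, ‖c - w‖)` (`circleAverage_log_norm_sub_const_eq_log_radius_add_posLog` or similar). The functions `log ‖e^z - x‖` and `log ‖h‖ + log ‖z - w‖` agree except at `w`.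
(The Jensen formula `MeromorphicOn.circleAverage_log_norm` is another way.) -/
theorem avg_single {x : ℂ} (hx : x ≠ 0) {c R₁ R₂ : ℝ} (h0 : 0 < R₁) (h1 : R₁ ≤ R₂) (h2 : R₂ ≤ 1) :
    circleAverage (fun z => Real.log ‖Complex.exp z - x‖) c R₂ -
      circleAverage (fun z => Real.log ‖Complex.exp z - x‖) c R₁ =
    Real.log (max R₂ ‖(c : ℂ) - Complex.log x‖) - Real.log (max R₁ ‖(c : ℂ) - Complex.log x‖) := by
  rw [E1_one hx (h0.trans_le h1) h2, E1_one hx h0 (h1.trans h2)]
  ring

private theorem E1_int (x : ℂ) (c : ℂ) (R : ℝ) :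
    CircleIntegrable (fun z => Real.log ‖Complex.exp z - x‖) c R := by
  have h : AnalyticOnNhd ℂ (fun z => Complex.exp z - x) (Metric.sphere c |R|) := by
    intro z _
    fun_prop
  exact h.meromorphicOn.circleIntegrable_log_norm

private theorem E1_ms (s : Multiset ℂ) (c : ℂ) (R : ℝ) :
    CircleIntegrable (fun z => (s.map (fun x => Real.log ‖Complex.exp z - x‖)).sum) c R ∧
    circleAverage (fun z => (s.map (fun x => Real.log ‖Complex.exp z - x‖)).sum) c R =
      (s.map (fun x => circleAverage (fun z => Real.log ‖Complex.exp z - x‖) c R)).sum := by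
  induction s using Multiset.induction_on with
  | empty =>
    simp only [Multiset.map_zero, Multiset.sum_zero]
    exact ⟨circleIntegrable_const _ _ _, circleAverage_const _ _ _⟩
  | cons a s ih =>
    simp only [Multiset.map_cons, Multiset.sum_cons]
    refine ⟨(E1_int a c R).add ih.1, ?_⟩
    rw [circleAverage_fun_add (E1_int a c R) ih.1, ih.2]

private theorem E1_log (a : ℂ) (ha : a ≠ 0) (s : Multiset ℂ) (y : ℂ) (h : ∀ x ∈ s, y ≠ x) :
    Real.log ‖a * (s.map (fun x => y - x)).prod‖ =
      Real.log ‖a‖ + (s.map (fun x => Real.log ‖y - x‖)).sum := by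
  induction s using Multiset.induction_on with
  | empty => simp
  | cons b s ih =>
    have h1 := ih (fun x hx => h x (Multiset.mem_cons_of_mem hx))
    have hb : y - b ≠ 0 := sub_ne_zero.mpr (h b (Multiset.mem_cons_self b s))
    have hp : (s.map (fun x => y - x)).prod ≠ 0 := by
      apply Multiset.prod_ne_zero
      intro h0
      rw [Multiset.mem_map] at h0
      obtain ⟨x, hx, hx0⟩ := h0
      exact h x (Multiset.mem_cons_of_mem hx) (sub_eq_zero.mp hx0)
    rw [Multiset.map_cons, Multiset.prod_cons, Multiset.map_cons, Multiset.sum_cons]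
    have e : a * ((y - b) * (s.map (fun x => y - x)).prod) =
        (y - b) * (a * (s.map (fun x => y - x)).prod) := by ring
    rw [e, norm_mul, Real.log_mul (norm_ne_zero_iff.mpr hb)
      (norm_ne_zero_iff.mpr (mul_ne_zero ha hp)), h1]
    ring

private theorem E1_avg {P : ℂ[X]} (hP : P ≠ 0) (c : ℂ) {R : ℝ} (hR : 0 < R) :
    circleAverage (fun z => Real.log ‖P.eval (Complex.exp z)‖) c R = Real.log ‖P.leadingCoeff‖ +
      (P.roots.map (fun x => circleAverage (fun z => Real.log ‖Complex.exp z - x‖) c R)).sum := by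
  have h1 : circleAverage (fun z => Real.log ‖P.eval (Complex.exp z)‖) c R =
      circleAverage (fun z => Real.log ‖P.leadingCoeff‖ +
        (P.roots.map (fun x => Real.log ‖Complex.exp z - x‖)).sum) c R := by
    apply E1_congr hR.ne' (S := Complex.exp ⁻¹' (P.roots.toFinset : Set ℂ))
    · exact (P.roots.toFinset.countable_toSet).preimage_cexp
    · intro z hz
      rw [(IsAlgClosed.splits P).eval_eq_prod_roots]
      apply E1_log _ (leadingCoeff_ne_zero.mpr hP)
      intro x hx hex
      apply hz
      rw [Set.mem_preimage, hex]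
      simpa using hx
  rw [h1, circleAverage_fun_add (circleIntegrable_const _ _ _) (E1_ms P.roots c R).1,
    circleAverage_const, (E1_ms P.roots c R).2]

/-- E1b. PROOF. `P = a ∏ (X - x_i)` (splits over `ℂ`); `log` of the product is the sum except at finitely many points of the circle; circle integrability of `log ‖f‖` for analytic `f`:
`MeromorphicOn.circleIntegrable_log_norm` or similar. For `x = 0`: `log ‖e^z‖ = re z` has the mean `c` on every circle. (`P = 0`: both sides `0`.) -/
theorem avg_poly (P : ℂ[X]) {c R₁ R₂ : ℝ} (h0 : 0 < R₁) (h1 : R₁ ≤ R₂) (h2 : R₂ ≤ 1) :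
    circleAverage (fun z => Real.log ‖P.eval (Complex.exp z)‖) c R₂ -
      circleAverage (fun z => Real.log ‖P.eval (Complex.exp z)‖) c R₁ = (P.roots.map (dl c R₁ R₂)).sum := by
  by_cases hP : P = 0
  · subst hP
    simp only [eval_zero, norm_zero, Real.log_zero, roots_zero, Multiset.map_zero, Multiset.sum_zero]
    rw [circleAverage_const, circleAverage_const]
    simp
  rw [E1_avg hP c (h0.trans_le h1), E1_avg hP c h0, add_sub_add_left_eq_sub, ← Multiset.sum_map_sub]
  congr 1
  apply Multiset.map_congr rfl
  intro x _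
  unfold dl
  by_cases hx : x = 0
  · rw [if_pos hx, hx]
    have h3 : ∀ R : ℝ, circleAverage (fun z => Real.log ‖Complex.exp z - 0‖) (c : ℂ) R =
        Real.log ‖Complex.exp (c : ℂ)‖ := by
      intro R
      simp only [sub_zero]
      have h4 : AnalyticOnNhd ℂ Complex.exp (Metric.closedBall (c : ℂ) |R|) := by
        intro z _
        fun_prop
      exact h4.circleAverage_log_norm_of_ne_zero (fun u _ => Complex.exp_ne_zero u)
    rw [h3, h3]
    simp
  · rw [if_neg hx]
    exact avg_single hx h0 h1 h2

/-- E1c. -/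
theorem dl_props {c ℓ : ℝ} (hℓ : 0 < ℓ) (x : ℂ) : 0 ≤ dl c ℓ (2 * ℓ) x ∧ dl c ℓ (2 * ℓ) x ≤ Real.log 2 ∧
    (x ≠ 0 → ‖(c : ℂ) - Complex.log x‖ ≤ ℓ → dl c ℓ (2 * ℓ) x = Real.log 2) ∧
    (2 * ℓ ≤ ‖(c : ℂ) - Complex.log x‖ → dl c ℓ (2 * ℓ) x = 0) := by
  have hl2 : 0 ≤ Real.log 2 := Real.log_nonneg (by norm_num)
  unfold dl
  by_cases hx : x = 0
  · rw [if_pos hx]
    exact ⟨le_refl _, hl2, fun h => absurd hx h, fun _ => rfl⟩
  rw [if_neg hx]
  set d := ‖(c : ℂ) - Complex.log x‖ with hd
  have hd0 : 0 ≤ d := norm_nonneg _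
  have hm : 0 < max ℓ d := lt_max_of_lt_left hℓ
  refine ⟨?_, ?_, ?_, ?_⟩
  · rw [sub_nonneg]
    apply Real.log_le_log hm
    exact max_le_max_right d (by linarith)
  · rw [sub_le_iff_le_add, ← Real.log_mul (by norm_num) hm.ne']
    apply Real.log_le_log (lt_max_of_lt_left (by linarith))
    apply max_le
    · nlinarith [le_max_left ℓ d]
    · nlinarith [le_max_right ℓ d]
  · intro _ h
    rw [max_eq_left h, max_eq_left (by linarith), Real.log_mul (by norm_num) hℓ.ne']
    ring
  · intro h
    rw [max_eq_right h, max_eq_right (by linarith), sub_self]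

/-- E1d. PROOF. `avg_poly` for `P.map`, `ev P z = (P.map _).eval (exp z)`; the different real zeros `u` give different roots `e^u` with `Log e^u = u`, each contributes `log 2`, the others `≥ 0`. -/
theorem card_zeros_le {P : ℝ[X]} (hP : P ≠ 0) {c ℓ : ℝ} (hℓ : 0 < ℓ) (h2 : 2 * ℓ ≤ 1) {s : Finset ℝ}
    (hs : ∀ u ∈ s, u ∈ Set.Icc (c - ℓ) (c + ℓ) ∧ P.eval (Real.exp u) = 0) :
    s.card * Real.log 2 ≤ circleAverage (fun z => Real.log ‖ev P z‖) c (2 * ℓ) -
      circleAverage (fun z => Real.log ‖ev P z‖) c ℓ := by
  classical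
  set Q : ℂ[X] := P.map (algebraMap ℝ ℂ) with hQ
  have hQ0 : Q ≠ 0 := by
    rw [hQ]
    exact (Polynomial.map_ne_zero_iff (algebraMap ℝ ℂ).injective).mpr hP
  have h3 : circleAverage (fun z => Real.log ‖ev P z‖) c (2 * ℓ) -
      circleAverage (fun z => Real.log ‖ev P z‖) c ℓ = (Q.roots.map (dl c ℓ (2 * ℓ))).sum :=
    avg_poly Q hℓ (by linarith) h2
  rw [h3]
  set t : Finset ℂ := s.image (fun u : ℝ => ((Real.exp u : ℝ) : ℂ)) with ht
  have hcard : t.card = s.card := by
    apply Finset.card_image_of_injective
    intro a b hab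
    exact Real.exp_injective (Complex.ofReal_injective hab)
  have hmem : ∀ x ∈ t, x ∈ Q.roots ∧ dl c ℓ (2 * ℓ) x = Real.log 2 := by
    intro x hx
    rw [ht, Finset.mem_image] at hx
    obtain ⟨u, hu, rfl⟩ := hx
    obtain ⟨hu1, hu2⟩ := hs u hu
    constructor
    · rw [mem_roots hQ0, IsRoot.def, hQ]
      have : eval ((Real.exp u : ℝ) : ℂ) (P.map (algebraMap ℝ ℂ)) =
          ((P.eval (Real.exp u) : ℝ) : ℂ) := by
        rw [eval_map_algebraMap, ← Complex.coe_algebraMap, aeval_algebraMap_apply, coe_aeval_eq_eval]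
      rw [this, hu2, Complex.ofReal_zero]
    · apply (dl_props hℓ _).2.2.1
      · rw [Complex.ofReal_ne_zero]
        exact (Real.exp_pos u).ne'
      · rw [Complex.ofReal_exp, ← Complex.ofReal_exp, ← Complex.ofReal_log (Real.exp_pos u).le,
          Real.log_exp, ← Complex.ofReal_sub, Complex.norm_real, Real.norm_eq_abs, abs_le]
        constructor <;> linarith [hu1.1, hu1.2]
  have hle : t.val ≤ Q.roots := by
    rw [Multiset.le_iff_subset t.nodup]
    intro x hx
    exact (hmem x hx).1
  obtain ⟨r, hr⟩ := Multiset.le_iff_exists_add.mp hle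
  rw [hr, Multiset.map_add, Multiset.sum_add]
  have h4 : (t.val.map (dl c ℓ (2 * ℓ))).sum = s.card * Real.log 2 := by
    have : (t.val.map (dl c ℓ (2 * ℓ))).sum = ∑ x ∈ t, dl c ℓ (2 * ℓ) x := rfl
    rw [this, Finset.sum_congr rfl (fun x hx => (hmem x hx).2), Finset.sum_const, hcard,
      nsmul_eq_mul]
  have h5 : 0 ≤ (r.map (dl c ℓ (2 * ℓ))).sum := by
    apply Multiset.sum_nonneg
    intro y hy
    rw [Multiset.mem_map] at hy
    obtain ⟨x, _, rfl⟩ := hy
    exact (dl_props hℓ x).1
  linarith

end Pool.Agent.MP_c11b14_lc.OP
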