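import Pool.Agent.Lib.MP_c11b14_lc.OP.C0

set_option autoImplicit false

/-! Task E2: `∫_1^2 log ‖A + λ B‖ dλ`, and the mean over `θ`. -/

namespace Pool.Agent.MP_c11b14_lc.OP

open Polynomial Complex MeasureTheory Real

private theorem E2_xlogx {t : ℝ} (ht : 0 ≤ t) : t - 1 ≤ t * Real.log t := by
  rcases ht.eq_or_lt with h | h
  · rw [← h]; norm_num
  · have h1 := Real.one_sub_inv_le_log_of_pos h
    have h2 : t * (1 - t⁻¹) ≤ t * Real.log t := mul_le_mul_of_nonneg_left h1 h.le
    have h3 : t * (1 - t⁻¹) = t - 1 := by field_simp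
    linarith

/-- `(a+1) log |a+1| - a log |a| ≥ -1`. -/
private theorem E2_g (a : ℝ) : -1 ≤ (a + 1) * Real.log (a + 1) - a * Real.log a := by
  have key : ∀ t : ℝ, 0 ≤ t → 0 ≤ (t + 1) * Real.log (t + 1) - t * Real.log t := by
    intro t ht
    have h0 : 0 ≤ Real.log (t + 1) := Real.log_nonneg (by linarith)
    rcases ht.eq_or_lt with h | h
    · rw [← h]; norm_num
    · have h1 : Real.log t ≤ Real.log (t + 1) := Real.log_le_log h (by linarith)
      nlinarith
  rcases le_or_gt 0 a with h | h
  · have := key a h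
    linarith
  · rcases le_or_gt a (-1) with h2 | h2
    · have := key (-a - 1) (by linarith)
      have e1 : -a - 1 + 1 = -a := by ring
      rw [e1, Real.log_neg_eq_log] at this
      have e2 : -a - 1 = -(a + 1) := by ring
      rw [e2, Real.log_neg_eq_log] at this
      linarith
    · have h3 := E2_xlogx (t := a + 1) (by linarith)
      have h4 := E2_xlogx (t := -a) (by linarith)
      rw [Real.log_neg_eq_log] at h4
      linarith

/-- E2a. PROOF. If `A = B = 0`: both are trivial (`Real.log 0 = 0`). Integrability: `λ ↦ A + λ B` is analytic; or bound `|log|`. Lower bound: if `‖A‖ ≥ 4 ‖B‖` then `‖A + λB‖ ≥ ‖A‖/2`. Else `B ≠ 0`,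
`log ‖A + λB‖ = log ‖B‖ + log ‖λ + A/B‖ ≥ log ‖B‖ + log |λ + r|`, `r = Re(A/B)` (for `λ ≠ -r`), and `∫_1^2 log |λ + r| = F(2+r) - F(1+r)`, `F(s) = s log|s| - s` (`integral_log`), which is
`≥ -1 - log 2` (e.g. because `log |λ + r| ≥ ...`; the minimum is at `r = -3/2`: compare with the symmetric interval: `∫_I log|s| ≥ ∫_{|s| ≤ 1/2} log|s|` for every interval `I` of length `1`), and
`log ‖B‖ ≥ log max(‖A‖,‖B‖) - log 4`. Total `≥ log max - 1 - 3 log 2 ≥ log max - 4`. -/
theorem int_log (A B : ℂ) :
    IntervalIntegrable (fun lm : ℝ => Real.log ‖A + lm * B‖) volume 1 2 ∧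
      Real.log (max ‖A‖ ‖B‖) - 4 ≤ ∫ lm in (1 : ℝ)..2, Real.log ‖A + lm * B‖ := by
  have hint : IntervalIntegrable (fun lm : ℝ => Real.log ‖A + lm * B‖) volume 1 2 := by
    apply MeromorphicOn.intervalIntegrable_log_norm (f := fun lm : ℝ => A + lm * B)
    intro u _
    apply AnalyticAt.meromorphicAt
    exact analyticAt_const.add ((Complex.ofRealCLM.analyticAt u).mul analyticAt_const)
  refine ⟨hint, ?_⟩
  have hlog2 : Real.log 2 ≤ 1 := by
    have := Real.log_two_lt_d9; linarith
  rcases le_or_gt (4 * ‖B‖) ‖A‖ with h | h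
  · -- `‖A‖ ≥ 4 ‖B‖`
    have hB := norm_nonneg B
    have hmax : max ‖A‖ ‖B‖ = ‖A‖ := max_eq_left (by linarith)
    rw [hmax]
    rcases (norm_nonneg A).eq_or_lt with hA | hA
    · have hA0 : A = 0 := norm_eq_zero.mp hA.symm
      have hB0 : B = 0 := norm_eq_zero.mp (by linarith)
      rw [hA0, hB0]
      simp
    · have hle : ∫ lm in (1 : ℝ)..2, (Real.log ‖A‖ - Real.log 2) ≤
          ∫ lm in (1 : ℝ)..2, Real.log ‖A + lm * B‖ := by
        apply intervalIntegral.integral_mono_on (by norm_num) (by simp) hint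
        intro u hu
        rw [← Real.log_div hA.ne' (by norm_num)]
        apply Real.log_le_log (by positivity)
        have h1 : ‖(u : ℂ) * B‖ ≤ 2 * ‖B‖ := by
          rw [norm_mul, Complex.norm_real, Real.norm_eq_abs, abs_of_nonneg (by linarith [hu.1])]
          exact mul_le_mul_of_nonneg_right hu.2 hB
        have h2 : ‖A‖ ≤ ‖A + u * B‖ + ‖(u : ℂ) * B‖ := by
          have := norm_sub_le (A + u * B) (u * B)
          simpa using this
        linarith
      rw [intervalIntegral.integral_const] at hle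
      norm_num at hle
      linarith
  · -- `B ≠ 0`
    have hB : 0 < ‖B‖ := by
      by_contra hc
      have h0 : ‖B‖ = 0 := le_antisymm (not_lt.mp hc) (norm_nonneg B)
      rw [h0] at h
      have := norm_nonneg A
      linarith
    have hB0 : B ≠ 0 := norm_pos_iff.mp hB
    set r := (A / B).re with hr
    have hlogi : IntervalIntegrable (fun lm : ℝ => Real.log (lm + r)) volume 1 2 := by
      have h := (intervalIntegral.intervalIntegrable_log' (a := 1 + r) (b := 2 + r)).comp_add_right r
      simpa using h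
    have hint2 : IntervalIntegrable (fun lm : ℝ => Real.log ‖B‖ + Real.log (lm + r)) volume 1 2 :=
      IntervalIntegrable.add (by simp) hlogi
    have hpt : ∀ᵐ lm : ℝ ∂volume,
        Real.log ‖B‖ + Real.log (lm + r) ≤ Real.log ‖A + lm * B‖ := by
      have hne : ∀ᵐ lm : ℝ ∂volume, lm ≠ -r := by
        rw [ae_iff]
        simp
      filter_upwards [hne] with lm hl
      have h1 : A + lm * B = B * (lm + A / B) := by field_simp; ring
      have h2 : |lm + r| ≤ ‖(lm : ℂ) + A / B‖ := by
        have := Complex.abs_re_le_norm ((lm : ℂ) + A / B)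
        simpa [hr] using this
      have h3 : 0 < |lm + r| := abs_pos.mpr (fun h => hl (by linarith))
      have h4 : ‖(lm : ℂ) + A / B‖ ≠ 0 := (h3.trans_le h2).ne'
      rw [h1, norm_mul, Real.log_mul hB.ne' h4]
      have h5 : Real.log (lm + r) ≤ Real.log ‖(lm : ℂ) + A / B‖ := by
        rw [← Real.log_abs (lm + r)]
        exact Real.log_le_log h3 h2
      linarith
    have hle := intervalIntegral.integral_mono_ae (by norm_num : (1 : ℝ) ≤ 2) hint2 hint hpt
    have e : ∫ lm in (1 : ℝ)..2, (Real.log ‖B‖ + Real.log (lm + r)) =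
        Real.log ‖B‖ + ((1 + r + 1) * Real.log (1 + r + 1) - (1 + r) * Real.log (1 + r) - 1) := by
      rw [intervalIntegral.integral_add (by simp) hlogi, intervalIntegral.integral_const,
        intervalIntegral.integral_comp_add_right (fun t => Real.log t) r, integral_log]
      have e2 : (2 : ℝ) + r = 1 + r + 1 := by ring
      rw [e2]
      norm_num
      ring
    rw [e] at hle
    have hg := E2_g (1 + r)
    have hmax : Real.log (max ‖A‖ ‖B‖) ≤ Real.log ‖B‖ + 2 * Real.log 2 := by
      have h6 : max ‖A‖ ‖B‖ ≤ ‖B‖ * 4 := max_le (by linarith) (by linarith)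
      have h7 : 0 < max ‖A‖ ‖B‖ := lt_max_of_lt_right hB
      have h8 := Real.log_le_log h7 h6
      rw [Real.log_mul hB.ne' (by norm_num), show (4 : ℝ) = 2 ^ 2 by norm_num, Real.log_pow] at h8
      push_cast at h8
      linarith
    linarith

/-- E2b. PROOF. `A = B = 0`: `0 = 0`. Else Jensen: Mathlib `circleAverage_log_norm_add_const_eq_posLog` (mean of `log ‖z + a‖` over the unit circle is `log⁺ ‖a‖`): if `B ≠ 0`:
`log ‖A + e^{iθ}B‖ = log ‖B‖ + log ‖e^{iθ} + A/B‖`, mean `log ‖B‖ + log⁺ ‖A/B‖ = log max(‖A‖,‖B‖)`; `B = 0` trivial. -/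
theorem mean_theta (A B : ℂ) :
    IntervalIntegrable (fun θ : ℝ => Real.log ‖A + Complex.exp (θ * I) * B‖) volume 0 (2 * π) ∧
      ∫ θ in (0 : ℝ)..(2 * π), Real.log ‖A + Complex.exp (θ * I) * B‖ =
        2 * π * Real.log (max ‖A‖ ‖B‖) := by
  have han : ∀ (C D : ℂ) (u : ℝ), AnalyticAt ℝ (fun θ : ℝ => C + Complex.exp (θ * I) * D) u := by
    intro C D u
    apply AnalyticAt.add analyticAt_const
    apply AnalyticAt.mul _ analyticAt_const
    have h1 : AnalyticAt ℝ (fun θ : ℝ => (θ : ℂ) * I) u :=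
      (Complex.ofRealCLM.analyticAt u).mul analyticAt_const
    have h2 : AnalyticAt ℝ Complex.exp ((u : ℂ) * I) := (analyticAt_cexp).restrictScalars
    exact AnalyticAt.comp (g := Complex.exp) (f := fun θ : ℝ => (θ : ℂ) * I) h2 h1
  have hintg : ∀ C D : ℂ, IntervalIntegrable (fun θ : ℝ => Real.log ‖C + Complex.exp (θ * I) * D‖)
      volume 0 (2 * π) := by
    intro C D
    apply MeromorphicOn.intervalIntegrable_log_norm (f := fun θ : ℝ => C + Complex.exp (θ * I) * D)
    intro u _
    exact (han C D u).meromorphicAt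
  refine ⟨hintg A B, ?_⟩
  by_cases hB : B = 0
  · rw [hB]
    simp
  have hBn : 0 < ‖B‖ := norm_pos_iff.mpr hB
  set a := A / B with ha
  have hav := circleAverage_log_norm_add_const_eq_posLog (a := a)
  rw [circleAverage_def] at hav
  have hav2 : ∫ θ in (0 : ℝ)..(2 * π), Real.log ‖a + Complex.exp (θ * I) * 1‖ =
      2 * π * Real.posLog ‖a‖ := by
    rw [← hav]
    rw [smul_eq_mul, ← mul_assoc, mul_inv_cancel₀ (by positivity), one_mul]
    congr 1
    ext θ
    rw [circleMap_zero]
    congr 2
    push_cast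
    ring
  have hcount : {θ : ℝ | a + Complex.exp (θ * I) * 1 = 0}.Countable := by
    rcases Set.eq_empty_or_nonempty {θ : ℝ | a + Complex.exp (θ * I) * 1 = 0} with h | ⟨θ0, h0⟩
    · rw [h]; exact Set.countable_empty
    · refine (Set.countable_range (fun n : ℤ => θ0 + n * (2 * π))).mono ?_
      intro θ hθ
      have h1 : Complex.exp (θ * I) = Complex.exp (θ0 * I) := by
        have e1 : a + Complex.exp (θ * I) * 1 = 0 := hθ
        have e2 : a + Complex.exp (θ0 * I) * 1 = 0 := h0
        have e3 := e1.trans e2.symm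
        simpa using e3
      obtain ⟨n, hn⟩ := Complex.exp_eq_exp_iff_exists_int.mp h1
      refine ⟨n, ?_⟩
      have h2 : (θ : ℂ) * I = ((θ0 + n * (2 * π) : ℝ) : ℂ) * I := by
        rw [hn]; push_cast; ring
      have h3 := mul_right_cancel₀ Complex.I_ne_zero h2
      exact (Complex.ofReal_injective h3).symm
  have hae : ∀ᵐ θ : ℝ ∂volume, θ ∈ Set.uIoc 0 (2 * π) →
      Real.log ‖A + Complex.exp (θ * I) * B‖ =
        Real.log ‖B‖ + Real.log ‖a + Complex.exp (θ * I) * 1‖ := by
    filter_upwards [hcount.ae_notMem volume] with θ hθ _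
    have h1 : A + Complex.exp (θ * I) * B = B * (a + Complex.exp (θ * I) * 1) := by
      rw [ha]; field_simp
    have h2 : ‖a + Complex.exp (θ * I) * 1‖ ≠ 0 := norm_ne_zero_iff.mpr hθ
    rw [h1, norm_mul, Real.log_mul hBn.ne' h2]
  rw [intervalIntegral.integral_congr_ae hae, intervalIntegral.integral_add (by simp) (hintg a 1),
    intervalIntegral.integral_const, hav2, smul_eq_mul]
  have hlog : Real.log ‖B‖ + Real.posLog ‖a‖ = Real.log (max ‖A‖ ‖B‖) := by
    rw [Real.posLog_apply, ha, norm_div]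
    rcases le_or_gt ‖B‖ ‖A‖ with h | h
    · have hA : 0 < ‖A‖ := hBn.trans_le h
      rw [max_eq_left h, Real.log_div hA.ne' hBn.ne', max_eq_right]
      · ring
      · have := Real.log_le_log hBn h
        linarith
    · rw [max_eq_right h.le, max_eq_left, add_zero]
      apply Real.log_nonpos (by positivity)
      rw [div_le_one hBn]
      exact h.le
  rw [← hlog]
  ring

/-- E2c. A Fubini inequality. PROOF. `X`, `Y` finite measure spaces; `f ≤ K` everywhere, every `f x ·` is integrable, and `m x = ∫ f x y dν(y)` has an integrable minorant `g`. Then `f` is integrable on the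
product: `‖f‖ ≤ 2|K| - f + ...` (`|f| ≤ |K| + (|K| - f)`), so `∫ ‖f x ·‖ dν ≤ C - m x ≤ C - g x` (`integrable_prod_iff`), and Fubini (`integral_integral_swap`). -/
theorem fubini_minor {X Y : Type} [MeasurableSpace X] [MeasurableSpace Y] {μ : Measure X} {ν : Measure Y}
    [IsFiniteMeasure μ] [IsFiniteMeasure ν] {f : X → Y → ℝ} {K : ℝ} {g : X → ℝ}
    (hm : Measurable (Function.uncurry f)) (hK : ∀ x y, f x y ≤ K) (hi : ∀ x, Integrable (f x) ν)
    (hg : Integrable g μ) (hge : ∀ x, g x ≤ ∫ y, f x y ∂ν) :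
    Integrable (Function.uncurry f) (μ.prod ν) ∧ Integrable (fun y => ∫ x, f x y ∂μ) ν ∧
      Integrable (fun x => ∫ y, f x y ∂ν) μ ∧
      ∫ x, ∫ y, f x y ∂ν ∂μ = ∫ y, ∫ x, f x y ∂μ ∂ν := by
  have hmae : AEStronglyMeasurable (Function.uncurry f) (μ.prod ν) := hm.aestronglyMeasurable
  have hF : Integrable (Function.uncurry f) (μ.prod ν) := by
    rw [integrable_prod_iff hmae]
    refine ⟨Filter.Eventually.of_forall fun x => hi x, ?_⟩
    have hdom : Integrable (fun x => 2 * |K| * ν.real Set.univ - g x) μ := (integrable_const _).sub hg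
    refine hdom.mono' hmae.norm.integral_prod_right' ?_
    refine Filter.Eventually.of_forall fun x => ?_
    have h0 : 0 ≤ ∫ y, ‖Function.uncurry f (x, y)‖ ∂ν := integral_nonneg fun y => norm_nonneg _
    rw [Real.norm_eq_abs, abs_of_nonneg h0]
    have h1 : ∫ y, ‖Function.uncurry f (x, y)‖ ∂ν ≤ ∫ y, (2 * |K| - f x y) ∂ν := by
      apply integral_mono (hi x).norm ((integrable_const _).sub (hi x))
      intro y
      change |f x y| ≤ 2 * |K| - f x y
      have := hK x y
      have h3 := le_abs_self K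
      have h4 := abs_nonneg K
      rcases abs_cases (f x y) with ⟨h, _⟩ | ⟨h, _⟩ <;> rw [h] <;> linarith
    rw [integral_sub (integrable_const _) (hi x), integral_const, smul_eq_mul] at h1
    have h2 := hge x
    nlinarith
  exact ⟨hF, hF.integral_prod_right, hF.integral_prod_left, integral_integral_swap hF⟩

end Pool.Agent.MP_c11b14_lc.OP
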