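import Pool.Agent.Lib.MP_c11b14_lc.OP.E1
import Pool.Agent.Lib.MP_c11b14_lc.OP.E2
import Pool.Agent.Lib.MP_c11b14_lc.OP.B0

set_option autoImplicit false

/-! Task E3: zeros in a short interval, in the mean over `λ`. -/

namespace Pool.Agent.MP_c11b14_lc.OP

open Polynomial Complex MeasureTheory Real
open scoped ENNReal

private theorem diff_ev3 (P : ℝ[X]) : Differentiable ℂ (ev P) := by
  unfold ev
  exact (P.map (algebraMap ℝ ℂ)).differentiable.comp Complex.differentiable_exp

private theorem cont_ev3 (P : ℝ[X]) : Continuous (ev P) := (diff_ev3 P).continuous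

private theorem ci_ev3 (P : ℝ[X]) (c R : ℝ) : CircleIntegrable (fun z => Real.log ‖ev P z‖) c R := by
  refine MeromorphicOn.circleIntegrable_log_norm (f := ev P) fun z _ => ?_
  exact ((diff_ev3 P).analyticAt z).meromorphicAt

private theorem exists_ne3 {P : ℝ[X]} (hP : P ≠ 0) : ∃ z : ℂ, ev P z ≠ 0 := by
  by_contra hcon
  push Not at hcon
  apply hP
  refine Polynomial.eq_zero_of_infinite_isRoot P (Set.Infinite.mono ?_ (Set.Ioi_infinite (0 : ℝ)))
  intro x hx
  have h1 := hcon ((Real.log x : ℝ) : ℂ)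
  rw [ev_real, Real.exp_log hx] at h1
  exact_mod_cast h1

private theorem codisc3 {P : ℝ[X]} (hP : P ≠ 0) (c R : ℝ) :
    ∀ᶠ z in Filter.codiscreteWithin (Metric.sphere (c : ℂ) |R|), ev P z ≠ 0 := by
  obtain ⟨w, hw⟩ := exists_ne3 hP
  have h1 : (ev P) ⁻¹' {0}ᶜ ∈ Filter.codiscrete ℂ :=
    AnalyticOnNhd.preimage_zero_mem_codiscrete (fun z _ => (diff_ev3 P).analyticAt z) hw
  have h2 := Filter.codiscreteWithin_mono (Set.subset_univ (Metric.sphere (c : ℂ) |R|)) h1
  filter_upwards [h2] with z hz using hz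

private theorem abs_log_max_le (a b : ℝ) : |Real.log (max a b)| ≤ |Real.log a| + |Real.log b| := by
  rcases max_choice a b with h | h <;> rw [h]
  · linarith [abs_nonneg (Real.log b)]
  · linarith [abs_nonneg (Real.log a)]

private theorem gp_ne3 {κ : Type} [Fintype κ] {p : κ → ℝ[X]} (σ : κ → Bool) (hp : ∀ k, p k ≠ 0) (b : Bool) :
    gp p σ b ≠ 0 := by
  unfold gp
  exact Finset.prod_ne_zero_iff.2 fun k _ => hp k

private theorem meas_Ph3 {κ : Type} [Fintype κ] (p : κ → ℝ[X]) (σ : κ → Bool) : Measurable (Ph p σ) := by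
  unfold Ph
  exact Real.measurable_log.comp ((cont_ev3 _).norm.max (cont_ev3 _).norm).measurable

/-- E3a. PROOF. `G₁, G₂ ≠ 0`; `log ‖G_i(e^z)‖` is circle integrable (`MeromorphicOn.circleIntegrable_log_norm` or similar); off finitely many points of the circle `Φ = max (log ‖G₁‖) (log ‖G₂‖)`
(`Integrable.sup`). -/
theorem circleIntegrable_Ph {κ : Type} [Fintype κ] {p : κ → ℝ[X]} (σ : κ → Bool) (hp : ∀ k, p k ≠ 0) (c R : ℝ) :
    CircleIntegrable (Ph p σ) c R := by
  have h1 := ci_ev3 (gp p σ true) c R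
  have h2 := ci_ev3 (gp p σ false) c R
  have h3 : IntervalIntegrable (fun t => |Real.log ‖ev (gp p σ true) (circleMap c R t)‖| +
      |Real.log ‖ev (gp p σ false) (circleMap c R t)‖|) volume 0 (2 * π) :=
    IntervalIntegrable.add h1.abs h2.abs
  refine h3.mono_fun' ?_ (Filter.Eventually.of_forall fun t => ?_)
  · exact ((meas_Ph3 p σ).comp (continuous_circleMap (c : ℂ) R).measurable).aestronglyMeasurable
  · exact abs_log_max_le _ _

/-- The comparison of one circle. -/
private theorem circ_le3 {κ : Type} [Fintype κ] {p : κ → ℝ[X]} (σ : κ → Bool) (hp : ∀ k, p k ≠ 0) (c : ℝ) {R : ℝ}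
    (hR : 0 < R) {lm : ℝ} (h1 : 1 ≤ lm) (h2 : lm ≤ 2) (hP : pl p σ lm ≠ 0) :
    circleAverage (fun z => Real.log ‖ev (pl p σ lm) z‖) c R ≤ circleAverage (Ph p σ) c R + Real.log 3 := by
  classical
  set F : ℂ → ℝ := fun z => if ev (pl p σ lm) z = 0 then Ph p σ z + Real.log 3 else
    Real.log ‖ev (pl p σ lm) z‖ with hF
  have hco : (fun z => Real.log ‖ev (pl p σ lm) z‖) =ᶠ[Filter.codiscreteWithin (Metric.sphere (c : ℂ) |R|)] F := by
    filter_upwards [codisc3 hP c R] with z hz
    simp only [hF]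
    rw [if_neg hz]
  have hi : CircleIntegrable F c R := CircleIntegrable.congr_codiscreteWithin hco (ci_ev3 _ c R)
  have hPi : CircleIntegrable (Ph p σ) c R := circleIntegrable_Ph σ hp c R
  have h3 : CircleIntegrable (fun z => Ph p σ z + Real.log 3) c R :=
    hPi.add (circleIntegrable_const (Real.log 3) (c : ℂ) R)
  rw [circleAverage_congr_codiscreteWithin hco hR.ne']
  have h4 : circleAverage F c R ≤ circleAverage (fun z => Ph p σ z + Real.log 3) c R := by
    refine circleAverage_mono hi h3 fun z _ => ?_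
    simp only [hF]
    split_ifs with hz
    · exact le_refl _
    · have h5 : ev (pl p σ lm) z = ev (gp p σ true) z + (lm : ℂ) * ev (gp p σ false) z := by
        simp [ev, pl]
      have h6 : ‖ev (pl p σ lm) z‖ ≤ 3 * max ‖ev (gp p σ true) z‖ ‖ev (gp p σ false) z‖ := by
        rw [h5]
        refine (norm_add_le _ _).trans ?_
        rw [norm_mul, Complex.norm_real, Real.norm_of_nonneg (by linarith)]
        have h7 := le_max_left ‖ev (gp p σ true) z‖ ‖ev (gp p σ false) z‖
        have h8 := le_max_right ‖ev (gp p σ true) z‖ ‖ev (gp p σ false) z‖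
        have h9 : lm * ‖ev (gp p σ false) z‖ ≤ 2 * ‖ev (gp p σ false) z‖ :=
          mul_le_mul_of_nonneg_right h2 (norm_nonneg _)
        linarith
      have h10 : 0 < ‖ev (pl p σ lm) z‖ := norm_pos_iff.2 hz
      have h11 : 0 < max ‖ev (gp p σ true) z‖ ‖ev (gp p σ false) z‖ := by linarith
      calc Real.log ‖ev (pl p σ lm) z‖ ≤ Real.log (3 * max ‖ev (gp p σ true) z‖ ‖ev (gp p σ false) z‖) :=
          Real.log_le_log h10 h6
        _ = Ph p σ z + Real.log 3 := by
          rw [Real.log_mul (by norm_num) h11.ne', Ph, add_comm]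
  refine h4.trans (le_of_eq ?_)
  rw [circleAverage_fun_add hPi (circleIntegrable_const (Real.log 3) (c : ℂ) R), circleAverage_const]

/-- E3b. PROOF. Let `h λ = circleAverage (log ‖(G₁ + λ G₂)(e^z)‖) c ℓ`. `h` is integrable on `[1, 2]` and `∫_1^2 h ≥ circleAverage Φ c ℓ - 4`: `fubini_minor` for `f θ λ = log ‖A θ + λ B θ‖`,
`A θ = ev G₁ (circleMap c ℓ θ)` etc., `g θ = Φ(circleMap c ℓ θ) - 4` (`int_log`, E3a). For every `λ ∈ [1,2]` but at most one `P_λ ≠ 0`, and then `log 2 · cz ≤ circleAverage Φ c (2ℓ) + log 3 - h λ`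
(`card_zeros_le`, `count_le_of_finset`, `‖G₁ + λ G₂‖ ≤ 3 max`). `H λ = ofReal ((circleAverage Φ c (2ℓ) + log 3 - h λ)/log 2)` (replace `h` by a measurable version), its integral is the `ofReal` of the
integral, as the function is `≥ 0` for almost all `λ ∈ [1,2]`; `log 3 + 4 ≤ 6`. -/
theorem bottom_maj {κ : Type} [Fintype κ] {p : κ → ℝ[X]} (σ : κ → Bool) (hp : ∀ k, p k ≠ 0) {c ℓ : ℝ}
    (hℓ : 0 < ℓ) (h2 : 2 * ℓ ≤ 1) :
    Maj (fun lm => cz p σ lm (Set.Icc (c - ℓ) (c + ℓ)))
      (ENNReal.ofReal ((circleAverage (Ph p σ) c (2 * ℓ) - circleAverage (Ph p σ) c ℓ + 6) / Real.log 2)) := by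
  have hpi : (0 : ℝ) ≤ 2 * π := by positivity
  have hpi' : (2 * π : ℝ) ≠ 0 := by positivity
  have hlog2 : 0 < Real.log 2 := Real.log_pos (by norm_num)
  have hlog3 : Real.log 3 ≤ 2 := by
    have := Real.log_le_sub_one_of_pos (show (0 : ℝ) < 3 by norm_num)
    linarith
  set μ : Measure ℝ := volume.restrict (Set.Ioc 0 (2 * π)) with hμ
  have : IsFiniteMeasure μ := by rw [hμ]; infer_instance
  set ν : Measure ℝ := volume.restrict (Set.Ioc 1 2) with hν
  have : IsFiniteMeasure ν := by rw [hν]; infer_instance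
  set A : ℝ → ℂ := fun t => ev (gp p σ true) (circleMap c ℓ t) with hA
  set B : ℝ → ℂ := fun t => ev (gp p σ false) (circleMap c ℓ t) with hB
  have hcA : Continuous A := (cont_ev3 _).comp (continuous_circleMap _ _)
  have hcB : Continuous B := (cont_ev3 _).comp (continuous_circleMap _ _)
  set cl : ℝ → ℝ := fun y => max 1 (min y 2) with hcl
  have hclc : Continuous cl := by fun_prop
  have hcl1 : ∀ y, 1 ≤ cl y := fun y => le_max_left _ _
  have hcl2 : ∀ y, cl y ≤ 2 := fun y => max_le (by norm_num) (min_le_right _ _)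
  have hcl3 : ∀ y ∈ Set.Ioc (1 : ℝ) 2, cl y = y := by
    intro y hy
    simp only [hcl]
    rw [min_eq_left hy.2, max_eq_right hy.1.le]
  set f : ℝ → ℝ → ℝ := fun t y => Real.log ‖A t + (cl y : ℂ) * B t‖ with hf
  have hm : Measurable (Function.uncurry f) := by
    have h1 : Continuous (fun q : ℝ × ℝ => ‖A q.1 + (cl q.2 : ℂ) * B q.1‖) := by
      fun_prop
    exact Real.measurable_log.comp h1.measurable
  obtain ⟨KA, hKA⟩ := (isCompact_closedBall (c : ℂ) |ℓ|).exists_bound_of_continuousOn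
    (cont_ev3 (gp p σ true)).continuousOn
  obtain ⟨KB, hKB⟩ := (isCompact_closedBall (c : ℂ) |ℓ|).exists_bound_of_continuousOn
    (cont_ev3 (gp p σ false)).continuousOn
  have hmem : ∀ t, circleMap c ℓ t ∈ Metric.closedBall (c : ℂ) |ℓ| := fun t =>
    Metric.sphere_subset_closedBall (circleMap_mem_sphere' (c : ℂ) ℓ t)
  have hK : ∀ t y, f t y ≤ KA + 2 * KB := by
    intro t y
    refine (Real.log_le_self (norm_nonneg _)).trans ((norm_add_le _ _).trans ?_)
    rw [norm_mul, Complex.norm_real, Real.norm_of_nonneg (by linarith [hcl1 y])]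
    have h1 : cl y * ‖B t‖ ≤ 2 * ‖B t‖ := mul_le_mul_of_nonneg_right (hcl2 y) (norm_nonneg _)
    have h3 := hKA _ (hmem t)
    have h4 := hKB _ (hmem t)
    simp only [hA, hB] at h1 ⊢
    linarith
  have hfeq : ∀ t, ∀ y ∈ Set.Ioc (1 : ℝ) 2, f t y = Real.log ‖A t + (y : ℂ) * B t‖ := by
    intro t y hy
    simp only [hf]
    rw [hcl3 y hy]
  have hi : ∀ t, Integrable (f t) ν := by
    intro t
    have h1 := (int_log (A t) (B t)).1
    rw [intervalIntegrable_iff_integrableOn_Ioc_of_le (by norm_num)] at h1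
    refine h1.congr ?_
    filter_upwards [ae_restrict_mem measurableSet_Ioc] with y hy
    exact (hfeq t y hy).symm
  have hgi : Integrable (fun t => Ph p σ (circleMap c ℓ t) - 4) μ := by
    have h1 : IntervalIntegrable (fun t => Ph p σ (circleMap c ℓ t)) volume 0 (2 * π) :=
      circleIntegrable_Ph σ hp c ℓ
    rw [intervalIntegrable_iff_integrableOn_Ioc_of_le hpi] at h1
    exact h1.sub (integrable_const _)
  have hge : ∀ t, Ph p σ (circleMap c ℓ t) - 4 ≤ ∫ y, f t y ∂ν := by
    intro t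
    have h1 := (int_log (A t) (B t)).2
    rw [intervalIntegral.integral_of_le (by norm_num)] at h1
    refine h1.trans (le_of_eq ?_)
    refine integral_congr_ae ?_
    filter_upwards [ae_restrict_mem measurableSet_Ioc] with y hy
    exact (hfeq t y hy).symm
  obtain ⟨-, g2, g3, g4⟩ := fubini_minor (μ := μ) (ν := ν) hm hK hi hgi hge
  -- the function `h`
  set h : ℝ → ℝ := fun y => ∫ t, f t y ∂μ with hh
  have hheq : ∀ y ∈ Set.Ioc (1 : ℝ) 2,
      (2 * π)⁻¹ * h y = circleAverage (fun z => Real.log ‖ev (pl p σ y) z‖) c ℓ := by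
    intro y hy
    rw [circleAverage_def, smul_eq_mul, intervalIntegral.integral_of_le hpi]
    congr 1
    refine integral_congr_ae (Filter.Eventually.of_forall fun t => ?_)
    simp only [hf, hA, hB]
    rw [hcl3 y hy]
    simp [ev, pl]
  have hint : 2 * π * (circleAverage (Ph p σ) c ℓ - 4) ≤ ∫ y, h y ∂ν := by
    rw [hh]
    rw [← g4]
    refine le_trans (le_of_eq ?_) (integral_mono hgi g3 hge)
    have h1 : IntervalIntegrable (fun t => Ph p σ (circleMap c ℓ t)) volume 0 (2 * π) :=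
      circleIntegrable_Ph σ hp c ℓ
    rw [intervalIntegrable_iff_integrableOn_Ioc_of_le hpi] at h1
    rw [integral_sub h1 (integrable_const _), circleAverage_def, smul_eq_mul,
      intervalIntegral.integral_of_le hpi, mul_sub, ← mul_assoc, mul_inv_cancel₀ hpi', one_mul]
    have h4 : ∫ _ : ℝ, (4 : ℝ) ∂μ = 2 * π * 4 := by
      rw [integral_const, hμ, measureReal_restrict_apply_univ, Real.volume_real_Ioc_of_le hpi, smul_eq_mul,
        sub_zero]
    rw [h4]
  set CA := circleAverage (Ph p σ) c (2 * ℓ) with hCA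
  set X : ℝ → ℝ := fun y => (CA + Real.log 3 - (2 * π)⁻¹ * h y) / Real.log 2 with hX
  have hXi : Integrable X ν := by
    refine Integrable.div_const ?_ _
    exact (integrable_const _).sub (g2.const_mul _)
  -- the exceptional parameter
  have hexc : ∀ᵐ y, pl p σ y ≠ 0 := by
    have hsub : {y | pl p σ y = 0}.Subsingleton := by
      intro a ha b hb
      by_contra hab
      have h1 : C (a - b) * gp p σ false = 0 := by
        have h3 : gp p σ true + C a * gp p σ false = 0 := ha
        have h4 : gp p σ true + C b * gp p σ false = 0 := hb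
        rw [C_sub]
        linear_combination h3 - h4
      rcases mul_eq_zero.1 h1 with h3 | h3
      · rw [C_eq_zero, sub_eq_zero] at h3
        exact hab h3
      · exact gp_ne3 σ hp false h3
    exact measure_eq_zero_iff_ae_notMem.1 (hsub.measure_zero volume)
  -- the bound for one parameter
  have hone : ∀ y ∈ Set.Ioc (1 : ℝ) 2, pl p σ y ≠ 0 → ∀ s : Finset ℝ,
      (∀ u ∈ s, u ∈ zs p σ y (Set.Icc (c - ℓ) (c + ℓ))) → (s.card : ℝ) ≤ X y := by
    intro y hy hP s hs
    have h1 := card_zeros_le hP hℓ h2 (s := s) (fun u hu => ⟨(hs u hu).1, (hs u hu).2⟩)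
    have h3 := circ_le3 σ hp c (R := 2 * ℓ) (by linarith) hy.1.le hy.2 hP
    rw [← hheq y hy] at h1
    simp only [hX]
    rw [le_div_iff₀ hlog2]
    linarith
  have hXm := hXi.aestronglyMeasurable
  have hmk : X =ᵐ[ν] hXm.mk X := hXm.ae_eq_mk
  have hrs : volume.restrict (Set.Icc (1 : ℝ) 2) = ν := (Measure.restrict_congr_set Ioc_ae_eq_Icc).symm
  have hνm : ∀ᵐ y ∂ν, y ∈ Set.Ioc (1 : ℝ) 2 := ae_restrict_mem measurableSet_Ioc
  have hνe : ∀ᵐ y ∂ν, pl p σ y ≠ 0 := ae_restrict_of_ae hexc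
  refine ⟨fun y => ENNReal.ofReal (hXm.mk X y), hXm.stronglyMeasurable_mk.measurable.ennreal_ofReal, ?_, ?_⟩
  · rw [hrs]
    filter_upwards [hmk, hνm, hνe] with y h1 h3 h4
    rw [← h1]
    refine count_le_of_finset fun s hs => ?_
    rw [← ENNReal.ofReal_natCast]
    exact ENNReal.ofReal_le_ofReal (hone y h3 h4 s hs)
  · rw [hrs]
    have h1 : ∫⁻ y, ENNReal.ofReal (hXm.mk X y) ∂ν = ∫⁻ y, ENNReal.ofReal (X y) ∂ν := by
      refine lintegral_congr_ae ?_
      filter_upwards [hmk] with y hy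
      rw [hy]
    have h3 : 0 ≤ᵐ[ν] X := by
      filter_upwards [hνm, hνe] with y h4 h5
      have := hone y h4 h5 ∅ (by simp)
      simpa using this
    rw [h1, ← ofReal_integral_eq_lintegral_ofReal hXi h3]
    refine ENNReal.ofReal_le_ofReal ?_
    simp only [hX]
    rw [integral_div]
    refine div_le_div_of_nonneg_right ?_ hlog2.le
    rw [integral_sub (integrable_const _) (g2.const_mul _), integral_const_mul]
    have h4 : ∫ _ : ℝ, (CA + Real.log 3) ∂ν = CA + Real.log 3 := by
      simp [hν]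
      norm_num
    have h5 : (2 * π)⁻¹ * (2 * π * (circleAverage (Ph p σ) c ℓ - 4)) ≤ (2 * π)⁻¹ * ∫ y, h y ∂ν :=
      mul_le_mul_of_nonneg_left hint (by positivity)
    rw [← mul_assoc, inv_mul_cancel₀ hpi', one_mul] at h5
    rw [h4]
    linarith

end Pool.Agent.MP_c11b14_lc.OP
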