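import Pool.Agent.Lib.MP_c11b14_lc.OP.E3

set_option autoImplicit false

/-! Task E4: the sum over the short intervals is bounded by the roots of `G₁ + e^{iθ} G₂` in a thin sector, in the mean over `θ`. -/

namespace Pool.Agent.MP_c11b14_lc.OP

open Polynomial Complex MeasureTheory Real
open scoped ENNReal

private theorem cont_ev (p : ℝ[X]) : Continuous (ev p) := by
  unfold ev
  exact (p.map (algebraMap ℝ ℂ)).continuous.comp Complex.continuous_exp

private theorem eval_rt {κ : Type} [Fintype κ] (p : κ → ℝ[X]) (σ : κ → Bool) (θ : ℝ) (z : ℂ) :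
    (rt p σ θ).eval (Complex.exp z) = ev (gp p σ true) z + Complex.exp (θ * I) * ev (gp p σ false) z := by
  simp [rt, ev]

/-- The mean over `θ` for one circle. -/
private theorem one_circle {κ : Type} [Fintype κ] {p : κ → ℝ[X]} (σ : κ → Bool) (hp : ∀ k, p k ≠ 0) (c R : ℝ) :
    IntervalIntegrable (fun θ : ℝ => circleAverage (fun z => Real.log ‖(rt p σ θ).eval (Complex.exp z)‖) c R)
      volume 0 (2 * π) ∧
    circleAverage (Ph p σ) c R = (2 * π)⁻¹ * ∫ θ in (0 : ℝ)..(2 * π),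
      circleAverage (fun z => Real.log ‖(rt p σ θ).eval (Complex.exp z)‖) c R := by
  have hpi : (0 : ℝ) ≤ 2 * π := by positivity
  have hpi' : (2 * π : ℝ) ≠ 0 := by positivity
  set μ : Measure ℝ := volume.restrict (Set.Ioc 0 (2 * π)) with hμ
  have : IsFiniteMeasure μ := by
    rw [hμ]; infer_instance
  set A : ℝ → ℂ := fun t => ev (gp p σ true) (circleMap c R t) with hA
  set B : ℝ → ℂ := fun t => ev (gp p σ false) (circleMap c R t) with hB
  have hcA : Continuous A := (cont_ev _).comp (continuous_circleMap _ _)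
  have hcB : Continuous B := (cont_ev _).comp (continuous_circleMap _ _)
  set f : ℝ → ℝ → ℝ := fun t θ => Real.log ‖A t + Complex.exp (θ * I) * B t‖ with hf
  have hm : Measurable (Function.uncurry f) := by
    have h1 : Continuous (fun q : ℝ × ℝ => ‖A q.1 + Complex.exp (q.2 * I) * B q.1‖) := by
      fun_prop
    exact Real.measurable_log.comp h1.measurable
  obtain ⟨KA, hKA⟩ := (isCompact_closedBall (c : ℂ) |R|).exists_bound_of_continuousOn
    (cont_ev (gp p σ true)).continuousOn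
  obtain ⟨KB, hKB⟩ := (isCompact_closedBall (c : ℂ) |R|).exists_bound_of_continuousOn
    (cont_ev (gp p σ false)).continuousOn
  have hmem : ∀ t, circleMap c R t ∈ Metric.closedBall (c : ℂ) |R| := by
    intro t
    have := circleMap_mem_sphere' (c : ℂ) R t
    exact Metric.sphere_subset_closedBall this
  have hK : ∀ t θ, f t θ ≤ KA + KB := by
    intro t θ
    refine (Real.log_le_self (norm_nonneg _)).trans ((norm_add_le _ _).trans ?_)
    rw [norm_mul, Complex.norm_exp_ofReal_mul_I, one_mul]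
    exact add_le_add (hKA _ (hmem t)) (hKB _ (hmem t))
  have hi : ∀ t, Integrable (f t) μ := by
    intro t
    have := (mean_theta (A t) (B t)).1
    rwa [intervalIntegrable_iff_integrableOn_Ioc_of_le hpi] at this
  have hgi : Integrable (fun t => 2 * π * Ph p σ (circleMap c R t)) μ := by
    have h1 : IntervalIntegrable (fun t => Ph p σ (circleMap c R t)) volume 0 (2 * π) :=
      circleIntegrable_Ph σ hp c R
    rw [intervalIntegrable_iff_integrableOn_Ioc_of_le hpi] at h1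
    exact h1.const_mul _
  have hge : ∀ t, ∫ θ, f t θ ∂μ = 2 * π * Ph p σ (circleMap c R t) := by
    intro t
    have := (mean_theta (A t) (B t)).2
    rw [intervalIntegral.integral_of_le hpi] at this
    exact this
  obtain ⟨-, h2, -, h4⟩ := fubini_minor (μ := μ) (ν := μ) hm hK hi hgi (fun t => (hge t).ge)
  have hin : ∀ θ : ℝ, ∫ t, f t θ ∂μ =
      2 * π * circleAverage (fun z => Real.log ‖(rt p σ θ).eval (Complex.exp z)‖) c R := by
    intro θ
    rw [circleAverage_def, smul_eq_mul, ← mul_assoc, mul_inv_cancel₀ hpi', one_mul,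
      intervalIntegral.integral_of_le hpi]
    refine integral_congr_ae (Filter.Eventually.of_forall fun t => ?_)
    simp only [hf, hA, hB, eval_rt]
  simp only [hin] at h2 h4
  have h5 : IntervalIntegrable
      (fun θ : ℝ => circleAverage (fun z => Real.log ‖(rt p σ θ).eval (Complex.exp z)‖) c R)
      volume 0 (2 * π) := by
    rw [intervalIntegrable_iff_integrableOn_Ioc_of_le hpi]
    have := h2.const_mul (2 * π)⁻¹
    refine this.congr (Filter.Eventually.of_forall fun θ => ?_)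
    show (2 * π)⁻¹ * (2 * π * _) = _
    rw [← mul_assoc, inv_mul_cancel₀ hpi', one_mul]
  refine ⟨h5, ?_⟩
  simp only [hge] at h4
  rw [integral_const_mul, integral_const_mul] at h4
  have h6 := mul_left_cancel₀ hpi' h4
  rw [circleAverage_def, smul_eq_mul, intervalIntegral.integral_of_le hpi,
    intervalIntegral.integral_of_le hpi]
  rw [h6]

/-- E4a. PROOF. `Φ(z) = (1/2π) ∫_0^{2π} log ‖(R_θ)(e^z)‖ dθ` (`mean_theta`), Fubini (`fubini_minor` with `g = 2π Φ(circleMap ..)`, E3a), and `avg_poly` for every `R_θ = rt p σ θ`. -/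
theorem diff_eq {κ : Type} [Fintype κ] {p : κ → ℝ[X]} (σ : κ → Bool) (hp : ∀ k, p k ≠ 0) {c ℓ : ℝ}
    (hℓ : 0 < ℓ) (h2 : 2 * ℓ ≤ 1) :
    IntervalIntegrable (fun θ => ((rt p σ θ).roots.map (dl c ℓ (2 * ℓ))).sum) volume 0 (2 * π) ∧
    circleAverage (Ph p σ) c (2 * ℓ) - circleAverage (Ph p σ) c ℓ =
      (2 * π)⁻¹ * ∫ θ in (0 : ℝ)..(2 * π), ((rt p σ θ).roots.map (dl c ℓ (2 * ℓ))).sum := by
  obtain ⟨a1, a2⟩ := one_circle σ hp c (2 * ℓ)
  obtain ⟨b1, b2⟩ := one_circle σ hp c ℓ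
  have h : ∀ θ : ℝ, circleAverage (fun z => Real.log ‖(rt p σ θ).eval (Complex.exp z)‖) c (2 * ℓ) -
      circleAverage (fun z => Real.log ‖(rt p σ θ).eval (Complex.exp z)‖) c ℓ =
      ((rt p σ θ).roots.map (dl c ℓ (2 * ℓ))).sum := fun θ =>
    avg_poly (rt p σ θ) hℓ (by linarith) h2
  constructor
  · have := a1.sub b1
    simp only [h] at this
    exact this
  · rw [a2, b2, ← mul_sub, ← intervalIntegral.integral_sub a1 b1]
    simp only [h]

private theorem sum_nonneg_dl {c ℓ : ℝ} (hℓ : 0 < ℓ) (s : Multiset ℂ) : 0 ≤ (s.map (dl c ℓ (2 * ℓ))).sum := by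
  refine Multiset.sum_nonneg fun y hy => ?_
  obtain ⟨x, -, rfl⟩ := Multiset.mem_map.1 hy
  exact (dl_props hℓ x).1

/-- E4b. PROOF. E4a and `dl_props`. -/
theorem diff_nonneg {κ : Type} [Fintype κ] {p : κ → ℝ[X]} (σ : κ → Bool) (hp : ∀ k, p k ≠ 0) {c ℓ : ℝ}
    (hℓ : 0 < ℓ) (h2 : 2 * ℓ ≤ 1) :
    0 ≤ circleAverage (Ph p σ) c (2 * ℓ) - circleAverage (Ph p σ) c ℓ := by
  rw [(diff_eq σ hp hℓ h2).2]
  refine mul_nonneg (by positivity) ?_
  exact intervalIntegral.integral_nonneg (by positivity) fun θ _ => sum_nonneg_dl hℓ _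

/-- The sum over the centres of the contribution of one root. -/
private theorem one_root (M : ℕ) (B : Finset ℤ) (x : ℂ) :
    ∑ k ∈ B, dl (ctr M k) (1 / 2 ^ M) (2 * (1 / 2 ^ M)) x ≤
      open Classical in if x ≠ 0 ∧ |Complex.arg x| < 2 / 2 ^ M then 4 * Real.log 2 else 0 := by
  classical
  have hpos : (0 : ℝ) < 2 ^ M := by positivity
  have hℓ : (0 : ℝ) < 1 / 2 ^ M := by positivity
  have h2ℓ : (2 : ℝ) * (1 / 2 ^ M) = 2 / 2 ^ M := by ring
  by_cases hx : x = 0
  · simp [hx, dl]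
  by_cases ha : |Complex.arg x| < 2 / 2 ^ M
  · rw [if_pos ⟨hx, ha⟩]
    set a : ℝ := 2 ^ M * (Complex.log x).re - 1 / 2 with hadef
    have h1 : ∀ k ∈ B, k ∉ Finset.Icc (⌊a⌋ - 1) (⌈a⌉ + 1) →
        dl (ctr M k) (1 / 2 ^ M) (2 * (1 / 2 ^ M)) x = 0 := by
      intro k _ hk
      refine (dl_props hℓ x).2.2.2 ?_
      rw [h2ℓ]
      have h3 : (2 : ℝ) ≤ |(k : ℝ) - a| := by
        rw [Finset.mem_Icc, not_and_or, not_le, not_le] at hk
        rcases hk with hk | hk
        · have h4 : (k : ℝ) ≤ (⌊a⌋ : ℝ) - 2 := by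
            have : k ≤ ⌊a⌋ - 2 := by omega
            exact_mod_cast this
          have h5 := Int.floor_le a
          rw [abs_sub_comm]
          exact le_trans (by linarith) (le_abs_self _)
        · have h4 : (⌈a⌉ : ℝ) + 2 ≤ (k : ℝ) := by
            have : ⌈a⌉ + 2 ≤ k := by omega
            exact_mod_cast this
          have h5 := Int.le_ceil a
          exact le_trans (by linarith) (le_abs_self _)
      have h6 : ((ctr M k : ℂ) - Complex.log x).re = ((k : ℝ) - a) / 2 ^ M := by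
        rw [Complex.sub_re, Complex.ofReal_re, ctr, hadef]
        field_simp
        ring
      calc (2 : ℝ) / 2 ^ M ≤ |(k : ℝ) - a| / 2 ^ M := by gcongr
        _ = |((ctr M k : ℂ) - Complex.log x).re| := by rw [h6, abs_div, abs_of_pos hpos]
        _ ≤ ‖(ctr M k : ℂ) - Complex.log x‖ := Complex.abs_re_le_norm _
    have hcard : (Finset.Icc (⌊a⌋ - 1) (⌈a⌉ + 1)).card ≤ 4 := by
      rw [Int.card_Icc]
      have := Int.ceil_le_floor_add_one a
      omega
    calc ∑ k ∈ B, dl (ctr M k) (1 / 2 ^ M) (2 * (1 / 2 ^ M)) x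
        = ∑ k ∈ B.filter (fun k => k ∈ Finset.Icc (⌊a⌋ - 1) (⌈a⌉ + 1)),
            dl (ctr M k) (1 / 2 ^ M) (2 * (1 / 2 ^ M)) x := by
          rw [Finset.sum_filter]
          refine Finset.sum_congr rfl fun k hk => ?_
          split_ifs with h
          · rfl
          · exact h1 k hk h
      _ ≤ ∑ k ∈ B.filter (fun k => k ∈ Finset.Icc (⌊a⌋ - 1) (⌈a⌉ + 1)), Real.log 2 :=
          Finset.sum_le_sum fun k _ => (dl_props hℓ x).2.1
      _ = ((B.filter (fun k => k ∈ Finset.Icc (⌊a⌋ - 1) (⌈a⌉ + 1))).card : ℝ) * Real.log 2 := by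
          rw [Finset.sum_const, nsmul_eq_mul]
      _ ≤ 4 * Real.log 2 := by
          have h7 : (B.filter (fun k => k ∈ Finset.Icc (⌊a⌋ - 1) (⌈a⌉ + 1))).card ≤ 4 :=
            (Finset.card_le_card fun k hk => (Finset.mem_filter.1 hk).2).trans hcard
          have h8 : ((B.filter (fun k => k ∈ Finset.Icc (⌊a⌋ - 1) (⌈a⌉ + 1))).card : ℝ) ≤ 4 := by
            exact_mod_cast h7
          exact mul_le_mul_of_nonneg_right h8 (Real.log_nonneg (by norm_num))
  · rw [if_neg (fun h => ha h.2)]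
    refine le_of_eq (Finset.sum_eq_zero fun k _ => ?_)
    refine (dl_props hℓ x).2.2.2 ?_
    rw [h2ℓ]
    have h6 : ((ctr M k : ℂ) - Complex.log x).im = -Complex.arg x := by
      rw [Complex.sub_im, Complex.ofReal_im, Complex.log_im]
      ring
    calc (2 : ℝ) / 2 ^ M ≤ |Complex.arg x| := not_lt.1 ha
      _ = |((ctr M k : ℂ) - Complex.log x).im| := by rw [h6, abs_neg]
      _ ≤ ‖(ctr M k : ℂ) - Complex.log x‖ := Complex.abs_im_le_norm _

private theorem all_roots (M : ℕ) (B : Finset ℤ) (s : Multiset ℂ) :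
    ∑ k ∈ B, (s.map (dl (ctr M k) (1 / 2 ^ M) (2 * (1 / 2 ^ M)))).sum ≤
      4 * Real.log 2 * (open Classical in s.countP (fun x => x ≠ 0 ∧ |Complex.arg x| < 2 / 2 ^ M) : ℕ) := by
  classical
  induction s using Multiset.induction_on with
  | empty => simp
  | cons x s ih =>
    simp only [Multiset.map_cons, Multiset.sum_cons, Finset.sum_add_distrib]
    have h1 := one_root M B x
    rw [Multiset.countP_cons]
    push_cast
    by_cases hx : x ≠ 0 ∧ |Complex.arg x| < 2 / 2 ^ M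
    · rw [if_pos hx] at h1 ⊢
      rw [mul_add, mul_one]
      linarith
    · rw [if_neg hx] at h1 ⊢
      rw [add_zero]
      linarith

/-- E4c. PROOF. For a root `x` the sum over `k ∈ B` of `dl (ctr M k) ℓ (2ℓ) x` is `≤ 4 log 2` if `x ≠ 0`, `|arg x| < 2ℓ`, and `0` else (`|Im (c - Log x)| = |arg x|`, and at most `4` centres are at distance
`< 2ℓ` from `Re Log x`). So `∑_k (sum over the roots of dl) ≤ 4 log 2 · nsec (rt p σ θ) (2ℓ) ≤ 4 log 2 · N θ`; integrate with E4a: `4 log 2/(2π) ≤ 1`. -/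
theorem theta_sum {κ : Type} [Fintype κ] {p : κ → ℝ[X]} (σ : κ → Bool) (hp : ∀ k, p k ≠ 0) (M : ℕ) (hM : 1 ≤ M)
    (B : Finset ℤ) {N : ℝ → ℝ≥0∞} (hN : Measurable N)
    (h : ∀ θ, (nsec (rt p σ θ) (2 / 2 ^ M) : ℝ≥0∞) ≤ N θ) :
    ENNReal.ofReal (∑ k ∈ B, (circleAverage (Ph p σ) (ctr M k) (2 / 2 ^ M) -
      circleAverage (Ph p σ) (ctr M k) (1 / 2 ^ M))) ≤ ∫⁻ θ in Set.Icc 0 (2 * π), N θ := by
  have hpi : (0 : ℝ) ≤ 2 * π := by positivity
  have hℓ : (0 : ℝ) < 1 / 2 ^ M := by positivity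
  have h2ℓ : (2 : ℝ) / 2 ^ M = 2 * (1 / 2 ^ M) := by ring
  have h2 : (2 : ℝ) * (1 / 2 ^ M) ≤ 1 := by
    rw [← h2ℓ, div_le_one (by positivity)]
    calc (2 : ℝ) = 2 ^ 1 := by norm_num
      _ ≤ 2 ^ M := pow_le_pow_right₀ (by norm_num) hM
  set S : ℤ → ℝ → ℝ := fun k θ => ((rt p σ θ).roots.map (dl (ctr M k) (1 / 2 ^ M) (2 * (1 / 2 ^ M)))).sum with hS
  have hSi : ∀ k, Integrable (S k) (volume.restrict (Set.Ioc 0 (2 * π))) := by
    intro k
    have := (diff_eq σ hp (c := ctr M k) hℓ h2).1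
    rwa [intervalIntegrable_iff_integrableOn_Ioc_of_le hpi] at this
  have hsum : ∑ k ∈ B, (circleAverage (Ph p σ) (ctr M k) (2 / 2 ^ M) -
      circleAverage (Ph p σ) (ctr M k) (1 / 2 ^ M)) =
      ∫ θ in Set.Ioc 0 (2 * π), (2 * π)⁻¹ * ∑ k ∈ B, S k θ := by
    rw [integral_const_mul, integral_finsetSum _ (fun k _ => hSi k), Finset.mul_sum]
    refine Finset.sum_congr rfl fun k _ => ?_
    rw [h2ℓ, (diff_eq σ hp (c := ctr M k) hℓ h2).2, intervalIntegral.integral_of_le hpi]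
  rw [hsum, ofReal_integral_eq_lintegral_ofReal]
  · refine (lintegral_mono fun θ => ?_).trans (lintegral_mono_set Set.Ioc_subset_Icc_self)
    refine le_trans ?_ (h θ)
    have h3 := all_roots M B (rt p σ θ).roots
    have h4 : (2 * π)⁻¹ * ∑ k ∈ B, S k θ ≤ (nsec (rt p σ θ) (2 / 2 ^ M) : ℝ) := by
      have h5 : (0 : ℝ) ≤ (nsec (rt p σ θ) (2 / 2 ^ M) : ℝ) := Nat.cast_nonneg _
      have h6 : ∑ k ∈ B, S k θ ≤ 4 * Real.log 2 * (nsec (rt p σ θ) (2 / 2 ^ M) : ℝ) := h3
      have h7 : 4 * Real.log 2 ≤ 2 * π := by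
        have := Real.log_two_lt_d9
        have := Real.pi_gt_three
        linarith
      rw [inv_mul_le_iff₀ (by positivity)]
      exact h6.trans (mul_le_mul_of_nonneg_right h7 h5)
    calc ENNReal.ofReal ((2 * π)⁻¹ * ∑ k ∈ B, S k θ) ≤ ENNReal.ofReal (nsec (rt p σ θ) (2 / 2 ^ M) : ℝ) :=
        ENNReal.ofReal_le_ofReal h4
      _ = (nsec (rt p σ θ) (2 / 2 ^ M) : ℝ≥0∞) := ENNReal.ofReal_natCast _
  · exact (integrable_finsetSum _ (fun k _ => hSi k)).const_mul _
  · refine Filter.Eventually.of_forall fun θ => ?_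
    refine mul_nonneg (by positivity) (Finset.sum_nonneg fun k _ => sum_nonneg_dl hℓ _)

end Pool.Agent.MP_c11b14_lc.OP
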