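import Pool.Agent.Lib.MP_c11b14_lc.OP.C0

set_option autoImplicit false

/-! Task F1: the number of roots in a sector. -/

namespace Pool.Agent.MP_c11b14_lc.OP

open Polynomial Complex Real

/-- One root on the ray `φ`. -/
noncomputable def F1_T (x : ℂ) (φ t : ℝ) : ℝ :=
  open Classical in
  if 0 < (x * Complex.exp (-(φ : ℂ) * I)).re ∧ (x * Complex.exp (-(φ : ℂ) * I)).im = 0 then 0
    else Complex.arg (t - x * Complex.exp (-(φ : ℂ) * I))

theorem F1_polar (x : ℂ) (φ : ℝ) :
    x * Complex.exp (-(φ : ℂ) * I) = (‖x‖ : ℂ) * Complex.exp (((x.arg - φ : ℝ) : ℂ) * I) := by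
  conv_lhs => rw [← Complex.norm_mul_exp_arg_mul_I x]
  rw [mul_assoc, ← Complex.exp_add]
  congr 2
  push_cast
  ring

theorem F1_arg {r ψ : ℝ} (hr : 0 < r) (hψ : ψ ∈ Set.Ioc (-π) π) :
    Complex.arg ((r : ℂ) * Complex.exp ((ψ : ℂ) * I)) = ψ := by
  rw [Complex.exp_mul_I]
  exact Complex.arg_mul_cos_add_sin_mul_I hr hψ

theorem F1_re_im (x : ℂ) (φ : ℝ) : (x * Complex.exp (-(φ : ℂ) * I)).re = ‖x‖ * Real.cos (x.arg - φ) ∧
    (x * Complex.exp (-(φ : ℂ) * I)).im = ‖x‖ * Real.sin (x.arg - φ) := by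
  rw [F1_polar, Complex.re_ofReal_mul, Complex.im_ofReal_mul, Complex.exp_ofReal_mul_I_re,
    Complex.exp_ofReal_mul_I_im]
  exact ⟨rfl, rfl⟩

theorem F1_term {x : ℂ} (hx : x ≠ 0) {φ : ℝ} (h1 : -(π / 2) < φ) (h2 : φ < π / 2) :
    F1_T x φ 0 = if x.arg = φ then 0 else if x.arg < φ then x.arg - φ + π else x.arg - φ - π := by
  classical
  have hxn : 0 < ‖x‖ := norm_pos_iff.2 hx
  have ha1 := Complex.neg_pi_lt_arg x
  have ha2 := Complex.arg_le_pi x
  have hπ := Real.pi_pos
  obtain ⟨hre, him⟩ := F1_re_im x φ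
  unfold F1_T
  by_cases h0 : x.arg = φ
  · rw [if_pos h0, if_pos]
    rw [hre, him, h0]
    simp [hxn]
  · rw [if_neg h0, if_neg]
    · by_cases hlt : x.arg < φ
      · rw [if_pos hlt]
        have : ((0 : ℝ) : ℂ) - x * Complex.exp (-(φ : ℂ) * I) =
            (‖x‖ : ℂ) * Complex.exp (((x.arg - φ + π : ℝ) : ℂ) * I) := by
          rw [F1_polar]
          have : (((x.arg - φ + π : ℝ) : ℂ) * I) = ((x.arg - φ : ℝ) : ℂ) * I + π * I := by
            push_cast; ring
          rw [this, Complex.exp_add, Complex.exp_pi_mul_I]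
          push_cast
          ring
        rw [this]
        exact F1_arg hxn ⟨by linarith, by linarith⟩
      · rw [if_neg hlt]
        have hgt : φ < x.arg := lt_of_le_of_ne (not_lt.1 hlt) (Ne.symm h0)
        have : ((0 : ℝ) : ℂ) - x * Complex.exp (-(φ : ℂ) * I) =
            (‖x‖ : ℂ) * Complex.exp (((x.arg - φ - π : ℝ) : ℂ) * I) := by
          rw [F1_polar]
          have : (((x.arg - φ - π : ℝ) : ℂ) * I) = ((x.arg - φ : ℝ) : ℂ) * I - π * I := by
            push_cast; ring
          rw [this, Complex.exp_sub, Complex.exp_pi_mul_I]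
          push_cast
          ring
        rw [this]
        exact F1_arg hxn ⟨by linarith, by linarith⟩
    · rintro ⟨h3, h4⟩
      rw [hre] at h3
      rw [him] at h4
      have hs : Real.sin (x.arg - φ) = 0 := by
        rcases mul_eq_zero.1 h4 with h | h
        · exact absurd h hxn.ne'
        · exact h
      have hc : 0 < Real.cos (x.arg - φ) := by
        by_contra hc
        exact absurd h3 (not_lt.2 (mul_nonpos_of_nonneg_of_nonpos hxn.le (not_lt.1 hc)))
      have hx2 : x.arg - φ < 2 * π := by linarith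
      have hx1 : -(2 * π) < x.arg - φ := by linarith
      have hcos : Real.cos (x.arg - φ) = 1 := by
        have := Real.sin_sq_add_cos_sq (x.arg - φ)
        rw [hs] at this
        nlinarith
      have := (Real.cos_eq_one_iff_of_lt_of_lt hx1 hx2).1 hcos
      exact h0 (by linarith)

theorem F1_one (x : ℂ) {ω : ℝ} (h0 : 0 < ω) (h1 : ω < π / 2) :
    (open Classical in if (x ≠ 0 ∧ |Complex.arg x| < ω) then 2 * π else 0) ≤
      2 * ω + F1_T x ω 0 - F1_T x (-ω) 0 := by
  classical
  have hπ := Real.pi_pos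
  by_cases hx : x = 0
  · subst hx
    simp [F1_T]
    linarith
  · rw [F1_term hx (by linarith) h1, F1_term hx (by linarith) (by linarith)]
    by_cases ha : |Complex.arg x| < ω
    · rw [if_pos ⟨hx, ha⟩]
      obtain ⟨h3, h4⟩ := abs_lt.1 ha
      rw [if_neg (by linarith), if_pos h4, if_neg (by linarith), if_neg (by linarith)]
      linarith
    · rw [if_neg (fun h => ha h.2)]
      have h5 : Complex.arg x ≤ -ω ∨ ω ≤ Complex.arg x := by
        by_contra h6
        push Not at h6
        exact ha (abs_lt.2 h6)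
      rcases h5 with h5 | h5
      · rw [if_neg (by linarith), if_pos (by linarith)]
        by_cases h6 : Complex.arg x = -ω
        · rw [if_pos h6]; linarith
        · rw [if_neg h6, if_pos (lt_of_le_of_ne h5 h6)]; linarith
      · rw [if_neg (show ¬ Complex.arg x = -ω by intro h; linarith), if_neg (show ¬ Complex.arg x < -ω by
          intro h; linarith)]
        by_cases h6 : Complex.arg x = ω
        · rw [if_pos h6]; linarith
        · rw [if_neg h6, if_neg (not_lt.2 h5)]; linarith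

/-- F1. PROOF. Sum over the roots `x` (`card roots = natDegree`). With `α = arg x ∈ (-π, π]`, `y = x e^{-iω}`, `y' = x e^{iω}`: `x = 0`: `0 ≤ 2ω`. `α < -ω`: `arg(-y) = α - ω + π`,
`arg(-y') = α + ω + π`: `2ω + arg(-y) - arg(-y') = 0`. `|α| < ω`: `arg(-y) = α - ω + π`, `arg(-y') = α + ω - π`: the sum is `2π`. `α > ω`: `arg(-y) = α - ω - π`, `arg(-y') = α + ω - π`: `0`.
`α = ω`: `y > 0`, the value is `0` by definition: `2ω + 0 - (2ω - π) = π ≥ 0`; `α = -ω`: `y' > 0`: `2ω + (π - 2ω) - 0 = π ≥ 0`. -/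
theorem nsec_le (R : ℂ[X]) {ω : ℝ} (h0 : 0 < ω) (h1 : ω < π / 2) :
    2 * π * (nsec R ω) ≤ 2 * ω * R.natDegree + rayA R ω 0 - rayA R (-ω) 0 := by
  classical
  have key : ∀ s : Multiset ℂ, 2 * π * ((s.countP (fun x => x ≠ 0 ∧ |Complex.arg x| < ω) : ℕ) : ℝ) ≤
      2 * ω * (Multiset.card s : ℝ) + (s.map fun x => F1_T x ω 0).sum - (s.map fun x => F1_T x (-ω) 0).sum := by
    intro s
    induction s using Multiset.induction_on with
    | empty => simp
    | cons a s ih =>
      have h2 := F1_one a h0 h1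
      rw [Multiset.countP_cons, Multiset.map_cons, Multiset.map_cons, Multiset.sum_cons, Multiset.sum_cons,
        Multiset.card_cons]
      by_cases hc : (a ≠ 0 ∧ |Complex.arg a| < ω)
      · rw [if_pos hc] at h2 ⊢
        push_cast
        linarith
      · rw [if_neg hc] at h2 ⊢
        push_cast
        linarith
  have h2 := key R.roots
  have h3 : (Multiset.card R.roots : ℝ) ≤ R.natDegree := by exact_mod_cast R.card_roots'
  have h4 : nsec R ω = R.roots.countP (fun x => x ≠ 0 ∧ |Complex.arg x| < ω) := by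
    unfold nsec
    congr
  have h5 : rayA R ω 0 = (R.roots.map fun x => F1_T x ω 0).sum := rfl
  have h6 : rayA R (-ω) 0 = (R.roots.map fun x => F1_T x (-ω) 0).sum := rfl
  rw [h4, h5, h6]
  have h7 : 2 * ω * (Multiset.card R.roots : ℝ) ≤ 2 * ω * R.natDegree :=
    mul_le_mul_of_nonneg_left h3 (by linarith)
  linarith

end Pool.Agent.MP_c11b14_lc.OP
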