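import Pool.Agent.Lib.MP_c11b14_lc.OP.C0
import Pool.Agent.Lib.MP_c11b14_lc.SCMain

set_option autoImplicit false

/-! Task F2: the change of the argument along a ray. -/

namespace Pool.Agent.MP_c11b14_lc.OP

open Polynomial Complex Real
open scoped ENNReal

theorem F2_ivt {h : ℝ → ℝ} {L v : ℝ} (hc : ContinuousOn h (Set.Ici 0))
    (hL : Filter.Tendsto h Filter.atTop (nhds L))
    (hv : min (h 0) L < v ∧ v < max (h 0) L) : ∃ t : ℝ, 0 < t ∧ h t = v := by
  rcases le_total (h 0) L with h0 | h0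
  · rw [min_eq_left h0, max_eq_right h0] at hv
    obtain ⟨T, hT, hT0⟩ := ((hL.eventually (lt_mem_nhds hv.2)).and
      (Filter.eventually_gt_atTop 0)).exists
    obtain ⟨t, ht, htv⟩ := intermediate_value_Icc hT0.le
      (hc.mono fun x hx => hx.1) ⟨hv.1.le, le_of_lt hT⟩
    refine ⟨t, lt_of_le_of_ne ht.1 ?_, htv⟩
    rintro rfl
    exact hv.1.ne htv
  · rw [min_eq_right h0, max_eq_left h0] at hv
    obtain ⟨T, hT, hT0⟩ := ((hL.eventually (gt_mem_nhds hv.1)).and
      (Filter.eventually_gt_atTop 0)).exists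
    obtain ⟨t, ht, htv⟩ := intermediate_value_Icc' hT0.le
      (hc.mono fun x hx => hx.1) ⟨le_of_lt hT, hv.2.le⟩
    refine ⟨t, lt_of_le_of_ne ht.1 ?_, htv⟩
    rintro rfl
    exact hv.2.ne htv.symm

/-- F2a. PROOF. Else the open interval between `h 0` and `L` contains `N + 1` different multiples of `π`; by the intermediate value theorem each is `h t` for some `t > 0` (different `t`), and there
`w t = r e^{i h t}` is real. -/
theorem cross_bound {h : ℝ → ℝ} {L : ℝ} (hc : ContinuousOn h (Set.Ici 0))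
    (hL : Filter.Tendsto h Filter.atTop (nhds L)) {w : ℝ → ℂ}
    (hw : ∀ t, 0 < t → ∃ r : ℝ, w t = r * Complex.exp (h t * I)) {N : ℕ}
    (hN : ∀ s : Finset ℝ, (∀ t ∈ s, 0 < t ∧ (w t).im = 0) → s.card ≤ N) :
    |h 0 - L| ≤ π * (N + 1) := by
  classical
  by_contra hcon
  have hcon' : π * (N + 1) < max (h 0) L - min (h 0) L := by
    rw [max_sub_min_eq_abs, abs_sub_comm]
    exact not_le.1 hcon
  have hpi := Real.pi_pos
  have h1 : ∀ j ∈ Finset.range (N + 1), ∃ t : ℝ, 0 < t ∧
      h t = ((⌊min (h 0) L / π⌋ + 1 + (j : ℤ) : ℤ) : ℝ) * π := by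
    intro j hj
    refine F2_ivt hc hL ⟨?_, ?_⟩
    · have h2 := Int.lt_floor_add_one (min (h 0) L / π)
      rw [div_lt_iff₀ hpi] at h2
      push_cast
      have h3 : (0 : ℝ) ≤ (j : ℝ) * π := by positivity
      nlinarith
    · have h2 := Int.floor_le (min (h 0) L / π)
      rw [le_div_iff₀ hpi] at h2
      have h3 : (j : ℝ) ≤ N := by
        have h4 := Finset.mem_range.1 hj
        exact_mod_cast Nat.lt_succ_iff.1 h4
      push_cast
      nlinarith
  choose! T hT using h1
  have h2 := hN ((Finset.range (N + 1)).image T) (by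
    intro t ht
    obtain ⟨j, hj, rfl⟩ := Finset.mem_image.1 ht
    obtain ⟨h3, h4⟩ := hT j hj
    refine ⟨h3, ?_⟩
    obtain ⟨r, hr⟩ := hw (T j) h3
    rw [hr, im_ofReal_mul, exp_ofReal_mul_I_im, h4, Real.sin_int_mul_pi, mul_zero])
  rw [Finset.card_image_of_injOn, Finset.card_range] at h2
  · omega
  · intro i hi j hj hij
    have h3 := (hT i (Finset.mem_coe.1 hi)).2
    have h4 := (hT j (Finset.mem_coe.1 hj)).2
    have hij' : T i = T j := hij
    rw [hij', h4] at h3
    have h5 := mul_right_cancel₀ hpi.ne' h3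
    have h6 : (⌊min (h 0) L / π⌋ + 1 + (j : ℤ) : ℤ) = ⌊min (h 0) L / π⌋ + 1 + (i : ℤ) := by
      exact_mod_cast h5
    omega

theorem F2_rayA_eq (R : ℂ[X]) (ω : ℝ) : rayA R ω = SC.angSum ω R.roots := by
  funext t
  unfold rayA SC.angSum
  congr 1
  refine Multiset.map_congr rfl fun x _ => ?_
  by_cases h : SC.Pos (x * Complex.exp (-(ω : ℂ) * I))
  · rw [SC.ang_pos h]
    exact if_pos h
  · rw [SC.ang_not_pos h]
    exact if_neg h

/-- F2b. PROOF. One root `x`, `y = x e^{-iω}`: if `y > 0` the term is the constant `0` and `t - y` is real. Else `t - y` is in the slit plane for `t > 0` (and for `t = 0` if `y ≠ 0`;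
`y = 0`: the term is `arg t = 0` for all `t ≥ 0`), so the term is continuous on `[0, ∞)`, and `arg(t - y) → 0` (`arg (t - y) = arg (1 - y/t)`). `R(t e^{iω}) = lead · e^{inω} ∏ (t - y)`, `β = arg lead + n ω`.
(The file SCMain.lean / SCArg.lean has similar lemmas: `ang`, `twist`.) -/
theorem rayA_props (R : ℂ[X]) (ω : ℝ) : ContinuousOn (rayA R ω) (Set.Ici 0) ∧
    Filter.Tendsto (rayA R ω) Filter.atTop (nhds 0) ∧
    ∃ β : ℝ, ∀ t : ℝ, 0 < t → ∃ r : ℝ,
      R.eval (t * Complex.exp (ω * I)) = r * Complex.exp ((β + rayA R ω t : ℝ) * I) := by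
  rw [F2_rayA_eq]
  refine ⟨SC.continuousOn_angSum ω R.roots, SC.tendsto_angSum ω R.roots,
    Complex.arg R.leadingCoeff + R.roots.card * ω, ?_⟩
  intro t _
  obtain ⟨r, hr⟩ := SC.prod_angSum ω R.roots t
  refine ⟨‖R.leadingCoeff‖ * r, ?_⟩
  rw [(IsAlgClosed.splits R).eval_eq_prod_roots, hr]
  conv_lhs => rw [← norm_mul_exp_arg_mul_I R.leadingCoeff]
  have h1 : ((Complex.arg R.leadingCoeff + R.roots.card * ω + SC.angSum ω R.roots t : ℝ) : ℂ) * I =
      (Complex.arg R.leadingCoeff : ℂ) * I +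
        ((R.roots.card * ω + SC.angSum ω R.roots t : ℝ) : ℂ) * I := by
    push_cast
    ring
  rw [h1, Complex.exp_add]
  push_cast
  ring

/-- F2c. PROOF. `Polynomial.roots_mul`, `roots_prod`. -/
theorem rayA_prod {κ : Type} (s : Finset κ) (P : κ → ℂ[X]) (hP : ∀ k ∈ s, P k ≠ 0) (ω t : ℝ) :
    rayA (∏ k ∈ s, P k) ω t = ∑ k ∈ s, rayA (P k) ω t := by
  classical
  induction s using Finset.induction_on with
  | empty => simp [rayA]
  | insert a s ha ih =>
    have h1 : P a ≠ 0 := hP a (Finset.mem_insert_self a s)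
    have h2 : ∏ k ∈ s, P k ≠ 0 :=
      Finset.prod_ne_zero_iff.2 fun k hk => hP k (Finset.mem_insert_of_mem hk)
    rw [Finset.prod_insert ha, Finset.sum_insert ha,
      ← ih fun k hk => hP k (Finset.mem_insert_of_mem hk)]
    unfold rayA
    rw [roots_mul (mul_ne_zero h1 h2), Multiset.map_add, Multiset.sum_add]

theorem F2_twist_coeff (p : ℝ[X]) (w : ℕ → ℝ) (n : ℕ) :
    (SC.twist p w).coeff n = p.coeff n * w n := by
  unfold SC.twist
  rw [finset_sum_coeff]
  by_cases hn : n ∈ p.support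
  · rw [Finset.sum_eq_single n]
    · rw [coeff_monomial, if_pos rfl]
    · intro b _ hb
      rw [coeff_monomial, if_neg hb]
    · intro h
      exact absurd hn h
  · rw [Finset.sum_eq_zero]
    · rw [notMem_support_iff.1 hn, zero_mul]
    · intro b hb
      rw [coeff_monomial, if_neg]
      rintro rfl
      exact hn hb

/-- F2d. PROOF. `β` from `rayA_props`. `w t = p(t e^{iω}) e^{-iβ₀}` with `β₀ = n₀ ω - π/2` for some `n₀` in the support: `Im w t = ∑ p_n sin(nω - β₀) t^n` is a nonzero real polynomial with at most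
`p.support.card` monomials, so at most `p.support.card - 1` positive zeros (Descartes; `card_pos_roots` in SCMain.lean, see also its uses there); `cross_bound` for `h = rayA + β - β₀`. -/
theorem rayA_sparse {p : ℝ[X]} (hp : p ≠ 0) (ω : ℝ) :
    |rayA (p.map (algebraMap ℝ ℂ)) ω 0| ≤ π * p.support.card := by
  classical
  obtain ⟨hc, hL, β, hβ⟩ := rayA_props (p.map (algebraMap ℝ ℂ)) ω
  obtain ⟨n₀, hn₀⟩ := support_nonempty.2 hp
  obtain ⟨φ, hφ⟩ : ∃ φ : ℝ, φ = -(n₀ * ω - π / 2) := ⟨_, rfl⟩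
  obtain ⟨q, hq⟩ : ∃ q : ℝ[X], q = SC.twist p fun j => Real.sin (φ + j * ω) := ⟨_, rfl⟩
  have hq0 : q ≠ 0 := by
    intro h0
    have h1 : q.coeff n₀ = 0 := by rw [h0, coeff_zero]
    rw [hq, F2_twist_coeff] at h1
    have h2 : φ + n₀ * ω = π / 2 := by rw [hφ]; ring
    rw [h2, Real.sin_pi_div_two, mul_one] at h1
    exact mem_support_iff.1 hn₀ h1
  have hqs : q.support.card ≤ p.support.card := by
    rw [hq]
    exact Finset.card_le_card (SC.twist_support p _)
  have hpos := SC.card_pos_roots hq0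
  have him : ∀ t : ℝ, (Complex.exp ((φ : ℂ) * I) *
      (p.map (algebraMap ℝ ℂ)).eval ((t : ℂ) * Complex.exp (ω * I))).im = q.eval t := by
    intro t
    rw [hq]
    exact SC.g_ray φ p ω t
  have hcb := cross_bound (h := fun t => rayA (p.map (algebraMap ℝ ℂ)) ω t + (β + φ))
    (L := 0 + (β + φ)) (N := p.support.card - 1)
    (w := fun t => Complex.exp ((φ : ℂ) * I) *
      (p.map (algebraMap ℝ ℂ)).eval ((t : ℂ) * Complex.exp (ω * I)))
    (hc.add continuousOn_const) (hL.add_const _) (by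
      intro t ht
      obtain ⟨r, hr⟩ := hβ t ht
      refine ⟨r, ?_⟩
      show Complex.exp ((φ : ℂ) * I) *
        (p.map (algebraMap ℝ ℂ)).eval ((t : ℂ) * Complex.exp (ω * I)) = _
      rw [hr]
      have h1 : ((rayA (p.map (algebraMap ℝ ℂ)) ω t + (β + φ) : ℝ) : ℂ) * I =
          (φ : ℂ) * I + ((β + rayA (p.map (algebraMap ℝ ℂ)) ω t : ℝ) : ℂ) * I := by
        push_cast
        ring
      rw [h1, Complex.exp_add]
      ring) (by
      intro s hs
      have h1 : s ⊆ q.roots.toFinset.filter (0 < ·) := by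
        intro t ht
        obtain ⟨h2, h3⟩ := hs t ht
        have h3' : q.eval t = 0 := by
          rw [← him t]
          exact h3
        rw [Finset.mem_filter, Multiset.mem_toFinset, mem_roots hq0]
        exact ⟨h3', h2⟩
      have h2 := Finset.card_le_card h1
      omega)
  have hcard : 1 ≤ p.support.card := Finset.card_pos.2 ⟨n₀, hn₀⟩
  have h3 : ((p.support.card - 1 : ℕ) : ℝ) + 1 = p.support.card := by
    rw [Nat.cast_sub hcard]
    push_cast
    ring
  rw [h3] at hcb
  have h4 : rayA (p.map (algebraMap ℝ ℂ)) ω 0 + (β + φ) - (0 + (β + φ)) =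
      rayA (p.map (algebraMap ℝ ℂ)) ω 0 := by ring
  rw [h4] at hcb
  exact hcb

/-- The points `u` where `G₁ conj(G₂) e^{-iθ}` is real on the line `Im z = ω`. -/
noncomputable def crs {κ : Type} [Fintype κ] (p : κ → ℝ[X]) (σ : κ → Bool) (ω θ : ℝ) : Set ℝ :=
  {u | (ev (gp p σ true) (u + ω * I) * (starRingEnd ℂ) (ev (gp p σ false) (u + ω * I)) *
    Complex.exp (-(θ : ℂ) * I)).im = 0}

/-- F2e. PROOF. If `Measure.count (crs p σ ω θ) = ⊤` trivial. Else it is a natural number `N`. `w t = R(t e^{iω}) conj(G₂(t e^{iω})) e^{-iθ} = G₁ conj(G₂) e^{-iθ} + |G₂|²`, so `Im w t = 0` iff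
`log t ∈ crs`. With `rayA_props` for `R = rt p σ θ` and for `G₂`: `w t = r e^{ih}`, `h = rayA R - rayA G₂ + const`; `cross_bound`: `|rayA R ω 0 - rayA G₂ ω 0| ≤ π (N+1)`; `rayA_prod`, `rayA_sparse`:
`|rayA G₂ ω 0| ≤ π tot`. -/
theorem ray_bound {κ : Type} [Fintype κ] {p : κ → ℝ[X]} (σ : κ → Bool) (hp : ∀ k, p k ≠ 0) (θ ω : ℝ) :
    ENNReal.ofReal |rayA (rt p σ θ) ω 0| ≤
      ENNReal.ofReal π * (MeasureTheory.Measure.count (crs p σ ω θ) + 1 + tot p) := by
  classical
  have hpi := Real.pi_pos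
  by_cases hfin : (crs p σ ω θ).Finite
  swap
  · rw [MeasureTheory.Measure.count_apply_infinite hfin, top_add, top_add, ENNReal.mul_top]
    · exact le_top
    · simpa using hpi
  have hcount : MeasureTheory.Measure.count (crs p σ ω θ) = (hfin.toFinset.card : ℝ≥0∞) :=
    MeasureTheory.Measure.count_apply_finite _ hfin
  obtain ⟨N, hN⟩ : ∃ N : ℕ, N = hfin.toFinset.card := ⟨_, rfl⟩
  rw [hcount, ← hN]
  -- bound for `G₂`
  have hG2 : |rayA ((gp p σ false).map (algebraMap ℝ ℂ)) ω 0| ≤ π * tot p := by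
    have h1 : (gp p σ false).map (algebraMap ℝ ℂ) =
        ∏ k ∈ Finset.univ.filter (fun k => σ k = false), (p k).map (algebraMap ℝ ℂ) := by
      unfold gp
      rw [Polynomial.map_prod]
    rw [h1, rayA_prod _ _ (fun k _ => (Polynomial.map_ne_zero_iff
      (algebraMap ℝ ℂ).injective).2 (hp k))]
    calc |∑ k ∈ Finset.univ.filter (fun k => σ k = false),
          rayA ((p k).map (algebraMap ℝ ℂ)) ω 0|
        ≤ ∑ k ∈ Finset.univ.filter (fun k => σ k = false),
          |rayA ((p k).map (algebraMap ℝ ℂ)) ω 0| := Finset.abs_sum_le_sum_abs _ _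
      _ ≤ ∑ k ∈ Finset.univ.filter (fun k => σ k = false), π * (p k).support.card :=
          Finset.sum_le_sum fun k _ => rayA_sparse (hp k) ω
      _ ≤ ∑ k, π * (p k).support.card :=
          Finset.sum_le_sum_of_subset_of_nonneg (Finset.filter_subset _ _)
            fun k _ _ => by positivity
      _ = π * tot p := by
          unfold tot
          push_cast
          rw [Finset.mul_sum]
  obtain ⟨hc1, hL1, β₁, hβ₁⟩ := rayA_props (rt p σ θ) ω
  obtain ⟨hc2, hL2, β₂, hβ₂⟩ := rayA_props ((gp p σ false).map (algebraMap ℝ ℂ)) ω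
  have hcb := cross_bound
    (h := fun t => rayA (rt p σ θ) ω t - rayA ((gp p σ false).map (algebraMap ℝ ℂ)) ω t +
      (β₁ - β₂ - θ))
    (L := 0 - 0 + (β₁ - β₂ - θ)) (N := N)
    (w := fun t => (rt p σ θ).eval ((t : ℂ) * Complex.exp (ω * I)) *
      (starRingEnd ℂ) (((gp p σ false).map (algebraMap ℝ ℂ)).eval ((t : ℂ) * Complex.exp (ω * I))) *
      Complex.exp (-(θ : ℂ) * I))
    ((hc1.sub hc2).add continuousOn_const) ((hL1.sub hL2).add_const _) (by
      intro t ht
      obtain ⟨r₁, hr₁⟩ := hβ₁ t ht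
      obtain ⟨r₂, hr₂⟩ := hβ₂ t ht
      refine ⟨r₁ * r₂, ?_⟩
      show (rt p σ θ).eval ((t : ℂ) * Complex.exp (ω * I)) *
        (starRingEnd ℂ) (((gp p σ false).map (algebraMap ℝ ℂ)).eval
          ((t : ℂ) * Complex.exp (ω * I))) * Complex.exp (-(θ : ℂ) * I) = _
      rw [hr₁, hr₂, map_mul, conj_ofReal, ← exp_conj, map_mul, conj_ofReal, conj_I]
      have h1 : ((rayA (rt p σ θ) ω t - rayA ((gp p σ false).map (algebraMap ℝ ℂ)) ω t +
          (β₁ - β₂ - θ) : ℝ) : ℂ) * I =
          ((β₁ + rayA (rt p σ θ) ω t : ℝ) : ℂ) * I +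
          ((β₂ + rayA ((gp p σ false).map (algebraMap ℝ ℂ)) ω t : ℝ) : ℂ) * (-I) +
            (-(θ : ℂ) * I) := by
        push_cast
        ring
      rw [h1, Complex.exp_add, Complex.exp_add]
      push_cast
      ring) (by
      intro s hs
      rw [hN]
      have h1 : s.image Real.log ⊆ hfin.toFinset := by
        intro u hu
        obtain ⟨t, ht, rfl⟩ := Finset.mem_image.1 hu
        obtain ⟨h2, h3⟩ := hs t ht
        rw [Set.Finite.mem_toFinset]
        have h4 : Complex.exp ((Real.log t : ℝ) + (ω : ℂ) * I) =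
            (t : ℂ) * Complex.exp (ω * I) := by
          rw [Complex.exp_add, ← ofReal_exp, Real.exp_log h2]
        have h5 : (rt p σ θ).eval ((t : ℂ) * Complex.exp (ω * I)) =
            ((gp p σ true).map (algebraMap ℝ ℂ)).eval ((t : ℂ) * Complex.exp (ω * I)) +
            Complex.exp (θ * I) *
              ((gp p σ false).map (algebraMap ℝ ℂ)).eval ((t : ℂ) * Complex.exp (ω * I)) := by
          unfold rt
          rw [eval_add, eval_mul, eval_C]
        show (ev (gp p σ true) ((Real.log t : ℝ) + ω * I) *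
          (starRingEnd ℂ) (ev (gp p σ false) ((Real.log t : ℝ) + ω * I)) *
            Complex.exp (-(θ : ℂ) * I)).im = 0
        unfold ev
        rw [h4]
        have h6 : (rt p σ θ).eval ((t : ℂ) * Complex.exp (ω * I)) *
            (starRingEnd ℂ) (((gp p σ false).map (algebraMap ℝ ℂ)).eval
              ((t : ℂ) * Complex.exp (ω * I))) * Complex.exp (-(θ : ℂ) * I) =
            ((gp p σ true).map (algebraMap ℝ ℂ)).eval ((t : ℂ) * Complex.exp (ω * I)) *
            (starRingEnd ℂ) (((gp p σ false).map (algebraMap ℝ ℂ)).eval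
              ((t : ℂ) * Complex.exp (ω * I))) * Complex.exp (-(θ : ℂ) * I) +
            ((Complex.normSq (((gp p σ false).map (algebraMap ℝ ℂ)).eval
              ((t : ℂ) * Complex.exp (ω * I))) : ℝ) : ℂ) := by
          rw [h5, ← Complex.mul_conj]
          have h7 : Complex.exp (θ * I) * Complex.exp (-(θ : ℂ) * I) = 1 := by
            rw [← Complex.exp_add]
            simp
          linear_combination (((gp p σ false).map (algebraMap ℝ ℂ)).eval
              ((t : ℂ) * Complex.exp (ω * I)) *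
            (starRingEnd ℂ) (((gp p σ false).map (algebraMap ℝ ℂ)).eval
              ((t : ℂ) * Complex.exp (ω * I)))) * h7
        have h8 := congrArg Complex.im h6
        rw [add_im, ofReal_im, add_zero] at h8
        rw [← h8]
        exact h3
      have h2 := Finset.card_le_card h1
      rwa [Finset.card_image_of_injOn] at h2
      intro a ha b hb hab
      have ha' := (hs a (Finset.mem_coe.1 ha)).1
      have hb' := (hs b (Finset.mem_coe.1 hb)).1
      exact Real.log_injOn_pos (Set.mem_Ioi.2 ha') (Set.mem_Ioi.2 hb') hab)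
  have h4 : rayA (rt p σ θ) ω 0 - rayA ((gp p σ false).map (algebraMap ℝ ℂ)) ω 0 +
      (β₁ - β₂ - θ) - (0 - 0 + (β₁ - β₂ - θ)) =
      rayA (rt p σ θ) ω 0 - rayA ((gp p σ false).map (algebraMap ℝ ℂ)) ω 0 := by ring
  have hcb' : |rayA (rt p σ θ) ω 0 - rayA ((gp p σ false).map (algebraMap ℝ ℂ)) ω 0| ≤
      π * (N + 1) := by
    rw [← h4]
    exact hcb
  have h5 : |rayA (rt p σ θ) ω 0| ≤ π * (N + 1 + tot p) := by
    have h6 := abs_sub_abs_le_abs_sub (rayA (rt p σ θ) ω 0)
      (rayA ((gp p σ false).map (algebraMap ℝ ℂ)) ω 0)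
    linarith
  calc ENNReal.ofReal |rayA (rt p σ θ) ω 0| ≤ ENNReal.ofReal (π * (N + 1 + tot p)) :=
        ENNReal.ofReal_le_ofReal h5
    _ = ENNReal.ofReal π * ((N : ℝ≥0∞) + 1 + tot p) := by
        rw [ENNReal.ofReal_mul hpi.le]
        congr 1
        have h7 : ((N : ℝ) + 1 + (tot p : ℝ)) = ((N + 1 + tot p : ℕ) : ℝ) := by push_cast; ring
        rw [h7, ENNReal.ofReal_natCast]
        push_cast
        ring

end Pool.Agent.MP_c11b14_lc.OP
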