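import Pool.Agent.Lib.MP_c11b14_lc.OP.C1
import Pool.Agent.Lib.MP_c11b14_lc.OP.F2
import Pool.Agent.Lib.MP_c11b14_lc.OP.B0

set_option autoImplicit false

/-! Task F3: the number of crossings in the mean over `θ`. -/

namespace Pool.Agent.MP_c11b14_lc.OP

open Polynomial Complex MeasureTheory Real
open scoped ENNReal

private theorem f3_deriv (p : ℝ[X]) (ω u : ℝ) :
    HasDerivAt (fun u : ℝ => ev p (u + ω * I)) (ev (dX p) (u + ω * I)) u := by
  have h1 : HasDerivAt (fun u : ℝ => ((u : ℂ) + ω * I)) 1 u := by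
    simpa using (Complex.ofRealCLM.hasDerivAt (x := u)).add_const ((ω : ℂ) * I)
  exact ((hasDerivAt_ev p ((u : ℂ) + ω * I)).comp_of_eq u h1 rfl).congr_deriv (mul_one _)

private theorem f3_sg (b : Bool) : |sg b| = 1 := by
  cases b <;> simp [sg]

private theorem f3_cur (p : ℝ[X]) (ω u : ℝ) :
    cur p.support (fun n => (p.coeff n : ℂ) * Complex.exp (n * (ω * I))) u = ev p (u + ω * I) := by
  rw [ev_sum, cur]
  refine Finset.sum_congr rfl fun n _ => ?_
  rw [Complex.real_smul, mul_add, Complex.exp_add]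
  push_cast
  ring

private theorem f3_cur' (p : ℝ[X]) (ω u : ℝ) :
    cur' p.support (fun n => (p.coeff n : ℂ) * Complex.exp (n * (ω * I))) u =
      ev (dX p) (u + ω * I) := by
  have h1 := hasDerivAt_cur p.support (fun n => (p.coeff n : ℂ) * Complex.exp (n * (ω * I))) u
  have h2 : cur p.support (fun n => (p.coeff n : ℂ) * Complex.exp (n * (ω * I))) =
      fun u : ℝ => ev p (u + ω * I) := funext fun u => f3_cur p ω u
  rw [h2] at h1
  exact h1.unique (f3_deriv p ω u)

private theorem f3_spd {x y : ℂ} (hx : x ≠ 0) : spd x y = |(y / x).im| := by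
  have h1 : lam x y = (y / x).re := by
    rw [lam, Complex.inner, Complex.div_re, ← Complex.normSq_eq_norm_sq]
    rw [Complex.mul_re, Complex.conj_re, Complex.conj_im]
    ring
  have h2 : y - lam x y • x = ((y / x).im : ℂ) * I * x := by
    have h3 : (y / x) * x = y := by field_simp
    rw [h1, Complex.real_smul]
    calc y - ((y / x).re : ℂ) * x = (y / x) * x - ((y / x).re : ℂ) * x := by rw [h3]
      _ = (((y / x).re : ℂ) + ((y / x).im : ℂ) * I) * x - ((y / x).re : ℂ) * x := by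
          rw [Complex.re_add_im]
      _ = ((y / x).im : ℂ) * I * x := by ring
  rw [spd, h2, norm_mul, norm_mul, Complex.norm_I, mul_one, Complex.norm_real,
    mul_div_assoc, div_self (norm_ne_zero_iff.2 hx), mul_one, Real.norm_eq_abs]

private theorem f3_cont (p : ℝ[X]) (ω : ℝ) : Continuous (fun u : ℝ => ev p (u + ω * I)) :=
  continuous_iff_continuousAt.2 fun u => (f3_deriv p ω u).continuousAt

/-- F3a. PROOF. `crofton_int` for `V = ℂ` (`c₁` from there), `s = p.support`, `E n = p_n e^{inω}`: `cur s E u = ev p (u + iω)`, `cur' s E u = ev (dX p) (u + iω)`, and in `ℂ` (inner product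
`Re (z̄ w)`) `spd x y = |Im (y/x)|`. -/
theorem im_total : ∃ c₁ : ℝ, 0 < c₁ ∧ ∀ (p : ℝ[X]) (ω : ℝ), (∀ u : ℝ, ev p (u + ω * I) ≠ 0) →
    Continuous (fun u : ℝ => (ev (dX p) (u + ω * I) / ev p (u + ω * I)).im) ∧
    ∫⁻ u : ℝ, ENNReal.ofReal |(ev (dX p) (u + ω * I) / ev p (u + ω * I)).im| ≤
      ENNReal.ofReal (c₁ * p.support.card) := by
  obtain ⟨c₁, hc₁, h⟩ := crofton_int
  refine ⟨c₁, hc₁, fun p ω hp => ?_⟩
  refine ⟨Complex.continuous_im.comp ((f3_cont (dX p) ω).div (f3_cont p ω) hp), ?_⟩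
  have h1 := h ℂ p.support (fun n => (p.coeff n : ℂ) * Complex.exp (n * (ω * I))) (fun u => by
    rw [f3_cur]
    exact hp u)
  have h2 : ∀ u : ℝ, spd (cur p.support (fun n => (p.coeff n : ℂ) * Complex.exp (n * (ω * I))) u)
      (cur' p.support (fun n => (p.coeff n : ℂ) * Complex.exp (n * (ω * I))) u) =
      |(ev (dX p) (u + ω * I) / ev p (u + ω * I)).im| := by
    intro u
    rw [f3_cur, f3_cur', f3_spd (hp u)]
  simp_rw [h2] at h1
  obtain ⟨_, hi, hle⟩ := h1
  rw [← ofReal_integral_eq_lintegral_ofReal hi (Filter.Eventually.of_forall fun _ => abs_nonneg _)]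
  exact ENNReal.ofReal_le_ofReal hle

private theorem f3_shift {H : ℝ → ℝ≥0∞} (hH : Measurable H) (a b c : ℝ) :
    ∫⁻ θ in Set.Ioc a b, H (θ + c) = ∫⁻ y in Set.Ioc (a + c) (b + c), H y := by
  have h1 := (measurePreserving_add_right (volume : Measure ℝ) c).setLIntegral_comp_preimage
    (measurableSet_Ioc (a := a + c) (b := b + c)) hH
  rw [← h1]
  congr 2
  rw [Set.preimage_add_const_Ioc, add_sub_cancel_right, add_sub_cancel_right]

private theorem f3_sum {H : ℝ → ℝ≥0∞} :
    ∑' m : ℤ, ∫⁻ y in Set.Ioc ((m : ℝ) * π) (((m : ℝ) + 1) * π), H y = ∫⁻ y, H y := by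
  have h1 : ∀ m : ℤ, Set.Ioc ((m : ℝ) * π) (((m : ℝ) + 1) * π) =
      Set.Ioc (m • π) ((m + 1) • π) := by
    intro m
    rw [zsmul_eq_mul, zsmul_eq_mul]
    push_cast
    rfl
  simp_rw [h1]
  rw [← lintegral_iUnion (fun k => measurableSet_Ioc) (Set.pairwise_disjoint_Ioc_zsmul π),
    iUnion_Ioc_zsmul Real.pi_pos, Measure.restrict_univ]

/-- F3b. PROOF. Sum the function over the translates: `∫_{[0,2π]} ∑_m H(θ + mπ) dθ = 2 ∫ H` (e.g. `[0,2π] = [0,π] ∪ [π,2π]` up to a null set, `lintegral_tsum`, translation, and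
`ℝ = ⋃_m [mπ, (m+1)π)`: `lintegral_iUnion`; or `isAddFundamentalDomain_Ioc`). -/
theorem lintegral_wrap {H : ℝ → ℝ≥0∞} (hH : Measurable H) :
    ∫⁻ θ in Set.Icc 0 (2 * π), ∑' m : ℤ, H (θ + m * π) ≤ 2 * ∫⁻ y, H y := by
  have hpi := Real.pi_pos
  rw [lintegral_tsum (f := fun (m : ℤ) θ => H (θ + m * π)) fun m =>
    (hH.comp (measurable_id.add_const _)).aemeasurable]
  have h1 : ∀ m : ℤ, ∫⁻ θ in Set.Icc 0 (2 * π), H (θ + m * π) =
      (∫⁻ y in Set.Ioc ((m : ℝ) * π) (((m : ℝ) + 1) * π), H y) +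
      ∫⁻ y in Set.Ioc (((m + 1 : ℤ) : ℝ) * π) ((((m + 1 : ℤ) : ℝ) + 1) * π), H y := by
    intro m
    rw [setLIntegral_congr Ioc_ae_eq_Icc.symm,
      ← Set.Ioc_union_Ioc_eq_Ioc (b := π) hpi.le (by linarith),
      lintegral_union measurableSet_Ioc (Set.Ioc_disjoint_Ioc_of_le le_rfl), f3_shift hH,
      f3_shift hH]
    push_cast
    congr 3 <;> congr 1 <;> ring
  simp_rw [h1]
  rw [ENNReal.tsum_add, f3_sum, two_mul]
  gcongr
  have h2 := (Equiv.addRight (1 : ℤ)).tsum_eq
    (fun m : ℤ => ∫⁻ y in Set.Ioc ((m : ℝ) * π) (((m : ℝ) + 1) * π), H y)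
  rw [f3_sum] at h2
  exact h2.le

/-- The integral of the logarithmic derivative. -/
private noncomputable def f3L (p : ℝ[X]) (ω u : ℝ) : ℂ :=
  ∫ s in (0 : ℝ)..u, ev (dX p) (s + ω * I) / ev p (s + ω * I)

private theorem f3L_deriv {p : ℝ[X]} {ω : ℝ} (hp : ∀ u : ℝ, ev p (u + ω * I) ≠ 0) (u : ℝ) :
    HasDerivAt (f3L p ω) (ev (dX p) (u + ω * I) / ev p (u + ω * I)) u := by
  have hc : Continuous fun s : ℝ => ev (dX p) (s + ω * I) / ev p (s + ω * I) :=
    (f3_cont (dX p) ω).div (f3_cont p ω) hp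
  exact intervalIntegral.integral_hasDerivAt_right (hc.intervalIntegrable _ _)
    (hc.stronglyMeasurableAtFilter _ _) hc.continuousAt

private theorem f3L_eq {p : ℝ[X]} {ω : ℝ} (hp : ∀ u : ℝ, ev p (u + ω * I) ≠ 0) (u : ℝ) :
    ev p (u + ω * I) = ev p (((0 : ℝ) : ℂ) + ω * I) * Complex.exp (f3L p ω u) := by
  have hd : ∀ s : ℝ, HasDerivAt (fun s : ℝ => ev p (s + ω * I) * Complex.exp (-f3L p ω s)) 0 s := by
    intro s
    have h1 := (f3_deriv p ω s).mul ((f3L_deriv hp s).neg.cexp)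
    refine h1.congr_deriv ?_
    have := hp s
    field_simp
    ring
  have hconst := is_const_of_deriv_eq_zero (fun s => (hd s).differentiableAt)
    (fun s => (hd s).deriv) u 0
  have h0 : f3L p ω 0 = 0 := by
    rw [f3L, intervalIntegral.integral_same]
  rw [h0, neg_zero, Complex.exp_zero, mul_one] at hconst
  rw [← hconst, mul_assoc, ← Complex.exp_add, neg_add_cancel, Complex.exp_zero, mul_one]

/-- F3c. PROOF. `α(u) = arg(G₁ conj G₂ at u = 0) + ∫_0^u Im lD(s + iω) ds` is `C¹`, `α' = Im lD(u + iω)`, and `G₁ conj(G₂) = |G₁ G₂| e^{iα}` on the line (`G₁ conj(G₂) e^{-∫ ...}`: differentiate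
`log G₁ - log G₂` along the line). So `crs p σ ω θ = ⋃_m {u | α u = θ + mπ}`. `area_major_R` for `α`: `H_α`; `H θ = ∑'_m H_α(θ + mπ)`; `∫⁻ |α'| ≤ c₁ tot p` by F3a. -/
theorem cross_avg : ∃ c : ℝ, 0 < c ∧ ∀ (κ : Type) [Fintype κ] (p : κ → ℝ[X]) (σ : κ → Bool) (ω : ℝ),
    (∀ k, ∀ u : ℝ, ev (p k) (u + ω * I) ≠ 0) →
    ∃ H : ℝ → ℝ≥0∞, Measurable H ∧ (∀ θ, Measure.count (crs p σ ω θ) ≤ H θ) ∧
      ∫⁻ θ in Set.Icc 0 (2 * π), H θ ≤ ENNReal.ofReal (c * tot p) := by
  classical
  obtain ⟨c₁, hc₁, htot⟩ := im_total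
  refine ⟨2 * c₁, by positivity, ?_⟩
  intro κ _ p σ ω hp
  set q : ℝ → ℂ := fun u => ev (gp p σ true) (u + ω * I) *
    (starRingEnd ℂ) (ev (gp p σ false) (u + ω * I)) with hq
  set S : ℝ → ℂ := fun u => ∑ k, (if σ k = true then f3L (p k) ω u else
    (starRingEnd ℂ) (f3L (p k) ω u)) with hS
  have hev : ∀ (b : Bool) (z : ℂ), ev (gp p σ b) z =
      ∏ k ∈ Finset.univ.filter (fun k => σ k = b), ev (p k) z := by
    intro b z
    rw [ev, gp, Polynomial.map_prod, eval_prod]
    rfl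
  have hqS : ∀ u, q u = q 0 * Complex.exp (S u) := by
    intro u
    have h1 : Complex.exp (S u) =
        (∏ k ∈ Finset.univ.filter (fun k => σ k = true), Complex.exp (f3L (p k) ω u)) *
        ∏ k ∈ Finset.univ.filter (fun k => σ k = false),
          (starRingEnd ℂ) (Complex.exp (f3L (p k) ω u)) := by
      rw [hS]
      simp only
      rw [Finset.sum_ite, Complex.exp_add, Complex.exp_sum, Complex.exp_sum]
      congr 1
      have h2 : Finset.univ.filter (fun k => ¬ σ k = true) =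
          Finset.univ.filter (fun k => σ k = false) := by
        ext k
        simp
      rw [h2]
      refine Finset.prod_congr rfl fun k _ => ?_
      rw [Complex.exp_conj]
    rw [h1, hq]
    simp only
    rw [hev, hev, hev, hev, map_prod, map_prod]
    have h3 : ∀ b : Bool, ∏ k ∈ Finset.univ.filter (fun k => σ k = b), ev (p k) (u + ω * I) =
        (∏ k ∈ Finset.univ.filter (fun k => σ k = b), ev (p k) (((0 : ℝ) : ℂ) + ω * I)) *
        ∏ k ∈ Finset.univ.filter (fun k => σ k = b), Complex.exp (f3L (p k) ω u) := by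
      intro b
      rw [← Finset.prod_mul_distrib]
      exact Finset.prod_congr rfl fun k _ => f3L_eq (hp k) u
    have h4 : ∏ k ∈ Finset.univ.filter (fun k => σ k = false),
        (starRingEnd ℂ) (ev (p k) (u + ω * I)) =
        (∏ k ∈ Finset.univ.filter (fun k => σ k = false),
          (starRingEnd ℂ) (ev (p k) (((0 : ℝ) : ℂ) + ω * I))) *
        ∏ k ∈ Finset.univ.filter (fun k => σ k = false),
          (starRingEnd ℂ) (Complex.exp (f3L (p k) ω u)) := by
      rw [← Finset.prod_mul_distrib]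
      refine Finset.prod_congr rfl fun k _ => ?_
      rw [f3L_eq (hp k) u, map_mul]
    rw [h3, h4]
    ring
  have hq0 : q 0 ≠ 0 := by
    rw [hq]
    simp only
    rw [hev, hev]
    refine mul_ne_zero (Finset.prod_ne_zero_iff.2 fun k _ => hp k 0) ?_
    rw [_root_.map_ne_zero]
    exact Finset.prod_ne_zero_iff.2 fun k _ => hp k 0
  set α : ℝ → ℝ := fun u => Complex.arg (q 0) + ∑ k, sg (σ k) * (f3L (p k) ω u).im with hα
  set α' : ℝ → ℝ := fun u =>
    ∑ k, sg (σ k) * (ev (dX (p k)) (u + ω * I) / ev (p k) (u + ω * I)).im with hα'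
  have hSim : ∀ u, (S u).im = ∑ k, sg (σ k) * (f3L (p k) ω u).im := by
    intro u
    rw [hS]
    simp only
    rw [Complex.im_sum]
    refine Finset.sum_congr rfl fun k _ => ?_
    cases hk : σ k <;> simp [sg]
  have hαd : ∀ u, HasDerivAt α (α' u) u := by
    intro u
    rw [hα, hα']
    refine HasDerivAt.const_add _ (HasDerivAt.fun_sum fun k _ => HasDerivAt.const_mul _ ?_)
    exact Complex.imCLM.hasFDerivAt.comp_hasDerivAt u (f3L_deriv (hp k) u)
  have hα'c : Continuous α' := by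
    rw [hα']
    exact continuous_finsetSum _ fun k _ => continuous_const.mul (htot (p k) ω (hp k)).1
  obtain ⟨Hα, hm, hcount, hint⟩ := area_major_R hαd hα'c
  refine ⟨fun θ => ∑' m : ℤ, Hα (θ + m * π), ?_, ?_, ?_⟩
  · exact Measurable.tsum fun m => hm.comp (measurable_id.add_const _)
  · intro θ
    have h1 : crs p σ ω θ ⊆ ⋃ m : ℤ, {u | α u = θ + m * π} := by
      intro u hu
      have h2 : (q u * Complex.exp (-(θ : ℂ) * I)).im = 0 := hu
      rw [hqS u] at h2
      have h3 : q 0 * Complex.exp (S u) * Complex.exp (-(θ : ℂ) * I) =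
          ((‖q 0‖ * Real.exp (S u).re : ℝ) : ℂ) * Complex.exp ((α u - θ : ℝ) * I) := by
        have h4 : q 0 = (‖q 0‖ : ℂ) * Complex.exp (Complex.arg (q 0) * I) :=
          (Complex.norm_mul_exp_arg_mul_I _).symm
        have h5 : S u = ((S u).re : ℂ) + ((S u).im : ℂ) * I := (Complex.re_add_im _).symm
        conv_lhs => rw [h4, h5, Complex.exp_add]
        have h6 : ((α u - θ : ℝ) : ℂ) * I =
            (Complex.arg (q 0) : ℂ) * I + ((S u).im : ℂ) * I + -(θ : ℂ) * I := by
          rw [hα]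
          simp only
          rw [hSim]
          push_cast
          ring
        rw [h6, Complex.exp_add, Complex.exp_add]
        push_cast
        ring
      rw [h3, Complex.im_ofReal_mul, Complex.exp_ofReal_mul_I_im] at h2
      have h7 : ‖q 0‖ * Real.exp (S u).re ≠ 0 :=
        mul_ne_zero (norm_ne_zero_iff.2 hq0) (Real.exp_pos _).ne'
      obtain ⟨m, hm'⟩ := Real.sin_eq_zero_iff.1 ((mul_eq_zero.1 h2).resolve_left h7)
      refine Set.mem_iUnion.2 ⟨m, ?_⟩
      show α u = θ + m * π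
      linarith
    refine (measure_mono h1).trans ((measure_iUnion_le _).trans ?_)
    exact ENNReal.tsum_le_tsum fun m => hcount _
  · refine (lintegral_wrap hm).trans ?_
    have h1 : ∫⁻ t, ENNReal.ofReal |α' t| ≤ ENNReal.ofReal (c₁ * tot p) := by
      calc ∫⁻ t, ENNReal.ofReal |α' t|
          ≤ ∫⁻ t : ℝ, ∑ k, ENNReal.ofReal
              |(ev (dX (p k)) (t + ω * I) / ev (p k) (t + ω * I)).im| := by
            refine lintegral_mono fun t => ?_
            rw [← ENNReal.ofReal_sum_of_nonneg fun k _ => abs_nonneg _]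
            refine ENNReal.ofReal_le_ofReal ?_
            rw [hα']
            refine (Finset.abs_sum_le_sum_abs _ _).trans (Finset.sum_le_sum fun k _ => ?_)
            rw [abs_mul, f3_sg, one_mul]
        _ = ∑ k, ∫⁻ t : ℝ, ENNReal.ofReal
              |(ev (dX (p k)) (t + ω * I) / ev (p k) (t + ω * I)).im| := by
            rw [lintegral_finsetSum' _ fun k _ => ?_]
            exact ((htot (p k) ω (hp k)).1.abs.measurable.ennreal_ofReal).aemeasurable
        _ ≤ ∑ k, ENNReal.ofReal (c₁ * (p k).support.card) :=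
            Finset.sum_le_sum fun k _ => (htot (p k) ω (hp k)).2
        _ = ENNReal.ofReal (c₁ * tot p) := by
            rw [← ENNReal.ofReal_sum_of_nonneg fun k _ => mul_nonneg hc₁.le (Nat.cast_nonneg _),
              ← Finset.mul_sum, tot, Nat.cast_sum]
    calc 2 * ∫⁻ y, Hα y ≤ 2 * ENNReal.ofReal (c₁ * tot p) := by
          gcongr
          exact hint.trans h1
      _ = ENNReal.ofReal (2 * c₁ * tot p) := by
          rw [mul_assoc, ENNReal.ofReal_mul (by norm_num : (0 : ℝ) ≤ 2)]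
          norm_num

end Pool.Agent.MP_c11b14_lc.OP
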