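import Pool.Agent.Lib.MP_c11b14_lc.OP.F1
import Pool.Agent.Lib.MP_c11b14_lc.OP.F3

set_option autoImplicit false

/-! Task F4: roots of `G₁ + e^{iθ} G₂` in a thin sector, in the mean over `θ`. -/

namespace Pool.Agent.MP_c11b14_lc.OP

open Polynomial Complex MeasureTheory Real
open scoped ENNReal

theorem F4_arg {u φ : ℝ} (h1 : -π < φ) (h2 : φ ≤ π) :
    Complex.arg (Complex.exp ((u : ℂ) + φ * I)) = φ := by
  rw [Complex.arg_exp]
  have : ((u : ℂ) + φ * I).im = φ := by simp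
  rw [this, toIocMod_eq_self]
  constructor
  · exact h1
  · linarith

theorem F4_choose {κ : Type} [Fintype κ] (p : κ → ℝ[X]) (hp : ∀ k, p k ≠ 0) {ℓ : ℝ} (h0 : 0 < ℓ)
    (h1 : ℓ ≤ 1 / 4) : ∃ ω : ℝ, 2 * ℓ < ω ∧ ω < 4 * ℓ ∧
      (∀ k, ∀ u : ℝ, ev (p k) (u + ω * I) ≠ 0) ∧ ∀ k, ∀ u : ℝ, ev (p k) (u + (-ω : ℝ) * I) ≠ 0 := by
  classical
  let B : Finset ℝ := Finset.univ.biUnion fun k =>
    (((p k).map (algebraMap ℝ ℂ)).roots.toFinset).image fun x => |Complex.arg x|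
  have hinf : (Set.Ioo (2 * ℓ) (4 * ℓ)).Infinite := Set.Ioo_infinite (by linarith)
  obtain ⟨ω, hω, hB⟩ := hinf.exists_notMem_finset B
  have hπ : (3 : ℝ) < π := Real.pi_gt_three
  have key : ∀ φ : ℝ, |φ| = ω → ∀ k, ∀ u : ℝ, ev (p k) (u + φ * I) ≠ 0 := by
    intro φ hφ k u he
    apply hB
    have hφ1 : |φ| < 1 := by
      rw [hφ]
      linarith [hω.2]
    have h2 := abs_lt.1 hφ1
    rw [Finset.mem_biUnion]
    refine ⟨k, Finset.mem_univ k, ?_⟩
    rw [Finset.mem_image]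
    refine ⟨Complex.exp ((u : ℂ) + φ * I), ?_, ?_⟩
    · rw [Multiset.mem_toFinset, Polynomial.mem_roots
        ((Polynomial.map_ne_zero_iff (algebraMap ℝ ℂ).injective).2 (hp k))]
      exact he
    · rw [F4_arg (by linarith) (by linarith)]
      exact hφ
  have hω0 : 0 < ω := by linarith [hω.1]
  refine ⟨ω, hω.1, hω.2, key ω (abs_of_pos hω0), key (-ω) ?_⟩
  rw [abs_neg, abs_of_pos hω0]

theorem F4_deg {κ : Type} [Fintype κ] (p : κ → ℝ[X]) (σ : κ → Bool) {d : ℕ}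
    (h1 : (gp p σ true).natDegree ≤ d) (h2 : (gp p σ false).natDegree ≤ d) (θ : ℝ) :
    (rt p σ θ).natDegree ≤ d := by
  unfold rt
  refine (Polynomial.natDegree_add_le _ _).trans (max_le ?_ ?_)
  · exact Polynomial.natDegree_map_le.trans h1
  · exact (Polynomial.natDegree_C_mul_le _ _).trans (Polynomial.natDegree_map_le.trans h2)

theorem F4_nsec_mono (R : ℂ[X]) {a b : ℝ} (h : a ≤ b) : nsec R a ≤ nsec R b := by
  classical
  unfold nsec
  rw [Multiset.countP_eq_card_filter, Multiset.countP_eq_card_filter]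
  refine Multiset.card_le_card (Multiset.monotone_filter_right _ ?_)
  intro x hx
  exact ⟨hx.1, hx.2.trans_le h⟩

theorem F4_final {c₀ T : ℝ} (hc₀ : 0 < c₀) (hT : 1 ≤ T) {I₁ I₂ : ℝ≥0∞}
    (h1 : I₁ ≤ ENNReal.ofReal (c₀ * T)) (h2 : I₂ ≤ ENNReal.ofReal (c₀ * T)) :
    ENNReal.ofReal (1 / (2 * π)) * (ENNReal.ofReal (8 * T) * ENNReal.ofReal (2 * π) +
        ENNReal.ofReal π * (I₁ + ENNReal.ofReal (1 + T) * ENNReal.ofReal (2 * π)) +
        ENNReal.ofReal π * (I₂ + ENNReal.ofReal (1 + T) * ENNReal.ofReal (2 * π))) ≤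
      ENNReal.ofReal ((8 + c₀ + 4 * π) * T) := by
  have hπ : 0 < π := Real.pi_pos
  have h3 : ENNReal.ofReal (1 / (2 * π)) * (ENNReal.ofReal (8 * T) * ENNReal.ofReal (2 * π) +
        ENNReal.ofReal π * (I₁ + ENNReal.ofReal (1 + T) * ENNReal.ofReal (2 * π)) +
        ENNReal.ofReal π * (I₂ + ENNReal.ofReal (1 + T) * ENNReal.ofReal (2 * π))) ≤
      ENNReal.ofReal (1 / (2 * π)) * (ENNReal.ofReal (8 * T) * ENNReal.ofReal (2 * π) +
        ENNReal.ofReal π * (ENNReal.ofReal (c₀ * T) + ENNReal.ofReal (1 + T) * ENNReal.ofReal (2 * π)) +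
        ENNReal.ofReal π * (ENNReal.ofReal (c₀ * T) + ENNReal.ofReal (1 + T) * ENNReal.ofReal (2 * π))) := by
    gcongr
  refine h3.trans ?_
  have h4 : 0 ≤ T := by linarith
  rw [← ENNReal.ofReal_mul (by positivity), ← ENNReal.ofReal_mul (by positivity),
    ← ENNReal.ofReal_add (by positivity) (by positivity), ← ENNReal.ofReal_mul (by positivity),
    ← ENNReal.ofReal_add (by positivity) (by positivity), ← ENNReal.ofReal_add (by positivity) (by positivity),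
    ← ENNReal.ofReal_mul (by positivity)]
  refine ENNReal.ofReal_le_ofReal ?_
  rw [one_div, inv_mul_le_iff₀ (by positivity)]
  nlinarith [mul_pos hπ hπ, mul_nonneg (mul_pos hπ hπ).le (sub_nonneg.2 hT)]

/-- F4. PROOF. Choose `ω ∈ (2ℓ, 4ℓ)` with `ω ≠ |arg x|` for all nonzero roots `x` of all `p k` (finitely many); then no `p k` has a zero on the lines `Im z = ± ω` (`4ℓ ≤ 1 < π`; conjugate roots).
`nsec R (2ℓ) ≤ nsec R ω` and `nsec_le`: `2π nsec ≤ 2ωn + rayA R ω 0 - rayA R (-ω) 0`, `n = natDegree (rt p σ θ) ≤ d`, `2ωn ≤ 8ℓd ≤ 8 tot p`; `ray_bound` at `ω` and `-ω`, `cross_avg` at `ω` and `-ω`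
(`H₁`, `H₂`): `N θ = ofReal(1/(2π)) * (ofReal (8 tot) + ofReal π * (H₁ θ + 1 + tot) + ofReal π * (H₂ θ + 1 + tot))`; integrate over `[0, 2π]`, `1 ≤ tot`. -/
theorem sector_avg : ∃ c : ℝ, 0 < c ∧ ∀ (κ : Type) [Fintype κ] (p : κ → ℝ[X]) (σ : κ → Bool),
    (∀ k, p k ≠ 0) → 1 ≤ tot p → ∀ d : ℕ, (gp p σ true).natDegree ≤ d → (gp p σ false).natDegree ≤ d →
    ∀ ℓ : ℝ, 0 < ℓ → ℓ * d ≤ tot p → ℓ ≤ 1 / 4 →
    ∃ N : ℝ → ℝ≥0∞, Measurable N ∧ (∀ θ, (nsec (rt p σ θ) (2 * ℓ) : ℝ≥0∞) ≤ N θ) ∧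
      ∫⁻ θ in Set.Icc 0 (2 * π), N θ ≤ ENNReal.ofReal (c * tot p) := by
  obtain ⟨c₀, hc₀, hcr⟩ := cross_avg
  refine ⟨8 + c₀ + 4 * π, by positivity, ?_⟩
  intro κ _ p σ hp htot d hd1 hd2 ℓ hℓ hℓd hℓ4
  obtain ⟨ω, hω1, hω2, hev1, hev2⟩ := F4_choose p hp hℓ hℓ4
  obtain ⟨H₁, hH1m, hH1, hH1i⟩ := hcr κ p σ ω hev1
  obtain ⟨H₂, hH2m, hH2, hH2i⟩ := hcr κ p σ (-ω) hev2
  have hπ : 0 < π := Real.pi_pos
  have hπ3 : (3 : ℝ) < π := Real.pi_gt_three
  have hω0 : 0 < ω := by linarith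
  have hωπ : ω < π / 2 := by linarith
  have htot' : (1 : ℝ) ≤ tot p := by exact_mod_cast htot
  have htcast : ((1 : ℝ≥0∞) + tot p) = ENNReal.ofReal (1 + tot p) := by
    rw [ENNReal.ofReal_add zero_le_one (by positivity), ENNReal.ofReal_one, ENNReal.ofReal_natCast]
  refine ⟨fun θ => ENNReal.ofReal (1 / (2 * π)) * (ENNReal.ofReal (8 * tot p) +
      ENNReal.ofReal π * (H₁ θ + ENNReal.ofReal (1 + tot p)) +
      ENNReal.ofReal π * (H₂ θ + ENNReal.ofReal (1 + tot p))), ?_, ?_, ?_⟩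
  · exact ((measurable_const.add ((hH1m.add measurable_const).const_mul _)).add
      ((hH2m.add measurable_const).const_mul _)).const_mul _
  · intro θ
    have h1 := nsec_le (rt p σ θ) hω0 hωπ
    have h2 : ENNReal.ofReal |rayA (rt p σ θ) ω 0| ≤
        ENNReal.ofReal π * (H₁ θ + ENNReal.ofReal (1 + tot p)) := by
      refine (ray_bound σ hp θ ω).trans (mul_le_mul_right ?_ _)
      rw [add_assoc, htcast]
      exact add_le_add (hH1 θ) le_rfl
    have h3 : ENNReal.ofReal |rayA (rt p σ θ) (-ω) 0| ≤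
        ENNReal.ofReal π * (H₂ θ + ENNReal.ofReal (1 + tot p)) := by
      refine (ray_bound σ hp θ (-ω)).trans (mul_le_mul_right ?_ _)
      rw [add_assoc, htcast]
      exact add_le_add (hH2 θ) le_rfl
    have h4 : 2 * ω * (rt p σ θ).natDegree ≤ 8 * tot p := by
      have h5 : ((rt p σ θ).natDegree : ℝ) ≤ d := by exact_mod_cast F4_deg p σ hd1 hd2 θ
      have h6 : (0 : ℝ) ≤ d := by positivity
      have h7 : 2 * ω * (rt p σ θ).natDegree ≤ 2 * ω * d := by gcongr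
      have h8 : 2 * ω * d ≤ 8 * ℓ * d := mul_le_mul_of_nonneg_right (by linarith) h6
      nlinarith
    have h5 : 2 * π * (nsec (rt p σ θ) (2 * ℓ) : ℝ) ≤
        8 * tot p + |rayA (rt p σ θ) ω 0| + |rayA (rt p σ θ) (-ω) 0| := by
      have h6 : ((nsec (rt p σ θ) (2 * ℓ) : ℕ) : ℝ) ≤ nsec (rt p σ θ) ω := by
        exact_mod_cast F4_nsec_mono _ hω1.le
      have h7 : 2 * π * (nsec (rt p σ θ) (2 * ℓ) : ℝ) ≤ 2 * π * nsec (rt p σ θ) ω := by gcongr
      have h8 := le_abs_self (rayA (rt p σ θ) ω 0)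
      have h9 := neg_abs_le (rayA (rt p σ θ) (-ω) 0)
      linarith
    have h6 : (nsec (rt p σ θ) (2 * ℓ) : ℝ≥0∞) =
        ENNReal.ofReal (1 / (2 * π)) * ENNReal.ofReal (2 * π * (nsec (rt p σ θ) (2 * ℓ) : ℝ)) := by
      rw [← ENNReal.ofReal_mul (by positivity), ← ENNReal.ofReal_natCast]
      congr 1
      field_simp
    rw [h6]
    refine mul_le_mul_right ?_ _
    refine (ENNReal.ofReal_le_ofReal h5).trans ?_
    rw [ENNReal.ofReal_add (by positivity) (abs_nonneg _),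
      ENNReal.ofReal_add (by positivity) (abs_nonneg _)]
    exact add_le_add (add_le_add le_rfl h2) h3
  · have hv : volume (Set.Icc (0 : ℝ) (2 * π)) = ENNReal.ofReal (2 * π) := by
      rw [Real.volume_Icc, sub_zero]
    rw [lintegral_const_mul _ (by fun_prop), lintegral_add_left (by fun_prop),
      lintegral_add_left (by fun_prop), lintegral_const_mul _ (by fun_prop),
      lintegral_const_mul _ (by fun_prop), lintegral_add_left hH1m, lintegral_add_left hH2m,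
      setLIntegral_const, setLIntegral_const, hv]
    exact F4_final hc₀ htot' hH1i hH2i

end Pool.Agent.MP_c11b14_lc.OP
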