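import Pool.Agent.Lib.MP_c11b14_lc.OP.C4
import Pool.Agent.Lib.MP_c11b14_lc.OP.E4
import Pool.Agent.Lib.MP_c11b14_lc.OP.F4

set_option autoImplicit false

/-! Task G1: the positive zeros. -/

namespace Pool.Agent.MP_c11b14_lc.OP

open Polynomial Complex MeasureTheory Real
open scoped ENNReal

theorem G1_level {x : ℝ} (hx : 0 ≤ x) : ∃ M : ℕ, 2 ≤ M ∧ x ≤ 2 ^ M ∧
    (M : ℝ) + 1 ≤ 8 * Real.log (2 + x) := by
  have h2 : (0 : ℝ) < Real.log 2 := Real.log_pos (by norm_num)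
  have hl2 : (1 : ℝ) / 2 ≤ Real.log 2 := by linarith [Real.log_two_gt_d9]
  set b : ℝ := Real.logb 2 (2 + x) with hb
  have hb1 : 1 ≤ b := by
    rw [hb, Real.le_logb_iff_rpow_le (by norm_num) (by linarith)]
    rw [Real.rpow_one]
    linarith
  have hbL : b * Real.log 2 = Real.log (2 + x) := by
    rw [hb, Real.logb]
    field_simp
  have hceil : 1 ≤ ⌈b⌉₊ := Nat.one_le_ceil_iff.2 (by linarith)
  refine ⟨⌈b⌉₊ + 1, by omega, ?_, ?_⟩
  · have h3 : 2 + x ≤ (2 : ℝ) ^ (⌈b⌉₊ : ℝ) := by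
      rw [← Real.logb_le_iff_le_rpow (by norm_num) (by linarith)]
      exact Nat.le_ceil b
    rw [Real.rpow_natCast] at h3
    rw [pow_succ]
    have h4 : (0 : ℝ) < 2 ^ ⌈b⌉₊ := by positivity
    linarith
  · have h3 : (⌈b⌉₊ : ℝ) < b + 1 := Nat.ceil_lt_add_one (by linarith)
    have h4 : b * (1 / 2) ≤ Real.log (2 + x) := by
      rw [← hbL]
      exact mul_le_mul_of_nonneg_left hl2 (by linarith)
    push_cast
    linarith

theorem G1_cover (M : ℕ) (B : Finset ℤ) : (Set.univ : Set ℝ) ⊆ {u | ⌊u * 2 ^ M⌋ ∉ B} ∪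
    ⋃ k ∈ B, Set.Icc (ctr M k - 1 / 2 ^ M) (ctr M k + 1 / 2 ^ M) := by
  intro u _
  by_cases h : ⌊u * 2 ^ M⌋ ∈ B
  · right
    refine Set.mem_iUnion₂.2 ⟨_, h, ?_⟩
    have hM : (0 : ℝ) < 2 ^ M := by positivity
    have h1 := Int.floor_le (u * 2 ^ M)
    have h2 := Int.lt_floor_add_one (u * 2 ^ M)
    constructor
    · rw [ctr, ← sub_div, div_le_iff₀ hM]
      linarith
    · rw [ctr, ← add_div, le_div_iff₀ hM]
      linarith
  · left
    exact h

/-- G1. PROOF. `M = Nat.clog 2 (d / tot p + 1) + 2` or similar: `2^M tot p ≥ d`, `2^M ≥ 4`, `M + 1 ≤ c log(2 + d/tot p)`. `ℓ = 1/2^M`. `levels` gives `B` and the points outside of the bad intervals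
of level `M`. The points `u` with `⌊u 2^M⌋ = k ∈ B` are in `Icc (ctr M k - ℓ) (ctr M k + ℓ)`: `bottom_maj`. `N` from `sector_avg`, `theta_sum`, and `diff_nonneg` (so the sum of the `ofReal`s is the
`ofReal` of the sum). -/
theorem pos_bound : ∃ c : ℝ, 0 < c ∧ ∀ (κ : Type) [Fintype κ] (p : κ → ℝ[X]) (σ : κ → Bool),
    (∀ k, p k ≠ 0) → 1 ≤ tot p → ∀ d : ℕ, (gp p σ true).natDegree ≤ d → (gp p σ false).natDegree ≤ d →
    Maj (fun lm => cz p σ lm Set.univ)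
      (ENNReal.ofReal (c * tot p * Real.log (2 + (d : ℝ) / tot p))) := by
  obtain ⟨c₉, hc₉, hlev⟩ := levels
  obtain ⟨cs, hcs, hsec⟩ := sector_avg
  refine ⟨32 * c₉ + 4 * cs, by positivity, ?_⟩
  intro κ _ p σ hp htot d hd1 hd2
  have htot' : (1 : ℝ) ≤ tot p := by exact_mod_cast htot
  have ht0 : (0 : ℝ) < tot p := by linarith
  have hx : (0 : ℝ) ≤ (d : ℝ) / tot p := by positivity
  obtain ⟨M, hM2, hxM, hML⟩ := G1_level hx
  set L : ℝ := Real.log (2 + (d : ℝ) / tot p) with hL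
  have hMp : (0 : ℝ) < 2 ^ M := by positivity
  have h4M : (4 : ℝ) ≤ 2 ^ M := by
    calc (4 : ℝ) = 2 ^ 2 := by norm_num
      _ ≤ 2 ^ M := pow_le_pow_right₀ (by norm_num) hM2
  have hℓ0 : (0 : ℝ) < 1 / 2 ^ M := by positivity
  have hℓ4 : (1 : ℝ) / 2 ^ M ≤ 1 / 4 := one_div_le_one_div_of_le (by norm_num) h4M
  have hℓd : 1 / 2 ^ M * (d : ℝ) ≤ tot p := by
    rw [div_mul_eq_mul_div, one_mul, div_le_iff₀ hMp]
    rw [div_le_iff₀ ht0] at hxM
    linarith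
  have h2ℓ : 2 * ((1 : ℝ) / 2 ^ M) ≤ 1 := by linarith
  have hLpos : 1 / 2 ≤ L := by
    have h1 : Real.log 2 ≤ L := Real.log_le_log (by norm_num) (by linarith)
    linarith [Real.log_two_gt_d9]
  obtain ⟨B, hB, hBm⟩ := hlev κ p σ hp htot M
  obtain ⟨N, hNm, hN, hNi⟩ := hsec κ p σ hp htot d hd1 hd2 (1 / 2 ^ M) hℓ0 hℓd hℓ4
  have htwo : 2 * ((1 : ℝ) / 2 ^ M) = 2 / 2 ^ M := by ring
  have hθ := theta_sum σ hp M (by omega) B hNm (fun θ => by rw [← htwo]; exact hN θ)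
  have hD0 : ∀ k : ℤ, 0 ≤ circleAverage (Ph p σ) (ctr M k) (2 / 2 ^ M) -
      circleAverage (Ph p σ) (ctr M k) (1 / 2 ^ M) := fun k => by
    have := diff_nonneg σ hp (c := ctr M k) hℓ0 h2ℓ
    rwa [htwo] at this
  have hDs : ∑ k ∈ B, (circleAverage (Ph p σ) (ctr M k) (2 / 2 ^ M) -
      circleAverage (Ph p σ) (ctr M k) (1 / 2 ^ M)) ≤ cs * tot p := by
    have := hθ.trans hNi
    rwa [ENNReal.ofReal_le_ofReal_iff (by positivity)] at this
  have hlog2 : (0 : ℝ) < Real.log 2 := Real.log_pos (by norm_num)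
  have hlog2' : (1 : ℝ) / 2 ≤ Real.log 2 := by linarith [Real.log_two_gt_d9]
  have hbot : Maj (fun lm => ∑ k ∈ B, cz p σ lm (Set.Icc (ctr M k - 1 / 2 ^ M) (ctr M k + 1 / 2 ^ M)))
      (∑ k ∈ B, ENNReal.ofReal ((circleAverage (Ph p σ) (ctr M k) (2 / 2 ^ M) -
        circleAverage (Ph p σ) (ctr M k) (1 / 2 ^ M) + 6) / Real.log 2)) := by
    refine Maj.sum B fun k _ => ?_
    have := bottom_maj σ hp (c := ctr M k) hℓ0 h2ℓ
    rwa [htwo] at this
  refine (hBm.add hbot).mono' (fun lm _ _ => ?_) ?_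
  · refine (cz_mono p σ lm (G1_cover M B)).trans ((cz_union_le p σ lm _ _).trans ?_)
    exact add_le_add le_rfl (cz_biUnion_le p σ lm B _)
  · rw [← ENNReal.ofReal_sum_of_nonneg (fun k _ => div_nonneg (by linarith [hD0 k]) hlog2.le),
      ← ENNReal.ofReal_add (by positivity) (Finset.sum_nonneg fun k _ =>
        div_nonneg (by linarith [hD0 k]) hlog2.le)]
    refine ENNReal.ofReal_le_ofReal ?_
    rw [← Finset.sum_div, Finset.sum_add_distrib, Finset.sum_const, nsmul_eq_mul]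
    have h1 : (∑ k ∈ B, (circleAverage (Ph p σ) (ctr M k) (2 / 2 ^ M) -
        circleAverage (Ph p σ) (ctr M k) (1 / 2 ^ M)) + (B.card : ℝ) * 6) / Real.log 2 ≤
        2 * (cs * tot p + 6 * (c₉ * tot p)) := by
      rw [div_le_iff₀ hlog2]
      have h2 : 0 ≤ cs * tot p + 6 * (c₉ * tot p) := by positivity
      nlinarith
    have h3 : c₉ * tot p * ((M : ℝ) + 1) ≤ c₉ * tot p * (8 * L) :=
      mul_le_mul_of_nonneg_left hML (by positivity)
    have h4 : 2 * (cs * tot p + 6 * (c₉ * tot p)) ≤ 4 * L * (cs * tot p + 6 * (c₉ * tot p)) := by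
      have h5 : 0 ≤ cs * tot p + 6 * (c₉ * tot p) := by positivity
      nlinarith
    calc _ ≤ c₉ * tot p * (8 * L) + 4 * L * (cs * tot p + 6 * (c₉ * tot p)) := by linarith
      _ = (32 * c₉ + 4 * cs) * tot p * L := by ring

end Pool.Agent.MP_c11b14_lc.OP
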