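import Pool.Agent.Lib.MP_c11b14_lc.OP.G1

set_option autoImplicit false

/-! Task G2: the theorem. -/

namespace Pool.Agent.MP_c11b14_lc.OP

open Polynomial Complex MeasureTheory Real
open scoped ENNReal

theorem G2_comp_support (q : ℝ[X]) : (q.comp (-X)).support.card = q.support.card := by
  have h : (q.comp (-X)).support = q.support := by
    ext n
    have h1 : (-X : ℝ[X]) = C (-1) * X := by simp
    rw [Polynomial.mem_support_iff, Polynomial.mem_support_iff, h1, Polynomial.comp_C_mul_X_coeff]
    simp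
  rw [h]

theorem G2_comp_ne {q : ℝ[X]} (hq : q ≠ 0) : q.comp (-X) ≠ 0 := by
  rwa [Ne, Polynomial.comp_neg_X_eq_zero_iff]

/-- The number of different roots is at most positive + negative + 1. -/
theorem G2_count {κ : Type} [Fintype κ] (p p' : κ → ℝ[X]) (σ : κ → Bool) (lm : ℝ)
    (h : ∀ x : ℝ, (pl p' σ lm).eval x = (pl p σ lm).eval (-x)) :
    (((pl p σ lm).roots.toFinset.card : ℕ) : ℝ≥0∞) ≤
      cz p σ lm Set.univ + cz p' σ lm Set.univ + 1 := by
  classical
  by_cases hP : pl p σ lm = 0
  · rw [hP]; simp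
  set S := (pl p σ lm).roots.toFinset with hS
  have hroot : ∀ x ∈ S, (pl p σ lm).eval x = 0 := by
    intro x hx
    rw [hS, Multiset.mem_toFinset] at hx
    exact (Polynomial.mem_roots hP).1 hx
  set A := S.filter (fun x => 0 < x) with hA
  set B := S.filter (fun x => x < 0) with hB
  set D := S.filter (fun x => x = 0) with hD
  have hsub : S ⊆ A ∪ B ∪ D := by
    intro x hx
    rcases lt_trichotomy x 0 with h1 | h1 | h1
    · exact Finset.mem_union_left _ (Finset.mem_union_right _ (Finset.mem_filter.2 ⟨hx, h1⟩))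
    · exact Finset.mem_union_right _ (Finset.mem_filter.2 ⟨hx, h1⟩)
    · exact Finset.mem_union_left _ (Finset.mem_union_left _ (Finset.mem_filter.2 ⟨hx, h1⟩))
  have hcard : S.card ≤ A.card + B.card + D.card := by
    refine (Finset.card_le_card hsub).trans ?_
    refine (Finset.card_union_le _ _).trans ?_
    exact Nat.add_le_add_right (Finset.card_union_le _ _) _
  have hDc : D.card ≤ 1 := by
    refine Finset.card_le_one.2 ?_
    intro a ha b hb
    rw [(Finset.mem_filter.1 ha).2, (Finset.mem_filter.1 hb).2]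
  have hAc : (A.card : ℝ≥0∞) ≤ cz p σ lm Set.univ := by
    have h1 : (A.image Real.log).card = A.card := by
      refine Finset.card_image_of_injOn ?_
      intro x hx y hy hxy
      have hx' := (Finset.mem_filter.1 (Finset.mem_coe.1 hx)).2
      have hy' := (Finset.mem_filter.1 (Finset.mem_coe.1 hy)).2
      exact Real.log_injOn_pos hx' hy' hxy
    rw [← h1]
    refine card_le_count ?_
    intro u hu
    obtain ⟨x, hx, rfl⟩ := Finset.mem_image.1 hu
    obtain ⟨hx1, hx2⟩ := Finset.mem_filter.1 hx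
    refine ⟨Set.mem_univ _, ?_⟩
    rw [Real.exp_log hx2]
    exact hroot x hx1
  have hBc : (B.card : ℝ≥0∞) ≤ cz p' σ lm Set.univ := by
    have h1 : (B.image (fun x => Real.log (-x))).card = B.card := by
      refine Finset.card_image_of_injOn ?_
      intro x hx y hy hxy
      have hx' := (Finset.mem_filter.1 (Finset.mem_coe.1 hx)).2
      have hy' := (Finset.mem_filter.1 (Finset.mem_coe.1 hy)).2
      have := Real.log_injOn_pos (show -x ∈ Set.Ioi (0 : ℝ) from neg_pos.2 hx')
        (show -y ∈ Set.Ioi (0 : ℝ) from neg_pos.2 hy') hxy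
      linarith
    rw [← h1]
    refine card_le_count ?_
    intro u hu
    obtain ⟨x, hx, rfl⟩ := Finset.mem_image.1 hu
    obtain ⟨hx1, hx2⟩ := Finset.mem_filter.1 hx
    refine ⟨Set.mem_univ _, ?_⟩
    rw [Real.exp_log (neg_pos.2 hx2), h, neg_neg]
    exact hroot x hx1
  calc ((S.card : ℕ) : ℝ≥0∞) ≤ ((A.card + B.card + D.card : ℕ) : ℝ≥0∞) := by exact_mod_cast hcard
    _ = (A.card : ℝ≥0∞) + B.card + D.card := by push_cast; rfl
    _ ≤ _ := add_le_add (add_le_add hAc hBc) (by exact_mod_cast hDc)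

/-- G2. PROOF. `T` the number of monomials. `T = 0`: `m = n = 0`, the polynomial is the constant `1 + λ`. Else `κ = Fin m ⊕ Fin n`. The number of roots is at most
(positive roots `x = e^u`: `cz`) + (roots `x = -e^u`: `cz` for the polynomials `p k (-X)`, `comp (-X)`, same supports' cardinalities and degrees) + 1 (the root `0`), for `P_λ ≠ 0`; for `P_λ = 0` it is `0`. -/
theorem one_parameter : ∃ c : ℝ, 0 < c ∧ ∀ (m n : ℕ) (f : Fin m → ℝ[X]) (g : Fin n → ℝ[X]) (T d : ℕ),
    (∀ i, f i ≠ 0) → (∀ j, g j ≠ 0) → ∑ i, (f i).support.card + ∑ j, (g j).support.card = T → 1 ≤ T →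
    (∏ i, f i).natDegree ≤ d → (∏ j, g j).natDegree ≤ d →
    Maj (fun lm => ((((∏ i, f i) + C lm * ∏ j, g j).roots.toFinset.card : ℕ) : ℝ≥0∞))
      (ENNReal.ofReal (c * T * Real.log (2 + (d : ℝ) / T))) := by
  classical
  obtain ⟨c, hc, hmain⟩ := pos_bound
  refine ⟨2 * c + 1 / Real.log 2, by positivity, ?_⟩
  intro m n f g T d hf hg hT hT1 hdf hdg
  let κ := Fin m ⊕ Fin n
  let p : κ → ℝ[X] := Sum.elim f g
  let σ : κ → Bool := Sum.elim (fun _ => true) (fun _ => false)
  let p' : κ → ℝ[X] := fun k => (p k).comp (-X)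
  have hp : ∀ k, p k ≠ 0 := by
    rintro (i | j)
    · exact hf i
    · exact hg j
  have hp' : ∀ k, p' k ≠ 0 := fun k => G2_comp_ne (hp k)
  have hgt : gp p σ true = ∏ i, f i := by
    unfold gp
    rw [Finset.prod_filter, Fintype.prod_sum_type]
    simp [p, σ]
  have hgf : gp p σ false = ∏ j, g j := by
    unfold gp
    rw [Finset.prod_filter, Fintype.prod_sum_type]
    simp [p, σ]
  have hgc : ∀ b, gp p' σ b = (gp p σ b).comp (-X) := by
    intro b
    unfold gp
    rw [Polynomial.prod_comp]
  have htot : tot p = T := by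
    unfold tot
    rw [Fintype.sum_sum_type]
    exact hT
  have htot' : tot p' = T := by
    rw [← htot]
    unfold tot
    exact Finset.sum_congr rfl fun k _ => G2_comp_support (p k)
  have hdeg : ∀ b, (gp p' σ b).natDegree = (gp p σ b).natDegree := by
    intro b
    rw [hgc, Polynomial.natDegree_comp]
    simp
  have h1 := hmain κ p σ hp (by rw [htot]; exact hT1) d (by rw [hgt]; exact hdf) (by rw [hgf]; exact hdg)
  have h2 := hmain κ p' σ hp' (by rw [htot']; exact hT1) d (by rw [hdeg, hgt]; exact hdf)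
    (by rw [hdeg, hgf]; exact hdg)
  rw [htot] at h1
  rw [htot'] at h2
  refine ((h1.add h2).add (Maj.const 1)).mono' ?_ ?_
  · intro lm _ _
    have hpl : (∏ i, f i) + C lm * ∏ j, g j = pl p σ lm := by
      unfold pl
      rw [hgt, hgf]
    rw [hpl]
    refine G2_count p p' σ lm ?_
    intro x
    unfold pl
    rw [hgc, hgc]
    simp [Polynomial.eval_comp]
  · have hT0 : (1 : ℝ) ≤ T := by exact_mod_cast hT1
    have hl2 : 0 < Real.log 2 := Real.log_pos (by norm_num)
    have hlog : Real.log 2 ≤ Real.log (2 + (d : ℝ) / T) := by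
      refine Real.log_le_log (by norm_num) ?_
      have : (0 : ℝ) ≤ (d : ℝ) / T := by positivity
      linarith
    have hX : 0 ≤ c * T * Real.log (2 + (d : ℝ) / T) :=
      mul_nonneg (mul_nonneg hc.le (by linarith)) (by linarith)
    rw [show (1 : ℝ≥0∞) = ENNReal.ofReal 1 by simp, ← ENNReal.ofReal_add hX hX,
      ← ENNReal.ofReal_add (by linarith) (by norm_num)]
    refine ENNReal.ofReal_le_ofReal ?_
    have h3 : 1 ≤ 1 / Real.log 2 * T * Real.log (2 + (d : ℝ) / T) := by
      have h4 : (1 : ℝ) = 1 / Real.log 2 * 1 * Real.log 2 := by field_simp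
      calc (1 : ℝ) = 1 / Real.log 2 * 1 * Real.log 2 := h4
        _ ≤ 1 / Real.log 2 * T * Real.log (2 + (d : ℝ) / T) := by
          refine mul_le_mul ?_ hlog hl2.le (by positivity)
          exact mul_le_mul_of_nonneg_left hT0 (by positivity)
    have h5 : (2 * c + 1 / Real.log 2) * T * Real.log (2 + (d : ℝ) / T) =
        c * T * Real.log (2 + (d : ℝ) / T) + c * T * Real.log (2 + (d : ℝ) / T) +
          1 / Real.log 2 * T * Real.log (2 + (d : ℝ) / T) := by ring
    rw [h5]
    linarith

end Pool.Agent.MP_c11b14_lc.OP
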