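import Pool.Agent.Lib.MP_c11b14_lc.OP.H2

set_option autoImplicit false

/-! Task K1: the zeros where `v i` is the largest term, in the mean over the coefficients `λ`. -/

namespace Pool.Agent.MP_c11b14_lc.OP

open Polynomial MeasureTheory
open scoped ENNReal

/-- Where `v i` is the largest and not zero. -/
def dom {k : ℕ} (v : Fin k → ℝ[X]) (i : Fin k) : Set ℝ :=
  {x | (v i).eval x ≠ 0 ∧ ∀ j, |(v j).eval x| ≤ |(v i).eval x|}

private theorem k1_closed {k : ℕ} (v : Fin k → ℝ[X]) {D : Set ℝ} (hD : IsCompact D) :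
    IsClosed {lm : Fin k → ℝ | ∃ x ∈ D, ∑ j, lm j * (v j).eval x = 0} := by
  have : CompactSpace D := isCompact_iff_compactSpace.1 hD
  have h1 : IsClosed {p : D × (Fin k → ℝ) | ∑ j, p.2 j * (v j).eval (p.1 : ℝ) = 0} := by
    refine isClosed_eq ?_ continuous_const
    refine continuous_finsetSum _ fun j _ => ?_
    refine Continuous.mul (by fun_prop) ?_
    exact (v j).continuous.comp (continuous_subtype_val.comp continuous_fst)
  have h2 := isClosedMap_snd_of_compactSpace _ h1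
  convert h2 using 1
  ext lm
  constructor
  · rintro ⟨x, hx, h⟩
    exact ⟨(⟨x, hx⟩, lm), h, rfl⟩
  · rintro ⟨⟨x, lm'⟩, h, rfl⟩
    exact ⟨x, x.2, h⟩

private theorem k1_slice {k : ℕ} (v : Fin k → ℝ[X]) (i : Fin k) {μ : Measure ℝ}
    {K : ℝ≥0∞} (hμ : μ ≤ K • (volume : Measure ℝ)) {D : Set ℝ} (hD : IsCompact D)
    (hDd : D ⊆ dom v i) (ξ : Fin k → ℝ) :
    μ (Function.update ξ i ⁻¹' {lm : Fin k → ℝ | ∃ x ∈ D, ∑ j, lm j * (v j).eval x = 0}) ≤
      K * ∑ j ∈ Finset.univ.erase i, ENNReal.ofReal |ξ j| *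
        ∫⁻ x in D, ENNReal.ofReal (|(wr (v j) (v i)).eval x| / (v i).eval x ^ 2) := by
  classical
  set P : ℝ[X] := ∑ j ∈ Finset.univ.erase i, C (ξ j) * v j with hP
  have hPe : ∀ x, P.eval x = ∑ j ∈ Finset.univ.erase i, ξ j * (v j).eval x := by
    intro x
    rw [hP, eval_finsetSum]
    refine Finset.sum_congr rfl fun j _ => ?_
    rw [eval_mul, eval_C]
  have hwr : ∀ x, (wr P (v i)).eval x =
      ∑ j ∈ Finset.univ.erase i, ξ j * (wr (v j) (v i)).eval x := by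
    intro x
    have h1 : wr P (v i) = ∑ j ∈ Finset.univ.erase i, C (ξ j) * wr (v j) (v i) := by
      unfold wr
      rw [hP, derivative_sum, Finset.sum_mul, Finset.sum_mul, ← Finset.sum_sub_distrib]
      refine Finset.sum_congr rfl fun j _ => ?_
      rw [derivative_C_mul]
      ring
    rw [h1, eval_finsetSum]
    refine Finset.sum_congr rfl fun j _ => ?_
    rw [eval_mul, eval_C]
  have hsub : Function.update ξ i ⁻¹' {lm : Fin k → ℝ | ∃ x ∈ D, ∑ j, lm j * (v j).eval x = 0} ⊆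
      (fun x => -(P.eval x / (v i).eval x)) '' D := by
    rintro y ⟨x, hx, h⟩
    refine ⟨x, hx, ?_⟩
    have h0 : (v i).eval x ≠ 0 := (hDd hx).1
    rw [← Finset.add_sum_erase Finset.univ _ (Finset.mem_univ i), Function.update_self] at h
    have h1 : ∑ j ∈ Finset.univ.erase i, Function.update ξ i y j * (v j).eval x = P.eval x := by
      rw [hPe]
      refine Finset.sum_congr rfl fun j hj => ?_
      rw [Function.update_of_ne (Finset.ne_of_mem_erase hj)]
    rw [h1] at h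
    show -(P.eval x / (v i).eval x) = y
    rw [← neg_div, div_eq_iff h0]
    linarith
  have hder : ∀ x ∈ D, HasFDerivWithinAt (fun x => -(P.eval x / (v i).eval x))
      (ContinuousLinearMap.toSpanSingleton ℝ (-((wr P (v i)).eval x / (v i).eval x ^ 2))) D x := by
    intro x hx
    have h0 : (v i).eval x ≠ 0 := (hDd hx).1
    have h1 : HasDerivAt (fun x => -(P.eval x / (v i).eval x))
        (-((wr P (v i)).eval x / (v i).eval x ^ 2)) x := by
      have h2 := ((P.hasDerivAt x).div ((v i).hasDerivAt x) h0).neg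
      have h3 : (wr P (v i)).eval x =
          (derivative P).eval x * (v i).eval x - P.eval x * (derivative (v i)).eval x := by
        unfold wr
        rw [eval_sub, eval_mul, eval_mul]
      rw [h3]
      exact h2
    exact h1.hasFDerivAt.hasFDerivWithinAt
  have hvol := addHaar_image_le_lintegral_abs_det_fderiv (volume : Measure ℝ) hD.measurableSet hder
  have hm : ∀ j, Measurable fun x : ℝ =>
      ENNReal.ofReal (|(wr (v j) (v i)).eval x| / (v i).eval x ^ 2) := by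
    intro j
    refine Measurable.ennreal_ofReal ?_
    exact ((wr (v j) (v i)).continuous.measurable.abs).div ((v i).continuous.measurable.pow_const 2)
  calc μ (Function.update ξ i ⁻¹' {lm : Fin k → ℝ | ∃ x ∈ D, ∑ j, lm j * (v j).eval x = 0})
      ≤ (K • (volume : Measure ℝ)) (Function.update ξ i ⁻¹'
          {lm : Fin k → ℝ | ∃ x ∈ D, ∑ j, lm j * (v j).eval x = 0}) := hμ _
    _ = K * volume (Function.update ξ i ⁻¹'
          {lm : Fin k → ℝ | ∃ x ∈ D, ∑ j, lm j * (v j).eval x = 0}) := by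
        rw [Measure.smul_apply, smul_eq_mul]
    _ ≤ K * volume ((fun x => -(P.eval x / (v i).eval x)) '' D) := by
        gcongr
    _ ≤ K * ∫⁻ x in D, ENNReal.ofReal |(ContinuousLinearMap.toSpanSingleton ℝ
          (-((wr P (v i)).eval x / (v i).eval x ^ 2))).det| := by
        gcongr
    _ ≤ K * ∫⁻ x in D, ∑ j ∈ Finset.univ.erase i, ENNReal.ofReal |ξ j| *
          ENNReal.ofReal (|(wr (v j) (v i)).eval x| / (v i).eval x ^ 2) := by
        refine mul_le_mul_right ?_ _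
        refine lintegral_mono fun x => ?_
        rw [ContinuousLinearMap.det_toSpanSingleton, abs_neg, abs_div,
          abs_of_nonneg (sq_nonneg ((v i).eval x)), hwr]
        have h1 : ∀ j ∈ Finset.univ.erase i, ENNReal.ofReal |ξ j| *
            ENNReal.ofReal (|(wr (v j) (v i)).eval x| / (v i).eval x ^ 2) =
            ENNReal.ofReal (|ξ j| * (|(wr (v j) (v i)).eval x| / (v i).eval x ^ 2)) := by
          intro j _
          rw [ENNReal.ofReal_mul (abs_nonneg _)]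
        rw [Finset.sum_congr rfl h1, ← ENNReal.ofReal_sum_of_nonneg fun j _ => by positivity]
        refine ENNReal.ofReal_le_ofReal ?_
        calc |∑ j ∈ Finset.univ.erase i, ξ j * (wr (v j) (v i)).eval x| / (v i).eval x ^ 2
            ≤ (∑ j ∈ Finset.univ.erase i, |ξ j * (wr (v j) (v i)).eval x|) / (v i).eval x ^ 2 := by
              gcongr
              exact Finset.abs_sum_le_sum_abs _ _
          _ = ∑ j ∈ Finset.univ.erase i,
                |ξ j| * (|(wr (v j) (v i)).eval x| / (v i).eval x ^ 2) := by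
              rw [Finset.sum_div]
              refine Finset.sum_congr rfl fun j _ => ?_
              rw [abs_mul, mul_div_assoc]
    _ = K * ∑ j ∈ Finset.univ.erase i, ENNReal.ofReal |ξ j| *
        ∫⁻ x in D, ENNReal.ofReal (|(wr (v j) (v i)).eval x| / (v i).eval x ^ 2) := by
        congr 1
        rw [lintegral_finsetSum _ fun j _ => (hm j).const_mul _]
        refine Finset.sum_congr rfl fun j _ => ?_
        rw [lintegral_const_mul _ (hm j)]

/-- K1a. One slice. PROOF. `D` is a compact subset of `dom v i`. For fixed `lm` the set of the `y` with `(update lm i y)` in the set is the image of `D` under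
`q x = -∑_{j ≠ i} lm j v_j(x)/v_i(x)` (differentiable on `D`, `q' = -∑ lm j wr(v_j, v_i)/v_i²`), so its Lebesgue measure is `≤ ∫_D |q'|` (`MeasureTheory.addHaar_image_le_lintegral_abs_det_fderiv`);
`μ i ≤ K • volume`; then Fubini over the other variables (`lintegral_le_of_lmarginal_le {i}`, see `pi_le_of_update` in Sm/One.lean), `∫⁻ |lm j| ∂(μ j) ≤ 1`. The set is closed (`D` compact), so measurable:
`IsCompact`, e.g. `isClosed_proj_of_isCompact` or sequences. -/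
theorem slice {k : ℕ} (v : Fin k → ℝ[X]) (i : Fin k) (μ : Fin k → Measure ℝ)
    [∀ j, IsProbabilityMeasure (μ j)] {K : ℝ≥0∞} (hμ : ∀ j, μ j ≤ K • (volume : Measure ℝ))
    (h1 : ∀ j, ∫⁻ x, ENNReal.ofReal |x| ∂(μ j) ≤ 1) {D : Set ℝ} (hD : IsCompact D) (hDd : D ⊆ dom v i) :
    MeasurableSet {lm : Fin k → ℝ | ∃ x ∈ D, ∑ j, lm j * (v j).eval x = 0} ∧
    Measure.pi μ {lm : Fin k → ℝ | ∃ x ∈ D, ∑ j, lm j * (v j).eval x = 0} ≤
      K * ∑ j, ∫⁻ x in D, ENNReal.ofReal (|(wr (v j) (v i)).eval x| / (v i).eval x ^ 2) := by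
  classical
  set S : Set (Fin k → ℝ) := {lm : Fin k → ℝ | ∃ x ∈ D, ∑ j, lm j * (v j).eval x = 0} with hS
  have hSc : IsClosed S := k1_closed v hD
  have hSm : MeasurableSet S := hSc.measurableSet
  refine ⟨hSm, ?_⟩
  set A : Fin k → ℝ≥0∞ := fun j =>
    ∫⁻ x in D, ENNReal.ofReal (|(wr (v j) (v i)).eval x| / (v i).eval x ^ 2) with hA
  have hmeasabs : ∀ j, Measurable fun ξ : Fin k → ℝ => ENNReal.ofReal |ξ j| := by
    intro j
    exact ((measurable_pi_apply j).abs).ennreal_ofReal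
  have hfm : Measurable fun ξ : Fin k → ℝ =>
      K * ∑ j ∈ Finset.univ.erase i, ENNReal.ofReal |ξ j| * A j := by
    refine Measurable.const_mul ?_ _
    exact Finset.measurable_fun_sum _ fun j _ => (hmeasabs j).mul_const _
  have h2 : ∫⁻ ξ, S.indicator 1 ξ ∂(Measure.pi μ) ≤
      ∫⁻ ξ, K * ∑ j ∈ Finset.univ.erase i, ENNReal.ofReal |ξ j| * A j ∂(Measure.pi μ) := by
    refine lintegral_le_of_lmarginal_le {i} (measurable_one.indicator hSm) hfm ?_
    intro ξ
    rw [lmarginal_singleton, lmarginal_singleton]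
    show ∫⁻ x, S.indicator (1 : (Fin k → ℝ) → ℝ≥0∞) (Function.update ξ i x) ∂μ i ≤
      ∫⁻ x, K * ∑ j ∈ Finset.univ.erase i, ENNReal.ofReal |Function.update ξ i x j| * A j ∂μ i
    have h3 : (fun x : ℝ => K * ∑ j ∈ Finset.univ.erase i,
        ENNReal.ofReal |Function.update ξ i x j| * A j) =
        fun _ => K * ∑ j ∈ Finset.univ.erase i, ENNReal.ofReal |ξ j| * A j := by
      funext x
      congr 1
      refine Finset.sum_congr rfl fun j hj => ?_
      rw [Function.update_of_ne (Finset.ne_of_mem_erase hj)]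
    rw [h3, lintegral_const, measure_univ, mul_one]
    have h4 : (fun x => S.indicator (1 : (Fin k → ℝ) → ℝ≥0∞) (Function.update ξ i x)) =
        ((Function.update ξ i) ⁻¹' S).indicator 1 := by
      funext x
      rfl
    rw [h4, lintegral_indicator_one (measurable_update ξ hSm)]
    exact k1_slice v i (hμ i) hD hDd ξ
  rw [lintegral_indicator_one hSm] at h2
  refine h2.trans ?_
  rw [lintegral_const_mul _ (Finset.measurable_fun_sum _ fun j _ => (hmeasabs j).mul_const _),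
    lintegral_finsetSum _ fun j _ => (hmeasabs j).mul_const _]
  gcongr
  refine (Finset.sum_le_sum fun j _ => ?_).trans
    (Finset.sum_le_sum_of_subset (f := A) (Finset.erase_subset i Finset.univ))
  rw [lintegral_mul_const _ (hmeasabs j)]
  have h5 : ∫⁻ ξ : Fin k → ℝ, ENNReal.ofReal |ξ j| ∂(Measure.pi μ) =
      ∫⁻ x, ENNReal.ofReal |x| ∂(μ j) := by
    have := (measurePreserving_eval μ j).lintegral_comp
      (f := fun x : ℝ => ENNReal.ofReal |x|) (by fun_prop)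
    exact this
  rw [h5]
  calc (∫⁻ x, ENNReal.ofReal |x| ∂(μ j)) * A j ≤ 1 * A j := by
        gcongr
        exact h1 j
    _ = A j := one_mul _

/-- The `λ` with a zero in `D ∩ [q/2^n, (q+1)/2^n]`. -/
def K1_S {k : ℕ} (v : Fin k → ℝ[X]) (D : Set ℝ) (n : ℕ) (q : ℤ) : Set (Fin k → ℝ) :=
  {lm | ∃ x ∈ D ∩ Set.Icc ((q : ℝ) / 2 ^ n) (((q : ℝ) + 1) / 2 ^ n), ∑ j, lm j * (v j).eval x = 0}

/-- The number of the intervals of length `2^{-n}` with a zero in `D`. -/
noncomputable def K1_H {k : ℕ} (v : Fin k → ℝ[X]) (D : Set ℝ) (n : ℕ) (lm : Fin k → ℝ) : ℝ≥0∞ :=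
  ∑' q : ℤ, (K1_S v D n q).indicator 1 lm

theorem K1_mem_Icc (n : ℕ) (x : ℝ) :
    x ∈ Set.Icc ((⌊x * 2 ^ n⌋ : ℝ) / 2 ^ n) (((⌊x * 2 ^ n⌋ : ℝ) + 1) / 2 ^ n) := by
  have h2 : (0 : ℝ) < 2 ^ n := by positivity
  constructor
  · rw [div_le_iff₀ h2]
    exact Int.floor_le _
  · rw [le_div_iff₀ h2]
    exact (Int.lt_floor_add_one _).le

theorem K1_H_mono {k : ℕ} (v : Fin k → ℝ[X]) {D D' : Set ℝ} (h : D ⊆ D') (n : ℕ) (lm : Fin k → ℝ) :
    K1_H v D n lm ≤ K1_H v D' n lm := by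
  unfold K1_H
  refine ENNReal.tsum_le_tsum fun q => ?_
  refine Set.indicator_le_indicator_of_subset ?_ (fun _ => bot_le) lm
  rintro lm ⟨x, hx, h0⟩
  exact ⟨x, ⟨h hx.1, hx.2⟩, h0⟩

theorem K1_sep (s : Finset ℝ) : ∀ᶠ n : ℕ in Filter.atTop, ∀ x ∈ s, ∀ y ∈ s, x ≠ y →
    ⌊x * 2 ^ n⌋ ≠ ⌊y * 2 ^ n⌋ := by
  rw [Filter.eventually_all_finset]
  intro x _
  rw [Filter.eventually_all_finset]
  intro y _
  by_cases hxy : x = y
  · exact Filter.Eventually.of_forall fun n h => absurd hxy h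
  have hd : 0 < |x - y| := abs_pos.2 (sub_ne_zero.2 hxy)
  have h1 : Filter.Tendsto (fun n : ℕ => |x - y| * 2 ^ n) Filter.atTop Filter.atTop :=
    (tendsto_pow_atTop_atTop_of_one_lt (by norm_num : (1 : ℝ) < 2)).const_mul_atTop hd
  filter_upwards [h1.eventually_gt_atTop 1] with n hn _ hc
  have h2 : (0 : ℝ) < 2 ^ n := by positivity
  have h3 := Int.abs_sub_lt_one_of_floor_eq_floor hc
  rw [← sub_mul, abs_mul, abs_of_pos h2] at h3
  linarith

theorem K1_count {k : ℕ} (v : Fin k → ℝ[X]) (D : Set ℝ) (lm : Fin k → ℝ) :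
    Measure.count {x | x ∈ D ∧ ∑ j, lm j * (v j).eval x = 0} ≤
      Filter.liminf (fun n => K1_H v D n lm) Filter.atTop := by
  classical
  refine count_le_of_finset ?_
  intro s hs
  refine Filter.le_liminf_of_le ?_ ?_
  · isBoundedDefault
  filter_upwards [K1_sep s] with n hn
  have hinj : Set.InjOn (fun x : ℝ => ⌊x * 2 ^ n⌋) s := by
    intro x hx y hy hxy
    by_contra hne
    exact hn x (Finset.mem_coe.1 hx) y (Finset.mem_coe.1 hy) hne hxy
  have h1 : ((s.image fun x : ℝ => ⌊x * 2 ^ n⌋).card : ℝ≥0∞) = s.card := by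
    rw [Finset.card_image_of_injOn hinj]
  rw [← h1]
  unfold K1_H
  calc ((s.image fun x : ℝ => ⌊x * 2 ^ n⌋).card : ℝ≥0∞)
      = ∑ q ∈ s.image fun x : ℝ => ⌊x * 2 ^ n⌋, (1 : ℝ≥0∞) := by simp
    _ = ∑ q ∈ s.image fun x : ℝ => ⌊x * 2 ^ n⌋, (K1_S v D n q).indicator 1 lm := by
        refine Finset.sum_congr rfl fun q hq => ?_
        obtain ⟨x, hx, rfl⟩ := Finset.mem_image.1 hq
        have h2 : lm ∈ K1_S v D n ⌊x * 2 ^ n⌋ := ⟨x, ⟨(hs x hx).1, K1_mem_Icc n x⟩, (hs x hx).2⟩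
        rw [Set.indicator_of_mem h2]
        rfl
    _ ≤ ∑' q : ℤ, (K1_S v D n q).indicator 1 lm := ENNReal.sum_le_tsum _

theorem K1_tsum (D : Set ℝ) (hD : MeasurableSet D) (f : ℝ → ℝ≥0∞) (n : ℕ) :
    ∑' q : ℤ, ∫⁻ x in D ∩ Set.Icc ((q : ℝ) / 2 ^ n) (((q : ℝ) + 1) / 2 ^ n), f x =
      ∫⁻ x in D, f x := by
  have h2 : (0 : ℝ) < 2 ^ n := by positivity
  have h1 : ∀ q : ℤ, ∫⁻ x in D ∩ Set.Icc ((q : ℝ) / 2 ^ n) (((q : ℝ) + 1) / 2 ^ n), f x =
      ∫⁻ x in D ∩ Set.Ico ((q : ℝ) / 2 ^ n) (((q : ℝ) + 1) / 2 ^ n), f x := by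
    intro q
    refine setLIntegral_congr ?_
    exact (Filter.EventuallyEq.refl _ _).inter Ico_ae_eq_Icc.symm
  have h3 : ⋃ q : ℤ, (D ∩ Set.Ico ((q : ℝ) / 2 ^ n) (((q : ℝ) + 1) / 2 ^ n)) = D := by
    ext x
    rw [Set.mem_iUnion]
    constructor
    · rintro ⟨q, hq⟩
      exact hq.1
    · intro hx
      refine ⟨⌊x * 2 ^ n⌋, hx, (K1_mem_Icc n x).1, ?_⟩
      rw [lt_div_iff₀ h2]
      exact Int.lt_floor_add_one _
  conv_rhs => rw [← h3]
  rw [lintegral_iUnion]
  · exact tsum_congr h1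
  · intro q
    exact hD.inter measurableSet_Ico
  · intro q q' hqq
    rw [Function.onFun, Set.disjoint_left]
    rintro x ⟨_, hx1, hx2⟩ ⟨_, hx3, hx4⟩
    rw [div_le_iff₀ h2] at hx1 hx3
    rw [lt_div_iff₀ h2] at hx2 hx4
    have h5 : (q : ℝ) < q' + 1 := lt_of_le_of_lt hx1 hx4
    have h6 : (q' : ℝ) < q + 1 := lt_of_le_of_lt hx3 hx2
    have h7 : q < q' + 1 := by exact_mod_cast h5
    have h8 : q' < q + 1 := by exact_mod_cast h6
    omega

theorem K1_S_prop {k : ℕ} (v : Fin k → ℝ[X]) (i : Fin k) (μ : Fin k → Measure ℝ)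
    [∀ j, IsProbabilityMeasure (μ j)] {K : ℝ≥0∞} (hμ : ∀ j, μ j ≤ K • (volume : Measure ℝ))
    (h1 : ∀ j, ∫⁻ x, ENNReal.ofReal |x| ∂(μ j) ≤ 1) {D : Set ℝ} (hD : IsCompact D)
    (hDd : D ⊆ dom v i) (n : ℕ) (q : ℤ) :
    MeasurableSet (K1_S v D n q) ∧ Measure.pi μ (K1_S v D n q) ≤
      K * ∑ j, ∫⁻ x in D ∩ Set.Icc ((q : ℝ) / 2 ^ n) (((q : ℝ) + 1) / 2 ^ n),
        ENNReal.ofReal (|(wr (v j) (v i)).eval x| / (v i).eval x ^ 2) :=
  slice v i μ hμ h1 (hD.inter_right isClosed_Icc) (Set.inter_subset_left.trans hDd)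

theorem K1_H_int {k : ℕ} (v : Fin k → ℝ[X]) (i : Fin k) (μ : Fin k → Measure ℝ)
    [∀ j, IsProbabilityMeasure (μ j)] {K : ℝ≥0∞} (hμ : ∀ j, μ j ≤ K • (volume : Measure ℝ))
    (h1 : ∀ j, ∫⁻ x, ENNReal.ofReal |x| ∂(μ j) ≤ 1) {D : Set ℝ} (hD : IsCompact D)
    (hDd : D ⊆ dom v i) (n : ℕ) :
    Measurable (K1_H v D n) ∧ ∫⁻ lm, K1_H v D n lm ∂(Measure.pi μ) ≤
      K * ∑ j, ∫⁻ x in D, ENNReal.ofReal (|(wr (v j) (v i)).eval x| / (v i).eval x ^ 2) := by
  have hS := fun q => K1_S_prop v i μ hμ h1 hD hDd n q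
  have hm : ∀ q, Measurable ((K1_S v D n q).indicator (1 : (Fin k → ℝ) → ℝ≥0∞)) := fun q =>
    measurable_one.indicator (hS q).1
  refine ⟨Measurable.ennreal_tsum hm, ?_⟩
  unfold K1_H
  rw [lintegral_tsum fun q => (hm q).aemeasurable]
  calc ∑' q : ℤ, ∫⁻ lm, (K1_S v D n q).indicator 1 lm ∂(Measure.pi μ)
      = ∑' q : ℤ, Measure.pi μ (K1_S v D n q) :=
        tsum_congr fun q => lintegral_indicator_one (hS q).1
    _ ≤ ∑' q : ℤ, K * ∑ j, ∫⁻ x in D ∩ Set.Icc ((q : ℝ) / 2 ^ n) (((q : ℝ) + 1) / 2 ^ n),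
        ENNReal.ofReal (|(wr (v j) (v i)).eval x| / (v i).eval x ^ 2) :=
        ENNReal.tsum_le_tsum fun q => (hS q).2
    _ = K * ∑ j, ∫⁻ x in D, ENNReal.ofReal (|(wr (v j) (v i)).eval x| / (v i).eval x ^ 2) := by
        rw [ENNReal.tsum_mul_left, Summable.tsum_finsetSum fun j _ => ENNReal.summable]
        congr 1
        refine Finset.sum_congr rfl fun j _ => ?_
        exact K1_tsum D hD.measurableSet _ n

/-- The compact pieces of `dom v i`. -/
def K1_D {k : ℕ} (v : Fin k → ℝ[X]) (i : Fin k) (r : ℕ) : Set ℝ :=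
  {x | |x| ≤ r ∧ 1 / ((r : ℝ) + 1) ≤ |(v i).eval x| ∧ ∀ j, |(v j).eval x| ≤ |(v i).eval x|}

theorem K1_D_compact {k : ℕ} (v : Fin k → ℝ[X]) (i : Fin k) (r : ℕ) : IsCompact (K1_D v i r) := by
  have h1 : K1_D v i r = Set.Icc (-(r : ℝ)) r ∩
      ({x | 1 / ((r : ℝ) + 1) ≤ |(v i).eval x|} ∩ ⋂ j, {x | |(v j).eval x| ≤ |(v i).eval x|}) := by
    ext x
    unfold K1_D
    simp only [Set.mem_setOf_eq, Set.mem_inter_iff, Set.mem_Icc, Set.mem_iInter, abs_le]
  rw [h1]
  refine isCompact_Icc.inter_right (IsClosed.inter ?_ (isClosed_iInter fun j => ?_))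
  · exact isClosed_le continuous_const (v i).continuous.abs
  · exact isClosed_le (v j).continuous.abs (v i).continuous.abs

theorem K1_D_sub {k : ℕ} (v : Fin k → ℝ[X]) (i : Fin k) (r : ℕ) : K1_D v i r ⊆ dom v i := by
  rintro x ⟨_, h2, h3⟩
  refine ⟨?_, h3⟩
  have h4 : (0 : ℝ) < 1 / ((r : ℝ) + 1) := by positivity
  exact abs_pos.1 (lt_of_lt_of_le h4 h2)

theorem K1_D_mono {k : ℕ} (v : Fin k → ℝ[X]) (i : Fin k) : Monotone (K1_D v i) := by
  intro r r' hr x hx
  have h1 : (r : ℝ) ≤ r' := by exact_mod_cast hr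
  refine ⟨hx.1.trans h1, le_trans ?_ hx.2.1, hx.2.2⟩
  exact one_div_le_one_div_of_le (by positivity) (by linarith)

theorem K1_D_exists {k : ℕ} {v : Fin k → ℝ[X]} {i : Fin k} {x : ℝ} (hx : x ∈ dom v i) :
    ∃ r : ℕ, x ∈ K1_D v i r := by
  have h0 : 0 < |(v i).eval x| := abs_pos.2 hx.1
  obtain ⟨r, hr⟩ := exists_nat_ge (max |x| (1 / |(v i).eval x|))
  have h1 := (le_max_left _ _).trans hr
  have h2 := (le_max_right _ _).trans hr
  refine ⟨r, h1, ?_, hx.2⟩
  have hr0 : (0 : ℝ) < (r : ℝ) + 1 := by positivity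
  rw [div_le_iff₀ hr0]
  rw [div_le_iff₀ h0] at h2
  nlinarith

/-- K1b. PROOF. `D_r = {x ∈ dom v i : |x| ≤ r, |v_i x| ≥ 1/(r+1)}` compact, increasing in `r : ℕ`, with union `dom v i`. `H_{r,n} λ = ∑'_{q : ℤ} 1[∃ x ∈ D_r ∩ [q/2^n, (q+1)/2^n], P_λ(x) = 0]`,
`H = ⨆ r, liminf_n H_{r,n}`. As in C1a: `count (zeros in D_r) ≤ liminf_n H_{r,n}`; `∫ H_{r,n} ≤ K ∑_j ∫_{D_r} ...` (K1a; the closed intervals overlap in null sets); Fatou, monotone convergence in `r`;
`count {x ∈ dom v i | ..}` is the supremum of the counts over `D_r`. -/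
theorem piece {k : ℕ} (v : Fin k → ℝ[X]) (i : Fin k) (μ : Fin k → Measure ℝ)
    [∀ j, IsProbabilityMeasure (μ j)] {K : ℝ≥0∞} (hμ : ∀ j, μ j ≤ K • (volume : Measure ℝ))
    (h1 : ∀ j, ∫⁻ x, ENNReal.ofReal |x| ∂(μ j) ≤ 1) :
    ∃ H : (Fin k → ℝ) → ℝ≥0∞, Measurable H ∧
      (∀ lm, Measure.count {x | x ∈ dom v i ∧ ∑ j, lm j * (v j).eval x = 0} ≤ H lm) ∧
      ∫⁻ lm, H lm ∂(Measure.pi μ) ≤
        K * ∑ j, ∫⁻ x in dom v i, ENNReal.ofReal (|(wr (v j) (v i)).eval x| / (v i).eval x ^ 2) := by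
  classical
  have hHm : ∀ r n, Measurable (K1_H v (K1_D v i r) n) := fun r n =>
    (K1_H_int v i μ hμ h1 (K1_D_compact v i r) (K1_D_sub v i r) n).1
  have hLm : ∀ r, Measurable (fun lm => Filter.liminf (fun n => K1_H v (K1_D v i r) n lm)
      Filter.atTop) := fun r => Measurable.liminf (hHm r)
  have hLi : ∀ r, ∫⁻ lm, Filter.liminf (fun n => K1_H v (K1_D v i r) n lm) Filter.atTop
      ∂(Measure.pi μ) ≤
      K * ∑ j, ∫⁻ x in dom v i, ENNReal.ofReal (|(wr (v j) (v i)).eval x| / (v i).eval x ^ 2) := by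
    intro r
    refine (lintegral_liminf_le (hHm r)).trans ?_
    have h2 : ∀ n, ∫⁻ lm, K1_H v (K1_D v i r) n lm ∂(Measure.pi μ) ≤
        K * ∑ j, ∫⁻ x in dom v i, ENNReal.ofReal (|(wr (v j) (v i)).eval x| / (v i).eval x ^ 2) := by
      intro n
      refine (K1_H_int v i μ hμ h1 (K1_D_compact v i r) (K1_D_sub v i r) n).2.trans ?_
      refine mul_le_mul' le_rfl (Finset.sum_le_sum fun j _ => ?_)
      exact lintegral_mono_set (K1_D_sub v i r)
    calc Filter.liminf (fun n => ∫⁻ lm, K1_H v (K1_D v i r) n lm ∂(Measure.pi μ)) Filter.atTop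
        ≤ Filter.liminf (fun _ : ℕ => K * ∑ j, ∫⁻ x in dom v i,
          ENNReal.ofReal (|(wr (v j) (v i)).eval x| / (v i).eval x ^ 2)) Filter.atTop :=
          Filter.liminf_le_liminf (Filter.Eventually.of_forall h2)
      _ = _ := Filter.liminf_const _
  have hmono : Monotone fun r => fun lm =>
      Filter.liminf (fun n => K1_H v (K1_D v i r) n lm) Filter.atTop := by
    intro r r' hr lm
    exact Filter.liminf_le_liminf (Filter.Eventually.of_forall fun n =>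
      K1_H_mono v (K1_D_mono v i hr) n lm)
  refine ⟨fun lm => ⨆ r, Filter.liminf (fun n => K1_H v (K1_D v i r) n lm) Filter.atTop,
    Measurable.iSup hLm, ?_, ?_⟩
  · intro lm
    refine count_le_of_finset ?_
    intro s hs
    have h3 : ∃ r : ℕ, ∀ x ∈ s, x ∈ K1_D v i r := by
      have h4 : ∀ x ∈ s, ∃ r : ℕ, x ∈ K1_D v i r := fun x hx => K1_D_exists (hs x hx).1
      choose! R hR using h4
      refine ⟨s.sup R, fun x hx => ?_⟩
      exact K1_D_mono v i (Finset.le_sup hx) (hR x hx)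
    obtain ⟨r, hr⟩ := h3
    refine le_trans (card_le_count (S := {x | x ∈ K1_D v i r ∧ ∑ j, lm j * (v j).eval x = 0})
      fun x hx => ⟨hr x hx, (hs x hx).2⟩) ?_
    refine (K1_count v (K1_D v i r) lm).trans ?_
    exact le_iSup (fun r => Filter.liminf (fun n => K1_H v (K1_D v i r) n lm) Filter.atTop) r
  · rw [lintegral_iSup hLm hmono]
    exact iSup_le hLi

end Pool.Agent.MP_c11b14_lc.OP
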