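import Pool.Agent.Lib.MP_c11b14_lc.OP.K1
import Pool.Agent.Lib.MP_c11b14_lc.SCMain

set_option autoImplicit false

/-! Task K2: the real tau-conjecture in the mean over one scalar for each product. -/

namespace Pool.Agent.MP_c11b14_lc.OP

open Polynomial MeasureTheory
open scoped ENNReal

theorem K2_length : ∃ c : ℝ, 0 < c ∧ ∀ (m n : ℕ) (f : Fin m → ℝ[X]) (g : Fin n → ℝ[X]) (d : ℕ),
    (∀ i, f i ≠ 0) → (∀ j, g j ≠ 0) →
    (∏ i, f i).natDegree ≤ d → (∏ j, g j).natDegree ≤ d →
    ∫⁻ x : ℝ, ENNReal.ofReal (|(wr (∏ i, f i) (∏ j, g j)).eval x| /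
        ((∏ i, f i).eval x ^ 2 + (∏ j, g j).eval x ^ 2)) ≤
      ENNReal.ofReal (c * ((∑ i, (f i).support.card : ℕ) + (∑ j, (g j).support.card : ℕ)) *
        Real.log (2 + d)) := by
  obtain ⟨c, hc, h⟩ := length_le
  refine ⟨c, hc, ?_⟩
  intro m n f g d hf hg hfd hgd
  obtain ⟨T, hT⟩ : ∃ T : ℕ, T = ∑ i, (f i).support.card + ∑ j, (g j).support.card := ⟨_, rfl⟩
  have h1 := h m n f g T d hf hg hT.symm hfd hgd
  have e : (((∑ i, (f i).support.card : ℕ) : ℝ) + ((∑ j, (g j).support.card : ℕ) : ℝ)) =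
      (T : ℝ) := by rw [hT]; push_cast; rfl
  rw [e]
  refine h1.trans (ENNReal.ofReal_le_ofReal ?_)
  clear h1 e hT
  rcases Nat.eq_zero_or_pos T with h0 | h0
  · subst h0
    simp
  · have h1 : (1 : ℝ) ≤ T := by exact_mod_cast h0
    have hT0 : (0 : ℝ) < T := by linarith
    have hd0 : (0 : ℝ) ≤ (d : ℝ) / T := by positivity
    have hdT : (d : ℝ) / T ≤ d := div_le_self (Nat.cast_nonneg d) h1
    have hlog : Real.log (2 + (d : ℝ) / T) ≤ Real.log (2 + (d : ℝ)) :=
      Real.log_le_log (by linarith) (by linarith)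
    exact mul_le_mul_of_nonneg_left hlog (by positivity)

/-- K2a. PROOF. `v_j² ≤ v_i²` on `dom v i`, so the integrand is `≤ 2 |wr|/(v_j² + v_i²)`; `length_le` with `c T_{ij} log(2 + d/T_{ij}) ≤ c (T_i + T_j) log(2 + d)` (`T_{ij} ≥ 1`, or `0`). Sum over `i, j`:
`∑_{i,j} (T_i + T_j) = 2 k T`. -/
theorem pair_sum : ∃ c : ℝ, 0 < c ∧ ∀ (k : ℕ) (m : Fin k → ℕ) (f : (i : Fin k) → Fin (m i) → ℝ[X]) (d : ℕ),
    (∀ i j, f i j ≠ 0) → (∀ i, (∏ j, f i j).natDegree ≤ d) →
    ∑ i, ∑ j, ∫⁻ x in dom (fun i => ∏ l, f i l) i, ENNReal.ofReal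
      (|(wr (∏ l, f j l) (∏ l, f i l)).eval x| / (∏ l, f i l).eval x ^ 2) ≤
    ENNReal.ofReal (c * k * (∑ i, ∑ j, (f i j).support.card : ℕ) * Real.log (2 + d)) := by
  obtain ⟨c, hc, h⟩ := K2_length
  refine ⟨4 * c, by positivity, ?_⟩
  intro k m f d hf hd
  obtain ⟨T, hT⟩ : ∃ T : Fin k → ℕ, ∀ i, T i = ∑ j, (f i j).support.card := ⟨_, fun _ => rfl⟩
  simp_rw [← hT]
  have hlog : 0 ≤ Real.log (2 + (d : ℝ)) := Real.log_nonneg (by
    have : (0 : ℝ) ≤ d := Nat.cast_nonneg d
    linarith)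
  have hnn : ∀ i j : Fin k, 0 ≤ 2 * (c * ((T j : ℝ) + T i) * Real.log (2 + d)) := fun i j => by
    have h8 : (0 : ℝ) ≤ (T j : ℝ) + T i := by positivity
    exact mul_nonneg (by norm_num) (mul_nonneg (mul_nonneg hc.le h8) hlog)
  have h1 : ∀ i j, ∫⁻ x in dom (fun i => ∏ l, f i l) i, ENNReal.ofReal
      (|(wr (∏ l, f j l) (∏ l, f i l)).eval x| / (∏ l, f i l).eval x ^ 2) ≤
      ENNReal.ofReal (2 * (c * ((T j : ℝ) + T i) * Real.log (2 + d))) := by
    intro i j
    have hm : Measurable (fun x : ℝ => ENNReal.ofReal (2 *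
        (|(wr (∏ l, f j l) (∏ l, f i l)).eval x| /
        ((∏ l, f j l).eval x ^ 2 + (∏ l, f i l).eval x ^ 2)))) := by
      apply ENNReal.measurable_ofReal.comp
      apply Measurable.const_mul
      apply Measurable.div
      · exact ((wr (∏ l, f j l) (∏ l, f i l)).continuous.measurable).abs
      · exact (((∏ l, f j l).continuous.pow 2).add ((∏ l, f i l).continuous.pow 2)).measurable
    calc ∫⁻ x in dom (fun i => ∏ l, f i l) i, ENNReal.ofReal
          (|(wr (∏ l, f j l) (∏ l, f i l)).eval x| / (∏ l, f i l).eval x ^ 2)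
        ≤ ∫⁻ x in dom (fun i => ∏ l, f i l) i, ENNReal.ofReal (2 *
          (|(wr (∏ l, f j l) (∏ l, f i l)).eval x| /
          ((∏ l, f j l).eval x ^ 2 + (∏ l, f i l).eval x ^ 2))) := by
          apply setLIntegral_mono hm
          intro x hx
          apply ENNReal.ofReal_le_ofReal
          obtain ⟨hx0, hx1⟩ := hx
          have hj := hx1 j
          simp only at hx0 hj
          have h2 : (∏ l, f j l).eval x ^ 2 ≤ (∏ l, f i l).eval x ^ 2 := sq_le_sq.2 hj
          have h3 : 0 < (∏ l, f i l).eval x ^ 2 := by positivity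
          have h4 : 0 ≤ |(wr (∏ l, f j l) (∏ l, f i l)).eval x| := abs_nonneg _
          have h5 : 0 ≤ (∏ l, f j l).eval x ^ 2 := sq_nonneg _
          rw [← mul_div_assoc, div_le_div_iff₀ h3 (by linarith)]
          nlinarith
      _ ≤ ∫⁻ x, ENNReal.ofReal (2 *
          (|(wr (∏ l, f j l) (∏ l, f i l)).eval x| /
          ((∏ l, f j l).eval x ^ 2 + (∏ l, f i l).eval x ^ 2))) := setLIntegral_le_lintegral _ _
      _ = 2 * ∫⁻ x, ENNReal.ofReal
          (|(wr (∏ l, f j l) (∏ l, f i l)).eval x| /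
          ((∏ l, f j l).eval x ^ 2 + (∏ l, f i l).eval x ^ 2)) := by
          simp_rw [ENNReal.ofReal_mul (by norm_num : (0 : ℝ) ≤ 2)]
          rw [lintegral_const_mul' _ _ ENNReal.ofReal_ne_top]
          norm_num
      _ ≤ 2 * ENNReal.ofReal (c * ((T j : ℝ) + T i) * Real.log (2 + d)) := by
          have h6 := h _ _ (f j) (f i) d (hf j) (hf i) (hd j) (hd i)
          rw [← hT, ← hT] at h6
          exact mul_le_mul_right h6 2
      _ = ENNReal.ofReal (2 * (c * ((T j : ℝ) + T i) * Real.log (2 + d))) := by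
          rw [ENNReal.ofReal_mul (by norm_num : (0 : ℝ) ≤ 2)]
          norm_num
  calc _ ≤ ∑ i, ∑ j, ENNReal.ofReal (2 * (c * ((T j : ℝ) + T i) * Real.log (2 + d))) :=
        Finset.sum_le_sum fun i _ => Finset.sum_le_sum fun j _ => h1 i j
    _ = ENNReal.ofReal (∑ i, ∑ j, (2 * (c * ((T j : ℝ) + T i) * Real.log (2 + d)))) := by
        rw [ENNReal.ofReal_sum_of_nonneg fun i _ => Finset.sum_nonneg fun j _ => hnn i j]
        refine Finset.sum_congr rfl fun i _ => ?_
        rw [ENNReal.ofReal_sum_of_nonneg fun j _ => hnn i j]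
    _ ≤ ENNReal.ofReal (4 * c * k * (∑ i, T i : ℕ) * Real.log (2 + d)) := by
        apply ENNReal.ofReal_le_ofReal
        apply le_of_eq
        have e1 : ∀ i j : Fin k, (2 * (c * ((T j : ℝ) + T i) * Real.log (2 + d))) =
            2 * c * Real.log (2 + d) * T j + 2 * c * Real.log (2 + d) * T i := fun i j => by ring
        simp_rw [e1, Finset.sum_add_distrib, ← Finset.mul_sum, Finset.sum_const, Finset.card_univ,
          Fintype.card_fin, nsmul_eq_mul, ← Finset.mul_sum]
        push_cast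
        ring

theorem K2_support_neg (p : ℝ[X]) : (p.comp (-X)).support = p.support := by
  ext n
  rw [mem_support_iff, mem_support_iff]
  have : (p.comp (-X)).coeff n = p.coeff n * (-1) ^ n := by
    have e : (-X : ℝ[X]) = C (-1) * X := by simp
    rw [e, comp_C_mul_X_coeff]
  rw [this]
  simp

theorem K2_roots_card {p : ℝ[X]} (hp : p ≠ 0) : p.roots.toFinset.card ≤ 2 * p.support.card := by
  have hne : p.comp (-X) ≠ 0 := fun h => hp (comp_neg_X_eq_zero_iff.1 h)
  have h1 := SC.card_pos_roots hp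
  have h2 := SC.card_pos_roots hne
  rw [K2_support_neg] at h2
  have hsub : p.roots.toFinset ⊆ p.roots.toFinset.filter (0 < ·) ∪
      ((p.comp (-X)).roots.toFinset.filter (0 < ·)).image (fun x => -x) ∪ {0} := by
    intro x hx
    rw [Multiset.mem_toFinset, mem_roots hp] at hx
    rcases lt_trichotomy x 0 with h | h | h
    · apply Finset.mem_union_left
      apply Finset.mem_union_right
      rw [Finset.mem_image]
      refine ⟨-x, ?_, neg_neg x⟩
      rw [Finset.mem_filter, Multiset.mem_toFinset, mem_roots hne]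
      refine ⟨?_, by linarith⟩
      rw [IsRoot.def, eval_comp]
      simpa using hx
    · apply Finset.mem_union_right
      simp [h]
    · apply Finset.mem_union_left
      apply Finset.mem_union_left
      rw [Finset.mem_filter, Multiset.mem_toFinset, mem_roots hp]
      exact ⟨hx, h⟩
  have h3 := Finset.card_le_card hsub
  have h4 := Finset.card_union_le (p.roots.toFinset.filter (0 < ·) ∪
      ((p.comp (-X)).roots.toFinset.filter (0 < ·)).image (fun x => -x)) {0}
  have h5 := Finset.card_union_le (p.roots.toFinset.filter (0 < ·))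
      (((p.comp (-X)).roots.toFinset.filter (0 < ·)).image (fun x => -x))
  have h6 := Finset.card_image_le (s := (p.comp (-X)).roots.toFinset.filter (0 < ·))
    (f := fun x => -x)
  rw [Finset.card_singleton] at h4
  omega

/-- K2b. The common zeros. PROOF. `card_pos_roots` (SCMain) for `p` and `p.comp (-X)`, and the root `0`: at most `2 |p|_0` different roots; the roots of a product. -/
theorem roots_prod_card {m : ℕ} (f : Fin m → ℝ[X]) (hf : ∀ j, f j ≠ 0) :
    (∏ j, f j).roots.toFinset.card ≤ 2 * ∑ j, (f j).support.card := by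
  classical
  have hne : (∏ j, f j) ≠ 0 := Finset.prod_ne_zero_iff.2 fun j _ => hf j
  have hsub : (∏ j, f j).roots.toFinset ⊆ Finset.univ.biUnion fun j => (f j).roots.toFinset := by
    intro x hx
    rw [Multiset.mem_toFinset, mem_roots hne, IsRoot.def, eval_prod, Finset.prod_eq_zero_iff] at hx
    obtain ⟨j, hj, hx⟩ := hx
    rw [Finset.mem_biUnion]
    refine ⟨j, hj, ?_⟩
    rw [Multiset.mem_toFinset, mem_roots (hf j)]
    exact hx
  calc (∏ j, f j).roots.toFinset.card
      ≤ (Finset.univ.biUnion fun j => (f j).roots.toFinset).card := Finset.card_le_card hsub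
    _ ≤ ∑ j, (f j).roots.toFinset.card := Finset.card_biUnion_le
    _ ≤ ∑ j, 2 * (f j).support.card := Finset.sum_le_sum fun j _ => K2_roots_card (hf j)
    _ = 2 * ∑ j, (f j).support.card := by rw [Finset.mul_sum]

end Pool.Agent.MP_c11b14_lc.OP
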