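import Pool.Agent.Lib.MP_c11b14_lc.OP.K2

set_option autoImplicit false

namespace Pool.Agent.MP_c11b14_lc.OP

open Polynomial MeasureTheory
open scoped ENNReal

/-- `K ≥ 1/8`: half of the mass is in `[-2, 2]`. -/
theorem k2_lower {μ : Measure ℝ} [IsProbabilityMeasure μ] {K : ℝ}
    (hμ : μ ≤ ENNReal.ofReal K • (volume : Measure ℝ)) (h1 : ∫⁻ x, ENNReal.ofReal |x| ∂μ ≤ 1) :
    1 / 8 ≤ K := by
  have hm : (2 : ℝ≥0∞) * μ {x | (2 : ℝ≥0∞) ≤ ENNReal.ofReal |x|} ≤ 1 :=
    (mul_meas_ge_le_lintegral (by fun_prop) 2).trans h1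
  have hI : μ (Set.Icc (-2) 2) ≤ ENNReal.ofReal K * ENNReal.ofReal 4 := by
    calc μ (Set.Icc (-2) 2) ≤ (ENNReal.ofReal K • (volume : Measure ℝ)) (Set.Icc (-2) 2) := hμ _
      _ = ENNReal.ofReal K * ENNReal.ofReal 4 := by
        rw [Measure.smul_apply, Real.volume_Icc, smul_eq_mul]
        norm_num
  have hu : (Set.univ : Set ℝ) ⊆ Set.Icc (-2) 2 ∪ {x | (2 : ℝ≥0∞) ≤ ENNReal.ofReal |x|} := by
    intro x _
    by_cases hx : |x| ≤ 2
    · exact Or.inl (abs_le.1 hx)
    · right
      rw [not_le] at hx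
      have : ENNReal.ofReal 2 ≤ ENNReal.ofReal |x| := ENNReal.ofReal_le_ofReal hx.le
      simpa using this
  have h2 : (1 : ℝ≥0∞) ≤ ENNReal.ofReal K * ENNReal.ofReal 4 +
      μ {x | (2 : ℝ≥0∞) ≤ ENNReal.ofReal |x|} := by
    rw [← measure_univ (μ := μ)]
    exact (measure_mono hu).trans ((measure_union_le _ _).trans (add_le_add_left hI _))
  have h3 : (2 : ℝ≥0∞) ≤ ENNReal.ofReal (8 * max K 0 + 1) := by
    calc (2 : ℝ≥0∞) = 2 * 1 := (mul_one _).symm
      _ ≤ 2 * (ENNReal.ofReal K * ENNReal.ofReal 4 + μ {x | (2 : ℝ≥0∞) ≤ ENNReal.ofReal |x|}) :=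
        mul_le_mul_right h2 _
      _ = 2 * (ENNReal.ofReal K * ENNReal.ofReal 4) +
          2 * μ {x | (2 : ℝ≥0∞) ≤ ENNReal.ofReal |x|} := mul_add _ _ _
      _ ≤ 2 * (ENNReal.ofReal K * ENNReal.ofReal 4) + 1 := add_le_add_right hm _
      _ = ENNReal.ofReal (8 * max K 0 + 1) := by
        have hK : ENNReal.ofReal K = ENNReal.ofReal (max K 0) := by
          rcases le_total K 0 with h | h
          · rw [max_eq_right h, ENNReal.ofReal_of_nonpos h, ENNReal.ofReal_zero]
          · rw [max_eq_left h]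
        have h2' : (2 : ℝ≥0∞) = ENNReal.ofReal 2 := by simp
        rw [hK, ← ENNReal.ofReal_mul (le_max_right _ _), h2', ← ENNReal.ofReal_mul zero_le_two,
          ← ENNReal.ofReal_one, ← ENNReal.ofReal_add (by positivity) zero_le_one]
        congr 1
        ring
  have h4 : ENNReal.ofReal 2 ≤ ENNReal.ofReal (8 * max K 0 + 1) := by simpa using h3
  have h5 := (ENNReal.ofReal_le_ofReal_iff (by positivity)).1 h4
  rcases le_total K 0 with h | h
  · rw [max_eq_right h] at h5
    linarith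
  · rw [max_eq_left h] at h5
    linarith

/-- K2c. PROOF. `k = 0`: the polynomial is `0`. Let `v i = ∏_j f i j`. A root `x` of `P = ∑ λ_i v_i ≠ 0` is in some `dom v i` or a common zero of all `v i`, hence a root of `v 0` (`roots_prod_card`). `H = ∑_i H_i + 2T`
(`piece`); `pair_sum`; `2T ≤ 16 K T`: `K ≥ 1/8`, as `1 = μ(ℝ) ≤ μ([-2,2]) + 1/2 ≤ 4K + 1/2` (Markov). `log (2 + d) ≥ log 2`. -/
theorem average_tau : ∃ c : ℝ, 0 < c ∧ ∀ (k : ℕ) (m : Fin k → ℕ) (f : (i : Fin k) → Fin (m i) → ℝ[X])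
    (T d : ℕ), (∀ i j, f i j ≠ 0) → ∑ i, ∑ j, (f i j).support.card = T → (∀ i, (∏ j, f i j).natDegree ≤ d) →
    ∀ (μ : Fin k → Measure ℝ) (K : ℝ), (∀ i, IsProbabilityMeasure (μ i)) →
    (∀ i, μ i ≤ ENNReal.ofReal K • (volume : Measure ℝ)) → (∀ i, ∫⁻ x, ENNReal.ofReal |x| ∂(μ i) ≤ 1) →
    ∃ H : (Fin k → ℝ) → ℝ≥0∞, Measurable H ∧
      (∀ lm, (((∑ i, C (lm i) * ∏ j, f i j).roots.toFinset.card : ℕ) : ℝ≥0∞) ≤ H lm) ∧
      ∫⁻ lm, H lm ∂(Measure.pi μ) ≤ ENNReal.ofReal (c * K * k * T * Real.log (2 + d)) := by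
  obtain ⟨c, hc, hpair⟩ := pair_sum
  have hl2 : 0 < Real.log 2 := Real.log_pos one_lt_two
  refine ⟨c + 16 / Real.log 2, by positivity, ?_⟩
  intro k m f T d hf hT hd μ K hp hμ h1
  rcases Nat.eq_zero_or_pos k with rfl | hk
  · refine ⟨fun _ => 0, measurable_const, fun lm => by simp, by simp⟩
  have := hp
  set v : Fin k → ℝ[X] := fun i => ∏ j, f i j with hv
  have i0 : Fin k := ⟨0, hk⟩
  have hK : 1 / 8 ≤ K := k2_lower (hμ i0) (h1 i0)
  choose H hHm hH hHi using fun i => piece v i μ hμ h1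
  refine ⟨fun lm => (∑ i, H i lm) + (2 * T : ℕ), by fun_prop, ?_, ?_⟩
  · intro lm
    by_cases hP : (∑ i, C (lm i) * ∏ j, f i j) = 0
    · rw [hP]
      simp
    have heval : ∀ x : ℝ, (∑ i, C (lm i) * ∏ j, f i j).eval x = ∑ i, lm i * (v i).eval x := by
      intro x
      rw [eval_finsetSum]
      simp [hv]
    have hsub : (((∑ i, C (lm i) * ∏ j, f i j).roots.toFinset : Finset ℝ) : Set ℝ) ⊆
        (⋃ i, {x | x ∈ dom v i ∧ ∑ j, lm j * (v j).eval x = 0}) ∪
          ((∏ j, f i0 j).roots.toFinset : Finset ℝ) := by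
      intro x hx
      rw [Finset.mem_coe, Multiset.mem_toFinset, mem_roots hP, IsRoot.def, heval] at hx
      obtain ⟨i, -, hi⟩ := Finset.exists_max_image Finset.univ (fun i => |(v i).eval x|) ⟨i0, Finset.mem_univ _⟩
      by_cases h0 : (v i).eval x = 0
      · right
        rw [Finset.mem_coe, Multiset.mem_toFinset,
          mem_roots (Finset.prod_ne_zero_iff.2 fun j _ => hf i0 j), IsRoot.def]
        have := hi i0 (Finset.mem_univ _)
        rw [h0, abs_zero] at this
        exact abs_eq_zero.1 (le_antisymm this (abs_nonneg _))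
      · left
        exact Set.mem_iUnion.2 ⟨i, ⟨h0, fun j => hi j (Finset.mem_univ _)⟩, hx⟩
    have hcard : (∏ j, f i0 j).roots.toFinset.card ≤ 2 * T := by
      refine (roots_prod_card (f i0) (hf i0)).trans ?_
      rw [← hT]
      exact Nat.mul_le_mul_left 2
        (Finset.single_le_sum (f := fun i => ∑ j, (f i j).support.card) (fun _ _ => Nat.zero_le _)
          (Finset.mem_univ i0))
    calc (((∑ i, C (lm i) * ∏ j, f i j).roots.toFinset.card : ℕ) : ℝ≥0∞)
        = Measure.count (((∑ i, C (lm i) * ∏ j, f i j).roots.toFinset : Finset ℝ) : Set ℝ) :=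
          (Measure.count_apply_finset _).symm
      _ ≤ Measure.count (⋃ i, {x | x ∈ dom v i ∧ ∑ j, lm j * (v j).eval x = 0}) +
          Measure.count (((∏ j, f i0 j).roots.toFinset : Finset ℝ) : Set ℝ) :=
          (measure_mono hsub).trans (measure_union_le _ _)
      _ ≤ (∑ i, H i lm) + (2 * T : ℕ) := by
        refine add_le_add ?_ ?_
        · refine (measure_iUnion_le _).trans ?_
          rw [tsum_fintype]
          exact Finset.sum_le_sum fun i _ => hH i lm
        · rw [Measure.count_apply_finset]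
          exact_mod_cast hcard
  · rw [lintegral_add_right _ measurable_const, lintegral_finsetSum _ fun i _ => hHm i,
      lintegral_const, measure_univ, mul_one]
    have hK0 : 0 < K := lt_of_lt_of_le (by norm_num) hK
    have hlog : Real.log 2 ≤ Real.log (2 + d) :=
      Real.log_le_log two_pos (by have : (0 : ℝ) ≤ d := Nat.cast_nonneg d
                                  linarith)
    have hlog0 : 0 < Real.log (2 + d) := hl2.trans_le hlog
    have hA : ∑ i, ∫⁻ lm, H i lm ∂(Measure.pi μ) ≤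
        ENNReal.ofReal (K * (c * k * T * Real.log (2 + d))) := by
      calc ∑ i, ∫⁻ lm, H i lm ∂(Measure.pi μ)
          ≤ ∑ i, ENNReal.ofReal K * ∑ j, ∫⁻ x in dom v i,
            ENNReal.ofReal (|(wr (v j) (v i)).eval x| / (v i).eval x ^ 2) :=
            Finset.sum_le_sum fun i _ => hHi i
        _ = ENNReal.ofReal K * ∑ i, ∑ j, ∫⁻ x in dom v i,
            ENNReal.ofReal (|(wr (v j) (v i)).eval x| / (v i).eval x ^ 2) := by
            rw [Finset.mul_sum]
        _ ≤ ENNReal.ofReal K * ENNReal.ofReal (c * k * T * Real.log (2 + d)) := by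
            gcongr
            have := hpair k m f d hf hd
            rw [hT] at this
            exact this
        _ = _ := (ENNReal.ofReal_mul hK0.le).symm
    have hB : (((2 * T : ℕ)) : ℝ≥0∞) ≤ ENNReal.ofReal (16 / Real.log 2 * K * k * T * Real.log (2 + d)) := by
      rw [← ENNReal.ofReal_natCast]
      refine ENNReal.ofReal_le_ofReal ?_
      push_cast
      have hk1 : (1 : ℝ) ≤ k := by exact_mod_cast hk
      have hT0 : (0 : ℝ) ≤ T := Nat.cast_nonneg T
      have h16 : 2 ≤ 16 * K := by linarith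
      have h17 : 1 ≤ Real.log (2 + d) / Real.log 2 := by rwa [one_le_div hl2]
      have h18 : 1 ≤ (k : ℝ) * (Real.log (2 + d) / Real.log 2) := by nlinarith
      calc 2 * (T : ℝ) ≤ 16 * K * T := mul_le_mul_of_nonneg_right h16 hT0
        _ = 16 * K * T * 1 := (mul_one _).symm
        _ ≤ 16 * K * T * (k * (Real.log (2 + d) / Real.log 2)) :=
          mul_le_mul_of_nonneg_left h18 (by positivity)
        _ = _ := by field_simp
    refine (add_le_add hA hB).trans ?_
    rw [← ENNReal.ofReal_add (by positivity) (by positivity)]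
    refine ENNReal.ofReal_le_ofReal (le_of_eq ?_)
    ring

end Pool.Agent.MP_c11b14_lc.OP
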