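import Pool.Agent.Lib.MP_c11b14_lc.OP.K3

set_option autoImplicit false

/-! Task P1: sums of `k` powers `c_i f_i ^ α` in the mean over the coefficients `c_i`. -/

namespace Pool.Agent.MP_c11b14_lc.OP

open Polynomial MeasureTheory
open scoped ENNReal

theorem P1_support (f g : ℝ[X]) (r : ℝ) :
    (f + C r * g).support.card ≤ f.support.card + g.support.card := by
  have h1 : (f + C r * g).support ⊆ f.support ∪ g.support := by
    intro n hn
    rw [mem_support_iff, coeff_add, coeff_C_mul] at hn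
    rw [Finset.mem_union, mem_support_iff, mem_support_iff]
    by_contra hcon
    push Not at hcon
    exact hn (by rw [hcon.1, hcon.2, mul_zero, add_zero])
  exact (Finset.card_le_card h1).trans (Finset.card_union_le _ _)

theorem P1_wr (c : ℝ) (G : ℝ[X]) : wr (C c * G) G = 0 := by
  simp only [wr, derivative_mul, derivative_C, zero_mul, zero_add]
  ring

theorem P1_ne {f g : ℝ[X]} {α : ℕ} (hw : wr (f ^ α) (g ^ α) ≠ 0) (r : ℝ) : f + C r * g ≠ 0 := by
  intro h
  apply hw
  have h1 : f = C (-r) * g := by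
    rw [map_neg, neg_mul]
    exact eq_neg_of_add_eq_zero_left h
  rw [h1, mul_pow, ← C_pow]
  exact P1_wr _ _

/-- The roots of `f ^ α + y g ^ α` are roots of `f ± |y| ^ (1 / α) g`. -/
theorem P1_roots {f g : ℝ[X]} {α : ℕ} (hw : wr (f ^ α) (g ^ α) ≠ 0) (y : ℝ) :
    (f ^ α + C y * g ^ α).roots.toFinset.card ≤ 4 * (f.support.card + g.support.card) := by
  classical
  have hα : α ≠ 0 := by
    rintro rfl
    apply hw
    simp [wr]
  obtain ⟨r, hr0, hr⟩ : ∃ r : ℝ, 0 ≤ r ∧ r ^ α = |y| :=
    ⟨|y| ^ ((α : ℝ)⁻¹), by positivity, Real.rpow_inv_natCast_pow (abs_nonneg y) hα⟩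
  by_cases hP : f ^ α + C y * g ^ α = 0
  · rw [hP]
    simp
  have hsub : (f ^ α + C y * g ^ α).roots.toFinset ⊆
      (f + C r * g).roots.toFinset ∪ (f + C (-r) * g).roots.toFinset := by
    intro x hx
    rw [Multiset.mem_toFinset, mem_roots hP, IsRoot.def] at hx
    simp only [eval_add, eval_mul, eval_C, eval_pow] at hx
    have h1 : |f.eval x| ^ α = (r * |g.eval x|) ^ α := by
      rw [mul_pow, hr, ← abs_pow, ← abs_pow, ← abs_mul, eq_neg_of_add_eq_zero_left hx, abs_neg]
    have h2 : |f.eval x| = |r * g.eval x| := by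
      rw [abs_mul, abs_of_nonneg hr0]
      exact (pow_left_inj₀ (abs_nonneg _) (by positivity) hα).1 h1
    rw [Finset.mem_union, Multiset.mem_toFinset, Multiset.mem_toFinset, mem_roots (P1_ne hw r),
      mem_roots (P1_ne hw (-r)), IsRoot.def, IsRoot.def]
    simp only [eval_add, eval_mul, eval_C]
    rcases abs_eq_abs.1 h2 with h3 | h3
    · right
      rw [h3]
      ring
    · left
      rw [h3]
      ring
  have e1 := K2_roots_card (P1_ne hw r)
  have e2 := K2_roots_card (P1_ne hw (-r))
  have e3 := P1_support f g r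
  have e4 := P1_support f g (-r)
  have e5 := Finset.card_le_card hsub
  have e6 := Finset.card_union_le (f + C r * g).roots.toFinset (f + C (-r) * g).roots.toFinset
  omega

theorem P1_pi : ∫⁻ y : ℝ, ENNReal.ofReal (1 / (1 + y ^ 2)) ≤ ENNReal.ofReal 4 := by
  have h1 : ∫⁻ y : ℝ, ENNReal.ofReal (1 / (1 + y ^ 2)) = ENNReal.ofReal Real.pi := by
    rw [← integral_univ_inv_one_add_sq, ofReal_integral_eq_lintegral_ofReal
      integrable_inv_one_add_sq (Filter.Eventually.of_forall fun x => by positivity)]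
    simp only [one_div]
  rw [h1]
  exact ENNReal.ofReal_le_ofReal Real.pi_le_four

/-- The length of the curve `[f ^ α : g ^ α]`. -/
theorem P1_length (f g : ℝ[X]) (hg : g ≠ 0) (α : ℕ) :
    ∫⁻ x : ℝ, ENNReal.ofReal (|(wr (f ^ α) (g ^ α)).eval x| /
        ((f ^ α).eval x ^ 2 + (g ^ α).eval x ^ 2)) ≤
      ENNReal.ofReal (16 * ((f.support.card : ℝ) + g.support.card)) := by
  by_cases hw : wr (f ^ α) (g ^ α) = 0
  · rw [hw]
    simp
  refine (H2_pair (pow_ne_zero α hg) hw
    (H := fun _ => ((4 * (f.support.card + g.support.card) : ℕ) : ℝ≥0∞)) measurable_const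
    (Filter.Eventually.of_forall fun y => by exact_mod_cast P1_roots hw y)).trans ?_
  rw [lintegral_mul_const _ (by fun_prop)]
  refine (mul_le_mul_left P1_pi _).trans ?_
  rw [← ENNReal.ofReal_natCast, ← ENNReal.ofReal_mul (by norm_num)]
  refine ENNReal.ofReal_le_ofReal (le_of_eq ?_)
  push_cast
  ring

/-- The sum over all pairs. -/
theorem P1_pairs {k : ℕ} (f : Fin k → ℝ[X]) (hf : ∀ i, f i ≠ 0) (α : ℕ) :
    ∑ i, ∑ j, ∫⁻ x in dom (fun i => f i ^ α) i, ENNReal.ofReal
      (|(wr (f j ^ α) (f i ^ α)).eval x| / (f i ^ α).eval x ^ 2) ≤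
    ENNReal.ofReal (64 * k * (∑ i, (f i).support.card : ℕ)) := by
  have hnn : ∀ i j : Fin k, 0 ≤ 2 * (16 * (((f j).support.card : ℝ) + (f i).support.card)) :=
    fun i j => by positivity
  have h1 : ∀ i j, ∫⁻ x in dom (fun i => f i ^ α) i, ENNReal.ofReal
      (|(wr (f j ^ α) (f i ^ α)).eval x| / (f i ^ α).eval x ^ 2) ≤
      ENNReal.ofReal (2 * (16 * (((f j).support.card : ℝ) + (f i).support.card))) := by
    intro i j
    have hm : Measurable (fun x : ℝ => ENNReal.ofReal (2 *
        (|(wr (f j ^ α) (f i ^ α)).eval x| /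
        ((f j ^ α).eval x ^ 2 + (f i ^ α).eval x ^ 2)))) := by
      apply ENNReal.measurable_ofReal.comp
      apply Measurable.const_mul
      apply Measurable.div
      · exact ((wr (f j ^ α) (f i ^ α)).continuous.measurable).abs
      · exact (((f j ^ α).continuous.pow 2).add ((f i ^ α).continuous.pow 2)).measurable
    calc ∫⁻ x in dom (fun i => f i ^ α) i, ENNReal.ofReal
          (|(wr (f j ^ α) (f i ^ α)).eval x| / (f i ^ α).eval x ^ 2)
        ≤ ∫⁻ x in dom (fun i => f i ^ α) i, ENNReal.ofReal (2 *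
          (|(wr (f j ^ α) (f i ^ α)).eval x| /
          ((f j ^ α).eval x ^ 2 + (f i ^ α).eval x ^ 2))) := by
          apply setLIntegral_mono hm
          intro x hx
          apply ENNReal.ofReal_le_ofReal
          obtain ⟨hx0, hx1⟩ := hx
          have hj := hx1 j
          simp only at hx0 hj
          have h2 : (f j ^ α).eval x ^ 2 ≤ (f i ^ α).eval x ^ 2 := sq_le_sq.2 hj
          have h3 : 0 < (f i ^ α).eval x ^ 2 := by positivity
          have h4 : 0 ≤ |(wr (f j ^ α) (f i ^ α)).eval x| := abs_nonneg _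
          have h5 : 0 ≤ (f j ^ α).eval x ^ 2 := sq_nonneg _
          rw [← mul_div_assoc, div_le_div_iff₀ h3 (by linarith)]
          nlinarith
      _ ≤ ∫⁻ x, ENNReal.ofReal (2 *
          (|(wr (f j ^ α) (f i ^ α)).eval x| /
          ((f j ^ α).eval x ^ 2 + (f i ^ α).eval x ^ 2))) := setLIntegral_le_lintegral _ _
      _ = 2 * ∫⁻ x, ENNReal.ofReal
          (|(wr (f j ^ α) (f i ^ α)).eval x| /
          ((f j ^ α).eval x ^ 2 + (f i ^ α).eval x ^ 2)) := by
          simp_rw [ENNReal.ofReal_mul (by norm_num : (0 : ℝ) ≤ 2)]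
          rw [lintegral_const_mul' _ _ ENNReal.ofReal_ne_top]
          norm_num
      _ ≤ 2 * ENNReal.ofReal (16 * (((f j).support.card : ℝ) + (f i).support.card)) :=
          mul_le_mul_right (P1_length (f j) (f i) (hf i) α) 2
      _ = ENNReal.ofReal (2 * (16 * (((f j).support.card : ℝ) + (f i).support.card))) := by
          rw [ENNReal.ofReal_mul (by norm_num : (0 : ℝ) ≤ 2)]
          norm_num
  calc _ ≤ ∑ i, ∑ j, ENNReal.ofReal (2 * (16 * (((f j).support.card : ℝ) + (f i).support.card))) :=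
        Finset.sum_le_sum fun i _ => Finset.sum_le_sum fun j _ => h1 i j
    _ = ENNReal.ofReal (∑ i, ∑ j, (2 * (16 * (((f j).support.card : ℝ) + (f i).support.card)))) := by
        rw [ENNReal.ofReal_sum_of_nonneg fun i _ => Finset.sum_nonneg fun j _ => hnn i j]
        refine Finset.sum_congr rfl fun i _ => ?_
        rw [ENNReal.ofReal_sum_of_nonneg fun j _ => hnn i j]
    _ ≤ ENNReal.ofReal (64 * k * (∑ i, (f i).support.card : ℕ)) := by
        apply ENNReal.ofReal_le_ofReal
        apply le_of_eq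
        have e1 : ∀ i j : Fin k, (2 * (16 * (((f j).support.card : ℝ) + (f i).support.card))) =
            32 * ((f j).support.card : ℝ) + 32 * ((f i).support.card : ℝ) := fun i j => by ring
        simp_rw [e1, Finset.sum_add_distrib, ← Finset.mul_sum, Finset.sum_const, Finset.card_univ,
          Fintype.card_fin, nsmul_eq_mul, ← Finset.mul_sum]
        push_cast
        ring

/-- Sums of `k` powers in the mean over the coefficients. PROOF. As `OP.average_tau`: `piece` for
`v i = f i ^ α`, the pairs from `P1_pairs`, the common zeros are roots of `f 0`, and `K ≥ 1/8`. -/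
theorem average_pow (k α : ℕ) (f : Fin k → ℝ[X]) (hf : ∀ i, f i ≠ 0) (μ : Fin k → Measure ℝ)
    (K : ℝ) (hp : ∀ i, IsProbabilityMeasure (μ i))
    (hμ : ∀ i, μ i ≤ ENNReal.ofReal K • (volume : Measure ℝ))
    (h1 : ∀ i, ∫⁻ x, ENNReal.ofReal |x| ∂(μ i) ≤ 1) :
    ∃ H : (Fin k → ℝ) → ℝ≥0∞, Measurable H ∧
      (∀ c, (((∑ i, C (c i) * f i ^ α).roots.toFinset.card : ℕ) : ℝ≥0∞) ≤ H c) ∧
      ∫⁻ c, H c ∂(Measure.pi μ) ≤
        ENNReal.ofReal (80 * K * k * (∑ i, (f i).support.card : ℕ)) := by
  rcases Nat.eq_zero_or_pos k with rfl | hk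
  · refine ⟨fun _ => 0, measurable_const, fun lm => by simp, by simp⟩
  have := hp
  set v : Fin k → ℝ[X] := fun i => f i ^ α with hv
  obtain ⟨T, hT⟩ : ∃ T : ℕ, T = ∑ i, (f i).support.card := ⟨_, rfl⟩
  have i0 : Fin k := ⟨0, hk⟩
  have hK : 1 / 8 ≤ K := k2_lower (hμ i0) (h1 i0)
  have hv0 : ∀ i, v i ≠ 0 := fun i => pow_ne_zero α (hf i)
  choose H hHm hH hHi using fun i => piece v i μ hμ h1
  refine ⟨fun lm => (∑ i, H i lm) + (2 * T : ℕ), by fun_prop, ?_, ?_⟩
  · intro lm
    by_cases hP : (∑ i, C (lm i) * f i ^ α) = 0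
    · rw [hP]
      simp
    have heval : ∀ x : ℝ, (∑ i, C (lm i) * f i ^ α).eval x = ∑ i, lm i * (v i).eval x := by
      intro x
      rw [eval_finsetSum]
      simp [hv]
    have hsub : (((∑ i, C (lm i) * f i ^ α).roots.toFinset : Finset ℝ) : Set ℝ) ⊆
        (⋃ i, {x | x ∈ dom v i ∧ ∑ j, lm j * (v j).eval x = 0}) ∪
          ((f i0).roots.toFinset : Finset ℝ) := by
      intro x hx
      rw [Finset.mem_coe, Multiset.mem_toFinset, mem_roots hP, IsRoot.def, heval] at hx
      obtain ⟨i, -, hi⟩ := Finset.exists_max_image Finset.univ (fun i => |(v i).eval x|)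
        ⟨i0, Finset.mem_univ _⟩
      by_cases h0 : (v i).eval x = 0
      · right
        rw [Finset.mem_coe, Multiset.mem_toFinset, mem_roots (hf i0), IsRoot.def]
        have h2 := hi i0 (Finset.mem_univ _)
        rw [h0, abs_zero] at h2
        have h3 : (v i0).eval x = 0 := abs_eq_zero.1 (le_antisymm h2 (abs_nonneg _))
        simp only [hv, eval_pow] at h3
        by_contra h4
        exact pow_ne_zero α h4 h3
      · left
        exact Set.mem_iUnion.2 ⟨i, ⟨h0, fun j => hi j (Finset.mem_univ _)⟩, hx⟩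
    have hcard : (f i0).roots.toFinset.card ≤ 2 * T := by
      refine (K2_roots_card (hf i0)).trans ?_
      rw [hT]
      exact Nat.mul_le_mul_left 2
        (Finset.single_le_sum (f := fun i => (f i).support.card) (fun _ _ => Nat.zero_le _)
          (Finset.mem_univ i0))
    calc (((∑ i, C (lm i) * f i ^ α).roots.toFinset.card : ℕ) : ℝ≥0∞)
        = Measure.count (((∑ i, C (lm i) * f i ^ α).roots.toFinset : Finset ℝ) : Set ℝ) :=
          (Measure.count_apply_finset _).symm
      _ ≤ Measure.count (⋃ i, {x | x ∈ dom v i ∧ ∑ j, lm j * (v j).eval x = 0}) +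
          Measure.count (((f i0).roots.toFinset : Finset ℝ) : Set ℝ) :=
          (measure_mono hsub).trans (measure_union_le _ _)
      _ ≤ (∑ i, H i lm) + (2 * T : ℕ) := by
        refine add_le_add ?_ ?_
        · refine (measure_iUnion_le _).trans ?_
          rw [tsum_fintype]
          exact Finset.sum_le_sum fun i _ => hH i lm
        · rw [Measure.count_apply_finset]
          exact_mod_cast hcard
  · rw [lintegral_add_right _ measurable_const, lintegral_finsetSum _ fun i _ => hHm i,
      lintegral_const, measure_univ, mul_one, ← hT]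
    have hK0 : 0 < K := lt_of_lt_of_le (by norm_num) hK
    have hA : ∑ i, ∫⁻ lm, H i lm ∂(Measure.pi μ) ≤ ENNReal.ofReal (K * (64 * k * T)) := by
      calc ∑ i, ∫⁻ lm, H i lm ∂(Measure.pi μ)
          ≤ ∑ i, ENNReal.ofReal K * ∑ j, ∫⁻ x in dom v i,
            ENNReal.ofReal (|(wr (v j) (v i)).eval x| / (v i).eval x ^ 2) :=
            Finset.sum_le_sum fun i _ => hHi i
        _ = ENNReal.ofReal K * ∑ i, ∑ j, ∫⁻ x in dom v i,
            ENNReal.ofReal (|(wr (v j) (v i)).eval x| / (v i).eval x ^ 2) := by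
            rw [Finset.mul_sum]
        _ ≤ ENNReal.ofReal K * ENNReal.ofReal (64 * k * T) := by
            gcongr
            have h5 := P1_pairs f hf α
            rw [← hT] at h5
            exact h5
        _ = _ := (ENNReal.ofReal_mul hK0.le).symm
    have hB : (((2 * T : ℕ)) : ℝ≥0∞) ≤ ENNReal.ofReal (16 * K * k * T) := by
      rw [← ENNReal.ofReal_natCast]
      refine ENNReal.ofReal_le_ofReal ?_
      push_cast
      have hk1 : (1 : ℝ) ≤ k := by exact_mod_cast hk
      have hT0 : (0 : ℝ) ≤ T := Nat.cast_nonneg T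
      have h16 : 2 ≤ 16 * K := by linarith
      have h17 : 2 ≤ 16 * K * k := by nlinarith
      exact mul_le_mul_of_nonneg_right h17 hT0
    refine (add_le_add hA hB).trans ?_
    rw [← ENNReal.ofReal_add (by positivity) (by positivity)]
    refine ENNReal.ofReal_le_ofReal (le_of_eq ?_)
    ring

end Pool.Agent.MP_c11b14_lc.OP
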