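import Pool.Agent.Lib.MP_c11b14_lc.OP.K3

set_option autoImplicit false

/-! The parts of the final theorem. -/

namespace Pool.Agent.MP_c11b14_lc.OP

open Polynomial MeasureTheory
open scoped ENNReal

theorem Maj.everywhere {f : ℝ → ℝ≥0∞} {B : ℝ≥0∞} (h : Maj f B) : ∃ H : ℝ → ℝ≥0∞, Measurable H ∧
    (∀ c, f c ≤ H c) ∧ ∫⁻ c in Set.Icc (1 : ℝ) 2, H c ≤ B := by
  classical
  obtain ⟨H, hm, hf, hi⟩ := h
  set S : Set ℝ := toMeasurable (volume.restrict (Set.Icc (1 : ℝ) 2)) {c | ¬ f c ≤ H c} with hS
  have hS0 : (volume.restrict (Set.Icc (1 : ℝ) 2)) S = 0 := by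
    rw [hS, measure_toMeasurable]
    exact hf
  have hSm : MeasurableSet S := measurableSet_toMeasurable _ _
  refine ⟨fun c => if c ∈ S then ⊤ else H c, Measurable.ite hSm measurable_const hm, ?_, ?_⟩
  · intro c
    by_cases hc : c ∈ S
    · simp [hc]
    · simp only [hc, if_false]
      by_contra h2
      exact hc (subset_toMeasurable _ _ h2)
  · refine le_trans (le_of_eq ?_) hi
    refine lintegral_congr_ae ?_
    have : ∀ᵐ c ∂(volume.restrict (Set.Icc (1 : ℝ) 2)), c ∉ S := by
      rw [ae_iff]
      simpa using hS0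
    filter_upwards [this] with c hc
    simp [hc]

theorem log_ge {d T : ℕ} : Real.log 2 ≤ Real.log (2 + (d : ℝ) / T) := by
  refine Real.log_le_log (by norm_num) ?_
  have : (0 : ℝ) ≤ (d : ℝ) / T := by positivity
  linarith

/-- A. -/
theorem part_A : ∃ c : ℝ, 0 < c ∧ ∀ (m n : ℕ) (f : Fin m → ℝ[X]) (g : Fin n → ℝ[X]) (T d : ℕ),
    (∀ i, f i ≠ 0) → (∀ j, g j ≠ 0) → ∑ i, (f i).support.card + ∑ j, (g j).support.card = T →
    (∏ i, f i).natDegree ≤ d → (∏ j, g j).natDegree ≤ d → ∀ a : ℝ,
    Maj (fun c => ((((∏ i, f i) + C (a * c) * ∏ j, g j).roots.toFinset.card : ℕ) : ℝ≥0∞))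
      (ENNReal.ofReal (c * T * Real.log (2 + (d : ℝ) / T))) := by
  obtain ⟨c, hc, h⟩ := one_parameter
  have hl2 : 0 < Real.log 2 := Real.log_pos one_lt_two
  refine ⟨2 * c + 2 / Real.log 2, by positivity, ?_⟩
  intro m n f g T d hf hg hT hdf hdg a
  rcases Nat.eq_zero_or_pos T with h0 | h0
  · have hm : m = 0 := by
      by_contra hm
      have i0 : Fin m := ⟨0, Nat.pos_of_ne_zero hm⟩
      have h1 : (f i0).support.card ≤ ∑ i, (f i).support.card :=
        Finset.single_le_sum (f := fun i => (f i).support.card) (fun _ _ => Nat.zero_le _)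
          (Finset.mem_univ i0)
      have h2 : 0 < (f i0).support.card :=
        Finset.card_pos.2 (Polynomial.nonempty_support_iff.2 (hf i0))
      omega
    have hn : n = 0 := by
      by_contra hn
      have i0 : Fin n := ⟨0, Nat.pos_of_ne_zero hn⟩
      have h1 : (g i0).support.card ≤ ∑ i, (g i).support.card :=
        Finset.single_le_sum (f := fun i => (g i).support.card) (fun _ _ => Nat.zero_le _)
          (Finset.mem_univ i0)
      have h2 : 0 < (g i0).support.card :=
        Finset.card_pos.2 (Polynomial.nonempty_support_iff.2 (hg i0))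
      omega
    subst hm hn
    refine (Maj.const 0).mono' ?_ bot_le
    intro lm _ _
    have : (∏ i, f i) + C (a * lm) * ∏ j, g j = C (1 + a * lm) := by
      simp
    rw [this, Polynomial.roots_C]
    simp
  have hT0 : (1 : ℝ) ≤ T := by exact_mod_cast h0
  have hlog := log_ge (d := d) (T := T)
  rcases eq_or_ne a 0 with ha | ha
  · subst ha
    refine (Maj.const (2 * T : ℕ)).mono' ?_ ?_
    · intro lm _ _
      have h1 : (∏ i, f i) + C (0 * lm) * ∏ j, g j = ∏ i, f i := by simp
      rw [h1]
      have h2 := roots_prod_card f hf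
      have h3 : ∑ i, (f i).support.card ≤ T := by omega
      exact_mod_cast h2.trans (Nat.mul_le_mul_left 2 h3)
    · rw [← ENNReal.ofReal_natCast]
      refine ENNReal.ofReal_le_ofReal ?_
      push_cast
      have h4 : (2 : ℝ) * T = 2 / Real.log 2 * T * Real.log 2 := by field_simp
      have h5 : 2 / Real.log 2 * T * Real.log 2 ≤ 2 / Real.log 2 * T * Real.log (2 + (d : ℝ) / T) :=
        mul_le_mul_of_nonneg_left hlog (by positivity)
      have h6 : 0 ≤ 2 * c * T * Real.log (2 + (d : ℝ) / T) :=
        mul_nonneg (by positivity) (by linarith)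
      nlinarith
  · have h1 := h m (n + 1) f (Fin.cons (C a) g) (T + 1) d hf ?_ ?_ (by omega) hdf ?_
    · refine h1.mono' ?_ (ENNReal.ofReal_le_ofReal ?_)
      · intro lm _ _
        have h2 : (∏ i, f i) + C (a * lm) * ∏ j, g j =
            (∏ i, f i) + C lm * ∏ j, (Fin.cons (C a) g : Fin (n + 1) → ℝ[X]) j := by
          rw [Fin.prod_univ_succ]
          simp only [Fin.cons_zero, Fin.cons_succ]
          rw [C_mul]
          ring
        rw [h2]
      · have h2 : Real.log (2 + (d : ℝ) / ((T + 1 : ℕ) : ℝ)) ≤ Real.log (2 + (d : ℝ) / T) := by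
          refine Real.log_le_log (by positivity) ?_
          have : (d : ℝ) / ((T + 1 : ℕ) : ℝ) ≤ (d : ℝ) / T := by
            refine div_le_div_of_nonneg_left (by positivity) (by linarith) ?_
            push_cast
            linarith
          linarith
        have h3 : (0 : ℝ) ≤ Real.log (2 + (d : ℝ) / ((T + 1 : ℕ) : ℝ)) :=
          Real.log_nonneg (by
            have : (0 : ℝ) ≤ (d : ℝ) / ((T + 1 : ℕ) : ℝ) := by positivity
            linarith)
        calc c * ((T + 1 : ℕ) : ℝ) * Real.log (2 + (d : ℝ) / ((T + 1 : ℕ) : ℝ))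
            ≤ c * (2 * T) * Real.log (2 + (d : ℝ) / T) := by
              refine mul_le_mul ?_ h2 h3 (by positivity)
              refine mul_le_mul_of_nonneg_left ?_ hc.le
              push_cast
              linarith
          _ ≤ (2 * c + 2 / Real.log 2) * T * Real.log (2 + (d : ℝ) / T) := by
              have h7 : 0 ≤ 2 / Real.log 2 * T * Real.log (2 + (d : ℝ) / T) :=
                mul_nonneg (by positivity) (by linarith)
              nlinarith
    · intro j
      refine Fin.cases ?_ (fun j => ?_) j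
      · simpa using ha
      · simpa using hg j
    · rw [Fin.sum_univ_succ]
      simp only [Fin.cons_zero, Fin.cons_succ]
      rw [Polynomial.support_C ha, Finset.card_singleton]
      omega
    · rw [Fin.prod_univ_succ]
      simp only [Fin.cons_zero, Fin.cons_succ]
      rw [Polynomial.natDegree_C_mul ha]
      exact hdg

/-- Sign alternations give roots. -/
theorem le_card_roots {p : ℝ[X]} {N : ℕ} {x : ℕ → ℝ} (hx : ∀ k < N, x k < x (k + 1))
    (halt : ∀ k < N, p.eval (x k) * p.eval (x (k + 1)) < 0) : N ≤ p.roots.toFinset.card := by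
  classical
  rcases Nat.eq_zero_or_pos N with h0 | h0
  · omega
  have hp0 : p ≠ 0 := by
    rintro rfl
    have := halt 0 h0
    simp at this
  have hroot : ∀ k < N, ∃ r ∈ Set.Ioo (x k) (x (k + 1)), p.eval r = 0 := by
    intro k hk
    have h1 := halt k hk
    have hc : ContinuousOn (fun y => p.eval y) (Set.Icc (x k) (x (k + 1))) :=
      p.continuous.continuousOn
    rcases mul_neg_iff.1 h1 with ⟨ha, hb⟩ | ⟨ha, hb⟩
    · exact intermediate_value_Ioo' (hx k hk).le hc ⟨hb, ha⟩
    · exact intermediate_value_Ioo (hx k hk).le hc ⟨ha, hb⟩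
  choose! r hr hr0 using hroot
  have hmono : ∀ k l, k < l → l < N → r k < r l := by
    intro k l hkl
    induction l with
    | zero => omega
    | succ l ih =>
      intro hl
      have h1 : r l < r (l + 1) := ((hr l (by omega)).2).trans (hr (l + 1) hl).1
      rcases Nat.lt_succ_iff_lt_or_eq.1 hkl with h | h
      · exact (ih h (by omega)).trans h1
      · rwa [h]
  have hcard : N = (Finset.range N).card := (Finset.card_range N).symm
  rw [hcard]
  refine Finset.card_le_card_of_injOn r ?_ ?_
  · intro k hk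
    have hk' : k < N := by simpa using hk
    rw [Finset.mem_coe, Multiset.mem_toFinset, mem_roots hp0]
    exact hr0 k hk'
  · intro k hk l hl hkl
    have hk' : k < N := by simpa using hk
    have hl' : l < N := by simpa using hl
    rcases lt_trichotomy k l with h | h | h
    · exact absurd hkl (hmono k l h hl').ne
    · exact h
    · exact absurd hkl (hmono l k h hk').ne'

/-- D. -/
theorem part_D {F G : ℝ[X]} {B : ℝ} (hB : 0 ≤ B)
    (h : Maj (fun c => (((F + C c * G).roots.toFinset.card : ℕ) : ℝ≥0∞)) (ENNReal.ofReal B))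
    {ε : ℝ} {N : ℕ} {x : ℕ → ℝ} (hε : 0 < ε) (hε1 : ε ≤ 1) (hx : ∀ i < N, x i < x (i + 1))
    (hs : ∀ i ≤ N, 0 < G.eval (x i) ∧ ε * G.eval (x i) ≤ (-1) ^ i * (F.eval (x i) + G.eval (x i))) :
    ε * N ≤ B := by
  obtain ⟨H, hm, hf, hi⟩ := h.everywhere
  have h1 : ∀ c ∈ Set.Ico (1 : ℝ) (1 + ε), (N : ℝ≥0∞) ≤ H c := by
    intro c hc
    refine le_trans ?_ (hf c)
    have h2 : N ≤ (F + C c * G).roots.toFinset.card := by
      have hsg : ∀ i ≤ N, 0 < (-1) ^ i * (F + C c * G).eval (x i) := by
        intro i hi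
        obtain ⟨hG, h3⟩ := hs i hi
        have h4 : (F + C c * G).eval (x i) = (F.eval (x i) + G.eval (x i)) + (c - 1) * G.eval (x i) := by
          simp
          ring
        have h5 : |(-1 : ℝ) ^ i * ((c - 1) * G.eval (x i))| < ε * G.eval (x i) := by
          rw [abs_mul, abs_pow, abs_neg, abs_one, one_pow, one_mul, abs_mul, abs_of_pos hG,
            abs_of_nonneg (by linarith [hc.1])]
          exact mul_lt_mul_of_pos_right (by linarith [hc.2]) hG
        have h6 := (abs_lt.1 h5).1
        rw [h4, mul_add]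
        linarith
      refine le_card_roots hx ?_
      intro k hk
      have h3 := hsg k hk.le
      have h4 := hsg (k + 1) hk
      have h5 : (-1 : ℝ) ^ k * (-1) ^ (k + 1) = -1 := by
        rw [← pow_add, show k + (k + 1) = 2 * k + 1 by ring, pow_succ, pow_mul]
        norm_num
      have h6 := mul_pos h3 h4
      have h7 : (-1 : ℝ) ^ k * (F + C c * G).eval (x k) * ((-1) ^ (k + 1) * (F + C c * G).eval (x (k + 1))) =
          ((-1) ^ k * (-1) ^ (k + 1)) * ((F + C c * G).eval (x k) * (F + C c * G).eval (x (k + 1))) := by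
        ring
      rw [h7, h5] at h6
      linarith
    exact_mod_cast h2
  have h2 : ENNReal.ofReal (ε * N) ≤ ENNReal.ofReal B := by
    calc ENNReal.ofReal (ε * N) = ∫⁻ _ in Set.Ico (1 : ℝ) (1 + ε), (N : ℝ≥0∞) := by
          rw [setLIntegral_const, Real.volume_Ico, mul_comm ε, ENNReal.ofReal_mul (by positivity),
            ENNReal.ofReal_natCast]
          congr 2
          ring
      _ ≤ ∫⁻ c in Set.Ico (1 : ℝ) (1 + ε), H c :=
          setLIntegral_mono hm h1
      _ ≤ ∫⁻ c in Set.Icc (1 : ℝ) 2, H c :=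
          lintegral_mono_set (fun c hc => ⟨hc.1, by linarith [hc.2]⟩)
      _ ≤ _ := hi
  exact (ENNReal.ofReal_le_ofReal_iff hB).1 h2

end Pool.Agent.MP_c11b14_lc.OP
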